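import Pool.Agent.H461.PP.Stm

/-!
Project PP (helper461), task N1: pure arithmetic and analysis.
-/

open Polynomial
open scoped Classical

noncomputable section

namespace PP

open DH

namespace XN1

theorem nn (M : ℕ) : 3 * NN M ≤ 2 * M + 2 := by
  unfold NN
  omega

/-- the sums of `(x+1)^k r^x` are bounded for `0 < r < 1` -/
theorem bdd (k : ℕ) {r : ℝ} (h0 : 0 < r) (h1 : r < 1) :
    ∃ C : ℝ, 0 < C ∧ ∀ N : ℕ, ∑ x ∈ Finset.range N, ((x : ℝ) + 1) ^ k * r ^ x ≤ C := by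
  have h2 : Summable (fun n : ℕ => (n : ℝ) ^ k * r ^ n) := by
    refine summable_pow_mul_geometric_of_norm_lt_one k ?_
    rw [Real.norm_eq_abs, abs_of_pos h0]
    exact h1
  have h3 : Summable (fun n : ℕ => ((n : ℝ) + 1) ^ k * r ^ n) := by
    have h4 := ((summable_nat_add_iff 1).mpr h2).mul_left r⁻¹
    refine h4.congr fun n => ?_
    push_cast
    rw [pow_succ]
    field_simp
  have h5 : ∀ n : ℕ, 0 ≤ ((n : ℝ) + 1) ^ k * r ^ n := fun n => by positivity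
  refine ⟨∑' n : ℕ, ((n : ℝ) + 1) ^ k * r ^ n + 1, ?_, fun N => ?_⟩
  · have h6 : 0 ≤ ∑' n : ℕ, ((n : ℝ) + 1) ^ k * r ^ n := tsum_nonneg h5
    linarith
  · have := h3.sum_le_tsum (Finset.range N) (fun n _ => h5 n)
    linarith

theorem root {t : ℕ} (ht : t ≠ 0) {a : ℝ} (h0 : 0 < a) (h1 : a < 1) :
    ∃ r : ℝ, 0 < r ∧ r < 1 ∧ r ^ t = a := by
  have htR : (0 : ℝ) < t := by exact_mod_cast Nat.pos_of_ne_zero ht
  refine ⟨a ^ ((t : ℝ)⁻¹), Real.rpow_pos_of_pos h0 _, Real.rpow_lt_one h0.le h1 (by positivity), ?_⟩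
  exact Real.rpow_inv_natCast_pow h0.le ht

theorem two (q : ℕ) (hq : 2 ≤ q) : ∃ Cst : ℝ, 0 < Cst ∧ ∀ N : ℕ,
    ∑ x ∈ Finset.range N, ((x : ℝ) + 1) ^ 2 / (q : ℝ) ^ (x / 256) ≤ Cst := by
  have hqR : (2 : ℝ) ≤ q := by exact_mod_cast hq
  obtain ⟨r, hr0, hr1, hr⟩ := root (t := 256) (by norm_num) (a := 1 / (q : ℝ)) (by positivity)
    (by rw [div_lt_one (by positivity)]; linarith)
  obtain ⟨C, hC, hb⟩ := bdd 2 hr0 hr1
  refine ⟨q * C, by positivity, fun N => ?_⟩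
  refine le_trans ?_ (mul_le_mul_of_nonneg_left (hb N) (by positivity : (0 : ℝ) ≤ q))
  rw [Finset.mul_sum]
  refine Finset.sum_le_sum fun x _ => ?_
  have h1 : (1 : ℝ) / (q : ℝ) ^ (x / 256) ≤ q * r ^ x := by
    have h2 : r ^ x = (1 / (q : ℝ)) ^ (x / 256) * r ^ (x % 256) := by
      rw [← hr, ← pow_mul, ← pow_add, Nat.div_add_mod]
    have h3 : 1 / (q : ℝ) ≤ r ^ (x % 256) := by
      rw [← hr]
      exact pow_le_pow_of_le_one hr0.le hr1.le (Nat.mod_lt _ (by norm_num)).le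
    rw [h2, ← one_div_pow]
    have h4 : 0 ≤ (1 / (q : ℝ)) ^ (x / 256) := by positivity
    have h5 : (1 : ℝ) ≤ q * r ^ (x % 256) := by
      calc (1 : ℝ) = q * (1 / (q : ℝ)) := by field_simp
        _ ≤ q * r ^ (x % 256) := by gcongr
    nlinarith
  calc ((x : ℝ) + 1) ^ 2 / (q : ℝ) ^ (x / 256) = ((x : ℝ) + 1) ^ 2 * (1 / (q : ℝ) ^ (x / 256)) := by ring
    _ ≤ ((x : ℝ) + 1) ^ 2 * (q * r ^ x) := by gcongr
    _ = q * (((x : ℝ) + 1) ^ 2 * r ^ x) := by ring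

/-- one term of the third sum -/
theorem term (q : ℕ) (hq : 81 ≤ q) {r : ℝ} (hr0 : 0 < r) (hr : r ^ 48 = 1 / (q : ℝ)) (g s : ℕ)
    (hs : 16 * s < g) :
    (q : ℝ) ^ s * (3 ^ g * (q : ℝ) ^ ((5 * g + 9) / 3)) ≤ q ^ 3 * r ^ g * (q : ℝ) ^ (2 * g) := by
  have hqR : (81 : ℝ) ≤ q := by exact_mod_cast hq
  have hq1 : (1 : ℝ) ≤ q := by linarith
  have hq0 : (0 : ℝ) < q := by linarith
  refine le_of_pow_le_pow_left₀ (n := 48) (by norm_num) (by positivity) ?_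
  have h1 : ((q : ℝ) ^ s * (3 ^ g * (q : ℝ) ^ ((5 * g + 9) / 3))) ^ 48 =
      (q : ℝ) ^ (48 * s) * (((81 : ℝ) ^ g) ^ 12 * (q : ℝ) ^ (48 * ((5 * g + 9) / 3))) := by
    have e1 : ∀ a b : ℕ, ((q : ℝ) ^ a) ^ b = (q : ℝ) ^ (b * a) := fun a b => by
      rw [← pow_mul, mul_comm]
    have e2 : ((3 : ℝ) ^ g) ^ 48 = ((81 : ℝ) ^ g) ^ 12 := by
      rw [show (81 : ℝ) = 3 ^ 4 by norm_num, ← pow_mul, ← pow_mul, ← pow_mul,
        show 4 * (g * 12) = g * 48 by ring]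
    rw [mul_pow, mul_pow, e1, e1, e2]
  have h2 : (q ^ 3 * r ^ g * (q : ℝ) ^ (2 * g)) ^ 48 = (q : ℝ) ^ (144 + 95 * g) := by
    have h3 : (r ^ g) ^ 48 = (1 / (q : ℝ)) ^ g := by
      rw [← hr, ← pow_mul, ← pow_mul, mul_comm]
    rw [mul_pow, mul_pow, h3, ← pow_mul, ← pow_mul, one_div_pow]
    have h4 : (q : ℝ) ^ (2 * g * 48) = (q : ℝ) ^ g * (q : ℝ) ^ (95 * g) := by
      rw [← pow_add, show g + 95 * g = 2 * g * 48 by ring]
    rw [h4, pow_add]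
    have h5 : (q : ℝ) ^ g ≠ 0 := by positivity
    field_simp
  rw [h1, h2]
  calc (q : ℝ) ^ (48 * s) * (((81 : ℝ) ^ g) ^ 12 * (q : ℝ) ^ (48 * ((5 * g + 9) / 3)))
      ≤ (q : ℝ) ^ (3 * g) * (((q : ℝ) ^ g) ^ 12 * (q : ℝ) ^ (16 * (5 * g + 9))) := by
        refine mul_le_mul (pow_le_pow_right₀ hq1 (by omega)) (mul_le_mul ?_
          (pow_le_pow_right₀ hq1 (by omega)) (by positivity) (by positivity)) (by positivity)
          (by positivity)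
        exact pow_le_pow_left₀ (by positivity) (pow_le_pow_left₀ (by norm_num) hqR _) _
    _ = (q : ℝ) ^ (144 + 95 * g) := by
        rw [← pow_mul, ← pow_add, ← pow_add,
          show 3 * g + (g * 12 + 16 * (5 * g + 9)) = 144 + 95 * g by ring]

theorem three (q : ℕ) (hq : 81 ≤ q) : ∃ Cst : ℝ, 0 < Cst ∧ ∀ g N : ℕ,
    ∑ s ∈ (Finset.range N).filter (fun s => 16 * s < g),
      (q : ℝ) ^ s * (3 ^ g * ((g + 1) ^ 2 * (q : ℝ) ^ ((5 * g + 9) / 3))) ≤ Cst * (q : ℝ) ^ (2 * g) := by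
  have hqR : (81 : ℝ) ≤ q := by exact_mod_cast hq
  obtain ⟨r, hr0, hr1, hr⟩ := root (t := 48) (by norm_num) (a := 1 / (q : ℝ)) (by positivity)
    (by rw [div_lt_one (by positivity)]; linarith)
  obtain ⟨C, hC, hb⟩ := bdd 3 hr0 hr1
  refine ⟨q ^ 3 * C, by positivity, fun g N => ?_⟩
  have hg : ((g : ℝ) + 1) ^ 3 * r ^ g ≤ C := by
    refine le_trans ?_ (hb (g + 1))
    exact Finset.single_le_sum (f := fun x : ℕ => ((x : ℝ) + 1) ^ 3 * r ^ x)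
      (fun x _ => by positivity) (Finset.mem_range.mpr (Nat.lt_succ_self g))
  have h1 : ∀ s ∈ (Finset.range N).filter (fun s => 16 * s < g),
      (q : ℝ) ^ s * (3 ^ g * ((g + 1) ^ 2 * (q : ℝ) ^ ((5 * g + 9) / 3))) ≤
        ((g : ℝ) + 1) ^ 2 * (q ^ 3 * r ^ g * (q : ℝ) ^ (2 * g)) := by
    intro s hs
    have h2 := term q hq hr0 hr g s (Finset.mem_filter.mp hs).2
    calc (q : ℝ) ^ s * (3 ^ g * ((g + 1) ^ 2 * (q : ℝ) ^ ((5 * g + 9) / 3)))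
        = ((g : ℝ) + 1) ^ 2 * ((q : ℝ) ^ s * (3 ^ g * (q : ℝ) ^ ((5 * g + 9) / 3))) := by ring
      _ ≤ _ := by gcongr
  have h3 : ((Finset.range N).filter (fun s => 16 * s < g)).card ≤ g + 1 := by
    have h4 : (Finset.range N).filter (fun s => 16 * s < g) ⊆ Finset.range (g + 1) := by
      intro s hs
      have := (Finset.mem_filter.mp hs).2
      rw [Finset.mem_range]
      omega
    exact (Finset.card_le_card h4).trans (le_of_eq (Finset.card_range _))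
  have h3R : (((Finset.range N).filter (fun s => 16 * s < g)).card : ℝ) ≤ g + 1 := by exact_mod_cast h3
  refine (Finset.sum_le_card_nsmul _ _ _ h1).trans ?_
  rw [nsmul_eq_mul]
  calc (((Finset.range N).filter (fun s => 16 * s < g)).card : ℝ) *
        (((g : ℝ) + 1) ^ 2 * (q ^ 3 * r ^ g * (q : ℝ) ^ (2 * g)))
      ≤ (g + 1) * (((g : ℝ) + 1) ^ 2 * (q ^ 3 * r ^ g * (q : ℝ) ^ (2 * g))) := by gcongr
    _ = q ^ 3 * (((g : ℝ) + 1) ^ 3 * r ^ g) * (q : ℝ) ^ (2 * g) := by ring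
    _ ≤ q ^ 3 * C * (q : ℝ) ^ (2 * g) := by gcongr

end XN1

theorem p_N1 : S_N1 := ⟨XN1.nn, XN1.two, XN1.three⟩

end PP
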