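import Pool.Agent.H461.PP.Stm2

/-! # PP R2: the final theorem (helper263; adapted from PP R of helper356) -/

set_option autoImplicit false
set_option linter.unusedSectionVars false

open Polynomial
open scoped Classical

noncomputable section

namespace PP

open DH

namespace XR2

variable (F : Type) [Field F] [Fintype F] [CharP F 3]

theorem good_of_mem (hB0 : S_B0 F) {g : ℕ} {f : F[X]} (hf : f ∈ SQF F (2 * g + 1)) : Good f := by
  unfold SQF at hf
  rw [Finset.mem_filter] at hf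
  obtain ⟨hm, hs⟩ := hf
  obtain ⟨_, hMON, _, _, _, _⟩ := hB0
  obtain ⟨h1, h2⟩ := (hMON _ f).1 hm
  exact ⟨h1, hs, h2 ▸ odd_two_mul_add_one g⟩

theorem cl3_eq (hA9 : S_A9 F) (hB0 : S_B0 F) (hB1 : S_B1 F) {g : ℕ} {f : F[X]}
    (hf : f ∈ SQF F (2 * g + 1)) : cl3 f = (solz f).card + 1 := by
  rw [hA9 f (good_of_mem F hB0 hf)]
  obtain ⟨_, _, _, _, _, _, _, h8, _⟩ := hB1
  exact h8 f

theorem one_lt_qq : 1 < qq F := by
  unfold qq
  have := Fintype.one_lt_card (α := F)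
  exact_mod_cast this

end XR2

theorem p_R2 (F : Type) [Field F] [Fintype F] [CharP F 3] (hSM2 : S_SM2 F) (hA3 : DH.S_A3 F)
    (hA9 : DH.S_A9 F) (hF5 : DH.S_F5 F) (hB0 : DH.S_B0 F) (hB1 : DH.S_B1 F) : S_R2 F := by
  have hcl : ∀ (g : ℕ) (f : F[X]), f ∈ SQF F (2 * g + 1) → cl3 f = (solz f).card + 1 :=
    fun g f hf => XR2.cl3_eq F hA9 hB0 hB1 hf
  have hq1 := XR2.one_lt_qq F
  have hq0 : 0 < qq F := by linarith
  obtain ⟨D, hD0, hD⟩ := hSM2
  have hSQ : ∀ g : ℕ, 1 ≤ g → ((SQF F (2 * g + 1)).card : ℝ) =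
      (1 - 1 / qq F) * qq F ^ (2 * g + 1) := by
    intro g hg
    rw [hF5.2 g hg, pow_succ]
    field_simp
  have hq2 : 2 ≤ qq F := by
    unfold qq
    have h : 2 ≤ Fintype.card F := Fintype.one_lt_card (α := F)
    exact_mod_cast h
  have hSQ2 : ∀ g : ℕ, 1 ≤ g → qq F ^ (2 * g + 1) ≤ 2 * ((SQF F (2 * g + 1)).card : ℝ) := by
    intro g hg
    rw [hSQ g hg]
    have hp : 0 < qq F ^ (2 * g + 1) := by positivity
    have h1 : 1 / qq F ≤ 1 / 2 := by
      rw [div_le_div_iff₀ hq0 (by norm_num)]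
      linarith
    nlinarith
  -- the second moment over the squarefree polynomials
  have hsolz : ∀ g : ℕ, 1 ≤ g → ∑ f ∈ SQF F (2 * g + 1), ((solz f).card : ℝ) ^ 2 ≤
      2 * D * ((SQF F (2 * g + 1)).card : ℝ) := by
    intro g hg
    have h1 : ∑ f ∈ SQF F (2 * g + 1), ((solz f).card : ℝ) ^ 2 ≤
        ∑ f ∈ MON F (2 * g + 1), ((solz f).card : ℝ) ^ 2 := by
      apply Finset.sum_le_sum_of_subset_of_nonneg
      · exact Finset.filter_subset _ _
      · intro f _ _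
        positivity
    have h2 := hD g
    have h3 := mul_le_mul_of_nonneg_left (hSQ2 g hg) hD0.le
    linarith
  have hmom : ∀ g : ℕ, 1 ≤ g → ∑ f ∈ SQF F (2 * g + 1), (cl3 f : ℝ) ^ 2 ≤
      (4 * D + 2) * ((SQF F (2 * g + 1)).card : ℝ) := by
    intro g hg
    calc ∑ f ∈ SQF F (2 * g + 1), (cl3 f : ℝ) ^ 2
        ≤ ∑ f ∈ SQF F (2 * g + 1), (2 * ((solz f).card : ℝ) ^ 2 + 2) := by
          refine Finset.sum_le_sum fun f hf => ?_
          rw [hcl g f hf]
          push_cast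
          nlinarith [sq_nonneg (((solz f).card : ℝ) - 1)]
      _ = 2 * ∑ f ∈ SQF F (2 * g + 1), ((solz f).card : ℝ) ^ 2 +
          2 * ((SQF F (2 * g + 1)).card : ℝ) := by
          rw [Finset.sum_add_distrib, Finset.sum_const, nsmul_eq_mul, ← Finset.mul_sum]
          ring
      _ ≤ _ := by
          have := hsolz g hg
          linarith
  refine ⟨fun f h1 h2 h3 => hA3 f ⟨h1, h2, h3⟩, 4 * D + 2, fun g hg => ⟨hmom g hg, fun r => ?_⟩⟩
  have h1 : (((SQF F (2 * g + 1)).filter (fun f => 3 ^ r ≤ cl3 f)).card : ℝ) * 9 ^ r ≤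
      ∑ f ∈ SQF F (2 * g + 1), (cl3 f : ℝ) ^ 2 := by
    calc (((SQF F (2 * g + 1)).filter (fun f => 3 ^ r ≤ cl3 f)).card : ℝ) * 9 ^ r
        = ∑ _f ∈ (SQF F (2 * g + 1)).filter (fun f => 3 ^ r ≤ cl3 f), (9 : ℝ) ^ r := by
          rw [Finset.sum_const, nsmul_eq_mul]
      _ ≤ ∑ f ∈ (SQF F (2 * g + 1)).filter (fun f => 3 ^ r ≤ cl3 f), (cl3 f : ℝ) ^ 2 := by
          refine Finset.sum_le_sum fun f hf => ?_
          have h2 : ((3 : ℝ) ^ r) ≤ cl3 f := by exact_mod_cast (Finset.mem_filter.1 hf).2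
          calc (9 : ℝ) ^ r = ((3 : ℝ) ^ r) ^ 2 := by
                rw [← pow_mul, mul_comm, pow_mul]
                norm_num
            _ ≤ (cl3 f : ℝ) ^ 2 := pow_le_pow_left₀ (by positivity) h2 2
      _ ≤ _ := by
          apply Finset.sum_le_sum_of_subset_of_nonneg (Finset.filter_subset _ _)
          intro f _ _
          positivity
  have h2 := h1.trans (hmom g hg)
  have h9 : (0 : ℝ) < 9 ^ r := by positivity
  rw [div_mul_eq_mul_div, le_div_iff₀ h9]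
  exact h2

end PP
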