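import Pool.Agent.H461.PP.Stm2

/-!
# Project PP, second part: the second moment for every `q` (assembly)
-/

open Polynomial
open scoped Classical

noncomputable section

namespace PP

open DH

namespace XSM2

theorem reidx (h : ℕ → ℝ) (h0 : ∀ x, 0 ≤ h x) (n : ℕ) :
    ∑ s ∈ Finset.range n, h (n - s) ≤ ∑ x ∈ Finset.range (n + 1), h x := by
  rw [← Finset.sum_range_reflect h (n + 1), Finset.sum_range_succ]
  have e : ∀ j ∈ Finset.range n, h (n + 1 - 1 - j) = h (n - j) := by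
    intro j _
    rw [Nat.add_sub_cancel]
  rw [Finset.sum_congr rfl e]
  exact le_add_of_nonneg_right (h0 _)

theorem sum_small (N K : ℕ) (c : ℝ) (hc : 0 ≤ c) :
    ∑ x ∈ Finset.range N, (if x < K then c else 0) ≤ K * c := by
  rw [← Finset.sum_filter, Finset.sum_const, nsmul_eq_mul]
  refine mul_le_mul_of_nonneg_right ?_ hc
  have h : (Finset.range N).filter (fun x => x < K) ⊆ Finset.range K := by
    intro x hx
    exact Finset.mem_range.2 (Finset.mem_filter.1 hx).2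
  have h1 := Finset.card_le_card h
  rw [Finset.card_range] at h1
  exact_mod_cast h1

end XSM2

open XSM2

theorem p_SM2 (F : Type) [Field F] [Fintype F] [CharP F 3] (hN1 : S_N1) (hT10c : S_T10c F)
    (hU3 : S_U3 F) (hU4 : S_U4 F) (hV5 : S_V5 F) : S_SM2 F := by
  have hq2 : 2 ≤ Fintype.card F := Fintype.one_lt_card
  obtain ⟨C1, hC1, h1⟩ := hN1.2.1 (Fintype.card F) hq2
  obtain ⟨C5, hC5, h5⟩ := hV5
  have hq1 : (1:ℝ) ≤ qq F := by
    unfold qq
    exact_mod_cast (by omega : 1 ≤ Fintype.card F)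
  have hq0 : (0:ℝ) < qq F := by linarith
  refine ⟨7 + C5 + 1000 * qq F ^ 2 + 26 * C1 * qq F ^ 3, by positivity, fun g => ?_⟩
  have hT := hT10c g
  have hsplit := Finset.sum_filter_add_sum_filter_not (Finset.range (2 * g))
    (fun s => 16 * s < g) (fun s => ∑ f₀ ∈ CF F s, ((TR F g f₀).card : ℝ))
  have hA := h5 g (2 * g)
  obtain ⟨h, hh⟩ : ∃ h : ℕ → ℝ, ∀ x : ℕ, h x = (if x < 1000 then qq F ^ (2 * g + 3) else 0) +
      26 * qq F ^ (2 * g + 4) * (((x : ℝ) + 1) ^ 2 / (Fintype.card F : ℝ) ^ (x / 256)) :=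
    ⟨fun x => (if x < 1000 then qq F ^ (2 * g + 3) else 0) +
      26 * qq F ^ (2 * g + 4) * (((x : ℝ) + 1) ^ 2 / (Fintype.card F : ℝ) ^ (x / 256)),
      fun _ => rfl⟩
  have hh0 : ∀ x, 0 ≤ h x := by
    intro x
    rw [hh]
    have e1 : (0:ℝ) ≤ if x < 1000 then qq F ^ (2 * g + 3) else 0 := by
      split_ifs
      · positivity
      · exact le_rfl
    have e2 : (0:ℝ) ≤ 26 * qq F ^ (2 * g + 4) *
        (((x : ℝ) + 1) ^ 2 / (Fintype.card F : ℝ) ^ (x / 256)) := by positivity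
    linarith
  have hB : ∑ s ∈ (Finset.range (2 * g)).filter (fun s => ¬ 16 * s < g),
      ∑ f₀ ∈ CF F s, ((TR F g f₀).card : ℝ) ≤ ∑ s ∈ Finset.range (2 * g), h (2 * g - s) := by
    refine (Finset.sum_le_sum (g := fun s => h (2 * g - s)) fun s hs => ?_).trans
      (Finset.sum_le_sum_of_subset_of_nonneg (Finset.filter_subset _ _) fun s _ _ => hh0 _)
    obtain ⟨hs1, hs2⟩ := Finset.mem_filter.1 hs
    have hs3 := Finset.mem_range.1 hs1
    have hs4 : g ≤ 16 * s := not_lt.1 hs2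
    simp only [hh]
    by_cases hX : 2 * g - s < 1000
    · rw [if_pos hX]
      have e1 := hU4.1 g s hs3.le
      have e2 : (0:ℝ) ≤ 26 * qq F ^ (2 * g + 4) *
        ((((2 * g - s : ℕ) : ℝ) + 1) ^ 2 / (Fintype.card F : ℝ) ^ ((2 * g - s) / 256)) := by
        positivity
      linarith
    · rw [if_neg hX, zero_add]
      have e1 := hU3 g s (by omega) hs4
      have e2 : 26 * (((2 * g - s : ℕ) : ℝ) + 1) ^ 2 * qq F ^ (2 * g + 4) /
          qq F ^ ((2 * g - s) / 256) = 26 * qq F ^ (2 * g + 4) *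
        ((((2 * g - s : ℕ) : ℝ) + 1) ^ 2 / (Fintype.card F : ℝ) ^ ((2 * g - s) / 256)) := by
        unfold qq
        ring
      rw [← e2]
      exact e1
  have hD := reidx h hh0 (2 * g)
  have hE : ∑ x ∈ Finset.range (2 * g + 1), h x ≤ 1000 * qq F ^ (2 * g + 3) +
      26 * qq F ^ (2 * g + 4) * C1 := by
    rw [Finset.sum_congr rfl fun x _ => hh x, Finset.sum_add_distrib, ← Finset.mul_sum]
    refine add_le_add ?_ ?_
    · have e := sum_small (2 * g + 1) 1000 (qq F ^ (2 * g + 3)) (by positivity)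
      simpa using e
    · exact mul_le_mul_of_nonneg_left (h1 _) (by positivity)
  have p1 : qq F ^ (2 * g) ≤ qq F ^ (2 * g + 1) := pow_le_pow_right₀ hq1 (Nat.le_succ _)
  have p3 : qq F ^ (2 * g + 3) = qq F ^ 2 * qq F ^ (2 * g + 1) := by ring
  have p4 : qq F ^ (2 * g + 4) = qq F ^ 3 * qq F ^ (2 * g + 1) := by ring
  have p5 : C5 * qq F ^ (2 * g) ≤ C5 * qq F ^ (2 * g + 1) := mul_le_mul_of_nonneg_left p1 hC5.le
  calc ∑ f ∈ MON F (2 * g + 1), ((solz f).card : ℝ) ^ 2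
      ≤ 6 * qq F ^ (2 * g + 1) + qq F ^ (2 * g) +
        (C5 * qq F ^ (2 * g) + (1000 * qq F ^ (2 * g + 3) + 26 * qq F ^ (2 * g + 4) * C1)) := by
        linarith
    _ ≤ 6 * qq F ^ (2 * g + 1) + qq F ^ (2 * g + 1) +
        (C5 * qq F ^ (2 * g + 1) + (1000 * qq F ^ (2 * g + 3) + 26 * qq F ^ (2 * g + 4) * C1)) := by
        linarith
    _ = (7 + C5 + 1000 * qq F ^ 2 + 26 * C1 * qq F ^ 3) * qq F ^ (2 * g + 1) := by
        rw [p3, p4]
        ring

end PP
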