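import Pool.Agent.H461.PP.Stm

/-!
# PP T1: the divisibility for two solutions
-/

open Polynomial
open scoped Classical

noncomputable section

namespace PP

open DH

namespace XT1

theorem three (F : Type) [Field F] [CharP F 3] : (3 : F[X]) = 0 := by
  have h : ((3 : ℕ) : F) = 0 := CharP.cast_eq_zero F 3
  have h2 : (C ((3 : ℕ) : F) : F[X]) = 0 := by rw [h, C_0]
  rw [map_natCast] at h2
  exact_mod_cast h2

theorem der_cube {F : Type} [Field F] [CharP F 3] (u w : F[X]) :
    derivative (u ^ 3 * w) = u ^ 3 * derivative w := by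
  have h3 := three F
  have h4 : derivative (u ^ 3) = 0 := by
    have h5 : derivative (u ^ 3) = 3 * u ^ 2 * derivative u := by
      have e : u ^ 3 = u * (u * u) := by ring
      rw [e, derivative_mul, derivative_mul]
      ring
    rw [h5, h3]
    ring
  rw [derivative_mul, h4, zero_mul, zero_add]

theorem cube_inj {F : Type} [Field F] [CharP F 3] {u w : F[X]} (h : u ^ 3 = w ^ 3) : u = w := by
  have h3 := three F
  have h4 : (u - w) ^ 3 = 0 := by
    linear_combination h + (u * w ^ 2 - u ^ 2 * w) * h3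
  have h5 : u - w = 0 := by
    by_contra hc
    exact pow_ne_zero 3 hc h4
  exact sub_eq_zero.1 h5

/-- the cube root -/
theorem lin {F : Type} [Field F] [CharP F 3] {f P₀ P₁ α β A₀ A₁ : F[X]}
    (h0 : derivative (derivative (f * P₀)) = A₀ ^ 3) (h1 : derivative (derivative (f * P₁)) = A₁ ^ 3)
    (hs : IsSol f (α ^ 3 * P₀ + β ^ 3 * P₁)) : α * A₀ + β * A₁ = -(α ^ 3 * P₀ + β ^ 3 * P₁) := by
  have h3 := three F
  unfold IsSol at hs
  have e : f * (α ^ 3 * P₀ + β ^ 3 * P₁) = α ^ 3 * (f * P₀) + β ^ 3 * (f * P₁) := by ring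
  rw [e, derivative_add, derivative_add, der_cube, der_cube, der_cube, der_cube, h0, h1] at hs
  apply cube_inj
  linear_combination hs + (α ^ 2 * A₀ ^ 2 * β * A₁ + α * A₀ * β ^ 2 * A₁ ^ 2) * h3

end XT1

/-- **T1** -/
theorem p_T1 (F : Type) [Field F] [Fintype F] [CharP F 3] (hB1 : DH.S_B1 F) : S_T1 F := by
  intro f P₀ P₁ α β α' β' hs hs'
  obtain ⟨A₀, h0⟩ := (hB1.1 (derivative (derivative (f * P₀)))).1 (hB1.2.2.1 (f * P₀))
  obtain ⟨A₁, h1⟩ := (hB1.1 (derivative (derivative (f * P₁)))).1 (hB1.2.2.1 (f * P₁))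
  have e1 := XT1.lin h0 h1 hs
  have e2 := XT1.lin h0 h1 hs'
  exact ⟨-A₁, by linear_combination α * e2 - α' * e1⟩

end PP
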