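import Pool.Agent.H461.PP.Stm

/-!
# Project PP, T10a: the number of triples (helper401 for helper461)
-/

open Polynomial
open scoped Classical

noncomputable section

namespace PP

open DH

theorem XT10a.mem_PRS (F : Type) [Field F] [Fintype F] (g : ℕ) (f₀ : F[X]) (p : F[X] × F[X]) :
    p ∈ PRS F g f₀ ↔ p ∈ (KG F g f₀) ×ˢ (KG F g f₀) ∧ Ind p.1 p.2 ∧
      ∃ f ∈ MON F (2 * g + 1), IsSol f p.1 ∧ IsSol f p.2 := by
  unfold PRS
  simp only [Finset.mem_filter]

theorem p_T10a (F : Type) [Field F] [Fintype F] [CharP F 3] (hB0 : DH.S_B0 F) (hG1 : DH.S_G1 F) :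
    S_T10a F := by
  intro g s f₀ hf₀ hs
  obtain ⟨hP, hM, -, hPc, -, -⟩ := hB0
  obtain ⟨hf₀M, hcf⟩ := Finset.mem_filter.1 hf₀
  obtain ⟨hmon, hdeg⟩ := (hM s f₀).1 hf₀M
  rw [mul_comm]
  refine Finset.card_le_mul_card_image_of_maps_to (f := fun t : F[X] × F[X] × F[X] => t.2) ?_ _ ?_
  · intro t ht
    obtain ⟨h1, h2, h3, h4⟩ := Finset.mem_filter.1 ht
    obtain ⟨h5, h6⟩ := Finset.mem_product.1 h1
    exact (XT10a.mem_PRS F g f₀ t.2).2 ⟨h6, h2, t.1, h5, h3, h4⟩
  · intro p hp
    obtain ⟨h1, hind, f', hf', hs1, hs2⟩ := (XT10a.mem_PRS F g f₀ p).1 hp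
    obtain ⟨hk1, hk2⟩ := Finset.mem_product.1 h1
    have hd1 := (Finset.mem_filter.1 hk1).2
    have hd2 := (Finset.mem_filter.1 hk2).2
    obtain ⟨f₁, hf₁, hcf₁, hle, hiff⟩ := hG1 p.1 p.2 f₀ hind hmon.ne_zero hd1 hd2
    obtain ⟨c₀, hc₀⟩ := (hiff f₀).1 ⟨hd1, hd2⟩
    have hu : IsUnit c₀ := hcf c₀ ⟨f₁, by rw [hc₀]; ring⟩
    have hdf₁ : f₁.natDegree = s := by
      have h2 := congrArg natDegree hc₀
      rw [natDegree_mul hf₁.ne_zero (pow_ne_zero 3 hu.ne_zero), natDegree_pow,
        natDegree_eq_zero_of_isUnit hu, hdeg] at h2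
      omega
    obtain ⟨hf'm, hf'd⟩ := (hM _ f').1 hf'
    have hsub : (TR F g f₀).filter (fun t => t.2 = p) ⊆
        (POL F ((2 * g - s) / 3 + 1)).image (fun c => (f' + f₁ * c ^ 3, p)) := by
      intro t ht
      obtain ⟨ht1, ht2⟩ := Finset.mem_filter.1 ht
      obtain ⟨h3, h4, h5, h6⟩ := Finset.mem_filter.1 ht1
      obtain ⟨h7, h8⟩ := Finset.mem_product.1 h3
      obtain ⟨htm, htd⟩ := (hM _ t.1).1 h7
      rw [ht2] at h5 h6
      have e1 : derivative (derivative ((t.1 - f') * p.1)) = 0 := by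
        have a1 : derivative (derivative (t.1 * p.1)) = - p.1 ^ 3 := h5
        have a2 : derivative (derivative (f' * p.1)) = - p.1 ^ 3 := hs1
        rw [sub_mul, derivative_sub, derivative_sub, a1, a2, sub_self]
      have e2 : derivative (derivative ((t.1 - f') * p.2)) = 0 := by
        have a1 : derivative (derivative (t.1 * p.2)) = - p.2 ^ 3 := h6
        have a2 : derivative (derivative (f' * p.2)) = - p.2 ^ 3 := hs2
        rw [sub_mul, derivative_sub, derivative_sub, a1, a2, sub_self]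
      obtain ⟨c, hc⟩ := (hiff (t.1 - f')).1 ⟨e1, e2⟩
      refine Finset.mem_image.2 ⟨c, (hP _ c).2 ?_, ?_⟩
      · by_cases hc0 : c = 0
        · rw [hc0, degree_zero]
          exact WithBot.bot_lt_coe _
        · have h9 : (t.1 - f').degree < t.1.degree := by
            refine degree_sub_lt_left ?_ htm.ne_zero ?_
            · rw [degree_eq_natDegree htm.ne_zero, degree_eq_natDegree hf'm.ne_zero, htd, hf'd]
            · rw [htm.leadingCoeff, hf'm.leadingCoeff]
          have hne : t.1 - f' ≠ 0 := by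
            rw [hc]
            exact mul_ne_zero hf₁.ne_zero (pow_ne_zero 3 hc0)
          have h10 : (t.1 - f').natDegree < t.1.natDegree := natDegree_lt_natDegree hne h9
          rw [hc, htd, natDegree_mul hf₁.ne_zero (pow_ne_zero 3 hc0), natDegree_pow, hdf₁] at h10
          rw [degree_eq_natDegree hc0]
          have h11 : c.natDegree < (2 * g - s) / 3 + 1 := by omega
          exact_mod_cast h11
      · refine Prod.ext ?_ ht2.symm
        change f' + f₁ * c ^ 3 = t.1
        rw [← hc]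
        ring
    refine (Finset.card_le_card hsub).trans (Finset.card_image_le.trans ?_)
    rw [hPc]

end PP
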