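import Pool.Agent.H461.PP.Stm

open Polynomial
open scoped Classical

noncomputable section

namespace PP

open DH

theorem p_T10b (F : Type) [Field F] [Fintype F] [CharP F 3] (hB0 : DH.S_B0 F) (hB1 : DH.S_B1 F)
    (hT8 : S_T8 F) : S_T10b F := by
  intro g f₀
  have hmon := hB0.2.1
  have hsol := hB1.2.2.2.2.2.1
  -- the set of triples is contained in an iterated union
  have hsub : TR F g f₀ ⊆ ((KG F g f₀).filter (fun v => v ≠ 0)).biUnion (fun v =>
      ((MON F (2 * g + 1)).filter (fun f => (1 : F[X]) ^ 2 ∣ f ∧ IsSol f v)).biUnion (fun f =>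
        (sol f).image (fun v₂ => (f, v, v₂)))) := by
    intro t ht
    unfold TR at ht
    rw [Finset.mem_filter, Finset.mem_product, Finset.mem_product] at ht
    obtain ⟨⟨hf, hv1, hv2⟩, hind, hs1, hs2⟩ := ht
    rw [Finset.mem_biUnion]
    refine ⟨t.2.1, ?_, ?_⟩
    · rw [Finset.mem_filter]
      refine ⟨hv1, ?_⟩
      intro h0
      apply hind
      rw [h0]
      simp
    · rw [Finset.mem_biUnion]
      refine ⟨t.1, ?_, ?_⟩
      · rw [Finset.mem_filter]
        exact ⟨hf, by rw [one_pow]; exact one_dvd _, hs1⟩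
      · rw [Finset.mem_image]
        exact ⟨t.2.2, (hsol _ _).mpr hs2, rfl⟩
  have hcard : (TR F g f₀).card ≤ ∑ v ∈ (KG F g f₀).filter (fun v => v ≠ 0),
      cnt (2 * g + 1) 1 v * 3 ^ g := by
    refine (Finset.card_le_card hsub).trans (Finset.card_biUnion_le.trans ?_)
    refine Finset.sum_le_sum fun v _ => ?_
    refine Finset.card_biUnion_le.trans ?_
    unfold cnt
    rw [Finset.card_eq_sum_ones, Finset.sum_mul]
    refine Finset.sum_le_sum fun f hf => ?_
    rw [one_mul]
    refine Finset.card_image_le.trans ?_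
    rw [Finset.mem_filter] at hf
    exact hT8 g f ((hmon _ _).mp hf.1).2
  have h2 : ((TR F g f₀).card : ℝ) ≤ ((∑ v ∈ (KG F g f₀).filter (fun v => v ≠ 0),
      cnt (2 * g + 1) 1 v * 3 ^ g : ℕ) : ℝ) := by exact_mod_cast hcard
  refine h2.trans (le_of_eq ?_)
  push_cast
  rw [Finset.mul_sum]
  refine Finset.sum_congr rfl fun v _ => ?_
  ring

end PP
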