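import Pool.Agent.H461.PP.Stm

/-!
# PP T10c: the second moment is at most the diagonal plus the sum of the triples (helper898)
-/

open Polynomial
open scoped Classical

set_option linter.unusedSectionVars false

noncomputable section

namespace PP

open DH

variable (F : Type) [Field F] [Fintype F] [CharP F 3]

namespace XT10c

/-- some nonzero `h` of degree `< n` is in both kernels -/
def Hz {F : Type} [Field F] [Fintype F] (n : ℕ) (v₁ v₂ : F[X]) : Prop :=
  ∃ h : F[X], h ≠ 0 ∧ h.degree < n ∧ derivative (derivative (h * v₁)) = 0 ∧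
    derivative (derivative (h * v₂)) = 0

/-- the independent triples -/
def Tri (g : ℕ) : Finset (F[X] × F[X] × F[X]) :=
  ((MON F (2 * g + 1)) ×ˢ ((POL F g) ×ˢ (POL F g))).filter
    (fun t => t.2.1 ∈ solz t.1 ∧ t.2.2 ∈ solz t.1 ∧ Ind t.2.1 t.2.2)

variable {F}

theorem sub_ker {f f' v : F[X]} (h : IsSol f v) (h' : IsSol f' v) :
    derivative (derivative ((f - f') * v)) = 0 := by
  unfold IsSol at h h'
  rw [sub_mul, derivative_sub, derivative_sub, h, h', sub_self]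

theorem mem_pol (hB0 : DH.S_B0 F) (hB1 : DH.S_B1 F) {g : ℕ} {f v : F[X]}
    (hf : f ∈ MON F (2 * g + 1)) (hv : v ∈ solz f) : v ∈ POL F g := by
  obtain ⟨c1, c2, -⟩ := hB0
  obtain ⟨-, -, -, -, b5, -, b7, -⟩ := hB1
  obtain ⟨h1, h2⟩ := (b7 f v).1 hv
  have h3 := b5 f v h1 h2
  rw [((c2 _ f).1 hf).2] at h3
  rw [c1, degree_eq_natDegree h1]
  exact_mod_cast (by omega : v.natDegree < g)

/-- the dependent pairs -/
theorem dep (hB1 : DH.S_B1 F) (hG0 : DH.S_G0 F) (f : F[X]) :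
    (((solz f) ×ˢ (solz f)).filter (fun p => ¬ Ind p.1 p.2)).card ≤ 2 * (solz f).card := by
  have hb := hB1.2.2.2.2.2.2.1
  have hsub : ((solz f) ×ˢ (solz f)).filter (fun p => ¬ Ind p.1 p.2) ⊆
      (solz f).image (fun v => (v, v)) ∪ (solz f).image (fun v => (v, -v)) := by
    intro p hp
    obtain ⟨hp1, hp2⟩ := Finset.mem_filter.1 hp
    obtain ⟨h1, h2⟩ := Finset.mem_product.1 hp1
    obtain ⟨k1, k2⟩ := (hb f p.1).1 h1
    obtain ⟨k3, k4⟩ := (hb f p.2).1 h2
    have h3 : derivative p.1 * p.2 = p.1 * derivative p.2 := by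
      unfold Ind at hp2
      exact not_not.1 hp2
    rw [Finset.mem_union]
    rcases hG0 f p.1 p.2 k1 k3 k2 k4 h3 with h | h
    · left
      exact Finset.mem_image.2 ⟨p.1, h1, Prod.ext rfl h⟩
    · right
      exact Finset.mem_image.2 ⟨p.1, h1, Prod.ext rfl (by rw [h, neg_neg])⟩
  have h1 := (Finset.card_le_card hsub).trans (Finset.card_union_le _ _)
  have h2 : ((solz f).image (fun v => (v, v))).card ≤ (solz f).card := Finset.card_image_le
  have h3 : ((solz f).image (fun v => (v, -v))).card ≤ (solz f).card := Finset.card_image_le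
  omega

/-- the independent pairs are triples -/
theorem indep (hB0 : DH.S_B0 F) (hB1 : DH.S_B1 F) (g : ℕ) :
    ∑ f ∈ MON F (2 * g + 1), (((solz f) ×ˢ (solz f)).filter (fun p => Ind p.1 p.2)).card ≤
      (Tri F g).card := by
  have h1 : (Tri F g).card = ∑ f ∈ MON F (2 * g + 1), ((Tri F g).filter (fun t => t.1 = f)).card :=
    Finset.card_eq_sum_card_fiberwise fun t ht =>
      (Finset.mem_product.1 (Finset.mem_filter.1 (Finset.mem_coe.1 ht)).1).1
  rw [h1]
  refine Finset.sum_le_sum fun f hf => ?_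
  refine Finset.card_le_card_of_injOn (fun p => (f, p)) ?_ ?_
  · intro p hp
    obtain ⟨hp1, hp2⟩ := Finset.mem_filter.1 (Finset.mem_coe.1 hp)
    obtain ⟨h2, h3⟩ := Finset.mem_product.1 hp1
    rw [Finset.mem_coe]
    refine Finset.mem_filter.2 ⟨Finset.mem_filter.2 ⟨?_, h2, h3, hp2⟩, rfl⟩
    exact Finset.mem_product.2 ⟨hf, Finset.mem_product.2 ⟨mem_pol hB0 hB1 hf h2,
      mem_pol hB0 hB1 hf h3⟩⟩
  · intro p _ p' _ h
    exact (Prod.ext_iff.1 h).2

/-- the triples without common kernel elements -/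
theorem partA (hB0 : DH.S_B0 F) (hB1 : DH.S_B1 F) (g : ℕ) :
    ((Tri F g).filter (fun t => ¬ Hz (2 * g + 1) t.2.1 t.2.2)).card ≤ Fintype.card F ^ (2 * g) := by
  have hb := hB1.2.2.2.2.2.2.1
  have h1 : ((POL F g) ×ˢ (POL F g)).card = Fintype.card F ^ (2 * g) := by
    rw [Finset.card_product, hB0.2.2.2.1, ← pow_add, two_mul]
  rw [← h1]
  refine Finset.card_le_card_of_injOn (fun t => t.2) ?_ ?_
  · intro t ht
    exact (Finset.mem_product.1 (Finset.mem_filter.1 (Finset.mem_filter.1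
      (Finset.mem_coe.1 ht)).1).1).2
  · rintro ⟨f, p⟩ ht ⟨f', p'⟩ ht' h
    obtain rfl : p = p' := h
    obtain ⟨ht1, ht2⟩ := Finset.mem_filter.1 (Finset.mem_coe.1 ht)
    obtain ⟨ht3, ht4, ht5, -⟩ := Finset.mem_filter.1 ht1
    obtain ⟨ht1', -⟩ := Finset.mem_filter.1 (Finset.mem_coe.1 ht')
    obtain ⟨ht3', ht4', ht5', -⟩ := Finset.mem_filter.1 ht1'
    have m1 := (hB0.2.1 _ _).1 (Finset.mem_product.1 ht3).1
    have m2 := (hB0.2.1 _ _).1 (Finset.mem_product.1 ht3').1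
    by_contra hne
    apply ht2
    have hff : f ≠ f' := fun e => hne (by rw [e])
    refine ⟨f - f', sub_ne_zero.2 hff, ?_, sub_ker ((hb _ _).1 ht4).2 ((hb _ _).1 ht4').2,
      sub_ker ((hb _ _).1 ht5).2 ((hb _ _).1 ht5').2⟩
    have m1a : f.Monic := m1.1
    have m1b : f.natDegree = 2 * g + 1 := m1.2
    have m2a : f'.Monic := m2.1
    have m2b : f'.natDegree = 2 * g + 1 := m2.2
    have d1 : f.degree = ((2 * g + 1 : ℕ) : WithBot ℕ) := by
      rw [degree_eq_natDegree m1a.ne_zero, m1b]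
    have d2 : f'.degree = ((2 * g + 1 : ℕ) : WithBot ℕ) := by
      rw [degree_eq_natDegree m2a.ne_zero, m2b]
    have d3 := degree_sub_lt_left (d1.trans d2.symm) m1a.ne_zero
      (by rw [m1a.leadingCoeff, m2a.leadingCoeff])
    rw [d1] at d3
    exact d3

/-- the triples with common kernel elements -/
theorem partB (hB0 : DH.S_B0 F) (hB1 : DH.S_B1 F) (hG1 : DH.S_G1 F) (hG3 : DH.S_G3 F) (g : ℕ) :
    ((Tri F g).filter (fun t => Hz (2 * g + 1) t.2.1 t.2.2)).card ≤
      ∑ s ∈ Finset.range (2 * g), ∑ f₀ ∈ CF F s, (TR F g f₀).card := by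
  have hb := hB1.2.2.2.2.2.2.1
  have hsub : (Tri F g).filter (fun t => Hz (2 * g + 1) t.2.1 t.2.2) ⊆
      (Finset.range (2 * g)).biUnion fun s => (CF F s).biUnion fun f₀ => TR F g f₀ := by
    rintro ⟨f, v₁, v₂⟩ ht
    obtain ⟨ht1, h, h0, hdeg, hk1, hk2⟩ := Finset.mem_filter.1 ht
    obtain ⟨ht3, ht4, ht5, hind⟩ := Finset.mem_filter.1 ht1
    obtain ⟨hf, hp⟩ := Finset.mem_product.1 ht3
    obtain ⟨hv1, hv2⟩ := Finset.mem_product.1 hp
    obtain ⟨f₀, k1, k2, k3, k4⟩ := hG1 v₁ v₂ h hind h0 hk1 hk2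
    have k5 := (k4 f₀).2 ⟨1, by rw [one_pow, mul_one]⟩
    obtain ⟨k6, -, -⟩ := hG3 g f₀.natDegree f₀ v₁ v₂ k1 rfl k2 hv1 hv2 hind k5.1 k5.2
    refine Finset.mem_biUnion.2 ⟨f₀.natDegree, Finset.mem_range.2 k6, ?_⟩
    refine Finset.mem_biUnion.2 ⟨f₀, Finset.mem_filter.2 ⟨(hB0.2.1 _ _).2 ⟨k1, rfl⟩, k2⟩, ?_⟩
    refine Finset.mem_filter.2 ⟨Finset.mem_product.2 ⟨hf, Finset.mem_product.2
      ⟨Finset.mem_filter.2 ⟨hv1, k5.1⟩, Finset.mem_filter.2 ⟨hv2, k5.2⟩⟩⟩, hind,
      ((hb _ _).1 ht4).2, ((hb _ _).1 ht5).2⟩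
  refine (Finset.card_le_card hsub).trans (Finset.card_biUnion_le.trans ?_)
  exact Finset.sum_le_sum fun s _ => Finset.card_biUnion_le

end XT10c

open XT10c in
theorem p_T10c (hB0 : DH.S_B0 F) (hB1 : DH.S_B1 F) (hG0 : DH.S_G0 F) (hG1 : DH.S_G1 F)
    (hG3 : DH.S_G3 F) (hF4 : DH.S_F4 F) : S_T10c F := by
  intro g
  have h1 : ∑ f ∈ MON F (2 * g + 1), (solz f).card ^ 2 ≤
      6 * Fintype.card F ^ (2 * g + 1) + Fintype.card F ^ (2 * g) +
        ∑ s ∈ Finset.range (2 * g), ∑ f₀ ∈ CF F s, (TR F g f₀).card := by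
    have e1 : ∀ f : F[X], (solz f).card ^ 2 =
        (((solz f) ×ˢ (solz f)).filter (fun p => Ind p.1 p.2)).card +
          (((solz f) ×ˢ (solz f)).filter (fun p => ¬ Ind p.1 p.2)).card := by
      intro f
      rw [Finset.card_filter_add_card_filter_not, Finset.card_product, sq]
    have e2 : ∑ f ∈ MON F (2 * g + 1), (solz f).card ^ 2 =
        ∑ f ∈ MON F (2 * g + 1), (((solz f) ×ˢ (solz f)).filter (fun p => Ind p.1 p.2)).card +
          ∑ f ∈ MON F (2 * g + 1),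
            (((solz f) ×ˢ (solz f)).filter (fun p => ¬ Ind p.1 p.2)).card := by
      rw [← Finset.sum_add_distrib]
      exact Finset.sum_congr rfl fun f _ => e1 f
    have e3 : ∑ f ∈ MON F (2 * g + 1),
        (((solz f) ×ˢ (solz f)).filter (fun p => ¬ Ind p.1 p.2)).card ≤
          6 * Fintype.card F ^ (2 * g + 1) := by
      have k1 : ∑ f ∈ MON F (2 * g + 1),
          (((solz f) ×ˢ (solz f)).filter (fun p => ¬ Ind p.1 p.2)).card ≤
            ∑ f ∈ MON F (2 * g + 1), 2 * (sol f).card := by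
        refine Finset.sum_le_sum fun f _ => (dep hB1 hG0 f).trans ?_
        have := hB1.2.2.2.2.2.2.2.1 f
        omega
      rw [← Finset.mul_sum] at k1
      have k2 := hF4 g
      omega
    have e4 := indep hB0 hB1 g
    have e5 : (Tri F g).card = ((Tri F g).filter (fun t => Hz (2 * g + 1) t.2.1 t.2.2)).card +
        ((Tri F g).filter (fun t => ¬ Hz (2 * g + 1) t.2.1 t.2.2)).card :=
      (Finset.card_filter_add_card_filter_not _).symm
    have e6 := partA hB0 hB1 g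
    have e7 := partB hB0 hB1 hG1 hG3 g
    omega
  unfold qq
  exact_mod_cast h1

end PP
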