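import Pool.Agent.H461.PP.Stm

/-! Ordered basis, degrees, minimal degree (project PP, T2). -/

set_option autoImplicit false

open Polynomial
open scoped Classical

noncomputable section

namespace PP

open DH

namespace XT2

theorem natDegree_cube_mul {F : Type} [Field F] {A P : F[X]} (hA : A ≠ 0) (hP : P.Monic) :
    (A ^ 3 * P).natDegree = 3 * A.natDegree + P.natDegree := by
  rw [natDegree_mul (pow_ne_zero 3 hA) hP.ne_zero, natDegree_pow]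

/-- no cancellation in `A ^ 3 * P₀ + B ^ 3 * P₁` -/
theorem degs {F : Type} [Field F] {P₀ P₁ : F[X]} (h0 : P₀.Monic) (h1 : P₁.Monic)
    (hne : P₀.natDegree % 3 ≠ P₁.natDegree % 3) (A B : F[X]) :
    (A ≠ 0 → A ^ 3 * P₀ + B ^ 3 * P₁ ≠ 0 ∧
      3 * A.natDegree + P₀.natDegree ≤ (A ^ 3 * P₀ + B ^ 3 * P₁).natDegree) ∧
    (B ≠ 0 → A ^ 3 * P₀ + B ^ 3 * P₁ ≠ 0 ∧
      3 * B.natDegree + P₁.natDegree ≤ (A ^ 3 * P₀ + B ^ 3 * P₁).natDegree) := by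
  by_cases hA : A = 0
  · subst hA
    refine ⟨fun h => absurd rfl h, fun hB => ?_⟩
    have e : (0 : F[X]) ^ 3 * P₀ + B ^ 3 * P₁ = B ^ 3 * P₁ := by ring
    rw [e]
    exact ⟨mul_ne_zero (pow_ne_zero 3 hB) h1.ne_zero, (natDegree_cube_mul hB h1).ge⟩
  by_cases hB : B = 0
  · subst hB
    refine ⟨fun _ => ?_, fun h => absurd rfl h⟩
    have e : A ^ 3 * P₀ + (0 : F[X]) ^ 3 * P₁ = A ^ 3 * P₀ := by ring
    rw [e]
    exact ⟨mul_ne_zero (pow_ne_zero 3 hA) h0.ne_zero, (natDegree_cube_mul hA h0).ge⟩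
  have e0 := natDegree_cube_mul hA h0
  have e1 := natDegree_cube_mul hB h1
  have hd : (A ^ 3 * P₀).natDegree ≠ (B ^ 3 * P₁).natDegree := by
    rw [e0, e1]
    omega
  have hz : A ^ 3 * P₀ + B ^ 3 * P₁ ≠ 0 := by
    intro h
    apply hd
    rw [eq_neg_of_add_eq_zero_left h, natDegree_neg]
  have hle : 3 * A.natDegree + P₀.natDegree ≤ (A ^ 3 * P₀ + B ^ 3 * P₁).natDegree ∧
      3 * B.natDegree + P₁.natDegree ≤ (A ^ 3 * P₀ + B ^ 3 * P₁).natDegree := by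
    rcases lt_or_gt_of_ne hd with h | h
    · rw [natDegree_add_eq_right_of_natDegree_lt h]
      rw [e0, e1] at h
      rw [e1]
      omega
    · rw [natDegree_add_eq_left_of_natDegree_lt h]
      rw [e0, e1] at h
      rw [e0]
      omega
  exact ⟨fun _ => ⟨hz, hle.1⟩, fun _ => ⟨hz, hle.2⟩⟩

theorem main (F : Type) [Field F] [Fintype F] [CharP F 3] (hB0 : DH.S_B0 F) (hB1 : DH.S_B1 F)
    (hT2b : S_T2b F) (g s : ℕ) (f₀ v₁ v₂ P₀ P₁ : F[X]) (hf : f₀ ∈ CF F s) (hv₁ : v₁ ∈ KG F g f₀)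
    (hv₂ : v₂ ∈ KG F g f₀) (hind : Ind v₁ v₂) (h0 : P₀.Monic) (h1 : P₁.Monic)
    (hne : P₀.natDegree % 3 ≠ P₁.natDegree % 3) (hle : P₀.natDegree ≤ P₁.natDegree)
    (hsum : P₀.natDegree + P₁.natDegree = s + 1)
    (hk0 : derivative (derivative (f₀ * P₀)) = 0) (hk1 : derivative (derivative (f₀ * P₁)) = 0)
    (hrep : ∀ v : F[X], derivative (derivative (f₀ * v)) = 0 →
      ∃ A B : F[X], v = A ^ 3 * P₀ + B ^ 3 * P₁) :
    ∃ (a b : ℕ) (P₀ P₁ : F[X]), a ≤ b ∧ a + b = s + 1 ∧ b < g ∧ P₀ ∈ MON F a ∧ P₁ ∈ MON F b ∧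
      Mdeg f₀ a ∧
      (∃ c : F, c ≠ 0 ∧ derivative P₀ * P₁ - P₀ * derivative P₁ = C c * f₀) ∧
      ∀ v ∈ KG F g f₀, ∃ α ∈ POL F ((g - 1 - a) / 3 + 1), ∃ β ∈ POL F ((g - 1 - b) / 3 + 1),
        v = α ^ 3 * P₀ + β ^ 3 * P₁ := by
  have hKG : ∀ v ∈ KG F g f₀, v.degree < g ∧ derivative (derivative (f₀ * v)) = 0 := by
    intro v hv
    rw [KG, Finset.mem_filter] at hv
    exact ⟨(hB0.1 g v).mp hv.1, hv.2⟩
  have hdeg : ∀ v : F[X], v ≠ 0 → v.degree < g → v.natDegree < g := fun v h h' =>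
    (natDegree_lt_iff_degree_lt h).mpr h'
  have hcub : ∀ A : F[X], derivative (A ^ 3) = 0 := fun A => (hB1.1 _).mpr ⟨A, rfl⟩
  refine ⟨P₀.natDegree, P₁.natDegree, P₀, P₁, hle, hsum, ?_, (hB0.2.1 _ _).mpr ⟨h0, rfl⟩,
    (hB0.2.1 _ _).mpr ⟨h1, rfl⟩, ⟨⟨P₀, h0.ne_zero, rfl, hk0⟩, ?_⟩,
    hT2b s f₀ P₀ P₁ hf h0 h1 hne hsum hk0 hk1, ?_⟩
  · by_contra hbg
    have hz : ∀ v ∈ KG F g f₀, ∃ A : F[X], v = A ^ 3 * P₀ := by
      intro v hv
      obtain ⟨A, B, hAB⟩ := hrep v (hKG v hv).2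
      by_cases hB : B = 0
      · refine ⟨A, ?_⟩
        rw [hAB, hB]
        ring
      · exfalso
        obtain ⟨e1, e2⟩ := (degs h0 h1 hne A B).2 hB
        rw [← hAB] at e1 e2
        have := hdeg v e1 (hKG v hv).1
        omega
    obtain ⟨A₁, hA₁⟩ := hz v₁ hv₁
    obtain ⟨A₂, hA₂⟩ := hz v₂ hv₂
    apply hind
    rw [hA₁, hA₂, derivative_mul, derivative_mul, hcub, hcub]
    ring
  · intro v hv hkv
    obtain ⟨A, B, hAB⟩ := hrep v hkv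
    by_cases hA : A = 0
    · by_cases hB : B = 0
      · exfalso
        apply hv
        rw [hAB, hA, hB]
        ring
      · have e2 := ((degs h0 h1 hne A B).2 hB).2
        rw [← hAB] at e2
        omega
    · have e2 := ((degs h0 h1 hne A B).1 hA).2
      rw [← hAB] at e2
      omega
  · intro v hv
    obtain ⟨A, B, hAB⟩ := hrep v (hKG v hv).2
    refine ⟨A, ?_, B, ?_, hAB⟩
    · rw [hB0.1]
      by_cases hA : A = 0
      · rw [hA, degree_zero]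
        exact WithBot.bot_lt_coe _
      · obtain ⟨e1, e2⟩ := (degs h0 h1 hne A B).1 hA
        rw [← hAB] at e1 e2
        have e3 := hdeg v e1 (hKG v hv).1
        rw [← natDegree_lt_iff_degree_lt hA]
        omega
    · rw [hB0.1]
      by_cases hB : B = 0
      · rw [hB, degree_zero]
        exact WithBot.bot_lt_coe _
      · obtain ⟨e1, e2⟩ := (degs h0 h1 hne A B).2 hB
        rw [← hAB] at e1 e2
        have e3 := hdeg v e1 (hKG v hv).1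
        rw [← natDegree_lt_iff_degree_lt hB]
        omega

end XT2

theorem p_T2 (F : Type) [Field F] [Fintype F] [CharP F 3] (hB0 : DH.S_B0 F) (hB1 : DH.S_B1 F)
    (hT2a : S_T2a F) (hT2b : S_T2b F) : S_T2 F := by
  intro g s f₀ v₁ v₂ hf hv₁ hv₂ hind
  obtain ⟨Q₀, Q₁, h0, h1, hne, hsum, hk0, hk1, hrep⟩ := hT2a s f₀ hf
  rcases le_total Q₀.natDegree Q₁.natDegree with hle | hle
  · exact XT2.main F hB0 hB1 hT2b g s f₀ v₁ v₂ Q₀ Q₁ hf hv₁ hv₂ hind h0 h1 hne hle hsum hk0 hk1 hrep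
  · refine XT2.main F hB0 hB1 hT2b g s f₀ v₁ v₂ Q₁ Q₀ hf hv₁ hv₂ hind h1 h0 hne.symm hle
      (by omega) hk1 hk0 fun v hv => ?_
    obtain ⟨A, B, hAB⟩ := hrep v hv
    exact ⟨B, A, by rw [hAB, add_comm]⟩

end PP
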