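import Pool.Agent.H461.PP.Stm

/-! Project PP (helper461), statement T2a (helper719). -/

open Polynomial
open scoped Classical

noncomputable section

namespace PP

open DH

namespace XT2a

theorem der_cube {F : Type} [Field F] [CharP F 3] (A : F[X]) : derivative (A ^ 3) = 0 := by
  rw [derivative_pow, CharP.cast_eq_zero F 3, C_0, zero_mul, zero_mul]

theorem der2_cube {F : Type} [Field F] [CharP F 3] (A G : F[X])
    (h : derivative (derivative G) = 0) : derivative (derivative (A ^ 3 * G)) = 0 := by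
  rw [derivative_mul, der_cube, zero_mul, zero_add, derivative_mul, der_cube, zero_mul, zero_add,
    h, mul_zero]

theorem step {F : Type} [Field F] [Fintype F] [CharP F 3] {f₀ Q v : F[X]} (hQ : Q.Monic)
    (hfQ : derivative (derivative (f₀ * Q)) = 0) (hv : v ≠ 0)
    (hfv : derivative (derivative (f₀ * v)) = 0) (hd : Q.natDegree ≤ v.natDegree)
    (hm : v.natDegree % 3 = Q.natDegree % 3) :
    ∃ D : F[X], derivative (derivative (f₀ * (v - D ^ 3 * Q))) = 0 ∧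
      (v - D ^ 3 * Q).degree < v.degree := by
  have : Fact (Nat.Prime 3) := ⟨Nat.prime_three⟩
  obtain ⟨i, hi⟩ : ∃ i, v.natDegree = 3 * i + Q.natDegree :=
    ⟨(v.natDegree - Q.natDegree) / 3, by omega⟩
  obtain ⟨μ, hμ⟩ := Finite.injective_iff_surjective.1 (frobenius_inj F 3) v.leadingCoeff
  rw [frobenius_def] at hμ
  have hlc : v.leadingCoeff ≠ 0 := leadingCoeff_ne_zero.2 hv
  have hμ0 : μ ≠ 0 := by
    rintro rfl
    apply hlc
    rw [← hμ]
    norm_num
  have hD0 : (C μ * X ^ i : F[X]) ≠ 0 := by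
    rw [← leadingCoeff_ne_zero, leadingCoeff_C_mul_X_pow]
    exact hμ0
  have hDQ0 : (C μ * X ^ i : F[X]) ^ 3 * Q ≠ 0 := mul_ne_zero (pow_ne_zero _ hD0) hQ.ne_zero
  refine ⟨C μ * X ^ i, ?_, ?_⟩
  · have e : f₀ * (v - (C μ * X ^ i) ^ 3 * Q) = f₀ * v - (C μ * X ^ i) ^ 3 * (f₀ * Q) := by ring
    rw [e, derivative_sub, derivative_sub, hfv, der2_cube _ _ hfQ, sub_zero]
  · refine degree_sub_lt_left ?_ hv ?_
    · rw [degree_eq_natDegree hv, degree_eq_natDegree hDQ0, natDegree_mul (pow_ne_zero _ hD0)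
        hQ.ne_zero, natDegree_pow, natDegree_C_mul_X_pow i μ hμ0, hi]
    · rw [leadingCoeff_mul, leadingCoeff_pow, leadingCoeff_C_mul_X_pow, hQ.leadingCoeff, mul_one,
        hμ]

end XT2a

open XT2a in
theorem p_T2a (F : Type) [Field F] [Fintype F] [CharP F 3] (hB0 : DH.S_B0 F)
    (hB3 : DH.S_B3 F) : S_T2a F := by
  have : Fact (Nat.Prime 3) := ⟨Nat.prime_three⟩
  intro s f₀ hf
  obtain ⟨hf1, hcf⟩ := Finset.mem_filter.1 hf
  obtain ⟨hmon, hdeg⟩ := (hB0.2.1 s f₀).1 hf1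
  have hf0 : f₀ ≠ 0 := hmon.ne_zero
  obtain ⟨k₀, k₁, hk0, hk1, ⟨m₀, hm0⟩, ⟨m₁, hm1⟩, hk0', hk1', hr0, hr1, hsum, hall⟩ :=
    hB3 f₀ hf0 hcf
  have hm0' : m₀ ≠ 0 := by
    rintro rfl
    exact hk0' (by rw [hm0, mul_zero])
  have hm1' : m₁ ≠ 0 := by
    rintro rfl
    exact hk1' (by rw [hm1, mul_zero])
  have hd0 : k₀.natDegree = s + m₀.natDegree := by rw [hm0, natDegree_mul hf0 hm0', hdeg]
  have hd1 : k₁.natDegree = s + m₁.natDegree := by rw [hm1, natDegree_mul hf0 hm1', hdeg]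
  have hdQ : ∀ m : F[X], m ≠ 0 → (m * C m.leadingCoeff⁻¹).natDegree = m.natDegree := fun m hm =>
    natDegree_mul_C (inv_ne_zero (leadingCoeff_ne_zero.2 hm))
  have hQd : ∀ m k : F[X], k = f₀ * m → derivative (derivative k) = 0 →
      derivative (derivative (f₀ * (m * C m.leadingCoeff⁻¹))) = 0 := by
    intro m k hk h
    rw [← mul_assoc, ← hk, derivative_mul, derivative_C, mul_zero, add_zero, derivative_mul,
      derivative_C, mul_zero, add_zero, h, zero_mul]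
  rw [hdeg] at hsum
  refine ⟨m₀ * C m₀.leadingCoeff⁻¹, m₁ * C m₁.leadingCoeff⁻¹, monic_mul_leadingCoeff_inv hm0',
    monic_mul_leadingCoeff_inv hm1', ?_, ?_, hQd m₀ k₀ hm0 hk0, hQd m₁ k₁ hm1 hk1, ?_⟩
  · rw [hdQ m₀ hm0', hdQ m₁ hm1']
    omega
  · rw [hdQ m₀ hm0', hdQ m₁ hm1']
    omega
  have key : ∀ n : ℕ, ∀ v : F[X], v.natDegree = n → derivative (derivative (f₀ * v)) = 0 →
      ∃ A B : F[X], v = A ^ 3 * (m₀ * C m₀.leadingCoeff⁻¹) +
        B ^ 3 * (m₁ * C m₁.leadingCoeff⁻¹) := by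
    intro n
    induction n using Nat.strong_induction_on with
    | _ n ih =>
      intro v hvn hfv
      by_cases hv : v = 0
      · exact ⟨0, 0, by rw [hv]; ring⟩
      have hG := hall (f₀ * v) (mul_ne_zero hf0 hv) hfv ⟨v, rfl⟩
      rw [natDegree_mul hf0 hv, hdeg] at hG
      rcases hG with ⟨h1, h2⟩ | ⟨h1, h2⟩
      · obtain ⟨D, hD1, hD2⟩ := step (monic_mul_leadingCoeff_inv hm0') (hQd m₀ k₀ hm0 hk0) hv hfv
          (by rw [hdQ m₀ hm0']; omega) (by rw [hdQ m₀ hm0']; omega)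
        by_cases hz : v - D ^ 3 * (m₀ * C m₀.leadingCoeff⁻¹) = 0
        · refine ⟨D, 0, ?_⟩
          rw [sub_eq_zero.1 hz]
          ring
        · obtain ⟨A, B, hAB⟩ := ih _ (hvn ▸ natDegree_lt_natDegree hz hD2) _ rfl hD1
          refine ⟨A + D, B, ?_⟩
          rw [add_pow_char (p := 3), add_mul, add_right_comm, ← hAB]
          ring
      · obtain ⟨D, hD1, hD2⟩ := step (monic_mul_leadingCoeff_inv hm1') (hQd m₁ k₁ hm1 hk1) hv hfv
          (by rw [hdQ m₁ hm1']; omega) (by rw [hdQ m₁ hm1']; omega)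
        by_cases hz : v - D ^ 3 * (m₁ * C m₁.leadingCoeff⁻¹) = 0
        · refine ⟨0, D, ?_⟩
          rw [sub_eq_zero.1 hz]
          ring
        · obtain ⟨A, B, hAB⟩ := ih _ (hvn ▸ natDegree_lt_natDegree hz hD2) _ rfl hD1
          refine ⟨A, B + D, ?_⟩
          rw [add_pow_char (p := 3), add_mul, ← add_assoc, ← hAB]
          ring
  intro v hv
  exact key _ v rfl hv

end PP
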