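import Pool.Agent.H461.PP.Stm

/-!
# PP, T2b: the Wronskian of `Q₀, Q₁` is a constant times `f₀`  (helper696)
-/

set_option linter.unusedSectionVars false

open Polynomial
open scoped Classical

noncomputable section

namespace PP

open DH

namespace XT2b

variable {F : Type} [Field F] [Fintype F] [CharP F 3]

/-- the coefficient of `Q' R` in degree `s`, `deg Q + deg R = s + 1` -/
theorem co {Q R : F[X]} {s : ℕ} (hQ : Q.Monic) (hR : R.Monic)
    (hs : Q.natDegree + R.natDegree = s + 1) :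
    (derivative Q * R).natDegree ≤ s ∧ (derivative Q * R).coeff s = (Q.natDegree : F) := by
  rcases Nat.eq_zero_or_pos Q.natDegree with h | h
  · have h1 : derivative Q = 0 := by
      rw [Polynomial.eq_C_of_natDegree_eq_zero h, derivative_C]
    rw [h1, zero_mul, h, natDegree_zero, coeff_zero, Nat.cast_zero]
    exact ⟨Nat.zero_le _, rfl⟩
  · obtain ⟨a, ha⟩ : ∃ a, Q.natDegree = a + 1 := ⟨Q.natDegree - 1, by omega⟩
    have hd : (derivative Q).natDegree ≤ a := by
      have := natDegree_derivative_le Q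
      omega
    have hs' : s = a + R.natDegree := by omega
    constructor
    · rw [hs']
      exact natDegree_mul_le_of_le hd le_rfl
    · rw [hs', coeff_mul_add_eq_of_natDegree_le hd le_rfl, coeff_derivative, ← ha,
        hQ.coeff_natDegree, hR.coeff_natDegree, ha]
      push_cast
      ring

theorem three : (3 : F[X]) = 0 := by
  have h : ((3 : ℕ) : F[X]) = 0 := CharP.cast_eq_zero F[X] 3
  exact_mod_cast h

/-- the Wronskian is a solution of the same equations -/
theorem wr (h3 : ∀ G : F[X], derivative (derivative (derivative G)) = 0) (P Q : F[X]) :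
    derivative (derivative ((derivative P * Q - P * derivative Q) * P)) = 0 ∧
      derivative (derivative ((derivative P * Q - P * derivative Q) * Q)) = 0 := by
  have hP := h3 P
  have hQ := h3 Q
  have ht : (3 : F[X]) = 0 := three
  constructor
  · simp only [derivative_mul, map_sub, map_add, hP, hQ]
    linear_combination (derivative (derivative P) * derivative P * Q -
      P * derivative P * derivative (derivative Q)) * ht
  · simp only [derivative_mul, map_sub, map_add, hP, hQ]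
    linear_combination (derivative (derivative P) * derivative Q * Q -
      P * derivative Q * derivative (derivative Q)) * ht

end XT2b

open XT2b in
theorem p_T2b (F : Type) [Field F] [Fintype F] [CharP F 3] (hB0 : DH.S_B0 F) (hB1 : DH.S_B1 F)
    (hG1 : DH.S_G1 F) : S_T2b F := by
  intro s f₀ Q₀ Q₁ hf hQ₀ hQ₁ hmod hs h0 h1
  obtain ⟨hf1, hf2⟩ := Finset.mem_filter.1 hf
  obtain ⟨hfm, hfd⟩ := (hB0.2.1 s f₀).1 hf1
  have h3 := hB1.2.2.1
  obtain ⟨w, hw⟩ : ∃ w : F[X], w = derivative Q₀ * Q₁ - Q₀ * derivative Q₁ := ⟨_, rfl⟩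
  obtain ⟨a1, a2⟩ := co hQ₀ hQ₁ hs
  obtain ⟨b1, b2⟩ := co hQ₁ hQ₀ (by omega : Q₁.natDegree + Q₀.natDegree = s + 1)
  have hwe : w = derivative Q₀ * Q₁ - derivative Q₁ * Q₀ := by rw [hw]; ring
  have hcne : w.coeff s ≠ 0 := by
    rw [hwe, coeff_sub, a2, b2]
    intro h
    apply hmod
    exact (CharP.natCast_eq_natCast F 3).1 (sub_eq_zero.1 h)
  have hwd : w.natDegree = s := by
    apply natDegree_eq_of_le_of_coeff_ne_zero _ hcne
    rw [hwe]
    exact (natDegree_sub_le _ _).trans (max_le a1 b1)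
  have hw0 : w ≠ 0 := by
    intro h
    rw [h, coeff_zero] at hcne
    exact hcne rfl
  have hind : derivative Q₀ * Q₁ ≠ Q₀ * derivative Q₁ := by
    intro h
    apply hw0
    rw [hw, h, sub_self]
  obtain ⟨f₁, hf1m, -, -, hall⟩ := hG1 Q₀ Q₁ f₀ hind hfm.ne_zero h0 h1
  obtain ⟨c, hc⟩ := (hall f₀).1 ⟨h0, h1⟩
  obtain ⟨e, he⟩ := (hall w).1 (by rw [hw]; exact wr h3 Q₀ Q₁)
  have hcu : IsUnit c := hf2 c ⟨f₁, by rw [hc]; ring⟩
  obtain ⟨γ, hγ, hγc⟩ := Polynomial.isUnit_iff.1 hcu
  have hγ0 : γ ≠ 0 := hγ.ne_zero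
  have hfγ : f₀ = C (γ ^ 3) * f₁ := by
    rw [hc, ← hγc, C_pow]
    ring
  have hd1 : f₁.natDegree = s := by
    rw [← hfd, hfγ, natDegree_C_mul (pow_ne_zero 3 hγ0)]
  have he0 : e ≠ 0 := by
    intro h
    rw [h] at he
    apply hw0
    rw [he]
    ring
  have hed : e.natDegree = 0 := by
    have h := congrArg natDegree he
    rw [hwd, natDegree_mul hf1m.ne_zero (pow_ne_zero 3 he0), natDegree_pow, hd1] at h
    omega
  obtain ⟨ε, hε⟩ : ∃ ε : F, e = C ε := ⟨_, Polynomial.eq_C_of_natDegree_eq_zero hed⟩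
  have hε0 : ε ≠ 0 := by
    intro h
    apply he0
    rw [hε, h, C_0]
  refine ⟨ε ^ 3 * (γ ^ 3)⁻¹, mul_ne_zero (pow_ne_zero 3 hε0) (inv_ne_zero (pow_ne_zero 3 hγ0)), ?_⟩
  rw [← hw, he, hε, hfγ, ← mul_assoc, ← C_mul, mul_assoc (ε ^ 3), inv_mul_cancel₀ (pow_ne_zero 3 hγ0),
    mul_one, C_pow]
  ring

end PP
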