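import Pool.Agent.H461.PP.Stm

open Polynomial
open scoped Classical

noncomputable section

namespace PP

open DH

namespace XT3

/-- The cofactors of the gcd. -/
theorem cof {F : Type} [Field F] (m H : F[X]) (hH : H ≠ 0) :
    ∃ k m₁ H₁ : F[X], k = EuclideanDomain.gcd m H ∧ k ≠ 0 ∧ m = k * m₁ ∧ H = k * H₁ ∧ H₁ ≠ 0 ∧
      IsCoprime H₁ m₁ := by
  obtain ⟨m₁, hm⟩ := EuclideanDomain.gcd_dvd_left m H
  obtain ⟨H₁, hH1⟩ := EuclideanDomain.gcd_dvd_right m H
  have hk : EuclideanDomain.gcd m H ≠ 0 := by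
    intro h0
    rw [h0, zero_mul] at hH1
    exact hH hH1
  have hH₁ : H₁ ≠ 0 := by
    intro h0
    rw [h0, mul_zero] at hH1
    exact hH hH1
  refine ⟨EuclideanDomain.gcd m H, m₁, H₁, rfl, hk, hm, hH1, hH₁, ?_⟩
  have hb := EuclideanDomain.gcd_eq_gcd_ab m H
  refine ⟨EuclideanDomain.gcdB m H, EuclideanDomain.gcdA m H, ?_⟩
  apply mul_left_cancel₀ hk
  calc EuclideanDomain.gcd m H * (EuclideanDomain.gcdB m H * H₁ + EuclideanDomain.gcdA m H * m₁)
      = (EuclideanDomain.gcd m H * m₁) * EuclideanDomain.gcdA m H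
        + (EuclideanDomain.gcd m H * H₁) * EuclideanDomain.gcdB m H := by ring
    _ = m * EuclideanDomain.gcdA m H + H * EuclideanDomain.gcdB m H := by rw [← hm, ← hH1]
    _ = EuclideanDomain.gcd m H := hb.symm
    _ = EuclideanDomain.gcd m H * 1 := (mul_one _).symm

/-- Two `P` with `H ∣ m P + r` differ by a multiple of `H₁`. -/
theorem dvdsub {F : Type} [Field F] (k m₁ H₁ r P P₀ : F[X]) (hk : k ≠ 0) (hc : IsCoprime H₁ m₁)
    (h : k * H₁ ∣ k * m₁ * P + r) (h₀ : k * H₁ ∣ k * m₁ * P₀ + r) : H₁ ∣ P - P₀ := by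
  have h1 : k * H₁ ∣ k * (m₁ * (P - P₀)) := by
    have := _root_.dvd_sub h h₀
    have e : k * m₁ * P + r - (k * m₁ * P₀ + r) = k * (m₁ * (P - P₀)) := by ring
    rwa [e] at this
  have h2 : H₁ ∣ m₁ * (P - P₀) := (mul_dvd_mul_iff_left hk).1 h1
  exact hc.dvd_of_dvd_mul_left h2

end XT3

theorem p_T3 (F : Type) [Field F] [Fintype F] [CharP F 3] (hB0 : DH.S_B0 F) : S_T3 F := by
  obtain ⟨b1, b2, _, b4, _, _⟩ := hB0
  intro a m r H hH
  obtain ⟨k, m₁, H₁, hk', hk, hm, hHk, hH₁, hc⟩ := XT3.cof m H hH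
  rw [← hk']
  have hq : (0 : ℝ) < qq F := by
    unfold qq
    exact_mod_cast Fintype.card_pos
  have hdeg : H.natDegree = k.natDegree + H₁.natDegree := by
    rw [hHk, natDegree_mul hk hH₁]
  have hpos : (0 : ℝ) ≤ qq F ^ (a + k.natDegree) / qq F ^ H.natDegree := by positivity
  set S : Finset F[X] := (MON F a).filter (fun P => H ∣ m * P + r) with hS
  rcases S.eq_empty_or_nonempty with h0 | ⟨P₀, hP₀⟩
  · rw [h0, Finset.card_empty, Nat.cast_zero]
    linarith
  have hP₀' := hP₀
  rw [hS, Finset.mem_filter, b2] at hP₀'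
  obtain ⟨⟨hM₀, hd₀⟩, hdv₀⟩ := hP₀'
  have key : ∀ P ∈ S, H₁ ∣ P - P₀ ∧ (P - P₀).degree < a := by
    intro P hP
    rw [hS, Finset.mem_filter, b2] at hP
    obtain ⟨⟨hM, hd⟩, hdv⟩ := hP
    constructor
    · rw [hm, hHk] at hdv hdv₀
      exact XT3.dvdsub k m₁ H₁ r P P₀ hk hc hdv hdv₀
    · have h1 : P.degree = (a : WithBot ℕ) := by
        rw [degree_eq_natDegree hM.ne_zero, hd]
      have h2 : P₀.degree = (a : WithBot ℕ) := by
        rw [degree_eq_natDegree hM₀.ne_zero, hd₀]
      have h3 := degree_sub_lt_left (h1.trans h2.symm) hM.ne_zero (by rw [hM.leadingCoeff, hM₀.leadingCoeff])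
      rwa [h1] at h3
  rcases le_or_gt a H₁.natDegree with hle | hlt
  · -- only one `P`
    have hsub : S ⊆ {P₀} := by
      intro P hP
      obtain ⟨h1, h2⟩ := key P hP
      rw [Finset.mem_singleton]
      by_contra hne
      have hne' : P - P₀ ≠ 0 := sub_ne_zero.2 hne
      have h3 := natDegree_le_of_dvd h1 hne'
      rw [degree_eq_natDegree hne'] at h2
      have h4 : (P - P₀).natDegree < a := by exact_mod_cast h2
      omega
    have hc1 : S.card ≤ 1 := (Finset.card_le_card hsub).trans (by rw [Finset.card_singleton])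
    have hc2 : (S.card : ℝ) ≤ 1 := by exact_mod_cast hc1
    linarith
  · have hsub : S ⊆ (POL F (a - H₁.natDegree)).image (fun D => P₀ + H₁ * D) := by
      intro P hP
      obtain ⟨⟨D, hD⟩, h2⟩ := key P hP
      rw [Finset.mem_image]
      refine ⟨D, ?_, ?_⟩
      · rw [b1]
        by_cases hD0 : D = 0
        · rw [hD0, degree_zero]
          exact WithBot.bot_lt_coe _
        · rw [hD, degree_mul, degree_eq_natDegree hH₁, degree_eq_natDegree hD0] at h2
          rw [degree_eq_natDegree hD0]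
          have h3 : H₁.natDegree + D.natDegree < a := by exact_mod_cast h2
          have h4 : D.natDegree < a - H₁.natDegree := by omega
          exact_mod_cast h4
      · rw [← hD]
        ring
    have hc1 : S.card ≤ Fintype.card F ^ (a - H₁.natDegree) := by
      refine (Finset.card_le_card hsub).trans (Finset.card_image_le.trans ?_)
      rw [b4]
    have hc2 : (S.card : ℝ) ≤ qq F ^ (a - H₁.natDegree) := by
      unfold qq
      exact_mod_cast hc1
    have he : qq F ^ (a + k.natDegree) / qq F ^ H.natDegree = qq F ^ (a - H₁.natDegree) := by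
      rw [div_eq_iff (pow_ne_zero _ hq.ne'), ← pow_add]
      congr 1
      omega
    rw [he]
    linarith

end PP
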