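import Pool.Agent.H461.PP.Stm

open Polynomial
open scoped Classical

noncomputable section

namespace PP

open DH

namespace XT4

variable {F : Type} [Field F] [Fintype F] [CharP F 3]

lemma mem_of_filter {α : Type} (p : α → Prop) (inst : DecidablePred p) (s : Finset α) (x : α)
    (h : x ∈ @Finset.filter α p inst s) : x ∈ s ∧ p x :=
  Finset.mem_filter.1 h

/-- `w` made monic. -/
def nrm {F : Type} [Field F] (w : F[X]) : F[X] := C (w.leadingCoeff⁻¹) * w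

omit [Fintype F] [CharP F 3] in
lemma nrm_eq (c : F) (f : F[X]) (hc : c ≠ 0) (hf : f.Monic) : nrm (C c * f) = f := by
  unfold nrm
  have h1 : (C c * f).leadingCoeff = c := by
    rw [leadingCoeff_mul, hf.leadingCoeff, leadingCoeff_C, mul_one]
  rw [h1, ← mul_assoc, ← C_mul, inv_mul_cancel₀ hc, C_1, one_mul]

omit [Fintype F] in
lemma three_zero : (3 : F[X]) = 0 := by
  have h := CharP.cast_eq_zero F[X] 3
  exact_mod_cast h

omit [Fintype F] in
lemma der_cube (A P : F[X]) : derivative (A ^ 3 * P) = A ^ 3 * derivative P := by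
  have h3 : (3 : F[X]) = 0 := three_zero
  have h : derivative (A ^ 3) = 3 * (A ^ 2 * derivative A) := by
    have e : A ^ 3 = A * A * A := by ring
    rw [e, derivative_mul, derivative_mul]
    ring
  rw [derivative_mul, h, h3, zero_mul, zero_mul, zero_add]

omit [Fintype F] in
lemma H_ne (P₀ P₁ α β α' β' : F[X])
    (h : Ind (α ^ 3 * P₀ + β ^ 3 * P₁) (α' ^ 3 * P₀ + β' ^ 3 * P₁)) :
    α * β' - α' * β ≠ 0 := by
  intro h0
  apply h
  have e : α * β' = α' * β := sub_eq_zero.1 h0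
  have e3 : α ^ 3 * β' ^ 3 = α' ^ 3 * β ^ 3 := by
    rw [← mul_pow, e, mul_pow]
  rw [derivative_add, derivative_add, der_cube, der_cube, der_cube, der_cube]
  linear_combination (derivative P₀ * P₁ - P₀ * derivative P₁) * e3

omit [Fintype F] [CharP F 3] in
lemma mdeg_unique (f : F[X]) (a b : ℕ) (ha : Mdeg f a) (hb : Mdeg f b) : a = b := by
  obtain ⟨⟨v, hv0, hva, hv⟩, h1⟩ := ha
  obtain ⟨⟨w, hw0, hwb, hw⟩, h2⟩ := hb
  have i1 := h1 w hw0 hw
  have i2 := h2 v hv0 hv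
  omega

/-- The map `(u, P₁, P₀) ↦ (f₀, (v₁, v₂))`. -/
def GG {F : Type} [Field F] (x : Σ _ : ((F[X] × F[X]) × (F[X] × F[X])) × F[X], F[X]) : Σ _ : F[X], F[X] × F[X] :=
  ⟨nrm (derivative x.2 * x.1.2 - x.2 * derivative x.1.2),
    (x.1.1.1.1 ^ 3 * x.2 + x.1.1.1.2 ^ 3 * x.1.2, x.1.1.2.1 ^ 3 * x.2 + x.1.1.2.2 ^ 3 * x.1.2)⟩

/-- The set of the `P₀`. -/
def PP0 (a : ℕ) (x : ((F[X] × F[X]) × (F[X] × F[X])) × F[X]) : Finset F[X] :=
  (MON F a).filter (fun P => HH x.1 ∣ MM x.1 * P + (x.1.1.1 * x.1.2.2 ^ 3 - x.1.2.1 * x.1.1.2 ^ 3) * x.2)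

/-- The triples `(u, P₁, P₀)`. -/
def TT (a b l₀ l₁ : ℕ) : Finset (Σ _ : ((F[X] × F[X]) × (F[X] × F[X])) × F[X], F[X]) :=
  (((UU F l₀ l₁).filter (fun u => HH u ≠ 0)) ×ˢ (MON F b)).sigma (fun x => PP0 a x)

lemma cover (hB0 : DH.S_B0 F) (hT1 : S_T1 F) (hT2 : S_T2 F) (g s a b : ℕ) (hab : a + b = s + 1) :
    ((CF F s).filter (fun f₀ => Mdeg f₀ a)).sigma (fun f₀ => PRS F g f₀) ⊆
      (TT a b ((g - 1 - a) / 3) ((g - 1 - b) / 3)).image (GG (F := F)) := by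
  rintro ⟨f₀, v₁, v₂⟩ hx
  rw [Finset.mem_sigma] at hx
  obtain ⟨hf, hp⟩ := hx
  simp only at hf hp
  rw [Finset.mem_filter] at hf
  obtain ⟨hf, hm⟩ := hf
  unfold PRS at hp
  obtain ⟨hp1, hI, f, -, hs1, hs2⟩ := mem_of_filter _ _ _ _ hp
  obtain ⟨h1, h2⟩ := Finset.mem_product.1 hp1
  simp only at h1 h2 hI hs1 hs2
  obtain ⟨a', b', P₀, P₁, -, hab', -, hP0, hP1, hm', ⟨c, hc, hW⟩, hall⟩ := hT2 g s f₀ v₁ v₂ hf h1 h2 hI
  have ea : a' = a := mdeg_unique f₀ a' a hm' hm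
  subst ea
  have eb : b' = b := by omega
  subst eb
  obtain ⟨α, hα, β, hβ, e1⟩ := hall v₁ h1
  obtain ⟨α', hα', β', hβ', e2⟩ := hall v₂ h2
  rw [e1] at hs1 hI
  rw [e2] at hs2 hI
  have hH := H_ne P₀ P₁ α β α' β' hI
  have hd := hT1 f P₀ P₁ α β α' β' hs1 hs2
  have hfm : f₀.Monic := by
    unfold CF at hf
    rw [Finset.mem_filter] at hf
    exact ((hB0.2.1 s f₀).1 hf.1).1
  rw [Finset.mem_image]
  refine ⟨⟨(((α, β), (α', β')), P₁), P₀⟩, ?_, ?_⟩
  · unfold TT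
    rw [Finset.mem_sigma]
    refine ⟨?_, ?_⟩
    · rw [Finset.mem_product]
      refine ⟨?_, hP1⟩
      rw [Finset.mem_filter]
      refine ⟨?_, hH⟩
      unfold UU
      rw [Finset.mem_product, Finset.mem_product, Finset.mem_product]
      exact ⟨⟨hα, hβ⟩, ⟨hα', hβ'⟩⟩
    · unfold PP0
      rw [Finset.mem_filter]
      exact ⟨hP0, hd⟩
  · unfold GG
    simp only
    rw [hW, nrm_eq c f₀ hc hfm, ← e1, ← e2]

omit [CharP F 3] in
lemma card_UU (hB0 : DH.S_B0 F) (l₀ l₁ : ℕ) :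
    ((UU F l₀ l₁).card : ℝ) = qq F ^ (2 * (l₀ + l₁) + 4) := by
  unfold UU qq
  rw [Finset.card_product, Finset.card_product, hB0.2.2.2.1, hB0.2.2.2.1]
  push_cast
  ring

end XT4

open XT4

theorem p_T4 (F : Type) [Field F] [Fintype F] [CharP F 3] (hB0 : DH.S_B0 F) (hT1 : S_T1 F)
    (hT2 : S_T2 F) (hT3 : S_T3 F) : S_T4 F := by
  intro g s a b _ hab _
  have hq : 0 < qq F := by
    unfold qq
    exact_mod_cast Fintype.card_pos
  have hcov := Finset.card_le_card (cover hB0 hT1 hT2 g s a b hab)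
  have himg := hcov.trans Finset.card_image_le
  unfold TT at himg
  rw [Finset.card_sigma, Finset.card_sigma, Finset.sum_product] at himg
  generalize (g - 1 - a) / 3 = l₀ at himg ⊢
  generalize (g - 1 - b) / 3 = l₁ at himg ⊢
  have himg' : ∑ f₀ ∈ (CF F s).filter (fun f₀ => Mdeg f₀ a), ((PRS F g f₀).card : ℝ) ≤
      ∑ u ∈ (UU F l₀ l₁).filter (fun u => HH u ≠ 0), ∑ P ∈ MON F b, ((PP0 a (u, P)).card : ℝ) := by
    exact_mod_cast himg
  refine himg'.trans ?_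
  have hstep : ∀ u ∈ (UU F l₀ l₁).filter (fun u => HH u ≠ 0),
      ∑ P ∈ MON F b, ((PP0 a (u, P)).card : ℝ) ≤
        qq F ^ b + qq F ^ (s + 1) * (qq F ^ (dg u) / qq F ^ (HH u).natDegree) := by
    intro u hu
    rw [Finset.mem_filter] at hu
    have h1 : ∀ P ∈ MON F b, ((PP0 a (u, P)).card : ℝ) ≤
        1 + qq F ^ (a + dg u) / qq F ^ (HH u).natDegree := by
      intro P _
      exact hT3 a (MM u) ((u.1.1 * u.2.2 ^ 3 - u.2.1 * u.1.2 ^ 3) * P) (HH u) hu.2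
    refine (Finset.sum_le_sum h1).trans ?_
    rw [Finset.sum_const, hB0.2.2.2.2.1, nsmul_eq_mul]
    have e : ((Fintype.card F ^ b : ℕ) : ℝ) = qq F ^ b := by
      unfold qq
      push_cast
      rfl
    rw [e, ← hab]
    apply le_of_eq
    rw [pow_add, pow_add]
    ring
  refine (Finset.sum_le_sum hstep).trans ?_
  rw [Finset.sum_add_distrib, Finset.sum_const, nsmul_eq_mul, ← Finset.mul_sum]
  unfold SS
  refine add_le_add ?_ le_rfl
  rw [mul_comm]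
  refine mul_le_mul_of_nonneg_left ?_ (by positivity)
  rw [← card_UU hB0]
  exact_mod_cast Finset.card_filter_le _ _

end PP
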