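import Pool.Agent.H461.PP.Stm

/-! # PP T5: the bound for the sum SS -/

set_option autoImplicit false

open Polynomial
open scoped Classical

noncomputable section

namespace PP

open DH

namespace XT5

lemma dg_le {F : Type} [Field F] (u : (F[X] × F[X]) × (F[X] × F[X])) (h : HH u ≠ 0) :
    dg u ≤ (HH u).natDegree :=
  Polynomial.natDegree_le_of_dvd (EuclideanDomain.gcd_dvd_right _ _) h

lemma card_UU (F : Type) [Field F] [Fintype F] [CharP F 3] (hB0 : S_B0 F) (l₀ l₁ : ℕ) :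
    (UU F l₀ l₁).card = Fintype.card F ^ (2 * (l₀ + l₁) + 4) := by
  unfold UU
  rw [Finset.card_product, Finset.card_product, hB0.2.2.2.1, hB0.2.2.2.1]
  ring

/-- the bad sets -/
def P1 {F : Type} [Field F] (u : (F[X] × F[X]) × (F[X] × F[X])) : Prop := MM u = 0
def P2 {F : Type} [Field F] (u : (F[X] × F[X]) × (F[X] × F[X])) : Prop :=
  u.1.2 = 0 ∨ u.2.2 = 0 ∨ u.2.2 = u.1.2 ∨ u.2.2 = - u.1.2
def P3 {F : Type} [Field F] (j : ℕ) (u : (F[X] × F[X]) × (F[X] × F[X])) : Prop :=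
  u.1.2 ≠ 0 ∧ (HH u).natDegree ≤ j
def P4 {F : Type} [Field F] (k : ℕ) (u : (F[X] × F[X]) × (F[X] × F[X])) : Prop :=
  MM u ≠ 0 ∧ HH u ≠ 0 ∧ u.1.2 ≠ 0 ∧ u.2.2 ≠ 0 ∧ u.2.2 ≠ u.1.2 ∧ u.2.2 ≠ - u.1.2 ∧ 4 * k + 1 ≤ dg u

/-- the majorant of one term -/
def gm {F : Type} [Field F] (j k : ℕ) (c : ℝ) (u : (F[X] × F[X]) × (F[X] × F[X])) : ℝ :=
  (if P1 u then 1 else 0) + (if P2 u then 1 else 0) + (if P3 j u then 1 else 0) +
    (if P4 k u then 1 else 0) + c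

lemma gm_nonneg {F : Type} [Field F] (j k : ℕ) (c : ℝ) (hc : 0 ≤ c)
    (u : (F[X] × F[X]) × (F[X] × F[X])) : 0 ≤ gm j k c u := by
  unfold gm
  split_ifs <;> linarith

lemma term_le {F : Type} [Field F] (Q : ℝ) (hQ : 1 ≤ Q) (j k : ℕ) (hjk : 5 * k ≤ j + 1)
    (u : (F[X] × F[X]) × (F[X] × F[X])) (hH : HH u ≠ 0) :
    Q ^ (dg u) / Q ^ (HH u).natDegree ≤ gm j k (1 / Q ^ k) u := by
  have hQ0 : 0 < Q := by linarith
  have hle1 : Q ^ (dg u) / Q ^ (HH u).natDegree ≤ 1 := by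
    rw [div_le_one (by positivity)]
    exact pow_le_pow_right₀ hQ (dg_le u hH)
  have hpk : 0 ≤ 1 / Q ^ k := by positivity
  by_cases h1 : P1 u
  · unfold gm
    rw [if_pos h1]
    split_ifs <;> linarith
  by_cases h2 : P2 u
  · unfold gm
    rw [if_pos h2]
    split_ifs <;> linarith
  by_cases h3 : P3 j u
  · unfold gm
    rw [if_pos h3]
    split_ifs <;> linarith
  by_cases h4 : P4 k u
  · unfold gm
    rw [if_pos h4]
    split_ifs <;> linarith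
  have hgm : gm j k (1 / Q ^ k) u = 1 / Q ^ k := by
    unfold gm
    rw [if_neg h1, if_neg h2, if_neg h3, if_neg h4]
    ring
  rw [hgm]
  unfold P2 at h2
  push Not at h2
  obtain ⟨hb1, hb2, hb3, hb4⟩ := h2
  have hdeg : j + 1 ≤ (HH u).natDegree := by
    by_contra hlt
    exact h3 ⟨hb1, by omega⟩
  have hdg : dg u ≤ 4 * k := by
    by_contra hlt
    exact h4 ⟨h1, hH, hb1, hb2, hb3, hb4, by omega⟩
  rw [div_le_div_iff₀ (by positivity) (by positivity), one_mul, ← pow_add]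
  exact pow_le_pow_right₀ hQ (by omega)

end XT5

open XT5 in
theorem p_T5 (F : Type) [Field F] [Fintype F] [CharP F 3] (hB0 : DH.S_B0 F) (hT5a : S_T5a F)
    (hT5c : S_T5c F) : S_T5 F := by
  intro l₀ l₁ hl
  have hQ1 : (1:ℝ) ≤ qq F := by
    unfold qq
    exact_mod_cast (Fintype.card_pos (α := F))
  obtain ⟨k, hk⟩ : ∃ k, k = l₁ / 16 := ⟨_, rfl⟩
  obtain ⟨j, hj⟩ : ∃ j, j = l₁ / 2 := ⟨_, rfl⟩
  rw [← hk]
  obtain ⟨ha1, ha2, ha3⟩ := hT5a l₀ l₁
  have ha3 := ha3 j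
  have hc := hT5c l₀ l₁ k
  have hU := card_UU F hB0 l₀ l₁
  have hsum : SS F l₀ l₁ ≤
      (((UU F l₀ l₁).filter (fun u => P1 u)).card : ℝ) +
      (((UU F l₀ l₁).filter (fun u => P2 u)).card : ℝ) +
      (((UU F l₀ l₁).filter (fun u => P3 j u)).card : ℝ) +
      (((UU F l₀ l₁).filter (fun u => P4 k u)).card : ℝ) + ((UU F l₀ l₁).card : ℝ) * (1 / qq F ^ k) := by
    have h1 : SS F l₀ l₁ ≤ ∑ u ∈ (UU F l₀ l₁).filter (fun u => HH u ≠ 0), gm j k (1 / qq F ^ k) u := by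
      unfold SS
      refine Finset.sum_le_sum fun u hu => ?_
      exact term_le (qq F) hQ1 j k (by omega) u (Finset.mem_filter.mp hu).2
    have h2 : ∑ u ∈ (UU F l₀ l₁).filter (fun u => HH u ≠ 0), gm j k (1 / qq F ^ k) u ≤
        ∑ u ∈ UU F l₀ l₁, gm j k (1 / qq F ^ k) u :=
      Finset.sum_le_sum_of_subset_of_nonneg (Finset.filter_subset _ _)
        (fun u _ _ => gm_nonneg j k _ (by positivity) u)
    have h3 : ∑ u ∈ UU F l₀ l₁, gm j k (1 / qq F ^ k) u =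
      (((UU F l₀ l₁).filter (fun u => P1 u)).card : ℝ) +
      (((UU F l₀ l₁).filter (fun u => P2 u)).card : ℝ) +
      (((UU F l₀ l₁).filter (fun u => P3 j u)).card : ℝ) +
      (((UU F l₀ l₁).filter (fun u => P4 k u)).card : ℝ) +
        ((UU F l₀ l₁).card : ℝ) * (1 / qq F ^ k) := by
      unfold gm
      simp only [Finset.sum_add_distrib, Finset.sum_boole, Finset.sum_const, nsmul_eq_mul]
    rw [← h3]
    exact h1.trans h2
  have e1 : (((UU F l₀ l₁).filter (fun u => P1 u)).card : ℝ) ≤ 4 * qq F ^ (l₀ + 2 * l₁ + 3) := by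
    have h : (((UU F l₀ l₁).filter (fun u => P1 u)).card) ≤ 4 * Fintype.card F ^ (l₀ + 2 * l₁ + 3) := by
      refine le_trans (le_of_eq ?_) ha1
      congr 1
      ext u
      simp [P1]
    unfold qq
    exact_mod_cast h
  have e2 : (((UU F l₀ l₁).filter (fun u => P2 u)).card : ℝ) ≤ 4 * qq F ^ (2 * l₀ + l₁ + 3) := by
    have h : (((UU F l₀ l₁).filter (fun u => P2 u)).card) ≤ 4 * Fintype.card F ^ (2 * l₀ + l₁ + 3) := by
      refine le_trans (le_of_eq ?_) ha2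
      congr 1
      ext u
      simp [P2]
    unfold qq
    exact_mod_cast h
  have e3 : (((UU F l₀ l₁).filter (fun u => P3 j u)).card : ℝ) ≤ qq F ^ (l₀ + 2 * l₁ + j + 4) := by
    have h : (((UU F l₀ l₁).filter (fun u => P3 j u)).card) ≤ Fintype.card F ^ (l₀ + 2 * l₁ + j + 4) := by
      refine le_trans (le_of_eq ?_) ha3
      congr 1
      ext u
      simp [P3]
    unfold qq
    exact_mod_cast h
  have e4 : (((UU F l₀ l₁).filter (fun u => P4 k u)).card : ℝ) ≤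
      4 * qq F ^ (2 * (l₀ + l₁) + 4) * (3 * (k + 1)) / qq F ^ k := by
    refine le_trans (le_of_eq ?_) hc
    congr 2
    ext u
    simp [P4]
  have hQk : 0 < qq F ^ k := by positivity
  have f1 : qq F ^ (l₀ + 2 * l₁ + 3) ≤ qq F ^ (2 * (l₀ + l₁) + 4) / qq F ^ k := by
    rw [le_div_iff₀ hQk, ← pow_add]
    exact pow_le_pow_right₀ hQ1 (by omega)
  have f2 : qq F ^ (2 * l₀ + l₁ + 3) ≤ qq F ^ (2 * (l₀ + l₁) + 4) / qq F ^ k := by
    rw [le_div_iff₀ hQk, ← pow_add]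
    exact pow_le_pow_right₀ hQ1 (by omega)
  have f3 : qq F ^ (l₀ + 2 * l₁ + j + 4) ≤ qq F ^ (2 * (l₀ + l₁) + 4) / qq F ^ k := by
    rw [le_div_iff₀ hQk, ← pow_add]
    exact pow_le_pow_right₀ hQ1 (by omega)
  have hUr : ((UU F l₀ l₁).card : ℝ) = qq F ^ (2 * (l₀ + l₁) + 4) := by
    rw [hU]
    unfold qq
    push_cast
    rfl
  rw [hUr] at hsum
  obtain ⟨T, hT⟩ : ∃ T, T = qq F ^ (2 * (l₀ + l₁) + 4) / qq F ^ k := ⟨_, rfl⟩
  have hT0 : 0 ≤ T := by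
    rw [hT]
    positivity
  rw [← hT] at f1 f2 f3
  have e4' : 4 * qq F ^ (2 * (l₀ + l₁) + 4) * (3 * ((k:ℝ) + 1)) / qq F ^ k = 12 * (k + 1) * T := by
    rw [hT]
    ring
  have e5 : qq F ^ (2 * (l₀ + l₁) + 4) * (1 / qq F ^ k) = T := by
    rw [hT]
    ring
  have e6 : 24 * ((k:ℝ) + 1) * qq F ^ (2 * (l₀ + l₁) + 4) / qq F ^ k = 24 * (k + 1) * T := by
    rw [hT]
    ring
  rw [e6]
  rw [e4'] at e4
  rw [e5] at hsum
  have hkT : 0 ≤ (k:ℝ) * T := mul_nonneg (Nat.cast_nonneg k) hT0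
  nlinarith

end PP
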