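import Pool.Agent.H461.PP.Stm

/-!
# T5a: three counts of matrices in a box
-/

open Polynomial
open scoped Classical

noncomputable section

namespace PP

open DH

namespace XT5a

variable {F : Type} [Field F] [Fintype F]

theorem card_T (hB0 : DH.S_B0 F) (l m n : ℕ) :
    (POL F l ×ˢ (POL F m ×ˢ POL F n)).card = Fintype.card F ^ (l + m + n) := by
  obtain ⟨-, -, -, h, -, -⟩ := hB0
  rw [Finset.card_product, Finset.card_product, h, h, h, pow_add, pow_add, mul_assoc]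

theorem four {ζ η : Type} (S : Finset η) (T : Finset ζ) (f₁ f₂ f₃ f₄ : ζ → η) (N : ℕ)
    (hT : T.card = N)
    (h : ∀ u ∈ S, u ∈ T.image f₁ ∪ (T.image f₂ ∪ (T.image f₃ ∪ T.image f₄))) :
    S.card ≤ 4 * N := by
  have h1 : S.card ≤ (T.image f₁ ∪ (T.image f₂ ∪ (T.image f₃ ∪ T.image f₄))).card :=
    Finset.card_le_card h
  have h2 := Finset.card_union_le (T.image f₁) (T.image f₂ ∪ (T.image f₃ ∪ T.image f₄))
  have h3 := Finset.card_union_le (T.image f₂) (T.image f₃ ∪ T.image f₄)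
  have h4 := Finset.card_union_le (T.image f₃) (T.image f₄)
  have e1 : (T.image f₁).card ≤ T.card := Finset.card_image_le
  have e2 : (T.image f₂).card ≤ T.card := Finset.card_image_le
  have e3 : (T.image f₃).card ≤ T.card := Finset.card_image_le
  have e4 : (T.image f₄).card ≤ T.card := Finset.card_image_le
  omega

theorem mem_UU {l₀ l₁ : ℕ} {u : (F[X] × F[X]) × (F[X] × F[X])} :
    u ∈ UU F l₀ l₁ ↔ (u.1.1 ∈ POL F (l₀ + 1) ∧ u.1.2 ∈ POL F (l₁ + 1)) ∧
      (u.2.1 ∈ POL F (l₀ + 1) ∧ u.2.2 ∈ POL F (l₁ + 1)) := by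
  unfold UU
  rw [Finset.mem_product, Finset.mem_product, Finset.mem_product]

theorem split4 {x y : F[X]} (h : x * y * (y ^ 2 - x ^ 2) = 0) : x = 0 ∨ y = 0 ∨ y = x ∨ y = -x := by
  rcases mul_eq_zero.1 h with h1 | h1
  · rcases mul_eq_zero.1 h1 with h2 | h2
    · exact Or.inl h2
    · exact Or.inr (Or.inl h2)
  · have h2 : (y - x) * (y + x) = 0 := by
      rw [← h1]
      ring
    rcases mul_eq_zero.1 h2 with h3 | h3
    · exact Or.inr (Or.inr (Or.inl (sub_eq_zero.1 h3)))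
    · exact Or.inr (Or.inr (Or.inr (eq_neg_of_add_eq_zero_left h3)))

end XT5a

open XT5a in
theorem p_T5a (F : Type) [Field F] [Fintype F] [CharP F 3] (hB0 : DH.S_B0 F) : S_T5a F := by
  intro l₀ l₁
  refine ⟨?_, ?_, ?_⟩
  · have hT := card_T hB0 (l₀ + 1) (l₁ + 1) (l₁ + 1)
    rw [show l₀ + 1 + (l₁ + 1) + (l₁ + 1) = l₀ + 2 * l₁ + 3 by ring] at hT
    refine four _ _ (fun t : F[X] × (F[X] × F[X]) => (((0 : F[X]), t.2.1), (t.1, t.2.2)))
      (fun t => ((t.1, t.2.1), (0, t.2.2))) (fun t => ((t.1, t.2.1), (t.1, t.2.2)))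
      (fun t => ((t.1, t.2.1), (-t.1, t.2.2))) _ hT ?_
    rintro ⟨⟨a, b⟩, a', b'⟩ hu
    rw [Finset.mem_filter, mem_UU] at hu
    obtain ⟨⟨⟨ha, hb⟩, ha', hb'⟩, hM⟩ := hu
    simp only at ha hb ha' hb'
    have hM' : a * a' * (a' ^ 2 - a ^ 2) = 0 := hM
    simp only [Finset.mem_union, Finset.mem_image, Finset.mem_product]
    rcases split4 hM' with h | h | h | h
    · exact Or.inl ⟨(a', b, b'), ⟨ha', hb, hb'⟩, by rw [h]⟩
    · exact Or.inr (Or.inl ⟨(a, b, b'), ⟨ha, hb, hb'⟩, by rw [h]⟩)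
    · exact Or.inr (Or.inr (Or.inl ⟨(a, b, b'), ⟨ha, hb, hb'⟩, by rw [h]⟩))
    · exact Or.inr (Or.inr (Or.inr ⟨(a, b, b'), ⟨ha, hb, hb'⟩, by rw [h]⟩))
  · have hT := card_T hB0 (l₀ + 1) (l₀ + 1) (l₁ + 1)
    rw [show l₀ + 1 + (l₀ + 1) + (l₁ + 1) = 2 * l₀ + l₁ + 3 by ring] at hT
    refine four _ _ (fun t : F[X] × (F[X] × F[X]) => ((t.1, (0 : F[X])), (t.2.1, t.2.2)))
      (fun t => ((t.1, t.2.2), (t.2.1, 0))) (fun t => ((t.1, t.2.2), (t.2.1, t.2.2)))
      (fun t => ((t.1, t.2.2), (t.2.1, -t.2.2))) _ hT ?_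
    rintro ⟨⟨a, b⟩, a', b'⟩ hu
    rw [Finset.mem_filter, mem_UU] at hu
    obtain ⟨⟨⟨ha, hb⟩, ha', hb'⟩, hM⟩ := hu
    simp only at ha hb ha' hb' hM
    simp only [Finset.mem_union, Finset.mem_image, Finset.mem_product]
    rcases hM with h | h | h | h
    · exact Or.inl ⟨(a, a', b'), ⟨ha, ha', hb'⟩, by rw [h]⟩
    · exact Or.inr (Or.inl ⟨(a, a', b), ⟨ha, ha', hb⟩, by rw [h]⟩)
    · exact Or.inr (Or.inr (Or.inl ⟨(a, a', b), ⟨ha, ha', hb⟩, by rw [h]⟩))
    · exact Or.inr (Or.inr (Or.inr ⟨(a, a', b), ⟨ha, ha', hb⟩, by rw [h]⟩))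
  · intro j
    have hT := card_T hB0 (l₀ + 1) (l₁ + 1) (l₁ + 1)
    obtain ⟨hP, -, -, hc, -, -⟩ := hB0
    obtain ⟨S, hS⟩ : ∃ S, S = (UU F l₀ l₁).filter
        (fun u => u.1.2 ≠ 0 ∧ (HH u).natDegree ≤ j) := ⟨_, rfl⟩
    obtain ⟨f, hf⟩ : ∃ f : (F[X] × F[X]) × (F[X] × F[X]) → F[X] × (F[X] × F[X]),
        f = fun u => (u.1.1, (u.1.2, u.2.2)) := ⟨_, rfl⟩
    have himg : (S.image f).card ≤ Fintype.card F ^ (l₀ + 1 + (l₁ + 1) + (l₁ + 1)) := by
      rw [← hT]
      refine Finset.card_le_card ?_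
      intro t ht
      obtain ⟨u, hu, rfl⟩ := Finset.mem_image.1 ht
      rw [hS, Finset.mem_filter, mem_UU] at hu
      rw [hf, Finset.mem_product, Finset.mem_product]
      exact ⟨hu.1.1.1, hu.1.1.2, hu.1.2.2⟩
    have hfib : ∀ t ∈ S.image f, (S.filter fun u => f u = t).card ≤ Fintype.card F ^ (j + 1) := by
      intro t ht
      obtain ⟨u₀, hu₀, hft⟩ := Finset.mem_image.1 ht
      rw [← hc (j + 1)]
      refine Finset.card_le_card_of_injOn (fun u => u.2.1 - u₀.2.1) ?_ ?_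
      · intro u hu
        rw [Finset.mem_coe, Finset.mem_filter] at hu
        obtain ⟨hu1, hu2⟩ := hu
        rw [← hft, hf] at hu2
        simp only [Prod.mk.injEq] at hu2
        obtain ⟨e1, e2, e3⟩ := hu2
        rw [hS, Finset.mem_filter] at hu1 hu₀
        rw [Finset.mem_coe, hP]
        show (u.2.1 - u₀.2.1).degree < ((j + 1 : ℕ) : WithBot ℕ)
        rcases eq_or_ne (u.2.1 - u₀.2.1) 0 with h0 | h0
        · rw [h0, Polynomial.degree_zero]
          exact WithBot.bot_lt_coe _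
        · have hb : u₀.1.2 ≠ 0 := hu₀.2.1
          have hH : (u.2.1 - u₀.2.1) * u₀.1.2 = HH u₀ - HH u := by
            unfold HH
            rw [e1, e2, e3]
            ring
          have hd : ((u.2.1 - u₀.2.1) * u₀.1.2).natDegree ≤ j := by
            rw [hH]
            exact (Polynomial.natDegree_sub_le _ _).trans (max_le hu₀.2.2 hu1.2.2)
          rw [Polynomial.natDegree_mul h0 hb] at hd
          rw [Polynomial.degree_eq_natDegree h0]
          exact_mod_cast Nat.lt_succ_of_le (by omega)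
      · intro u hu u' hu' h
        rw [Finset.mem_coe, Finset.mem_filter] at hu hu'
        have h1 : f u = f u' := hu.2.trans hu'.2.symm
        rw [hf] at h1
        simp only [Prod.mk.injEq] at h1
        obtain ⟨e1, e2, e3⟩ := h1
        have h2 : u.2.1 = u'.2.1 := sub_left_inj.1 h
        exact Prod.ext (Prod.ext e1 e2) (Prod.ext h2 e3)
    have hmain := Finset.card_le_mul_card_image (f := f) S (Fintype.card F ^ (j + 1)) hfib
    rw [← hS]
    calc S.card ≤ Fintype.card F ^ (j + 1) * (S.image f).card := hmain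
      _ ≤ Fintype.card F ^ (j + 1) * Fintype.card F ^ (l₀ + 1 + (l₁ + 1) + (l₁ + 1)) :=
          Nat.mul_le_mul_left _ himg
      _ = Fintype.card F ^ (l₀ + 2 * l₁ + j + 4) := by
          rw [← pow_add]
          congr 1
          ring

end PP
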