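import Pool.Agent.H461.PP.Stm

/-!
# Project PP, task T5b: triples with a large gcd are rare
-/

open Polynomial
open scoped Classical

noncomputable section

namespace PP

open DH

namespace XT5b

variable (F : Type) [Field F] [Fintype F] [CharP F 3]

omit [CharP F 3] in
/-- multiples of `D` -/
theorem count (hB0 : DH.S_B0 F) (l : ℕ) (D : F[X]) (hD : D.Monic) :
    (((POL F (l + 1)).filter (fun x => x ≠ 0 ∧ D ∣ x)).card : ℝ) ≤
      qq F ^ (l + 1) / qq F ^ D.natDegree := by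
  obtain ⟨b1, -, -, b4, -, -⟩ := hB0
  have hq : (0 : ℝ) < qq F := by
    unfold qq
    exact_mod_cast Fintype.card_pos
  by_cases he : D.natDegree ≤ l
  · have h1 : ((POL F (l + 1)).filter (fun x => x ≠ 0 ∧ D ∣ x)).card ≤
        (POL F (l + 1 - D.natDegree)).card := by
      refine Finset.card_le_card_of_injOn (fun x => x /ₘ D) ?_ ?_
      · intro x hx
        obtain ⟨hx1, hx0, hxD⟩ := Finset.mem_filter.1 (Finset.mem_coe.1 hx)
        rw [Finset.mem_coe, b1]
        rw [b1] at hx1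
        obtain ⟨y, hy⟩ := hxD
        have hy0 : y ≠ 0 := fun h => hx0 (by rw [hy, h, mul_zero])
        have e1 : x /ₘ D = y := by
          rw [hy]
          exact mul_divByMonic_cancel_left y hD
        show (x /ₘ D).degree < _
        rw [e1]
        have h2 : x.natDegree = D.natDegree + y.natDegree := by
          rw [hy, natDegree_mul hD.ne_zero hy0]
        have h3 : x.natDegree < l + 1 := (natDegree_lt_iff_degree_lt hx0).2 hx1
        exact (natDegree_lt_iff_degree_lt hy0).1 (by omega)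
      · intro x hx x' hx' hxx
        obtain ⟨-, -, hxD⟩ := Finset.mem_filter.1 (Finset.mem_coe.1 hx)
        obtain ⟨-, -, hxD'⟩ := Finset.mem_filter.1 (Finset.mem_coe.1 hx')
        obtain ⟨y, hy⟩ := hxD
        obtain ⟨y', hy'⟩ := hxD'
        have e1 : x /ₘ D = y := by
          rw [hy]
          exact mul_divByMonic_cancel_left y hD
        have e2 : x' /ₘ D = y' := by
          rw [hy']
          exact mul_divByMonic_cancel_left y' hD
        have e3 : x /ₘ D = x' /ₘ D := hxx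
        rw [hy, hy', ← e1, ← e2, e3]
    rw [b4] at h1
    have h2 : (((POL F (l + 1)).filter (fun x => x ≠ 0 ∧ D ∣ x)).card : ℝ) ≤
        qq F ^ (l + 1 - D.natDegree) := by
      unfold qq
      exact_mod_cast h1
    refine h2.trans (le_of_eq ?_)
    rw [eq_div_iff (by positivity), ← pow_add]
    congr 1
    omega
  · have h1 : (POL F (l + 1)).filter (fun x => x ≠ 0 ∧ D ∣ x) = ∅ := by
      rw [Finset.filter_eq_empty_iff]
      rintro x hx ⟨hx0, hxD⟩
      rw [b1] at hx
      have h3 : x.natDegree < l + 1 := (natDegree_lt_iff_degree_lt hx0).2 hx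
      have h4 := natDegree_le_of_dvd hxD hx0
      omega
    rw [h1, Finset.card_empty, Nat.cast_zero]
    positivity

/-- the sum over the degrees -/
theorem geom (q : ℝ) (hq : 3 ≤ q) (k n : ℕ) :
    ∑ t ∈ Finset.Ico k n, ((t : ℝ) + 1) / q ^ t ≤ 3 * (k + 1) / q ^ k := by
  have hq0 : 0 < q := by linarith
  have key : ∀ m : ℕ, ∑ t ∈ Finset.Ico k (k + m), ((t : ℝ) + 1) / q ^ t ≤
      3 * (k + 1) / q ^ k - 3 * ((k + m : ℕ) + 1) / q ^ (k + m) := by
    intro m
    induction m with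
    | zero => simp
    | succ m ih =>
      rw [← add_assoc, Finset.sum_Ico_succ_top (by omega)]
      have h1 : (((k + m : ℕ) : ℝ) + 1) / q ^ (k + m) ≤
          3 * (((k + m : ℕ) : ℝ) + 1) / q ^ (k + m) -
            3 * (((k + m + 1 : ℕ) : ℝ) + 1) / q ^ (k + m + 1) := by
        rw [le_sub_iff_add_le, pow_succ, ← le_sub_iff_add_le', ← sub_div,
          div_le_div_iff₀ (by positivity) (by positivity)]
        have h2 : (0 : ℝ) ≤ ((k + m : ℕ) : ℝ) := Nat.cast_nonneg _
        have h3 : 3 * ((((k + m + 1 : ℕ) : ℝ)) + 1) ≤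
            (3 * (((k + m : ℕ) : ℝ) + 1) - (((k + m : ℕ) : ℝ) + 1)) * q := by
          push_cast
          push_cast at h2
          nlinarith
        have h4 := mul_le_mul_of_nonneg_right h3 (pow_pos hq0 (k + m)).le
        nlinarith
      linarith
  rcases le_total k n with h | h
  · obtain ⟨m, rfl⟩ := Nat.exists_eq_add_of_le h
    refine (key m).trans ?_
    have : 0 ≤ 3 * (((k + m : ℕ) : ℝ) + 1) / q ^ (k + m) := by positivity
    linarith
  · rw [Finset.Ico_eq_empty_of_le h, Finset.sum_empty]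
    positivity

end XT5b

theorem p_T5b (F : Type) [Field F] [Fintype F] [CharP F 3] (hB0 : DH.S_B0 F) : S_T5b F := by
  intro lx ly lz k
  have hb := hB0
  obtain ⟨b1, b2, -, b4, b5, -⟩ := hB0
  have hq3 : (3 : ℝ) ≤ qq F := by
    have h1 : 3 ∣ Fintype.card F := by
      obtain ⟨n, hp, hc⟩ := FiniteField.card F 3
      rw [hc]
      exact dvd_pow_self 3 n.pos.ne'
    have h2 : 3 ≤ Fintype.card F := Nat.le_of_dvd Fintype.card_pos h1
    unfold qq
    exact_mod_cast h2
  have hq0 : (0 : ℝ) < qq F := by linarith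
  set S := (POL F (lx + 1) ×ˢ (POL F (ly + 1) ×ˢ POL F (lz + 1))).filter
      (fun t => t.1 ≠ 0 ∧ t.2.1 ≠ 0 ∧ t.2.2 ≠ 0 ∧
        k ≤ (EuclideanDomain.gcd t.1 (t.2.1 * t.2.2)).natDegree) with hS
  obtain ⟨Y, hY⟩ : ∃ Y : F[X] → F[X] → Finset (F[X] × F[X] × F[X]), Y = fun d₁ d₂ =>
      ((POL F (lx + 1)).filter (fun x => x ≠ 0 ∧ d₁ * d₂ ∣ x)) ×ˢ
        (((POL F (ly + 1)).filter (fun x => x ≠ 0 ∧ d₁ ∣ x)) ×ˢ
          ((POL F (lz + 1)).filter (fun x => x ≠ 0 ∧ d₂ ∣ x))) := ⟨_, rfl⟩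
  have hsub : S ⊆ (Finset.Ico k (lx + 1)).biUnion fun t => (Finset.range (t + 1)).biUnion fun i =>
      (MON F i).biUnion fun d₁ => (MON F (t - i)).biUnion fun d₂ => Y d₁ d₂ := by
    rintro ⟨x, y, z⟩ hm
    rw [hS, Finset.mem_filter] at hm
    obtain ⟨hm1, hx0, hy0, hz0, hk⟩ := hm
    rw [Finset.mem_product, Finset.mem_product] at hm1
    obtain ⟨hx, hy, hz⟩ := hm1
    simp only at hx hy hz hx0 hy0 hz0 hk
    obtain ⟨d, hd⟩ : ∃ d, d = EuclideanDomain.gcd x (y * z) := ⟨_, rfl⟩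
    rw [← hd] at hk
    have hdx : d ∣ x := by rw [hd]; exact EuclideanDomain.gcd_dvd_left _ _
    have hdyz : d ∣ y * z := by rw [hd]; exact EuclideanDomain.gcd_dvd_right _ _
    have hd0 : d ≠ 0 := fun h => hx0 (by rw [h] at hdx; exact zero_dvd_iff.1 hdx)
    obtain ⟨e₁, e₂, h1, h2, h3⟩ := exists_dvd_and_dvd_of_dvd_mul hdyz
    have he1 : e₁ ≠ 0 := fun h => hd0 (by rw [h3, h, zero_mul])
    have he2 : e₂ ≠ 0 := fun h => hd0 (by rw [h3, h, mul_zero])
    have n1 : (normalize e₁).natDegree = e₁.natDegree := natDegree_eq_of_degree_eq (degree_normalize)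
    have n2 : (normalize e₂).natDegree = e₂.natDegree := natDegree_eq_of_degree_eq (degree_normalize)
    have hdeg : d.natDegree = e₁.natDegree + e₂.natDegree := by
      rw [h3, natDegree_mul he1 he2]
    have hdl : d.natDegree ≤ x.natDegree := natDegree_le_of_dvd hdx hx0
    have hxl : x.natDegree < lx + 1 := (natDegree_lt_iff_degree_lt hx0).2 ((b1 _ _).1 hx)
    have hmul : normalize e₁ * normalize e₂ ∣ x := by
      have : Associated (normalize e₁ * normalize e₂) (e₁ * e₂) :=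
        (normalize_associated e₁).mul_mul (normalize_associated e₂)
      exact (this.dvd).trans (by rw [← h3]; exact hdx)
    simp only [Finset.mem_biUnion, Finset.mem_Ico, Finset.mem_range]
    refine ⟨d.natDegree, ⟨hk, by omega⟩, e₁.natDegree, by omega, normalize e₁, ?_, normalize e₂,
      ?_, ?_⟩
    · rw [b2]
      exact ⟨monic_normalize he1, n1⟩
    · rw [b2]
      exact ⟨monic_normalize he2, by omega⟩
    · rw [hY]
      simp only [Finset.mem_product, Finset.mem_filter]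
      exact ⟨⟨hx, hx0, hmul⟩, ⟨hy, hy0, (normalize_associated e₁).dvd.trans h1⟩,
        ⟨hz, hz0, (normalize_associated e₂).dvd.trans h2⟩⟩
  have hcard : (S.card : ℝ) ≤ ∑ t ∈ Finset.Ico k (lx + 1), ∑ i ∈ Finset.range (t + 1),
      ∑ d₁ ∈ MON F i, ∑ d₂ ∈ MON F (t - i), ((Y d₁ d₂).card : ℝ) := by
    have h1 : S.card ≤ ∑ t ∈ Finset.Ico k (lx + 1), ∑ i ∈ Finset.range (t + 1),
        ∑ d₁ ∈ MON F i, ∑ d₂ ∈ MON F (t - i), (Y d₁ d₂).card :=
      (Finset.card_le_card hsub).trans (Finset.card_biUnion_le.trans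
        (Finset.sum_le_sum fun t _ => Finset.card_biUnion_le.trans
          (Finset.sum_le_sum fun i _ => Finset.card_biUnion_le.trans
            (Finset.sum_le_sum fun d₁ _ => Finset.card_biUnion_le))))
    exact_mod_cast h1
  have hY1 : ∀ i j : ℕ, ∀ d₁ ∈ MON F i, ∀ d₂ ∈ MON F j, ((Y d₁ d₂).card : ℝ) ≤
      qq F ^ (lx + ly + lz + 3) / (qq F ^ (i + j) * (qq F ^ i * qq F ^ j)) := by
    intro i j d₁ hd₁ d₂ hd₂
    rw [b2] at hd₁ hd₂
    obtain ⟨m1, n1⟩ := hd₁
    obtain ⟨m2, n2⟩ := hd₂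
    have c1 := XT5b.count F hb lx (d₁ * d₂) (m1.mul m2)
    have c2 := XT5b.count F hb ly d₁ m1
    have c3 := XT5b.count F hb lz d₂ m2
    rw [m1.natDegree_mul m2, n1, n2] at c1
    rw [n1] at c2
    rw [n2] at c3
    rw [hY]
    simp only [Finset.card_product, Nat.cast_mul]
    calc _ ≤ qq F ^ (lx + 1) / qq F ^ (i + j) *
          (qq F ^ (ly + 1) / qq F ^ i * (qq F ^ (lz + 1) / qq F ^ j)) := by
            refine mul_le_mul c1 (mul_le_mul c2 c3 (Nat.cast_nonneg _) (by positivity))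
              (by positivity) (by positivity)
      _ = _ := by
            rw [div_mul_div_comm, div_mul_div_comm]
            congr 1
            ring
  have hfin : ∀ t ∈ Finset.Ico k (lx + 1), ∑ i ∈ Finset.range (t + 1),
      ∑ d₁ ∈ MON F i, ∑ d₂ ∈ MON F (t - i), ((Y d₁ d₂).card : ℝ) ≤
      qq F ^ (lx + ly + lz + 3) * (((t : ℝ) + 1) / qq F ^ t) := by
    intro t _
    have h1 : ∀ i ∈ Finset.range (t + 1),
        ∑ d₁ ∈ MON F i, ∑ d₂ ∈ MON F (t - i), ((Y d₁ d₂).card : ℝ) ≤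
          qq F ^ (lx + ly + lz + 3) / qq F ^ t := by
      intro i hi
      have hit : i + (t - i) = t := by
        have := Finset.mem_range.1 hi
        omega
      have h2 : ∑ d₁ ∈ MON F i, ∑ d₂ ∈ MON F (t - i), ((Y d₁ d₂).card : ℝ) ≤
          ∑ d₁ ∈ MON F i, ∑ d₂ ∈ MON F (t - i),
            qq F ^ (lx + ly + lz + 3) / (qq F ^ (i + (t - i)) * (qq F ^ i * qq F ^ (t - i))) :=
        Finset.sum_le_sum fun d₁ hd₁ => Finset.sum_le_sum fun d₂ hd₂ =>
          hY1 i (t - i) d₁ hd₁ d₂ hd₂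
      refine h2.trans (le_of_eq ?_)
      rw [Finset.sum_const, Finset.sum_const, b5, b5, nsmul_eq_mul, nsmul_eq_mul, hit]
      push_cast
      have e1 : (Fintype.card F : ℝ) = qq F := rfl
      rw [e1]
      field_simp
    refine (Finset.sum_le_sum h1).trans (le_of_eq ?_)
    rw [Finset.sum_const, Finset.card_range, nsmul_eq_mul]
    push_cast
    ring
  calc (S.card : ℝ) ≤ _ := hcard
    _ ≤ ∑ t ∈ Finset.Ico k (lx + 1), qq F ^ (lx + ly + lz + 3) * (((t : ℝ) + 1) / qq F ^ t) :=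
        Finset.sum_le_sum hfin
    _ = qq F ^ (lx + ly + lz + 3) * ∑ t ∈ Finset.Ico k (lx + 1), (((t : ℝ) + 1) / qq F ^ t) := by
        rw [Finset.mul_sum]
    _ ≤ qq F ^ (lx + ly + lz + 3) * (3 * (k + 1) / qq F ^ k) :=
        mul_le_mul_of_nonneg_left (XT5b.geom (qq F) hq3 k (lx + 1)) (by positivity)
    _ = qq F ^ (lx + ly + lz + 3) * (3 * (k + 1)) / qq F ^ k := by ring

end PP
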