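import Pool.Agent.H461.PP.Stm

/-!
# Project PP (helper461), task T5c (helper585): matrices with large gcd (m, H) are rare
-/

open Polynomial
open scoped Classical

noncomputable section

namespace PP

open DH

namespace XT5c

section

variable {F : Type} [Field F]

theorem gcd_mul_dvd (a b h : F[X]) :
    EuclideanDomain.gcd (a * b) h ∣ EuclideanDomain.gcd a h * EuclideanDomain.gcd b h := by
  have h1 := EuclideanDomain.gcd_dvd_left (a * b) h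
  have h2 := EuclideanDomain.gcd_dvd_right (a * b) h
  have e1 := EuclideanDomain.gcd_eq_gcd_ab a h
  have e2 := EuclideanDomain.gcd_eq_gcd_ab b h
  have e3 : EuclideanDomain.gcd a h * EuclideanDomain.gcd b h =
      a * b * (EuclideanDomain.gcdA a h * EuclideanDomain.gcdA b h) +
        h * (a * EuclideanDomain.gcdA a h * EuclideanDomain.gcdB b h +
          EuclideanDomain.gcdB a h * b * EuclideanDomain.gcdA b h +
          EuclideanDomain.gcdB a h * h * EuclideanDomain.gcdB b h) := by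
    rw [e1, e2]
    ring
  rw [e3]
  exact dvd_add (h1.mul_right _) (h2.mul_right _)

theorem gcd_ne {a : F[X]} (h : F[X]) (ha : a ≠ 0) : EuclideanDomain.gcd a h ≠ 0 := fun e =>
  ha (EuclideanDomain.gcd_eq_zero_iff.1 e).1

theorem deg_gcd_mul {a b : F[X]} (h : F[X]) (ha : a ≠ 0) (hb : b ≠ 0) :
    (EuclideanDomain.gcd (a * b) h).natDegree ≤
      (EuclideanDomain.gcd a h).natDegree + (EuclideanDomain.gcd b h).natDegree := by
  rw [← natDegree_mul (gcd_ne h ha) (gcd_ne h hb)]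
  exact natDegree_le_of_dvd (gcd_mul_dvd a b h) (mul_ne_zero (gcd_ne h ha) (gcd_ne h hb))

theorem deg_gcd_le {x y h : F[X]} (hx : x ≠ 0) (hd : ∀ d : F[X], d ∣ x → d ∣ h → d ∣ y) :
    (EuclideanDomain.gcd x h).natDegree ≤ (EuclideanDomain.gcd x y).natDegree :=
  natDegree_le_of_dvd (EuclideanDomain.dvd_gcd (EuclideanDomain.gcd_dvd_left x h)
    (hd _ (EuclideanDomain.gcd_dvd_left x h) (EuclideanDomain.gcd_dvd_right x h))) (gcd_ne y hx)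

/-- one of the four factors has a large gcd with `H` -/
theorem four {u : (F[X] × F[X]) × (F[X] × F[X])} {k : ℕ} (hm : MM u ≠ 0) (hk : 4 * k + 1 ≤ dg u) :
    u.1.1 ≠ 0 ∧ u.2.1 ≠ 0 ∧ u.2.1 - u.1.1 ≠ 0 ∧ u.2.1 + u.1.1 ≠ 0 ∧
    (k ≤ (EuclideanDomain.gcd u.1.1 (HH u)).natDegree ∨
      k ≤ (EuclideanDomain.gcd u.2.1 (HH u)).natDegree ∨
      k ≤ (EuclideanDomain.gcd (u.2.1 - u.1.1) (HH u)).natDegree ∨
      k ≤ (EuclideanDomain.gcd (u.2.1 + u.1.1) (HH u)).natDegree) := by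
  have e : MM u = u.1.1 * (u.2.1 * ((u.2.1 - u.1.1) * (u.2.1 + u.1.1))) := by
    unfold MM
    ring
  have hm' := hm
  rw [e] at hm'
  have n1 : u.1.1 ≠ 0 := left_ne_zero_of_mul hm'
  have m2 := right_ne_zero_of_mul hm'
  have n2 : u.2.1 ≠ 0 := left_ne_zero_of_mul m2
  have m3 := right_ne_zero_of_mul m2
  have n3 : u.2.1 - u.1.1 ≠ 0 := left_ne_zero_of_mul m3
  have n4 : u.2.1 + u.1.1 ≠ 0 := right_ne_zero_of_mul m3
  refine ⟨n1, n2, n3, n4, ?_⟩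
  have d1 := deg_gcd_mul (HH u) n1 m2
  have d2 := deg_gcd_mul (HH u) n2 m3
  have d3 := deg_gcd_mul (HH u) n3 n4
  unfold dg at hk
  rw [e] at hk
  by_contra hcon
  push Not at hcon
  obtain ⟨c1, c2, c3, c4⟩ := hcon
  omega

end

section

variable (F : Type) [Field F] [Fintype F]

theorem pol_add (hB0 : ∀ n (g : F[X]), g ∈ POL F n ↔ g.degree < n) {n : ℕ} {x y : F[X]} (hx : x ∈ POL F n) (hy : y ∈ POL F n) :
    x + y ∈ POL F n := by
  rw [hB0] at hx hy ⊢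
  exact (degree_add_le x y).trans_lt (max_lt hx hy)

theorem pol_sub (hB0 : ∀ n (g : F[X]), g ∈ POL F n ↔ g.degree < n) {n : ℕ} {x y : F[X]} (hx : x ∈ POL F n) (hy : y ∈ POL F n) :
    x - y ∈ POL F n := by
  rw [hB0] at hx hy ⊢
  exact (degree_sub_le x y).trans_lt (max_lt hx hy)

end

end XT5c

theorem p_T5c (F : Type) [Field F] [Fintype F] [CharP F 3] (hB0 : DH.S_B0 F) (hT5b : S_T5b F) :
    S_T5c F := by
  intro l₀ l₁ k
  obtain ⟨T, hT⟩ : ∃ T, T = ((POL F (l₀ + 1) ×ˢ (POL F (l₀ + 1) ×ˢ POL F (l₁ + 1))).filter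
      (fun t => t.1 ≠ 0 ∧ t.2.1 ≠ 0 ∧ t.2.2 ≠ 0 ∧
        k ≤ (EuclideanDomain.gcd t.1 (t.2.1 * t.2.2)).natDegree)) := ⟨_, rfl⟩
  have hTc : (T.card : ℝ) ≤ qq F ^ (l₀ + l₀ + l₁ + 3) * (3 * (k + 1)) / qq F ^ k := by
    rw [hT]
    exact hT5b l₀ l₀ l₁ k
  have hTm : ∀ x y z : F[X], x ∈ POL F (l₀ + 1) → y ∈ POL F (l₀ + 1) → z ∈ POL F (l₁ + 1) →
      x ≠ 0 → y ≠ 0 → z ≠ 0 → k ≤ (EuclideanDomain.gcd x (y * z)).natDegree → (x, (y, z)) ∈ T := by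
    intro x y z hx hy hz x0 y0 z0 hk
    rw [hT, Finset.mem_filter, Finset.mem_product, Finset.mem_product]
    exact ⟨⟨hx, hy, hz⟩, x0, y0, z0, hk⟩
  obtain ⟨B, hBd⟩ : ∃ B : ℝ, B = qq F ^ (2 * (l₀ + l₁) + 4) * (3 * (k + 1)) / qq F ^ k := ⟨_, rfl⟩
  have hB : ∀ (S' : Finset ((F[X] × F[X]) × (F[X] × F[X])))
      (e : (F[X] × F[X]) × (F[X] × F[X]) → (F[X] × (F[X] × F[X])) × F[X]),
      Function.Injective e → (∀ u ∈ S', (e u).1 ∈ T ∧ (e u).2 ∈ POL F (l₁ + 1)) →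
      (S'.card : ℝ) ≤ B := by
    intro S' e he h
    have h1 : S'.card ≤ (T ×ˢ POL F (l₁ + 1)).card :=
      Finset.card_le_card_of_injOn e (fun u hu => Finset.mem_coe.2 (Finset.mem_product.2 (h u hu)))
        he.injOn
    rw [Finset.card_product, hB0.2.2.2.1] at h1
    have h2 : (S'.card : ℝ) ≤ (T.card : ℝ) * qq F ^ (l₁ + 1) := by
      unfold qq
      exact_mod_cast h1
    have hq : 0 ≤ qq F := by
      unfold qq
      positivity
    calc (S'.card : ℝ) ≤ (T.card : ℝ) * qq F ^ (l₁ + 1) := h2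
      _ ≤ (qq F ^ (l₀ + l₀ + l₁ + 3) * (3 * (k + 1)) / qq F ^ k) * qq F ^ (l₁ + 1) :=
        mul_le_mul_of_nonneg_right hTc (by positivity)
      _ = B := by
        rw [hBd, show 2 * (l₀ + l₁) + 4 = (l₀ + l₀ + l₁ + 3) + (l₁ + 1) by ring, pow_add]
        ring
  obtain ⟨S, hS⟩ : ∃ S, S = (UU F l₀ l₁).filter (fun u => MM u ≠ 0 ∧ HH u ≠ 0 ∧ u.1.2 ≠ 0 ∧
      u.2.2 ≠ 0 ∧ u.2.2 ≠ u.1.2 ∧ u.2.2 ≠ - u.1.2 ∧ 4 * k + 1 ≤ dg u) := ⟨_, rfl⟩
  have hSm : ∀ u ∈ S, (u.1.1 ∈ POL F (l₀ + 1) ∧ u.1.2 ∈ POL F (l₁ + 1) ∧ u.2.1 ∈ POL F (l₀ + 1) ∧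
      u.2.2 ∈ POL F (l₁ + 1)) ∧ MM u ≠ 0 ∧ u.1.2 ≠ 0 ∧ u.2.2 ≠ 0 ∧ u.2.2 ≠ u.1.2 ∧
      u.2.2 ≠ - u.1.2 ∧ 4 * k + 1 ≤ dg u := by
    intro u hu
    rw [hS, Finset.mem_filter, UU, Finset.mem_product, Finset.mem_product, Finset.mem_product] at hu
    obtain ⟨⟨⟨a1, a2⟩, a3, a4⟩, b1, -, b3, b4, b5, b6, b7⟩ := hu
    exact ⟨⟨a1, a2, a3, a4⟩, b1, b3, b4, b5, b6, b7⟩
  rw [← hS]
  -- the four parts
  have c1 : ((S.filter fun u => k ≤ (EuclideanDomain.gcd u.1.1 (HH u)).natDegree).card : ℝ) ≤ B := by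
    refine hB _ (fun u => ((u.1.1, (u.2.1, u.1.2)), u.2.2)) ?_ ?_
    · rintro ⟨⟨a, b⟩, c, d⟩ ⟨⟨a', b'⟩, c', d'⟩ h
      simp only [Prod.mk.injEq] at h ⊢
      tauto
    · intro u hu
      rw [Finset.mem_filter] at hu
      obtain ⟨⟨m1, m2, m3, m4⟩, h1, h2, h3, h4, h5, h6⟩ := hSm u hu.1
      obtain ⟨n1, n2, n3, n4, -⟩ := XT5c.four h1 h6
      refine ⟨hTm _ _ _ m1 m3 m2 n1 n2 h2 (hu.2.trans (XT5c.deg_gcd_le n1 fun d d1 d2 => ?_)), m4⟩
      have e : u.2.1 * u.1.2 = u.1.1 * u.2.2 - HH u := by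
        unfold HH
        ring
      rw [e]
      exact dvd_sub (d1.mul_right _) d2
  have c2 : ((S.filter fun u => k ≤ (EuclideanDomain.gcd u.2.1 (HH u)).natDegree).card : ℝ) ≤ B := by
    refine hB _ (fun u => ((u.2.1, (u.1.1, u.2.2)), u.1.2)) ?_ ?_
    · rintro ⟨⟨a, b⟩, c, d⟩ ⟨⟨a', b'⟩, c', d'⟩ h
      simp only [Prod.mk.injEq] at h ⊢
      tauto
    · intro u hu
      rw [Finset.mem_filter] at hu
      obtain ⟨⟨m1, m2, m3, m4⟩, h1, h2, h3, h4, h5, h6⟩ := hSm u hu.1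
      obtain ⟨n1, n2, n3, n4, -⟩ := XT5c.four h1 h6
      refine ⟨hTm _ _ _ m3 m1 m4 n2 n1 h3 (hu.2.trans (XT5c.deg_gcd_le n2 fun d d1 d2 => ?_)), m2⟩
      have e : u.1.1 * u.2.2 = HH u + u.2.1 * u.1.2 := by
        unfold HH
        ring
      rw [e]
      exact dvd_add d2 (d1.mul_right _)
  have c3 : ((S.filter fun u => k ≤ (EuclideanDomain.gcd (u.2.1 - u.1.1) (HH u)).natDegree).card : ℝ) ≤
      B := by
    refine hB _ (fun u => ((u.2.1 - u.1.1, (u.1.1, u.2.2 - u.1.2)), u.1.2)) ?_ ?_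
    · rintro ⟨⟨a, b⟩, c, d⟩ ⟨⟨a', b'⟩, c', d'⟩ h
      simp only [Prod.mk.injEq] at h ⊢
      obtain ⟨⟨h1, h2, h3⟩, h4⟩ := h
      subst h2
      subst h4
      exact ⟨⟨rfl, rfl⟩, sub_left_injective h1, sub_left_injective h3⟩
    · intro u hu
      rw [Finset.mem_filter] at hu
      obtain ⟨⟨m1, m2, m3, m4⟩, h1, h2, h3, h4, h5, h6⟩ := hSm u hu.1
      obtain ⟨n1, n2, n3, n4, -⟩ := XT5c.four h1 h6
      refine ⟨hTm _ _ _ (XT5c.pol_sub F hB0.1 m3 m1) m1 (XT5c.pol_sub F hB0.1 m4 m2) n3 n1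
        (sub_ne_zero.2 h4) (hu.2.trans (XT5c.deg_gcd_le n3 fun d d1 d2 => ?_)), m2⟩
      have e : u.1.1 * (u.2.2 - u.1.2) = HH u + (u.2.1 - u.1.1) * u.1.2 := by
        unfold HH
        ring
      rw [e]
      exact dvd_add d2 (d1.mul_right _)
  have c4 : ((S.filter fun u => k ≤ (EuclideanDomain.gcd (u.2.1 + u.1.1) (HH u)).natDegree).card : ℝ) ≤
      B := by
    refine hB _ (fun u => ((u.2.1 + u.1.1, (u.1.1, u.2.2 + u.1.2)), u.1.2)) ?_ ?_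
    · rintro ⟨⟨a, b⟩, c, d⟩ ⟨⟨a', b'⟩, c', d'⟩ h
      simp only [Prod.mk.injEq] at h ⊢
      obtain ⟨⟨h1, h2, h3⟩, h4⟩ := h
      subst h2
      subst h4
      exact ⟨⟨rfl, rfl⟩, add_left_injective _ h1, add_left_injective _ h3⟩
    · intro u hu
      rw [Finset.mem_filter] at hu
      obtain ⟨⟨m1, m2, m3, m4⟩, h1, h2, h3, h4, h5, h6⟩ := hSm u hu.1
      obtain ⟨n1, n2, n3, n4, -⟩ := XT5c.four h1 h6
      refine ⟨hTm _ _ _ (XT5c.pol_add F hB0.1 m3 m1) m1 (XT5c.pol_add F hB0.1 m4 m2) n4 n1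
        (fun h => h5 (eq_neg_of_add_eq_zero_left h))
        (hu.2.trans (XT5c.deg_gcd_le n4 fun d d1 d2 => ?_)), m2⟩
      have e : u.1.1 * (u.2.2 + u.1.2) = HH u + (u.2.1 + u.1.1) * u.1.2 := by
        unfold HH
        ring
      rw [e]
      exact dvd_add d2 (d1.mul_right _)
  have hsub : S ⊆ (((S.filter fun u => k ≤ (EuclideanDomain.gcd u.1.1 (HH u)).natDegree) ∪
      (S.filter fun u => k ≤ (EuclideanDomain.gcd u.2.1 (HH u)).natDegree)) ∪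
      (S.filter fun u => k ≤ (EuclideanDomain.gcd (u.2.1 - u.1.1) (HH u)).natDegree)) ∪
      (S.filter fun u => k ≤ (EuclideanDomain.gcd (u.2.1 + u.1.1) (HH u)).natDegree) := by
    intro u hu
    obtain ⟨-, h1, -, -, -, -, h6⟩ := hSm u hu
    obtain ⟨-, -, -, -, h⟩ := XT5c.four h1 h6
    simp only [Finset.mem_union, Finset.mem_filter]
    tauto
  have hcard : (S.card : ℝ) ≤
      (((S.filter fun u => k ≤ (EuclideanDomain.gcd u.1.1 (HH u)).natDegree).card : ℝ) +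
      ((S.filter fun u => k ≤ (EuclideanDomain.gcd u.2.1 (HH u)).natDegree).card : ℝ)) +
      ((S.filter fun u => k ≤ (EuclideanDomain.gcd (u.2.1 - u.1.1) (HH u)).natDegree).card : ℝ) +
      ((S.filter fun u => k ≤ (EuclideanDomain.gcd (u.2.1 + u.1.1) (HH u)).natDegree).card : ℝ) := by
    have h1 := Finset.card_le_card hsub
    have h2 := (h1.trans (Finset.card_union_le _ _)).trans (Nat.add_le_add_right
      ((Finset.card_union_le _ _).trans (Nat.add_le_add_right (Finset.card_union_le _ _) _)) _)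
    exact_mod_cast h2
  have hfin : 4 * qq F ^ (2 * (l₀ + l₁) + 4) * (3 * (k + 1)) / qq F ^ k = 4 * B := by
    rw [hBd]
    ring
  rw [hfin]
  linarith

end PP
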