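import Pool.Agent.H461.PP.Stm

/-!
# Project PP, T6: the number of the `f₀` with minimal degree `a`
-/

set_option autoImplicit false

open Polynomial
open scoped Classical

noncomputable section

namespace PP

open DH

namespace XT6

section

variable {F : Type} [Field F] [CharP F 3]

theorem three_zero : (3 : F[X]) = 0 := by
  have h1 : ((3 : ℕ) : F) = 0 := CharP.cast_eq_zero F 3
  have h2 : ((3 : ℕ) : F[X]) = C ((3 : ℕ) : F) := (map_natCast C 3).symm
  rw [h1, map_zero] at h2
  exact_mod_cast h2

theorem dcube (b : F[X]) : derivative (b ^ 3) = 0 := by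
  have h3 := three_zero (F := F)
  have h1 : derivative (b ^ 3) = 3 * (b ^ 2 * derivative b) := by
    rw [show b ^ 3 = b * (b * b) by ring, derivative_mul, derivative_mul]
    ring
  rw [h1, h3, zero_mul]

theorem d2cube (b G : F[X]) :
    derivative (derivative (b ^ 3 * G)) = b ^ 3 * derivative (derivative G) := by
  rw [derivative_mul, dcube, zero_mul, zero_add, derivative_mul, dcube, zero_mul, zero_add]

theorem sol_shift {f P : F[X]} (h : derivative (derivative (f * P)) = 0) :
    IsSol (f + X ^ 2 * P ^ 2) P := by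
  unfold IsSol
  have h3 := three_zero (F := F)
  have h1 : (f + X ^ 2 * P ^ 2) * P = f * P + P ^ 3 * X ^ 2 := by ring
  have h2 : derivative (derivative (X ^ 2 : F[X])) = 2 := by
    rw [show (X ^ 2 : F[X]) = X * X by ring, derivative_mul, derivative_X]
    simp only [one_mul, mul_one, derivative_add, derivative_X]
    norm_num
  rw [h1, derivative_add, derivative_add, h, d2cube, h2, zero_add]
  linear_combination P ^ 3 * h3

theorem cubefree_min {f P : F[X]} (hP : P ≠ 0) (h : derivative (derivative (f * P)) = 0)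
    (hmin : ∀ v : F[X], v ≠ 0 → derivative (derivative (f * v)) = 0 →
      P.natDegree ≤ v.natDegree) : CubeFree P := by
  intro b hb
  obtain ⟨v, hv⟩ := hb
  have hb0 : b ≠ 0 := by
    rintro rfl
    apply hP
    rw [hv]
    ring
  have hv0 : v ≠ 0 := by
    rintro rfl
    apply hP
    rw [hv, mul_zero]
  have hb3 : b ^ 3 ≠ 0 := pow_ne_zero 3 hb0
  have h1 : f * P = b ^ 3 * (f * v) := by
    rw [hv]
    ring
  rw [h1, d2cube] at h
  have h2 : derivative (derivative (f * v)) = 0 := by
    rcases mul_eq_zero.1 h with h3 | h3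
    · exact absurd h3 hb3
    · exact h3
  have h3 := hmin v hv0 h2
  have h4 : P.natDegree = 3 * b.natDegree + v.natDegree := by
    rw [hv, natDegree_mul hb3 hv0, natDegree_pow]
  have h5 : b.natDegree = 0 := by omega
  rw [isUnit_iff_degree_eq_zero, degree_eq_natDegree hb0, h5]
  rfl

end

variable (F : Type) [Field F] [Fintype F] [CharP F 3]

theorem cnt_le (hB0 : DH.S_B0 F) (hB5 : DH.S_B5 F) (hCP : DH.S_CP F) {s a : ℕ}
    (h : 2 * a + 3 ≤ s) {P : F[X]} (hP : P ≠ 0) (hPa : P.natDegree = a) (hcf : CubeFree P) :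
    (((MON F s).filter (fun f => derivative (derivative (f * P)) = 0)).card : ℝ) ≤
      qq F ^ NN (s + a) / qq F ^ a := by
  have hqpos : 0 < qq F := by
    unfold qq
    exact_mod_cast Fintype.card_pos
  obtain ⟨-, b2, -⟩ := hB0
  have h1 : ((MON F s).filter (fun f => derivative (derivative (f * P)) = 0)).card ≤
      cnt s 1 P := by
    unfold cnt
    apply Finset.card_le_card_of_injOn (fun f => f + X ^ 2 * P ^ 2)
    · intro f hf
      have hf' := Finset.mem_filter.1 (Finset.mem_coe.1 hf)
      obtain ⟨hf1, hf2⟩ := hf'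
      obtain ⟨m1, m2⟩ := (b2 s f).1 hf1
      have hdeg : (X ^ 2 * P ^ 2 : F[X]).degree < f.degree := by
        rw [degree_eq_natDegree m1.ne_zero, m2]
        refine lt_of_le_of_lt degree_le_natDegree ?_
        have h2 : (X ^ 2 * P ^ 2 : F[X]).natDegree = 2 + 2 * a := by
          rw [natDegree_mul (pow_ne_zero 2 X_ne_zero) (pow_ne_zero 2 hP), natDegree_pow,
            natDegree_pow, natDegree_X, hPa]
        rw [h2]
        exact_mod_cast (by omega : 2 + 2 * a < s)
      refine Finset.mem_coe.2 (Finset.mem_filter.2 ⟨(b2 s _).2 ⟨?_, ?_⟩, ?_, sol_shift hf2⟩)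
      · exact m1.add_of_left hdeg
      · have h3 := degree_add_eq_left_of_degree_lt hdeg
        have h4 := natDegree_eq_of_degree_eq h3
        rw [h4, m2]
      · rw [one_pow]
        exact one_dvd _
    · intro f _ f' _ hff
      exact add_right_cancel hff
  have h2 := hB5 s a 1 P monic_one squarefree_one hP hPa h (by
    rw [natDegree_one]
    omega)
  have h3 : (cpart ((1 : F[X]) ^ 2 * P)).natDegree = 0 := by
    rw [one_pow, one_mul]
    have h4 := (hCP.1 P hP).2.1
    exact natDegree_eq_zero_of_isUnit (hcf _ h4)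
  have h5 : (cnt s 1 P : ℝ) ≤ qq F ^ NN (s + a) / qq F ^ a := by
    rw [h2]
    split_ifs with h6
    · positivity
    · rw [h3, natDegree_one, pow_zero, mul_one, mul_zero, zero_add]
  refine le_trans ?_ h5
  exact_mod_cast h1

end XT6

open XT6

theorem p_T6 (F : Type) [Field F] [Fintype F] [CharP F 3] (hB0 : DH.S_B0 F) (hB5 : DH.S_B5 F)
    (hCP : DH.S_CP F) : S_T6 F := by
  intro s a h
  have hqpos : 0 < qq F := by
    unfold qq
    exact_mod_cast Fintype.card_pos
  obtain ⟨-, -, b3, -, -, b6⟩ := id hB0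
  have hsub : ((CF F s).filter (fun f₀ => Mdeg f₀ a)) ⊆
      ((DEG F a).filter (fun P => CubeFree P)).biUnion
        (fun P => (MON F s).filter (fun f => derivative (derivative (f * P)) = 0)) := by
    intro f₀ hf
    rw [Finset.mem_filter] at hf
    obtain ⟨hf1, ⟨P, hP0, hPa, hP2⟩, hmin⟩ := hf
    unfold CF at hf1
    rw [Finset.mem_filter] at hf1
    rw [Finset.mem_biUnion]
    refine ⟨P, Finset.mem_filter.2 ⟨(b3 a P).2 ⟨hP0, hPa⟩, ?_⟩, Finset.mem_filter.2 ⟨hf1.1, hP2⟩⟩
    refine cubefree_min hP0 hP2 fun v hv hv2 => ?_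
    rw [hPa]
    exact hmin v hv hv2
  have h1 : (((CF F s).filter (fun f₀ => Mdeg f₀ a)).card : ℝ) ≤
      qq F ^ (NN (s + a) + 1) := by
    have h2 : ((CF F s).filter (fun f₀ => Mdeg f₀ a)).card ≤
        ∑ P ∈ (DEG F a).filter (fun P => CubeFree P),
          ((MON F s).filter (fun f => derivative (derivative (f * P)) = 0)).card :=
      (Finset.card_le_card hsub).trans Finset.card_biUnion_le
    have h3 : (((CF F s).filter (fun f₀ => Mdeg f₀ a)).card : ℝ) ≤
        ∑ P ∈ (DEG F a).filter (fun P => CubeFree P),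
          (((MON F s).filter (fun f => derivative (derivative (f * P)) = 0)).card : ℝ) := by
      exact_mod_cast h2
    have h4 : ∑ P ∈ (DEG F a).filter (fun P => CubeFree P),
          (((MON F s).filter (fun f => derivative (derivative (f * P)) = 0)).card : ℝ) ≤
        ∑ _P ∈ (DEG F a).filter (fun P => CubeFree P), qq F ^ NN (s + a) / qq F ^ a := by
      refine Finset.sum_le_sum fun P hP => ?_
      rw [Finset.mem_filter, b3] at hP
      exact cnt_le F hB0 hB5 hCP h hP.1.1 hP.1.2 hP.2
    rw [Finset.sum_const, nsmul_eq_mul] at h4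
    have h5 : (((DEG F a).filter (fun P => CubeFree P)).card : ℝ) ≤ qq F * qq F ^ a := by
      have h6 : ((DEG F a).filter (fun P => CubeFree P)).card ≤
          Fintype.card F * Fintype.card F ^ a := by
        refine (Finset.card_filter_le _ _).trans ?_
        rw [b6]
        exact Nat.mul_le_mul_right _ (Nat.sub_le _ _)
      unfold qq
      exact_mod_cast h6
    refine h3.trans (h4.trans ?_)
    calc (((DEG F a).filter (fun P => CubeFree P)).card : ℝ) * (qq F ^ NN (s + a) / qq F ^ a)
        ≤ (qq F * qq F ^ a) * (qq F ^ NN (s + a) / qq F ^ a) :=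
          mul_le_mul_of_nonneg_right h5 (by positivity)
      _ = qq F ^ (NN (s + a) + 1) := by
          rw [pow_succ]
          field_simp
  unfold qq at h1
  exact_mod_cast h1

end PP
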