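import Pool.Agent.H461.PP.Stm

/-!
# Project PP, T7: sizes of the kernels (helper227)
-/

open Polynomial
open scoped Classical

noncomputable section

namespace PP

open DH

namespace XT7

variable {F : Type} [Field F]

/-- The kernel as a submodule. -/
def KK (f₀ : F[X]) : Submodule F F[X] where
  carrier := {v | derivative (derivative (f₀ * v)) = 0}
  add_mem' := by
    intro a b ha hb
    have ha' : derivative (derivative (f₀ * a)) = 0 := ha
    have hb' : derivative (derivative (f₀ * b)) = 0 := hb
    show derivative (derivative (f₀ * (a + b))) = 0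
    rw [mul_add, derivative_add, derivative_add, ha', hb', add_zero]
  zero_mem' := by
    show derivative (derivative (f₀ * 0)) = 0
    rw [mul_zero, derivative_zero, derivative_zero]
  smul_mem' := by
    intro c x hx
    have hx' : derivative (derivative (f₀ * x)) = 0 := hx
    show derivative (derivative (f₀ * (c • x))) = 0
    rw [mul_smul_comm, derivative_smul, derivative_smul, hx', smul_zero]

theorem mem_KK (f₀ v : F[X]) : v ∈ KK f₀ ↔ derivative (derivative (f₀ * v)) = 0 := Iff.rfl

/-- The degree of a nonzero `G` with `G'' = 0` is not `2` mod `3`. -/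
theorem deg_mod [CharP F 3] (G : F[X]) (hG : G ≠ 0) (h : derivative (derivative G) = 0) :
    G.natDegree % 3 ≠ 2 := by
  intro h2
  obtain ⟨k, hk⟩ : ∃ k, G.natDegree = 3 * k + 2 := ⟨G.natDegree / 3, by omega⟩
  have h3 : (3 : F) = 0 := by
    have := CharP.cast_eq_zero F 3
    exact_mod_cast this
  have hc : (derivative (derivative G)).coeff (3 * k) = 0 := by
    rw [h]; exact coeff_zero _
  rw [coeff_derivative, coeff_derivative] at hc
  have he : 3 * k + 1 + 1 = G.natDegree := by omega
  rw [he] at hc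
  have hl : G.coeff G.natDegree ≠ 0 := by
    have := leadingCoeff_ne_zero.mpr hG
    exact this
  apply hl
  push_cast at hc
  have e1 : G.coeff G.natDegree * 2 = 0 := by
    have : G.coeff G.natDegree * (3 * (k : F) + 1 + 1) * (3 * (k : F) + 1) =
        G.coeff G.natDegree * 2 + 3 * (G.coeff G.natDegree * (3 * (k : F) ^ 2 + 3 * (k : F))) := by ring
    rw [this, h3, zero_mul, add_zero] at hc
    exact hc
  have e2 : G.coeff G.natDegree = 3 * G.coeff G.natDegree - G.coeff G.natDegree * 2 := by ring
  rw [e2, e1, h3, zero_mul, sub_zero]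

/-- The number of `j < 3 N` with `(j + s) % 3 ≠ 2`. -/
theorem cnt3 (s N : ℕ) : ((Finset.range (3 * N)).filter (fun j => (j + s) % 3 ≠ 2)).card ≤ 2 * N := by
  induction N with
  | zero => simp
  | succ N ih =>
    have h1 : 3 * (N + 1) = 3 * N + 1 + 1 + 1 := by ring
    rw [h1, Finset.range_add_one, Finset.range_add_one, Finset.range_add_one]
    rw [Finset.filter_insert, Finset.filter_insert, Finset.filter_insert]
    have hc : ∀ (S : Finset ℕ) (a : ℕ), (insert a S).card ≤ S.card + 1 := fun S a => Finset.card_insert_le a S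
    by_cases c2 : (3 * N + 1 + 1 + s) % 3 = 2
    · rw [if_neg (by simpa using c2)]
      have d1 : (3 * N + 1 + s) % 3 ≠ 2 := by omega
      have d0 : (3 * N + s) % 3 ≠ 2 := by omega
      rw [if_pos d1, if_pos d0]
      refine le_trans (hc _ _) ?_
      have := hc (Finset.filter (fun j => (j + s) % 3 ≠ 2) (Finset.range (3 * N))) (3 * N)
      omega
    · rw [if_pos c2]
      by_cases c1 : (3 * N + 1 + s) % 3 = 2
      · rw [if_neg (by simpa using c1)]
        have d0 : (3 * N + s) % 3 ≠ 2 := by omega
        rw [if_pos d0]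
        refine le_trans (hc _ _) ?_
        have := hc (Finset.filter (fun j => (j + s) % 3 ≠ 2) (Finset.range (3 * N))) (3 * N)
        omega
      · rw [if_pos c1]
        have c0 : (3 * N + s) % 3 = 2 := by omega
        rw [if_neg (by simpa using c0)]
        refine le_trans (hc _ _) ?_
        have := hc (Finset.filter (fun j => (j + s) % 3 ≠ 2) (Finset.range (3 * N))) (3 * N + 1)
        omega

theorem cntM (s M : ℕ) : ((Finset.range M).filter (fun j => (j + s) % 3 ≠ 2)).card ≤ 2 * ((M + 2) / 3) := by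
  refine le_trans (Finset.card_le_card ?_) (cnt3 s ((M + 2) / 3))
  intro j hj
  rw [Finset.mem_filter, Finset.mem_range] at hj ⊢
  exact ⟨by omega, hj.2⟩

theorem filt_sub {α : Type} (p : α → Prop) (inst : DecidablePred p) (s : Finset α) :
    @Finset.filter α p inst s ⊆ s := by
  intro x hx
  exact (Finset.mem_filter.mp hx).1

end XT7

/-- **T7**. -/
theorem p_T7 (F : Type) [Field F] [Fintype F] [CharP F 3] (hB0 : DH.S_B0 F) (hG3 : DH.S_G3 F)
    (hDC : DH.S_DC F) : S_T7 F := by
  refine ⟨?_, ?_⟩
  · intro g s f₀ hf ⟨v₁, h1, v₂, h2, hI⟩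
    have hf' : f₀ ∈ (MON F s) ∧ CubeFree f₀ := Finset.mem_filter.mp hf
    have h1' : v₁ ∈ POL F g ∧ derivative (derivative (f₀ * v₁)) = 0 := Finset.mem_filter.mp h1
    have h2' : v₂ ∈ POL F g ∧ derivative (derivative (f₀ * v₂)) = 0 := Finset.mem_filter.mp h2
    obtain ⟨hm, hd⟩ := (hB0.2.1 s f₀).mp hf'.1
    obtain ⟨g1, g2, g3⟩ := hG3 g s f₀ v₁ v₂ hm hd hf'.2 h1'.1 h2'.1 hI h1'.2 h2'.2
    refine ⟨g1, g2, ?_⟩
    have g4 : (KG F g f₀).card = Fintype.card F ^ (NN (g + s) - s) := g3
    have g5 : (PRS F g f₀).card ≤ ((KG F g f₀) ×ˢ (KG F g f₀)).card := by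
      unfold PRS
      exact Finset.card_le_card (XT7.filt_sub _ _ _)
    rw [Finset.card_product, g4, ← pow_add] at g5
    rw [two_mul]
    exact g5
  · intro M f₀ hf
    have hq : 1 ≤ Fintype.card F := Fintype.card_pos
    have e := hDC (XT7.KK f₀) M
    have e2 : KG F M f₀ = (POL F M).filter (fun G => G ∈ XT7.KK f₀) := by
      ext v
      rw [KG, Finset.mem_filter, Finset.mem_filter, XT7.mem_KK]
    rw [e2, e]
    apply Nat.pow_le_pow_right hq
    refine le_trans (Finset.card_le_card ?_) (XT7.cntM f₀.natDegree M)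
    intro j hj
    rw [Finset.mem_filter] at hj ⊢
    obtain ⟨hjM, G, hGK, hG0, hGd⟩ := hj
    refine ⟨hjM, ?_⟩
    have := XT7.deg_mod (f₀ * G) (mul_ne_zero hf hG0) ((XT7.mem_KK f₀ G).mp hGK)
    rw [natDegree_mul hf hG0, hGd] at this
    rw [add_comm]
    exact this

end PP
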