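import Pool.Agent.H461.PP.Stm

set_option autoImplicit false

open Polynomial
open scoped Classical

noncomputable section

namespace PP

open DH

variable (F : Type) [Field F] [Fintype F] [CharP F 3]

namespace XT8

variable {F}

lemma neg_cube (v : F[X]) : (-v) ^ 3 = -(v ^ 3) := by ring

lemma sol_zero (f : F[X]) : IsSol f 0 := by
  unfold IsSol
  simp

lemma sol_add {f v w : F[X]} (hv : IsSol f v) (hw : IsSol f w) : IsSol f (v + w) := by
  unfold IsSol at *
  have h : (v + w) ^ 3 = v ^ 3 + w ^ 3 := add_pow_char v w 3
  rw [mul_add, derivative_add, derivative_add, hv, hw, h]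
  ring

lemma sol_neg {f v : F[X]} (hv : IsSol f v) : IsSol f (-v) := by
  unfold IsSol at *
  rw [mul_neg, derivative_neg, derivative_neg, hv, neg_cube]

/-- the solutions as a subgroup -/
def SG (f : F[X]) : AddSubgroup F[X] where
  carrier := {v | IsSol f v}
  zero_mem' := sol_zero f
  add_mem' := sol_add
  neg_mem' := sol_neg

lemma cube_inj {a b : F[X]} (h : a ^ 3 = b ^ 3) : a = b := by
  have h1 : (a - b) ^ 3 = 0 := by
    rw [sub_pow_char a b (p := 3), h, sub_self]
  exact sub_eq_zero.1 (pow_eq_zero_iff (by norm_num) |>.1 h1)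

lemma cube_root (c : F) : ∃ e : F, e ^ 3 = c := by
  have h : Function.Surjective (frobenius F 3) := Finite.surjective_of_injective (frobenius_inj F 3)
  obtain ⟨e, he⟩ := h c
  exact ⟨e, he⟩

lemma fixed (c : F) (h : c ^ 3 = c) (i : Algebra (ZMod 3) F) : ∃ a : ZMod 3, algebraMap (ZMod 3) F a = c := by
  have h1 : c * ((c - 1) * (c + 1)) = 0 := by linear_combination h
  rcases mul_eq_zero.1 h1 with h2 | h2
  · exact ⟨0, by rw [map_zero, h2]⟩
  · rcases mul_eq_zero.1 h2 with h3 | h3
    · exact ⟨1, by rw [map_one, sub_eq_zero.1 h3]⟩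
    · exact ⟨-1, by rw [map_neg, map_one, eq_neg_of_add_eq_zero_left h3]⟩

lemma sum_cube {n : ℕ} (u : Fin n → F[X]) : (∑ i, u i) ^ 3 = ∑ i, u i ^ 3 := by
  exact sum_pow_char 3 Finset.univ u

lemma indep (i3 : Algebra (ZMod 3) F) (f : F[X]) : ∀ (n : ℕ) (v : Fin n → F[X]), (∀ i, IsSol f (v i)) →
    LinearIndependent (ZMod 3) v → LinearIndependent F v := by
  intro n
  induction n with
  | zero => intro v _ _; exact linearIndependent_empty_type
  | succ n ih =>
    intro v hv hl
    rw [linearIndependent_finSucc] at hl ⊢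
    have ht := ih (Fin.tail v) (fun i => hv i.succ) hl.1
    refine ⟨ht, ?_⟩
    intro hm
    apply hl.2
    rw [Submodule.mem_span_range_iff_exists_fun] at hm ⊢
    obtain ⟨c, hc⟩ := hm
    choose e he using fun i => cube_root (c i)
    -- the relation of the cubes
    have h1 : (v 0) ^ 3 = ∑ i, c i • (Fin.tail v i) ^ 3 := by
      have h2 := hv 0
      unfold IsSol at h2
      rw [← hc] at h2
      have h3 : derivative (derivative (f * ∑ i, c i • Fin.tail v i)) =
          ∑ i, c i • (-(Fin.tail v i) ^ 3) := by
        rw [Finset.mul_sum, derivative_sum, derivative_sum]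
        apply Finset.sum_congr rfl
        intro i _
        have h4 : derivative (derivative (f * Fin.tail v i)) = -(Fin.tail v i) ^ 3 := hv i.succ
        rw [mul_smul_comm, derivative_smul, derivative_smul, h4]
      rw [h3] at h2
      have h5 : ∑ i, c i • (-(Fin.tail v i) ^ 3) = -∑ i, c i • (Fin.tail v i) ^ 3 := by
        rw [← Finset.sum_neg_distrib]
        apply Finset.sum_congr rfl
        intro i _
        rw [smul_neg]
      rw [h5, neg_inj] at h2
      rw [← hc]
      exact h2.symm
    have h6 : v 0 = ∑ i, e i • Fin.tail v i := by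
      apply cube_inj
      rw [h1, sum_cube]
      apply Finset.sum_congr rfl
      intro i _
      rw [_root_.smul_pow, he]
    have h7 : ∀ i, e i = c i := by
      have h8 : ∑ i, (e i - c i) • Fin.tail v i = 0 := by
        simp only [sub_smul, Finset.sum_sub_distrib]
        rw [← h6, hc, sub_self]
      have h9 := Fintype.linearIndependent_iff.1 ht _ h8
      intro i
      exact sub_eq_zero.1 (h9 i)
    have h10 : ∀ i, ∃ a : ZMod 3, algebraMap (ZMod 3) F a = c i := by
      intro i
      apply fixed (c i) _ i3
      have := he i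
      rw [h7] at this
      exact this
    choose a ha using h10
    refine ⟨a, ?_⟩
    rw [← hc]
    apply Finset.sum_congr rfl
    intro i _
    rw [← ha i, algebraMap_smul]

end XT8

open XT8 in
theorem p_T8 (hB1 : DH.S_B1 F) : S_T8 F := by
  intro g f hf
  obtain ⟨-, -, -, -, b5, b6, -⟩ := hB1
  let i3 : Algebra (ZMod 3) F := ZMod.algebra F 3
  let V : Submodule (ZMod 3) F[X] := AddSubgroup.toZModSubmodule 3 (SG f)
  have hVm : ∀ v : F[X], v ∈ V ↔ IsSol f v := fun v => Iff.rfl
  have hset : (V : Set F[X]) = ((sol f : Finset F[X]) : Set F[X]) := by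
    ext v
    rw [SetLike.mem_coe, hVm, Finset.mem_coe, b6]
  have hfin : Finite V := by
    have : (V : Set F[X]).Finite := by rw [hset]; exact Finset.finite_toSet _
    exact this.to_subtype
  have hcard : Nat.card V = (sol f).card := by
    have : Nat.card V = (V : Set F[X]).ncard := rfl
    rw [this, hset, Set.ncard_coe_finset]
  have hdeg : ∀ v : F[X], IsSol f v → v ∈ degreeLT F g := by
    intro v hv
    rw [mem_degreeLT]
    rcases eq_or_ne v 0 with h | h
    · rw [h, degree_zero]; exact WithBot.bot_lt_coe g
    · have := b5 f v h hv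
      rw [hf] at this
      rw [degree_eq_natDegree h]
      exact_mod_cast (by omega : v.natDegree < g)
  have hfd : Module.Finite (ZMod 3) V := inferInstance
  have hpow : Nat.card V = 3 ^ Module.finrank (ZMod 3) V := by
    have := Module.natCard_eq_pow_finrank (K := ZMod 3) (V := V)
    rw [this, Nat.card_zmod]
  rw [← hcard, hpow]
  apply Nat.pow_le_pow_right (by norm_num)
  set r := Module.finrank (ZMod 3) V with hr
  let b := Module.finBasis (ZMod 3) V
  have hl : LinearIndependent (ZMod 3) (fun i => ((b i : V) : F[X])) :=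
    b.linearIndependent.map' V.subtype V.ker_subtype
  have hl2 := indep i3 f r (fun i => ((b i : V) : F[X])) (fun i => (b i).2) hl
  let w : Fin r → degreeLT F g := fun i => ⟨((b i : V) : F[X]), hdeg _ (b i).2⟩
  have hl3 : LinearIndependent F w := LinearIndependent.of_comp (degreeLT F g).subtype hl2
  have : Module.Finite F (degreeLT F g) := Module.Finite.equiv (degreeLTEquiv F g).symm
  have h1 := hl3.fintype_card_le_finrank
  rw [Fintype.card_fin, (degreeLTEquiv F g).finrank_eq, Module.finrank_fin_fun] at h1
  exact h1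

end PP
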