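import Pool.Agent.H461.PP.Stm

/-!
# PP/U1 (helper333 for helper461): the balanced part
-/

open Polynomial
open scoped Classical

noncomputable section

namespace PP

open DH

namespace XU1

theorem two_le_qq (F : Type) [Field F] [Fintype F] : (2 : ℝ) ≤ qq F := by
  have h : 2 ≤ Fintype.card F := Fintype.one_lt_card (α := F)
  unfold qq
  exact_mod_cast h

theorem dec {q : ℝ} (hq : 2 ≤ q) {m k : ℕ} (h : m ≤ k) :
    ((k : ℝ) + 1) / q ^ k ≤ ((m : ℝ) + 1) / q ^ m := by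
  obtain ⟨j, rfl⟩ := Nat.exists_eq_add_of_le h
  have hq0 : 0 < q := by linarith
  have h1 : (j : ℝ) + 1 ≤ q ^ j := by
    have h2 : (1 : ℝ) + j * 1 ≤ (1 + 1) ^ j := one_add_mul_le_pow (by norm_num) j
    have h3 : ((1 : ℝ) + 1) ^ j ≤ q ^ j := pow_le_pow_left₀ (by norm_num) (by linarith) j
    linarith
  have hm0 : (0 : ℝ) ≤ m := Nat.cast_nonneg m
  have hj0 : (0 : ℝ) ≤ j := Nat.cast_nonneg j
  have h2 : ((m + j : ℕ) : ℝ) + 1 ≤ ((m : ℝ) + 1) * ((j : ℝ) + 1) := by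
    push_cast
    have : 0 ≤ (m : ℝ) * j := mul_nonneg hm0 hj0
    linarith
  have h3 : ((m : ℝ) + 1) * ((j : ℝ) + 1) ≤ ((m : ℝ) + 1) * q ^ j :=
    mul_le_mul_of_nonneg_left h1 (by linarith)
  rw [div_le_div_iff₀ (pow_pos hq0 _) (pow_pos hq0 _)]
  calc (((m + j : ℕ) : ℝ) + 1) * q ^ m ≤ (((m : ℝ) + 1) * q ^ j) * q ^ m :=
        mul_le_mul_of_nonneg_right (h2.trans h3) (pow_pos hq0 _).le
    _ = ((m : ℝ) + 1) * q ^ (m + j) := by rw [pow_add]; ring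

/-- the final computation -/
theorem fin {q S T P : ℝ} {E b W s k m G : ℕ} {Z : ℝ} (hq : 2 ≤ q)
    (h1 : T ≤ P * q ^ E) (h2 : P ≤ q ^ b * q ^ W + q ^ (s + 1) * S)
    (h3 : S ≤ 24 * ((k : ℝ) + 1) * q ^ W / q ^ k)
    (i1 : E + b + W + m ≤ G) (i2 : E + (s + 1) + W ≤ G) (i3 : m ≤ k) (hZ : (m : ℝ) ≤ Z) :
    T ≤ 25 * (Z + 1) * q ^ G / q ^ m := by
  have hq0 : 0 < q := by linarith
  have hq1 : 1 ≤ q := by linarith
  have hm : 0 < q ^ m := pow_pos hq0 m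
  have hk : 0 < q ^ k := pow_pos hq0 k
  have hE : 0 < q ^ E := pow_pos hq0 E
  have hG : 0 < q ^ G := pow_pos hq0 G
  have t1 : q ^ b * q ^ W * q ^ E ≤ q ^ G / q ^ m := by
    rw [le_div_iff₀ hm, ← pow_add, ← pow_add, ← pow_add]
    exact pow_le_pow_right₀ hq1 (by omega)
  have t2 : q ^ (s + 1) * S * q ^ E ≤ 24 * (((m : ℝ) + 1) / q ^ m) * q ^ G := by
    have e1 : q ^ (s + 1) * (24 * ((k : ℝ) + 1) * q ^ W / q ^ k) * q ^ E =
        24 * (((k : ℝ) + 1) / q ^ k) * q ^ (E + (s + 1) + W) := by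
      rw [pow_add, pow_add]
      ring
    calc q ^ (s + 1) * S * q ^ E ≤ q ^ (s + 1) * (24 * ((k : ℝ) + 1) * q ^ W / q ^ k) * q ^ E :=
          mul_le_mul_of_nonneg_right (mul_le_mul_of_nonneg_left h3 (pow_pos hq0 _).le) hE.le
      _ = 24 * (((k : ℝ) + 1) / q ^ k) * q ^ (E + (s + 1) + W) := e1
      _ ≤ 24 * (((m : ℝ) + 1) / q ^ m) * q ^ (E + (s + 1) + W) :=
          mul_le_mul_of_nonneg_right (mul_le_mul_of_nonneg_left (dec hq i3) (by norm_num))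
            (pow_pos hq0 _).le
      _ ≤ 24 * (((m : ℝ) + 1) / q ^ m) * q ^ G :=
          mul_le_mul_of_nonneg_left (pow_le_pow_right₀ hq1 i2) (by positivity)
  have t3 : T ≤ (q ^ b * q ^ W + q ^ (s + 1) * S) * q ^ E :=
    h1.trans (mul_le_mul_of_nonneg_right h2 hE.le)
  have t4 : T ≤ q ^ G / q ^ m + 24 * (((m : ℝ) + 1) / q ^ m) * q ^ G := by
    refine t3.trans ?_
    rw [add_mul]
    exact add_le_add t1 t2
  refine t4.trans ?_
  have e2 : q ^ G / q ^ m + 24 * (((m : ℝ) + 1) / q ^ m) * q ^ G =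
      (1 + 24 * ((m : ℝ) + 1)) * q ^ G / q ^ m := by
    field_simp
  rw [e2]
  refine div_le_div_of_nonneg_right (mul_le_mul_of_nonneg_right ?_ hG.le) hm.le
  have : (0 : ℝ) ≤ m := Nat.cast_nonneg m
  linarith

end XU1

theorem p_U1 (F : Type) [Field F] [Fintype F] [CharP F 3] (hT4 : S_T4 F) (hT5 : S_T5 F)
    (hT10a : S_T10a F) : S_U1 F := by
  intro g s a b hab hs hb h1000 hg h64
  have hq := XU1.two_le_qq F
  obtain ⟨l0, hl0⟩ : ∃ l0, l0 = (g - 1 - a) / 3 := ⟨_, rfl⟩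
  obtain ⟨l1, hl1⟩ : ∃ l1, l1 = (g - 1 - b) / 3 := ⟨_, rfl⟩
  have t4 := hT4 g s a b hab hs hb
  rw [← hl0, ← hl1] at t4
  have t5 := hT5 l0 l1 (by omega)
  have t1 : ∑ f₀ ∈ (CF F s).filter (fun f₀ => Mdeg f₀ a), ((TR F g f₀).card : ℝ) ≤
      (∑ f₀ ∈ (CF F s).filter (fun f₀ => Mdeg f₀ a), ((PRS F g f₀).card : ℝ)) *
        qq F ^ ((2 * g - s) / 3 + 1) := by
    rw [Finset.sum_mul]
    refine Finset.sum_le_sum fun f₀ hf => ?_
    have h := hT10a g s f₀ (Finset.mem_filter.1 hf).1 (by omega)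
    unfold qq
    exact_mod_cast h
  have hZ : (((2 * g - s) / 256 : ℕ) : ℝ) ≤ ((2 * g - s : ℕ) : ℝ) := by
    exact_mod_cast Nat.div_le_self _ _
  exact XU1.fin hq t1 t4 t5 (by omega) (by omega) (by omega) hZ

end PP
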