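import Pool.Agent.H461.PP.Stm

/-!
# PP, U2: the unbalanced part
-/

set_option autoImplicit false

open Polynomial
open scoped Classical

noncomputable section

namespace PP

open DH

namespace XU2

/-- The bound for one `f₀`. -/
lemma one (F : Type) [Field F] [Fintype F] [CharP F 3] (hT7 : S_T7 F) (hT10a : S_T10a F)
    (g s : ℕ) (hs : s ≤ 2 * g) (f₀ : F[X]) (hf : f₀ ∈ CF F s) :
    (TR F g f₀).card ≤ Fintype.card F ^ (2 * (NN (g + s) - s) + ((2 * g - s) / 3 + 1)) := by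
  refine (hT10a g s f₀ hf hs).trans ?_
  rcases Finset.eq_empty_or_nonempty (PRS F g f₀) with h | ⟨p, hp⟩
  · rw [h, Finset.card_empty, zero_mul]
    exact Nat.zero_le _
  · simp only [PRS, Finset.mem_filter, Finset.mem_product] at hp
    have h2 := (hT7.1 g s f₀ hf ⟨p.1, hp.1.1, p.2, hp.1.2, hp.2.1⟩).2.2
    rw [pow_add (Fintype.card F) (2 * (NN (g + s) - s)) ((2 * g - s) / 3 + 1)]
    exact Nat.mul_le_mul_right _ h2

end XU2

theorem p_U2 (F : Type) [Field F] [Fintype F] [CharP F 3] (hT6 : S_T6 F) (hT7 : S_T7 F)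
    (hT10a : S_T10a F) : S_U2 F := by
  intro g s a h1 h2
  have hq1 : 1 ≤ Fintype.card F := Fintype.card_pos
  have hq : (1 : ℝ) ≤ qq F := by
    unfold qq
    exact_mod_cast hq1
  have hq0 : (0 : ℝ) < qq F := by linarith
  have h3 : 2 * a + 3 ≤ s := by omega
  set E := 2 * (NN (g + s) - s) + ((2 * g - s) / 3 + 1) with hE
  have h4 : ∀ f₀ ∈ (CF F s).filter (fun f₀ => Mdeg f₀ a), ((TR F g f₀).card : ℝ) ≤ qq F ^ E := by
    intro f₀ hf
    have h5 := XU2.one F hT7 hT10a g s (by omega) f₀ (Finset.mem_filter.1 hf).1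
    unfold qq
    exact_mod_cast h5
  have h6 := Finset.sum_le_card_nsmul _ _ _ h4
  refine h6.trans ?_
  rw [nsmul_eq_mul]
  have h7 : (((CF F s).filter (fun f₀ => Mdeg f₀ a)).card : ℝ) ≤ qq F ^ (NN (s + a) + 1) := by
    have h8 := hT6 s a h3
    unfold qq
    exact_mod_cast h8
  rw [le_div_iff₀ (pow_pos hq0 _)]
  calc (((CF F s).filter (fun f₀ => Mdeg f₀ a)).card : ℝ) * qq F ^ E * qq F ^ ((2 * g - s) / 192)
      ≤ qq F ^ (NN (s + a) + 1) * qq F ^ E * qq F ^ ((2 * g - s) / 192) := by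
        gcongr
    _ = qq F ^ (NN (s + a) + 1 + E + (2 * g - s) / 192) := by
        rw [pow_add (qq F) (NN (s + a) + 1 + E), pow_add (qq F) (NN (s + a) + 1) E]
    _ ≤ qq F ^ (2 * g + 4) := by
        apply pow_le_pow_right₀ hq
        rw [hE]
        unfold NN
        omega

end PP
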