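import Pool.Agent.H461.PP.Stm

/-!
# U3: sum over the minimal degree (helper769, for helper461)
-/

set_option autoImplicit false

open Polynomial
open scoped Classical

noncomputable section

namespace PP

open DH

namespace XU3

/-- the possible minimal degrees -/
def AA (g s : ℕ) : Finset ℕ := (Finset.range (s + 2)).filter (fun a => s + 2 ≤ a + g ∧ 2 * a ≤ s + 1)

theorem card_AA (g s : ℕ) (h : s + 1000 ≤ 2 * g) : (AA g s).card ≤ 2 * g - s + 1 := by
  have h1 : AA g s ⊆ Finset.Icc (s + 2 - g) ((s + 1) / 2) := by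
    intro a ha
    rw [AA, Finset.mem_filter] at ha
    rw [Finset.mem_Icc]
    omega
  have h2 := Finset.card_le_card h1
  rw [Nat.card_Icc] at h2
  omega

end XU3

theorem p_U3 (F : Type) [Field F] [Fintype F] [CharP F 3] (hU1 : S_U1 F) (hU2 : S_U2 F)
    (hT2 : S_T2 F) : S_U3 F := by
  intro g s hgs hg16
  obtain ⟨X, hX⟩ : ∃ X, X = 2 * g - s := ⟨_, rfl⟩
  rw [← hX]
  have hq1 : (1 : ℝ) ≤ qq F := by
    unfold qq
    exact_mod_cast Fintype.card_pos
  have hq0 : (0 : ℝ) < qq F := by linarith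
  have hX0 : (0 : ℝ) ≤ (X : ℝ) := Nat.cast_nonneg X
  -- split according to the minimal degree
  have h1 : ∑ f₀ ∈ CF F s, ((TR F g f₀).card : ℝ) ≤
      ∑ a ∈ XU3.AA g s, ∑ f₀ ∈ (CF F s).filter (fun f₀ => Mdeg f₀ a), ((TR F g f₀).card : ℝ) := by
    have e1 : ∑ a ∈ XU3.AA g s, ∑ f₀ ∈ (CF F s).filter (fun f₀ => Mdeg f₀ a),
        ((TR F g f₀).card : ℝ) = ∑ f₀ ∈ CF F s, ∑ a ∈ XU3.AA g s,
          if Mdeg f₀ a then ((TR F g f₀).card : ℝ) else 0 := by
      rw [Finset.sum_comm]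
      exact Finset.sum_congr rfl fun a _ => Finset.sum_filter _ _
    rw [e1]
    refine Finset.sum_le_sum fun f₀ hf₀ => ?_
    have hnn : ∀ a ∈ XU3.AA g s, (0 : ℝ) ≤ if Mdeg f₀ a then ((TR F g f₀).card : ℝ) else 0 := by
      intro a _
      split_ifs
      · exact Nat.cast_nonneg _
      · exact le_rfl
    rcases Finset.eq_empty_or_nonempty (TR F g f₀) with h0 | ⟨t, ht⟩
    · have hz : ((TR F g f₀).card : ℝ) = 0 := by rw [h0, Finset.card_empty, Nat.cast_zero]
      have hs := Finset.sum_nonneg hnn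
      rw [hz] at hs ⊢
      exact hs
    · rw [TR, Finset.mem_filter, Finset.mem_product, Finset.mem_product] at ht
      obtain ⟨⟨_, hv1, hv2⟩, hind, _⟩ := ht
      obtain ⟨a, b, P₀, P₁, hab, hsum, hbg, _, _, hM, _⟩ := hT2 g s f₀ t.2.1 t.2.2 hf₀ hv1 hv2 hind
      have haA : a ∈ XU3.AA g s := by
        rw [XU3.AA, Finset.mem_filter, Finset.mem_range]
        omega
      have h2 := Finset.single_le_sum hnn haA
      rw [if_pos hM] at h2
      exact h2
  refine h1.trans ?_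
  -- each minimal degree
  have h2 : ∀ a ∈ XU3.AA g s, ∑ f₀ ∈ (CF F s).filter (fun f₀ => Mdeg f₀ a),
      ((TR F g f₀).card : ℝ) ≤ 26 * ((X : ℝ) + 1) * qq F ^ (2 * g + 4) / qq F ^ (X / 256) := by
    intro a ha
    rw [XU3.AA, Finset.mem_filter, Finset.mem_range] at ha
    have hp : (0 : ℝ) < qq F ^ (2 * g + 4) := by positivity
    have hp2 : (0 : ℝ) < qq F ^ (X / 256) := by positivity
    rcases lt_or_ge (64 * s) (128 * a + (2 * g - s)) with h3 | h3
    · have h4 := hU1 g s a (s + 1 - a) (by omega) (by omega) (by omega) hgs hg16 h3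
      rw [← hX] at h4
      refine h4.trans ?_
      gcongr
      norm_num
    · have h4 := hU2 g s a hgs h3
      rw [← hX] at h4
      refine h4.trans ?_
      have h5 : qq F ^ (X / 256) ≤ qq F ^ (X / 192) :=
        pow_le_pow_right₀ hq1 (Nat.div_le_div_left (by norm_num) (by norm_num))
      calc qq F ^ (2 * g + 4) / qq F ^ (X / 192) ≤ qq F ^ (2 * g + 4) / qq F ^ (X / 256) := by
            gcongr
        _ ≤ 26 * ((X : ℝ) + 1) * qq F ^ (2 * g + 4) / qq F ^ (X / 256) := by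
            gcongr
            nlinarith
  refine (Finset.sum_le_sum h2).trans ?_
  rw [Finset.sum_const, nsmul_eq_mul]
  have h3 : ((XU3.AA g s).card : ℝ) ≤ (X : ℝ) + 1 := by
    have h4 := XU3.card_AA g s hgs
    rw [← hX] at h4
    exact_mod_cast h4
  calc ((XU3.AA g s).card : ℝ) * (26 * ((X : ℝ) + 1) * qq F ^ (2 * g + 4) / qq F ^ (X / 256)) ≤
        ((X : ℝ) + 1) * (26 * ((X : ℝ) + 1) * qq F ^ (2 * g + 4) / qq F ^ (X / 256)) := by
        gcongr
    _ = 26 * ((X : ℝ) + 1) ^ 2 * qq F ^ (2 * g + 4) / qq F ^ (X / 256) := by ring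

end PP
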