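import Pool.Agent.H461.PP.Stm

/-!
# Project PP, statement U4: two crude bounds

(1) For `s ≤ 2 g` every monic cube-free `f₀` of degree `s` has `#TR ≤ q^{2g+3-s}` (T7 (1), T10a), and there are at most `q^s` of them.
(2) T10b and T9 bound every single `#TR`.
-/

open Polynomial
open scoped Classical

noncomputable section

namespace PP

open DH

variable (F : Type) [Field F] [Fintype F] [CharP F 3]

namespace XU4

variable {F}

/-- There are at most `q^s` monic cube-free polynomials of degree `s`. -/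
lemma card_CF (hB0 : DH.S_B0 F) (s : ℕ) : ((CF F s).card : ℝ) ≤ qq F ^ s := by
  have h1 : (CF F s).card ≤ (MON F s).card := Finset.card_filter_le _ _
  rw [hB0.2.2.2.2.1 s] at h1
  unfold qq
  exact_mod_cast h1

/-- The elements of `CF F s` are not `0`. -/
lemma cf_ne_zero (hB0 : DH.S_B0 F) (s : ℕ) (f₀ : F[X]) (hf₀ : f₀ ∈ CF F s) : f₀ ≠ 0 :=
  ((hB0.2.1 s f₀).1 (Finset.mem_filter.1 hf₀).1).1.ne_zero

/-- The bound for one `f₀`. -/
lemma card_TR (hT7 : S_T7 F) (hT10a : S_T10a F) (g s : ℕ) (hs : s ≤ 2 * g) (f₀ : F[X])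
    (hf₀ : f₀ ∈ CF F s) : (TR F g f₀).card ≤ Fintype.card F ^ (2 * g + 3 - s) := by
  by_cases h : ∃ v₁ ∈ KG F g f₀, ∃ v₂ ∈ KG F g f₀, Ind v₁ v₂
  · obtain ⟨h1, h2, h3⟩ := hT7.1 g s f₀ hf₀ h
    have h4 := hT10a g s f₀ hf₀ hs
    have hN : 3 * NN (g + s) ≤ 2 * (g + s) + 2 := by unfold NN; omega
    calc (TR F g f₀).card
        ≤ (PRS F g f₀).card * Fintype.card F ^ ((2 * g - s) / 3 + 1) := h4
      _ ≤ Fintype.card F ^ (2 * (NN (g + s) - s)) * Fintype.card F ^ ((2 * g - s) / 3 + 1) :=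
          Nat.mul_le_mul_right _ h3
      _ = Fintype.card F ^ (2 * (NN (g + s) - s) + ((2 * g - s) / 3 + 1)) := (pow_add _ _ _).symm
      _ ≤ Fintype.card F ^ (2 * g + 3 - s) := Nat.pow_le_pow_right Fintype.card_pos (by omega)
  · have h0 : TR F g f₀ = ∅ := by
      apply Finset.eq_empty_of_forall_notMem
      intro t ht
      unfold TR at ht
      rw [Finset.mem_filter, Finset.mem_product, Finset.mem_product] at ht
      exact h ⟨t.2.1, ht.1.2.1, t.2.2, ht.1.2.2, ht.2.1⟩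
    rw [h0, Finset.card_empty]
    exact Nat.zero_le _

end XU4

/-- **U4**: two crude bounds. -/
theorem p_U4 (hB0 : DH.S_B0 F) (hT7 : S_T7 F) (hT9 : S_T9 F) (hT10a : S_T10a F)
    (hT10b : S_T10b F) : S_U4 F := by
  have hq : (0 : ℝ) ≤ qq F := Nat.cast_nonneg _
  refine ⟨fun g s hs => ?_, fun g s => ?_⟩
  · calc ∑ f₀ ∈ CF F s, ((TR F g f₀).card : ℝ)
        ≤ ∑ f₀ ∈ CF F s, qq F ^ (2 * g + 3 - s) :=
          Finset.sum_le_sum fun f₀ hf₀ => by
            have h := XU4.card_TR hT7 hT10a g s hs f₀ hf₀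
            unfold qq
            exact_mod_cast h
      _ = ((CF F s).card : ℝ) * qq F ^ (2 * g + 3 - s) := by
          rw [Finset.sum_const, nsmul_eq_mul]
      _ ≤ qq F ^ s * qq F ^ (2 * g + 3 - s) :=
          mul_le_mul_of_nonneg_right (XU4.card_CF hB0 s) (pow_nonneg hq _)
      _ = qq F ^ (2 * g + 3) := by
          rw [← pow_add, show s + (2 * g + 3 - s) = 2 * g + 3 by omega]
  · have h3 : (0 : ℝ) ≤ 3 ^ g := by positivity
    calc ∑ f₀ ∈ CF F s, ((TR F g f₀).card : ℝ)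
        ≤ ∑ f₀ ∈ CF F s, (3 ^ g * ((g + 1) ^ 2 * qq F ^ ((5 * g + 9) / 3)) : ℝ) :=
          Finset.sum_le_sum fun f₀ hf₀ => le_trans (hT10b g f₀)
            (mul_le_mul_of_nonneg_left (hT9 g f₀ (XU4.cf_ne_zero hB0 s f₀ hf₀)) h3)
      _ = ((CF F s).card : ℝ) * (3 ^ g * ((g + 1) ^ 2 * qq F ^ ((5 * g + 9) / 3))) := by
          rw [Finset.sum_const, nsmul_eq_mul]
      _ ≤ qq F ^ s * (3 ^ g * ((g + 1) ^ 2 * qq F ^ ((5 * g + 9) / 3))) :=
          mul_le_mul_of_nonneg_right (XU4.card_CF hB0 s)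
            (mul_nonneg h3 (mul_nonneg (by positivity) (pow_nonneg hq _)))

end PP
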