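import Pool.Agent.H461.PP.Stm2

/-!
# Project PP, second part: V1
-/

open Polynomial
open scoped Classical

noncomputable section

namespace PP

open DH

theorem p_V1 (F : Type) [Field F] [Fintype F] [CharP F 3] : S_V1 F := by
  intro f v₁ v₂ H w h₁ h₂ hW
  have hP : derivative (H ^ 3) = 0 := by
    rw [derivative_pow]
    have e : (C ((3 : ℕ) : F)) = (0 : F[X]) := by
      rw [CharP.cast_eq_zero F 3, C_0]
    rw [e, zero_mul, zero_mul]
  unfold IsSol at h₁ h₂
  have hW' := congrArg derivative hW
  rw [derivative_mul (f := H ^ 3), hP, zero_mul, zero_add] at hW'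
  simp only [derivative_mul, derivative_add, derivative_sub] at h₁ h₂ hW'
  refine ⟨2 * derivative f * w + f * derivative w, ?_⟩
  linear_combination (-v₂) * h₁ + v₁ * h₂ + 2 * derivative f * hW + f * hW'

end PP
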