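import Pool.Agent.H461.PP.Stm2

set_option autoImplicit false

open Polynomial
open scoped Classical

namespace PP

open DH

namespace XV2

variable {F : Type} [Field F]

theorem dvd_cube {H t a : F[X]} (h1 : a ∣ H ^ 3) (h2 : a ∣ t) :
    a ∣ (EuclideanDomain.gcd H t) ^ 3 := by
  rw [EuclideanDomain.gcd_eq_gcd_ab H t]
  have h : (H * EuclideanDomain.gcdA H t + t * EuclideanDomain.gcdB H t) ^ 3 =
      H ^ 3 * EuclideanDomain.gcdA H t ^ 3 +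
        t * (3 * H ^ 2 * EuclideanDomain.gcdA H t ^ 2 * EuclideanDomain.gcdB H t +
          3 * H * EuclideanDomain.gcdA H t * t * EuclideanDomain.gcdB H t ^ 2 +
          t ^ 2 * EuclideanDomain.gcdB H t ^ 3) := by ring
  rw [h]
  exact dvd_add (h1.mul_right _) (h2.mul_right _)

theorem deg_le {H t a : F[X]} (ht : t ≠ 0) (h1 : a ∣ H ^ 3) (h2 : a ∣ t) :
    a.natDegree ≤ 3 * (EuclideanDomain.gcd H t).natDegree := by
  have hg : EuclideanDomain.gcd H t ≠ 0 := by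
    intro h
    exact ht (EuclideanDomain.gcd_eq_zero_iff.1 h).2
  have h3 := natDegree_le_of_dvd (dvd_cube h1 h2) (pow_ne_zero 3 hg)
  rwa [natDegree_pow] at h3

end XV2

theorem p_V2 (F : Type) [Field F] [Fintype F] [CharP F 3] : S_V2 F := by
  intro H t₁ t₂ t₃ t₄ hH h₁ h₂ h₃ h₄ hd
  obtain ⟨b, a₄, hb, ha₄, e₁⟩ := exists_dvd_and_dvd_of_dvd_mul hd
  obtain ⟨c, a₃, hc, ha₃, e₂⟩ := exists_dvd_and_dvd_of_dvd_mul hb
  obtain ⟨a₁, a₂, ha₁, ha₂, e₃⟩ := exists_dvd_and_dvd_of_dvd_mul hc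
  have e : H ^ 3 = a₁ * a₂ * a₃ * a₄ := by rw [e₁, e₂, e₃]
  have hne : a₁ * a₂ * a₃ * a₄ ≠ 0 := by
    rw [← e]
    exact pow_ne_zero 3 hH
  have n₄ : a₄ ≠ 0 := right_ne_zero_of_mul hne
  have n₃' := left_ne_zero_of_mul hne
  have n₃ : a₃ ≠ 0 := right_ne_zero_of_mul n₃'
  have n₂' := left_ne_zero_of_mul n₃'
  have n₂ : a₂ ≠ 0 := right_ne_zero_of_mul n₂'
  have n₁ : a₁ ≠ 0 := left_ne_zero_of_mul n₂'
  have d₁ : a₁ ∣ H ^ 3 := ⟨a₂ * a₃ * a₄, by rw [e]; ring⟩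
  have d₂ : a₂ ∣ H ^ 3 := ⟨a₁ * a₃ * a₄, by rw [e]; ring⟩
  have d₃ : a₃ ∣ H ^ 3 := ⟨a₁ * a₂ * a₄, by rw [e]; ring⟩
  have d₄ : a₄ ∣ H ^ 3 := ⟨a₁ * a₂ * a₃, by rw [e]; ring⟩
  have hdeg : 3 * H.natDegree = a₁.natDegree + a₂.natDegree + a₃.natDegree + a₄.natDegree := by
    have h5 := congrArg natDegree e
    rw [natDegree_pow, natDegree_mul n₃' n₄, natDegree_mul n₂' n₃, natDegree_mul n₁ n₂] at h5
    exact h5
  have k₁ := XV2.deg_le h₁ d₁ ha₁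
  have k₂ := XV2.deg_le h₂ d₂ ha₂
  have k₃ := XV2.deg_le h₃ d₃ ha₃
  have k₄ := XV2.deg_le h₄ d₄ ha₄
  omega

end PP
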