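import Pool.Agent.H461.PP.Stm2

/-!
# PP V3 (helper323): matrices with large `gcd (H, N(α, β))`
-/

set_option autoImplicit false
set_option linter.unusedSectionVars false

open Polynomial
open scoped Classical

noncomputable section

namespace PP

open DH

namespace XV3

variable {F : Type} [Field F] [Fintype F] [CharP F 3]

theorem qq_ge : (1 : ℝ) ≤ qq F := by
  unfold qq
  exact_mod_cast (Fintype.card_pos (α := F))

theorem qq_pos : (0 : ℝ) < qq F := lt_of_lt_of_le one_pos qq_ge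

theorem pow_ge (n : ℕ) : (1 : ℝ) ≤ qq F ^ n := one_le_pow₀ qq_ge

theorem ppos (n : ℕ) : (0 : ℝ) < qq F ^ n := pow_pos qq_pos n

/-- the multiples of `E` -/
theorem card_div (hB0 : DH.S_B0 F) (n : ℕ) {E : F[X]} (hE : E ≠ 0) :
    (((POL F n).filter (fun d => E ∣ d)).card : ℝ) ≤ 1 + qq F ^ n / qq F ^ E.natDegree := by
  by_cases h : E.natDegree < n
  · have h1 : ((POL F n).filter (fun d => E ∣ d)) ⊆
        (POL F (n - E.natDegree)).image (fun y => E * y) := by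
      intro d hd
      obtain ⟨hd1, y, rfl⟩ := Finset.mem_filter.1 hd
      refine Finset.mem_image.2 ⟨y, ?_, rfl⟩
      rw [hB0.1] at hd1 ⊢
      by_cases hy : y = 0
      · rw [hy, degree_zero]
        exact WithBot.bot_lt_coe _
      · rw [degree_mul, degree_eq_natDegree hE, degree_eq_natDegree hy] at hd1
        rw [degree_eq_natDegree hy]
        have h2 : E.natDegree + y.natDegree < n := by exact_mod_cast hd1
        exact_mod_cast (by omega : y.natDegree < n - E.natDegree)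
    have h2 := (Finset.card_le_card h1).trans Finset.card_image_le
    rw [hB0.2.2.2.1] at h2
    have h3 : ((Fintype.card F ^ (n - E.natDegree) : ℕ) : ℝ) = qq F ^ n / qq F ^ E.natDegree := by
      rw [eq_div_iff (ppos _).ne', Nat.cast_pow]
      change qq F ^ (n - E.natDegree) * qq F ^ E.natDegree = qq F ^ n
      rw [← pow_add, Nat.sub_add_cancel h.le]
    have h4 : (((POL F n).filter (fun d => E ∣ d)).card : ℝ) ≤
        ((Fintype.card F ^ (n - E.natDegree) : ℕ) : ℝ) := by exact_mod_cast h2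
    rw [h3] at h4
    linarith
  · have h1 : ((POL F n).filter (fun d => E ∣ d)) ⊆ {0} := by
      intro d hd
      obtain ⟨hd1, hd2⟩ := Finset.mem_filter.1 hd
      rw [Finset.mem_singleton]
      by_contra hd0
      rw [hB0.1, degree_eq_natDegree hd0] at hd1
      have h2 : d.natDegree < n := by exact_mod_cast hd1
      have h3 := natDegree_le_of_dvd hd2 hd0
      omega
    have h2 := Finset.card_le_card h1
    rw [Finset.card_singleton] at h2
    have h4 : (((POL F n).filter (fun d => E ∣ d)).card : ℝ) ≤ 1 := by exact_mod_cast h2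
    have h5 : 0 ≤ qq F ^ n / qq F ^ E.natDegree := div_nonneg (ppos _).le (ppos _).le
    linarith

/-- the entries `a` with `E ∣ α β' - a β` -/
theorem card_E (hB0 : DH.S_B0 F) {l k : ℕ} {α β β' E : F[X]} (hβ : β ≠ 0) (hE : E ≠ 0)
    (hk : k ≤ E.natDegree) (hg : (EuclideanDomain.gcd β (α * β')).natDegree < k / 2) :
    (((POL F (l + 1)).filter (fun a => E ∣ α * β' - a * β)).card : ℝ) ≤
      1 + qq F ^ (l + 1) / qq F ^ (k / 2) := by
  rcases Finset.eq_empty_or_nonempty ((POL F (l + 1)).filter (fun a => E ∣ α * β' - a * β)) with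
    h0 | ⟨a₀, ha₀⟩
  · rw [h0, Finset.card_empty, Nat.cast_zero]
    have h5 : 0 ≤ qq F ^ (l + 1) / qq F ^ (k / 2) := div_nonneg (ppos _).le (ppos _).le
    linarith
  · obtain ⟨ha₀1, ha₀2⟩ := Finset.mem_filter.1 ha₀
    obtain ⟨D, hD⟩ : ∃ D, D = EuclideanDomain.gcd E β := ⟨_, rfl⟩
    obtain ⟨E₁, hE₁⟩ : D ∣ E := by rw [hD]; exact EuclideanDomain.gcd_dvd_left E β
    obtain ⟨β₁, hβ₁⟩ : D ∣ β := by rw [hD]; exact EuclideanDomain.gcd_dvd_right E β
    have hD0 : D ≠ 0 := by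
      rintro rfl
      rw [zero_mul] at hE₁
      exact hE hE₁
    have hE₁0 : E₁ ≠ 0 := by
      rintro rfl
      rw [mul_zero] at hE₁
      exact hE hE₁
    -- Bezout
    have hbez : 1 = E₁ * EuclideanDomain.gcdA E β + β₁ * EuclideanDomain.gcdB E β := by
      have h1 := EuclideanDomain.gcd_eq_gcd_ab E β
      rw [← hD] at h1
      apply mul_left_cancel₀ hD0
      calc D * 1 = E * EuclideanDomain.gcdA E β + β * EuclideanDomain.gcdB E β := by
            rw [mul_one]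
            exact h1
        _ = (D * E₁) * EuclideanDomain.gcdA E β + (D * β₁) * EuclideanDomain.gcdB E β := by
            rw [← hE₁, ← hβ₁]
        _ = D * (E₁ * EuclideanDomain.gcdA E β + β₁ * EuclideanDomain.gcdB E β) := by ring
    have hcop : ∀ d : F[X], E ∣ d * β → E₁ ∣ d := by
      intro d hd
      have h1 : E₁ ∣ d * β₁ := by
        have h2 : D * E₁ ∣ D * (d * β₁) := by
          rw [← hE₁]
          have h3 : D * (d * β₁) = d * β := by
            rw [hβ₁]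
            ring
          rw [h3]
          exact hd
        exact (mul_dvd_mul_iff_left hD0).1 h2
      have h2 : d = E₁ * (d * EuclideanDomain.gcdA E β) + (d * β₁) * EuclideanDomain.gcdB E β := by
        calc d = d * 1 := (mul_one d).symm
          _ = d * (E₁ * EuclideanDomain.gcdA E β + β₁ * EuclideanDomain.gcdB E β) := by rw [← hbez]
          _ = _ := by ring
      rw [h2]
      exact dvd_add (dvd_mul_right _ _) (h1.mul_right _)
    -- the degree of `E₁`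
    have hDdeg : D.natDegree < k / 2 := by
      refine lt_of_le_of_lt ?_ hg
      refine natDegree_le_of_dvd ?_ ?_
      · refine EuclideanDomain.dvd_gcd (hβ₁ ▸ dvd_mul_right _ _) ?_
        have h1 : α * β' = (α * β' - a₀ * β) + a₀ * β := by ring
        rw [h1]
        refine dvd_add ((Dvd.intro _ hE₁.symm).trans ha₀2) ?_
        exact (Dvd.intro _ hβ₁.symm).mul_left _
      · intro h0
        rw [EuclideanDomain.gcd_eq_zero_iff] at h0
        exact hβ h0.1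
    have hdeg : E.natDegree = D.natDegree + E₁.natDegree := by
      rw [hE₁, natDegree_mul hD0 hE₁0]
    have h1 : ((POL F (l + 1)).filter (fun a => E ∣ α * β' - a * β)).card ≤
        ((POL F (l + 1)).filter (fun d => E₁ ∣ d)).card := by
      refine Finset.card_le_card_of_injOn (fun a => a - a₀) ?_ ?_
      · intro a ha
        obtain ⟨ha1, ha2⟩ := Finset.mem_filter.1 (Finset.mem_coe.1 ha)
        refine Finset.mem_coe.2 (Finset.mem_filter.2 ⟨?_, ?_⟩)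
        · rw [hB0.1] at ha1 ha₀1 ⊢
          exact lt_of_le_of_lt (degree_sub_le _ _) (max_lt ha1 ha₀1)
        · apply hcop
          have h2 : (a - a₀) * β = (α * β' - a₀ * β) - (α * β' - a * β) := by ring
          rw [h2]
          exact dvd_sub ha₀2 ha2
      · intro a _ a' _ h2
        exact sub_left_injective h2
    have h2 := card_div hB0 (l + 1) hE₁0
    have h3 : qq F ^ (l + 1) / qq F ^ E₁.natDegree ≤ qq F ^ (l + 1) / qq F ^ (k / 2) := by
      refine div_le_div_of_nonneg_left (ppos _).le (ppos _) ?_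
      exact pow_le_pow_right₀ qq_ge (by omega)
    have h4 : (((POL F (l + 1)).filter (fun a => E ∣ α * β' - a * β)).card : ℝ) ≤
        (((POL F (l + 1)).filter (fun d => E₁ ∣ d)).card : ℝ) := by exact_mod_cast h1
    linarith

/-- the entries `a` with a large common divisor of `α β' - a β` and `N` -/
theorem card_fib (hB0 : DH.S_B0 F) {l k : ℕ} {α β β' N : F[X]} (hβ : β ≠ 0) (hN : N ≠ 0)
    (hg : (EuclideanDomain.gcd β (α * β')).natDegree < k / 2) :
    (((POL F (l + 1)).filter (fun a => α * β' - a * β ≠ 0 ∧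
      k ≤ (EuclideanDomain.gcd (α * β' - a * β) N).natDegree)).card : ℝ) ≤
      (tau N : ℝ) * (1 + qq F ^ (l + 1) / qq F ^ (k / 2)) := by
  have hS : 0 ≤ 1 + qq F ^ (l + 1) / qq F ^ (k / 2) := by
    have h5 : 0 ≤ qq F ^ (l + 1) / qq F ^ (k / 2) := div_nonneg (ppos _).le (ppos _).le
    linarith
  have h1 : (POL F (l + 1)).filter (fun a => α * β' - a * β ≠ 0 ∧
      k ≤ (EuclideanDomain.gcd (α * β' - a * β) N).natDegree) ⊆
      (Finset.range (N.natDegree + 1)).biUnion (fun i =>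
        ((MON F i).filter (fun E => E ∣ N)).biUnion (fun E =>
          (POL F (l + 1)).filter (fun a => k ≤ E.natDegree ∧ E ∣ α * β' - a * β))) := by
    intro a ha
    obtain ⟨ha1, ha2, ha3⟩ := Finset.mem_filter.1 ha
    obtain ⟨G, hG⟩ : ∃ G, G = EuclideanDomain.gcd (α * β' - a * β) N := ⟨_, rfl⟩
    rw [← hG] at ha3
    have hG0 : G ≠ 0 := by
      rw [hG]
      intro h0
      rw [EuclideanDomain.gcd_eq_zero_iff] at h0
      exact hN h0.2
    have hlc : G.leadingCoeff ≠ 0 := leadingCoeff_ne_zero.2 hG0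
    have hGm : (G * C G.leadingCoeff⁻¹).Monic := monic_mul_leadingCoeff_inv hG0
    have hGd : (G * C G.leadingCoeff⁻¹).natDegree = G.natDegree :=
      natDegree_mul_leadingCoeff_inv G hG0
    have hdv : ∀ x : F[X], G ∣ x → G * C G.leadingCoeff⁻¹ ∣ x := by
      rintro _ ⟨y, rfl⟩
      refine ⟨C G.leadingCoeff * y, ?_⟩
      have h2 : G * C G.leadingCoeff⁻¹ * (C G.leadingCoeff * y) =
          G * (C G.leadingCoeff⁻¹ * C G.leadingCoeff) * y := by ring
      rw [h2, ← C_mul, inv_mul_cancel₀ hlc, C_1, mul_one]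
    have hGN : G * C G.leadingCoeff⁻¹ ∣ N := hdv N (by rw [hG]; exact EuclideanDomain.gcd_dvd_right _ _)
    refine Finset.mem_biUnion.2 ⟨G.natDegree, ?_, Finset.mem_biUnion.2
      ⟨G * C G.leadingCoeff⁻¹, Finset.mem_filter.2 ⟨?_, hGN⟩, Finset.mem_filter.2 ⟨ha1, ?_, ?_⟩⟩⟩
    · rw [Finset.mem_range, ← hGd]
      have := natDegree_le_of_dvd hGN hN
      omega
    · rw [hB0.2.1]
      exact ⟨hGm, hGd⟩
    · rw [hGd]
      exact ha3
    · exact hdv _ (by rw [hG]; exact EuclideanDomain.gcd_dvd_left _ _)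
  have h2 : (((POL F (l + 1)).filter (fun a => α * β' - a * β ≠ 0 ∧
      k ≤ (EuclideanDomain.gcd (α * β' - a * β) N).natDegree)).card : ℝ) ≤
      ∑ i ∈ Finset.range (N.natDegree + 1), ∑ E ∈ (MON F i).filter (fun E => E ∣ N),
        (((POL F (l + 1)).filter (fun a => k ≤ E.natDegree ∧ E ∣ α * β' - a * β)).card : ℝ) := by
    have h3 := (Finset.card_le_card h1).trans (Finset.card_biUnion_le.trans
      (Finset.sum_le_sum fun i _ => Finset.card_biUnion_le))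
    exact_mod_cast h3
  refine h2.trans ?_
  have h3 : ∀ i ∈ Finset.range (N.natDegree + 1), ∑ E ∈ (MON F i).filter (fun E => E ∣ N),
        (((POL F (l + 1)).filter (fun a => k ≤ E.natDegree ∧ E ∣ α * β' - a * β)).card : ℝ) ≤
      (((MON F i).filter (fun E => E ∣ N)).card : ℝ) * (1 + qq F ^ (l + 1) / qq F ^ (k / 2)) := by
    intro i _
    rw [← nsmul_eq_mul]
    refine Finset.sum_le_card_nsmul _ _ _ fun E hE => ?_
    obtain ⟨hE1, hE2⟩ := Finset.mem_filter.1 hE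
    have hE0 : E ≠ 0 := ((hB0.2.1 i E).1 hE1).1.ne_zero
    by_cases hk : k ≤ E.natDegree
    · refine le_trans ?_ (card_E hB0 hβ hE0 hk hg)
      have h4 : ((POL F (l + 1)).filter (fun a => k ≤ E.natDegree ∧ E ∣ α * β' - a * β)).card ≤
          ((POL F (l + 1)).filter (fun a => E ∣ α * β' - a * β)).card :=
        Finset.card_le_card fun a ha => Finset.mem_filter.2
          ⟨(Finset.mem_filter.1 ha).1, (Finset.mem_filter.1 ha).2.2⟩
      exact_mod_cast h4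
    · have h4 : (POL F (l + 1)).filter (fun a => k ≤ E.natDegree ∧ E ∣ α * β' - a * β) = ∅ :=
        Finset.filter_eq_empty_iff.2 fun a _ h => hk h.1
      rw [h4, Finset.card_empty, Nat.cast_zero]
      exact hS
  refine (Finset.sum_le_sum h3).trans ?_
  rw [← Finset.sum_mul]
  unfold tau
  push_cast
  exact le_rfl

/-- `N = α³ P₀ + β³ P₁` -/
theorem N_ne (hB0 : DH.S_B0 F) {g l₀ l₁ a b : ℕ} {P₀ P₁ α β : F[X]} (hP₀ : P₀ ∈ MON F a)
    (hP₁ : P₁ ∈ MON F b) (hab : a % 3 ≠ b % 3) (h0 : 3 * l₀ + a < g) (h1 : 3 * l₁ + b < g)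
    (hα : α ∈ POL F (l₀ + 1)) (hβ : β ∈ POL F (l₁ + 1)) (hα0 : α ≠ 0) (hβ0 : β ≠ 0) :
    α ^ 3 * P₀ + β ^ 3 * P₁ ≠ 0 ∧ (α ^ 3 * P₀ + β ^ 3 * P₁).natDegree ≤ g := by
  rw [hB0.2.1] at hP₀ hP₁
  rw [hB0.1, degree_eq_natDegree hα0] at hα
  rw [hB0.1, degree_eq_natDegree hβ0] at hβ
  have hα' : α.natDegree < l₀ + 1 := by exact_mod_cast hα
  have hβ' : β.natDegree < l₁ + 1 := by exact_mod_cast hβ
  have hd0 : (α ^ 3 * P₀).natDegree = 3 * α.natDegree + a := by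
    rw [natDegree_mul (pow_ne_zero _ hα0) hP₀.1.ne_zero, natDegree_pow, hP₀.2]
  have hd1 : (β ^ 3 * P₁).natDegree = 3 * β.natDegree + b := by
    rw [natDegree_mul (pow_ne_zero _ hβ0) hP₁.1.ne_zero, natDegree_pow, hP₁.2]
  refine ⟨fun h => ?_, ?_⟩
  · have h2 : α ^ 3 * P₀ = - (β ^ 3 * P₁) := eq_neg_of_add_eq_zero_left h
    have h3 := congrArg natDegree h2
    rw [natDegree_neg, hd0, hd1] at h3
    omega
  · refine (natDegree_add_le _ _).trans ?_
    rw [hd0, hd1]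
    exact max_le (by omega) (by omega)

end XV3

open XV3

theorem p_V3 (F : Type) [Field F] [Fintype F] [CharP F 3] (hB0 : DH.S_B0 F) (hDB : DH.S_DB F)
    (hT5b : S_T5b F) : S_V3 F := by
  intro δ hδ
  obtain ⟨Cd, hCd, hdb⟩ := hDB δ hδ
  refine ⟨Cd + 3, by linarith, ?_⟩
  intro g l₀ l₁ k a b P₀ P₁ hP₀ hP₁ hab h0 h1
  have hq1 := qq_ge (F := F)
  have hq0 := qq_pos (F := F)
  obtain ⟨R, hR⟩ : ∃ R, R = qq F ^ (δ * (g : ℝ)) := ⟨_, rfl⟩
  have hR1 : 1 ≤ R := by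
    rw [hR]
    exact Real.one_le_rpow hq1 (by positivity)
  obtain ⟨X0, hX0⟩ : ∃ x, x = qq F ^ l₀ := ⟨_, rfl⟩
  obtain ⟨X1, hX1⟩ : ∃ x, x = qq F ^ l₁ := ⟨_, rfl⟩
  obtain ⟨Y, hY⟩ : ∃ x, x = qq F ^ (k / 2) := ⟨_, rfl⟩
  have hX0p : 0 < X0 := by rw [hX0]; exact ppos _
  have hX1p : 0 < X1 := by rw [hX1]; exact ppos _
  have hYp : 0 < Y := by rw [hY]; exact ppos _
  obtain ⟨Z, hZ⟩ : ∃ x, x = qq F ^ (2 * (l₀ + l₁) + 4) := ⟨_, rfl⟩
  have hZe : Z = X0 ^ 2 * X1 ^ 2 * qq F ^ 4 := by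
    rw [hZ, hX0, hX1, ← pow_mul, ← pow_mul, ← pow_add, ← pow_add]
    congr 1
    ring
  have hZp : 0 < Z := by rw [hZ]; exact ppos _
  have hc : ∀ n, ((POL F n).card : ℝ) = qq F ^ n := by
    intro n
    rw [hB0.2.2.2.1, Nat.cast_pow]
    rfl
  -- the five parts
  obtain ⟨A1, hA1⟩ : ∃ A, A = (({0} : Finset F[X]) ×ˢ POL F (l₁ + 1)) ×ˢ
    (POL F (l₀ + 1) ×ˢ POL F (l₁ + 1)) := ⟨_, rfl⟩
  obtain ⟨A2, hA2⟩ : ∃ A, A = (POL F (l₀ + 1) ×ˢ ({0} : Finset F[X])) ×ˢ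
    (POL F (l₀ + 1) ×ˢ POL F (l₁ + 1)) := ⟨_, rfl⟩
  obtain ⟨A3, hA3⟩ : ∃ A, A = (POL F (l₀ + 1) ×ˢ POL F (l₁ + 1)) ×ˢ
    (POL F (l₀ + 1) ×ˢ ({0} : Finset F[X])) := ⟨_, rfl⟩
  obtain ⟨A4, hA4⟩ : ∃ A, A = (UU F l₀ l₁).filter (fun u => u.1.2 ≠ 0 ∧ u.1.1 ≠ 0 ∧ u.2.2 ≠ 0 ∧
    k / 2 ≤ (EuclideanDomain.gcd u.1.2 (u.1.1 * u.2.2)).natDegree) := ⟨_, rfl⟩
  obtain ⟨A5, hA5⟩ : ∃ A, A = (UU F l₀ l₁).filter (fun u => u.1.1 ≠ 0 ∧ u.1.2 ≠ 0 ∧
    (EuclideanDomain.gcd u.1.2 (u.1.1 * u.2.2)).natDegree < k / 2 ∧ HH u ≠ 0 ∧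
    k ≤ (EuclideanDomain.gcd (HH u) (u.1.1 ^ 3 * P₀ + u.1.2 ^ 3 * P₁)).natDegree) := ⟨_, rfl⟩
  have hsub : VU F l₀ l₁ k P₀ P₁ ⊆ A1 ∪ A2 ∪ A3 ∪ A4 ∪ A5 := by
    rintro ⟨⟨α, β⟩, ⟨α', β'⟩⟩ hu
    unfold VU at hu
    obtain ⟨hu1, hu2, hu3⟩ := Finset.mem_filter.1 hu
    have hu1' := hu1
    unfold UU at hu1'
    rw [Finset.mem_product, Finset.mem_product, Finset.mem_product] at hu1'
    obtain ⟨⟨ha, hb⟩, ⟨ha', hb'⟩⟩ := hu1'
    rw [Finset.mem_union, Finset.mem_union, Finset.mem_union, Finset.mem_union]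
    by_cases c1 : α = 0
    · refine Or.inl (Or.inl (Or.inl (Or.inl ?_)))
      rw [hA1, Finset.mem_product, Finset.mem_product, Finset.mem_product, Finset.mem_singleton]
      exact ⟨⟨c1, hb⟩, ⟨ha', hb'⟩⟩
    by_cases c2 : β = 0
    · refine Or.inl (Or.inl (Or.inl (Or.inr ?_)))
      rw [hA2, Finset.mem_product, Finset.mem_product, Finset.mem_product, Finset.mem_singleton]
      exact ⟨⟨ha, c2⟩, ⟨ha', hb'⟩⟩
    by_cases c3 : β' = 0
    · refine Or.inl (Or.inl (Or.inr ?_))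
      rw [hA3, Finset.mem_product, Finset.mem_product, Finset.mem_product, Finset.mem_singleton]
      exact ⟨⟨ha, hb⟩, ⟨ha', c3⟩⟩
    by_cases c4 : k / 2 ≤ (EuclideanDomain.gcd β (α * β')).natDegree
    · refine Or.inl (Or.inr ?_)
      rw [hA4]
      exact Finset.mem_filter.2 ⟨hu1, c2, c1, c3, c4⟩
    · refine Or.inr ?_
      rw [hA5]
      exact Finset.mem_filter.2 ⟨hu1, c1, c2, not_le.1 c4, hu2, hu3⟩
  have hcard : ((VU F l₀ l₁ k P₀ P₁).card : ℝ) ≤ (A1.card : ℝ) + A2.card + A3.card + A4.card +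
      A5.card := by
    have h2 : (VU F l₀ l₁ k P₀ P₁).card ≤ A1.card + A2.card + A3.card + A4.card + A5.card := by
      refine (Finset.card_le_card hsub).trans ((Finset.card_union_le _ _).trans ?_)
      refine Nat.add_le_add_right ?_ _
      refine (Finset.card_union_le _ _).trans (Nat.add_le_add_right ?_ _)
      refine (Finset.card_union_le _ _).trans (Nat.add_le_add_right ?_ _)
      exact Finset.card_union_le _ _
    exact_mod_cast h2
  have hq4 : qq F ^ 3 ≤ qq F ^ 4 := pow_le_pow_right₀ hq1 (by norm_num)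
  have hb1 : (A1.card : ℝ) ≤ Z * (1 / X0) := by
    rw [hA1]
    simp only [Finset.card_product, Finset.card_singleton, Nat.cast_mul, hc, Nat.cast_one]
    have e : 1 * qq F ^ (l₁ + 1) * (qq F ^ (l₀ + 1) * qq F ^ (l₁ + 1)) =
        X0 * X1 ^ 2 * qq F ^ 3 := by
      rw [hX0, hX1]
      ring
    rw [e, hZe]
    have e2 : X0 ^ 2 * X1 ^ 2 * qq F ^ 4 * (1 / X0) = X0 * X1 ^ 2 * qq F ^ 4 := by
      field_simp
    rw [e2]
    exact mul_le_mul_of_nonneg_left hq4 (by positivity)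
  have hb2 : (A2.card : ℝ) ≤ Z * (1 / X1) := by
    rw [hA2]
    simp only [Finset.card_product, Finset.card_singleton, Nat.cast_mul, hc, Nat.cast_one]
    have e : qq F ^ (l₀ + 1) * 1 * (qq F ^ (l₀ + 1) * qq F ^ (l₁ + 1)) =
        X0 ^ 2 * X1 * qq F ^ 3 := by
      rw [hX0, hX1]
      ring
    rw [e, hZe]
    have e2 : X0 ^ 2 * X1 ^ 2 * qq F ^ 4 * (1 / X1) = X0 ^ 2 * X1 * qq F ^ 4 := by
      field_simp
    rw [e2]
    exact mul_le_mul_of_nonneg_left hq4 (by positivity)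
  have hb3 : (A3.card : ℝ) ≤ Z * (1 / X1) := by
    rw [hA3]
    simp only [Finset.card_product, Finset.card_singleton, Nat.cast_mul, hc, Nat.cast_one]
    have e : qq F ^ (l₀ + 1) * qq F ^ (l₁ + 1) * (qq F ^ (l₀ + 1) * 1) =
        X0 ^ 2 * X1 * qq F ^ 3 := by
      rw [hX0, hX1]
      ring
    rw [e, hZe]
    have e2 : X0 ^ 2 * X1 ^ 2 * qq F ^ 4 * (1 / X1) = X0 ^ 2 * X1 * qq F ^ 4 := by
      field_simp
    rw [e2]
    exact mul_le_mul_of_nonneg_left hq4 (by positivity)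
  have hb4 : (A4.card : ℝ) ≤ Z * (3 * ((k : ℝ) + 1) / Y) := by
    have h2 : A4.card ≤ (((POL F (l₁ + 1) ×ˢ (POL F (l₀ + 1) ×ˢ POL F (l₁ + 1))).filter
      (fun t => t.1 ≠ 0 ∧ t.2.1 ≠ 0 ∧ t.2.2 ≠ 0 ∧
        k / 2 ≤ (EuclideanDomain.gcd t.1 (t.2.1 * t.2.2)).natDegree)) ×ˢ POL F (l₀ + 1)).card := by
      refine Finset.card_le_card_of_injOn (fun u => ((u.1.2, (u.1.1, u.2.2)), u.2.1)) ?_ ?_
      · rintro ⟨⟨α, β⟩, ⟨α', β'⟩⟩ hu
        rw [Finset.mem_coe, hA4] at hu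
        obtain ⟨hu1, hu2⟩ := Finset.mem_filter.1 hu
        unfold UU at hu1
        rw [Finset.mem_product, Finset.mem_product, Finset.mem_product] at hu1
        obtain ⟨⟨ha, hb⟩, ⟨ha', hb'⟩⟩ := hu1
        refine Finset.mem_coe.2 (Finset.mem_product.2 ⟨Finset.mem_filter.2 ⟨?_, hu2⟩, ha'⟩)
        rw [Finset.mem_product, Finset.mem_product]
        exact ⟨hb, ha, hb'⟩
      · rintro ⟨⟨α, β⟩, ⟨α', β'⟩⟩ _ ⟨⟨γ, ε⟩, ⟨γ', ε'⟩⟩ _ h
        simp only [Prod.mk.injEq] at h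
        obtain ⟨⟨h1, h2, h3⟩, h4⟩ := h
        rw [h1, h2, h3, h4]
    have h3 : (A4.card : ℝ) ≤ (((POL F (l₁ + 1) ×ˢ (POL F (l₀ + 1) ×ˢ POL F (l₁ + 1))).filter
      (fun t => t.1 ≠ 0 ∧ t.2.1 ≠ 0 ∧ t.2.2 ≠ 0 ∧
        k / 2 ≤ (EuclideanDomain.gcd t.1 (t.2.1 * t.2.2)).natDegree)).card : ℝ) *
        qq F ^ (l₀ + 1) := by
      rw [Finset.card_product] at h2
      rw [← hc]
      exact_mod_cast h2
    have h4 := hT5b l₁ l₀ l₁ (k / 2)
    have h5 : ((k / 2 : ℕ) : ℝ) ≤ k := by exact_mod_cast Nat.div_le_self k 2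
    have h6 : qq F ^ (l₁ + l₀ + l₁ + 3) * (3 * (((k / 2 : ℕ) : ℝ) + 1)) / qq F ^ (k / 2) *
        qq F ^ (l₀ + 1) ≤ Z * (3 * ((k : ℝ) + 1) / Y) := by
      have e : qq F ^ (l₁ + l₀ + l₁ + 3) * (3 * (((k / 2 : ℕ) : ℝ) + 1)) / qq F ^ (k / 2) *
        qq F ^ (l₀ + 1) = Z * (3 * (((k / 2 : ℕ) : ℝ) + 1) / Y) := by
        have e2 : qq F ^ (l₁ + l₀ + l₁ + 3) * qq F ^ (l₀ + 1) = Z := by
          rw [hZ, ← pow_add]
          congr 1
          ring
        rw [← e2, hY]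
        ring
      rw [e]
      refine mul_le_mul_of_nonneg_left ?_ hZp.le
      refine div_le_div_of_nonneg_right ?_ hYp.le
      linarith
    refine h3.trans (le_trans (mul_le_mul_of_nonneg_right h4 (ppos _).le) h6)
  have hb5 : (A5.card : ℝ) ≤ Cd * R * (Z * (1 / X0 + 1 / Y)) := by
    obtain ⟨Tr, hTr⟩ : ∃ Tr, Tr = POL F (l₀ + 1) ×ˢ (POL F (l₁ + 1) ×ˢ POL F (l₁ + 1)) := ⟨_, rfl⟩
    have hmaps : Set.MapsTo (fun u : (F[X] × F[X]) × (F[X] × F[X]) => (u.1.1, (u.1.2, u.2.2)))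
        (A5 : Set ((F[X] × F[X]) × (F[X] × F[X]))) (Tr : Set (F[X] × (F[X] × F[X]))) := by
      rintro ⟨⟨α, β⟩, ⟨α', β'⟩⟩ hu
      rw [Finset.mem_coe, hA5] at hu
      obtain ⟨hu1, -⟩ := Finset.mem_filter.1 hu
      unfold UU at hu1
      rw [Finset.mem_product, Finset.mem_product, Finset.mem_product] at hu1
      obtain ⟨⟨ha, hb⟩, ⟨ha', hb'⟩⟩ := hu1
      rw [Finset.mem_coe, hTr, Finset.mem_product, Finset.mem_product]
      exact ⟨ha, hb, hb'⟩
    have h2 := Finset.card_eq_sum_card_fiberwise hmaps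
    have hBn : 0 ≤ Cd * R * (1 + qq F ^ (l₀ + 1) / Y) := by positivity
    have h3 : ∀ t ∈ Tr, ((A5.filter (fun u => (u.1.1, (u.1.2, u.2.2)) = t)).card : ℝ) ≤
        Cd * R * (1 + qq F ^ (l₀ + 1) / Y) := by
      rintro ⟨α, β, β'⟩ ht
      rcases Finset.eq_empty_or_nonempty (A5.filter (fun u => (u.1.1, (u.1.2, u.2.2)) =
        (α, (β, β')))) with h4 | ⟨u, hu⟩
      · rw [h4, Finset.card_empty, Nat.cast_zero]
        exact hBn
      · obtain ⟨hu1, hu2⟩ := Finset.mem_filter.1 hu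
        obtain ⟨⟨γ, ε⟩, ⟨γ', ε'⟩⟩ := u
        simp only [Prod.mk.injEq] at hu2
        obtain ⟨rfl, rfl, rfl⟩ := hu2
        rw [hA5] at hu1
        obtain ⟨hu3, hα0, hβ0, hgc, -, -⟩ := Finset.mem_filter.1 hu1
        rw [hTr, Finset.mem_product, Finset.mem_product] at ht
        obtain ⟨hta, htb, htb'⟩ := ht
        obtain ⟨hN0, hNd⟩ := N_ne hB0 hP₀ hP₁ hab h0 h1 hta htb hα0 hβ0
        have h5 := card_fib (l := l₀) (k := k) hB0 (α := γ) (β := ε) (β' := ε')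
          (N := γ ^ 3 * P₀ + ε ^ 3 * P₁) hβ0 hN0 hgc
        have h6 : (A5.filter (fun u => (u.1.1, (u.1.2, u.2.2)) = (γ, (ε, ε')))).card ≤
            ((POL F (l₀ + 1)).filter (fun a => γ * ε' - a * ε ≠ 0 ∧
              k ≤ (EuclideanDomain.gcd (γ * ε' - a * ε)
                (γ ^ 3 * P₀ + ε ^ 3 * P₁)).natDegree)).card := by
          refine Finset.card_le_card_of_injOn (fun u => u.2.1) ?_ ?_
          · rintro ⟨⟨x, y⟩, ⟨x', y'⟩⟩ hv
            obtain ⟨hv1, hv2⟩ := Finset.mem_filter.1 (Finset.mem_coe.1 hv)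
            simp only [Prod.mk.injEq] at hv2
            obtain ⟨rfl, rfl, rfl⟩ := hv2
            rw [hA5] at hv1
            obtain ⟨hv3, -, -, -, hv4, hv5⟩ := Finset.mem_filter.1 hv1
            unfold UU at hv3
            rw [Finset.mem_product, Finset.mem_product, Finset.mem_product] at hv3
            exact Finset.mem_coe.2 (Finset.mem_filter.2 ⟨hv3.2.1, hv4, hv5⟩)
          · rintro ⟨⟨x, y⟩, ⟨x', y'⟩⟩ hv ⟨⟨w, v⟩, ⟨w', v'⟩⟩ hw h7
            obtain ⟨-, hv2⟩ := Finset.mem_filter.1 (Finset.mem_coe.1 hv)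
            obtain ⟨-, hw2⟩ := Finset.mem_filter.1 (Finset.mem_coe.1 hw)
            simp only [Prod.mk.injEq] at hv2 hw2
            obtain ⟨rfl, rfl, rfl⟩ := hv2
            obtain ⟨rfl, rfl, rfl⟩ := hw2
            have h8 : x' = w' := h7
            rw [h8]
        have h7 : ((A5.filter (fun u => (u.1.1, (u.1.2, u.2.2)) = (γ, (ε, ε')))).card : ℝ) ≤
            (((POL F (l₀ + 1)).filter (fun a => γ * ε' - a * ε ≠ 0 ∧
              k ≤ (EuclideanDomain.gcd (γ * ε' - a * ε)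
                (γ ^ 3 * P₀ + ε ^ 3 * P₁)).natDegree)).card : ℝ) := by exact_mod_cast h6
        have h8 := hdb _ hN0
        have h9 : qq F ^ (δ * ((γ ^ 3 * P₀ + ε ^ 3 * P₁).natDegree : ℝ)) ≤ R := by
          rw [hR]
          refine Real.rpow_le_rpow_of_exponent_le hq1 ?_
          refine mul_le_mul_of_nonneg_left ?_ hδ.le
          exact_mod_cast hNd
        have h10 : (tau (γ ^ 3 * P₀ + ε ^ 3 * P₁) : ℝ) ≤ Cd * R :=
          h8.trans (mul_le_mul_of_nonneg_left h9 hCd.le)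
        refine h7.trans (h5.trans ?_)
        rw [← hY]
        exact mul_le_mul_of_nonneg_right h10 (by positivity)
    have h4 : (A5.card : ℝ) = ∑ t ∈ Tr,
        ((A5.filter (fun u => (u.1.1, (u.1.2, u.2.2)) = t)).card : ℝ) := by
      rw [h2]
      push_cast
      rfl
    rw [h4]
    refine (Finset.sum_le_card_nsmul _ _ _ h3).trans ?_
    rw [nsmul_eq_mul, hTr, Finset.card_product, Finset.card_product, Nat.cast_mul, Nat.cast_mul,
      hc, hc]
    have e : qq F ^ (l₀ + 1) * (qq F ^ (l₁ + 1) * qq F ^ (l₁ + 1)) = X0 * X1 ^ 2 * qq F ^ 3 := by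
      rw [hX0, hX1]
      ring
    have e2 : qq F ^ (l₀ + 1) = X0 * qq F := by
      rw [hX0, pow_succ]
    rw [e, e2, hZe]
    have e3 : X0 * X1 ^ 2 * qq F ^ 3 * (Cd * R * (1 + X0 * qq F / Y)) =
        Cd * R * (X0 * X1 ^ 2 * qq F ^ 3 + X0 ^ 2 * X1 ^ 2 * qq F ^ 4 * (1 / Y)) := by
      field_simp
    have e4 : Cd * R * (X0 ^ 2 * X1 ^ 2 * qq F ^ 4 * (1 / X0 + 1 / Y)) =
        Cd * R * (X0 * X1 ^ 2 * qq F ^ 4 + X0 ^ 2 * X1 ^ 2 * qq F ^ 4 * (1 / Y)) := by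
      field_simp
    rw [e3, e4]
    refine mul_le_mul_of_nonneg_left ?_ (by positivity)
    have h5 : X0 * X1 ^ 2 * qq F ^ 3 ≤ X0 * X1 ^ 2 * qq F ^ 4 :=
      mul_le_mul_of_nonneg_left hq4 (by positivity)
    linarith
  rw [← hR, ← hZ, ← hY, ← hX0, ← hX1]
  have hk0 : (0 : ℝ) ≤ k := Nat.cast_nonneg k
  have i0 : 0 < 1 / X0 := by positivity
  have i1 : 0 < 1 / X1 := by positivity
  have iY : 0 < 1 / Y := by positivity
  have e1 : 3 * ((k : ℝ) + 1) / Y = 3 * (((k : ℝ) + 1) / Y) := by ring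
  have e2 : 1 / Y ≤ ((k : ℝ) + 1) / Y := by
    refine div_le_div_of_nonneg_right ?_ hYp.le
    linarith
  obtain ⟨K, hK⟩ : ∃ K, K = ((k : ℝ) + 1) / Y := ⟨_, rfl⟩
  rw [← hK] at e1 e2 ⊢
  rw [e1] at hb4
  have hK0 : 0 < K := lt_of_lt_of_le iY e2
  have hsum : ((VU F l₀ l₁ k P₀ P₁).card : ℝ) ≤ Z * (1 / X0 + 2 * (1 / X1) + 3 * K) +
      Cd * R * (Z * (1 / X0 + 1 / Y)) := by
    have : Z * (1 / X0 + 2 * (1 / X1) + 3 * K) = Z * (1 / X0) + Z * (1 / X1) + Z * (1 / X1) +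
        Z * (3 * K) := by ring
    linarith
  refine hsum.trans ?_
  have hA : Z * (1 / X0 + 2 * (1 / X1) + 3 * K) ≤ 3 * R * Z * (K + 1 / X0 + 1 / X1) := by
    have h2 : Z * (1 / X0 + 2 * (1 / X1) + 3 * K) ≤ 3 * Z * (K + 1 / X0 + 1 / X1) := by
      have : 3 * Z * (K + 1 / X0 + 1 / X1) = Z * (1 / X0 + 2 * (1 / X1) + 3 * K) +
        Z * (2 * (1 / X0) + 1 / X1) := by ring
      rw [this]
      have : 0 ≤ Z * (2 * (1 / X0) + 1 / X1) := by positivity
      linarith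
    refine h2.trans ?_
    have h3 : 0 ≤ Z * (K + 1 / X0 + 1 / X1) := by positivity
    have : 3 * R * Z * (K + 1 / X0 + 1 / X1) = 3 * Z * (K + 1 / X0 + 1 / X1) +
      3 * (R - 1) * (Z * (K + 1 / X0 + 1 / X1)) := by ring
    rw [this]
    have : 0 ≤ 3 * (R - 1) * (Z * (K + 1 / X0 + 1 / X1)) := by
      refine mul_nonneg ?_ h3
      linarith
    linarith
  have hB : Cd * R * (Z * (1 / X0 + 1 / Y)) ≤ Cd * R * (Z * (K + 1 / X0 + 1 / X1)) := by
    refine mul_le_mul_of_nonneg_left ?_ (by positivity)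
    refine mul_le_mul_of_nonneg_left ?_ hZp.le
    linarith
  have e3 : (Cd + 3) * R * Z * (K + 1 / X0 + 1 / X1) = 3 * R * Z * (K + 1 / X0 + 1 / X1) +
      Cd * R * (Z * (K + 1 / X0 + 1 / X1)) := by ring
  rw [e3]
  linarith

end PP
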