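import Pool.Agent.H461.PP.Stm2

/-!
# PP, V4: the number of solvable pairs for one `f₀` (helper322)
-/

open Polynomial
open scoped Classical

set_option linter.unusedSectionVars false

noncomputable section

namespace PP

open DH

namespace XV4

section basic

variable {F : Type} [Field F] [CharP F 3]

theorem der_cube (x P : F[X]) : derivative (x ^ 3 * P) = x ^ 3 * derivative P := by
  rw [derivative_mul, derivative_pow]
  have h : ((3 : ℕ) : F) = 0 := CharP.cast_eq_zero F 3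
  rw [h, C_0]
  ring

theorem sub_cube (x y : F[X]) : (x - y) ^ 3 = x ^ 3 - y ^ 3 := by
  have h : (3 : F[X]) = 0 := by
    have h' : ((3 : ℕ) : F[X]) = 0 := CharP.cast_eq_zero F[X] 3
    exact_mod_cast h'
  linear_combination (- x ^ 2 * y + x * y ^ 2) * h

theorem add_cube (x y : F[X]) : (x + y) ^ 3 = x ^ 3 + y ^ 3 := by
  have h : (3 : F[X]) = 0 := by
    have h' : ((3 : ℕ) : F[X]) = 0 := CharP.cast_eq_zero F[X] 3
    exact_mod_cast h'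
  linear_combination (x ^ 2 * y + x * y ^ 2) * h

theorem wr_eq (P₀ P₁ α β α' β' : F[X]) :
    derivative (α ^ 3 * P₀ + β ^ 3 * P₁) * (α' ^ 3 * P₀ + β' ^ 3 * P₁) -
      (α ^ 3 * P₀ + β ^ 3 * P₁) * derivative (α' ^ 3 * P₀ + β' ^ 3 * P₁) =
    (α * β' - α' * β) ^ 3 * (derivative P₀ * P₁ - P₀ * derivative P₁) := by
  rw [sub_cube, derivative_add, derivative_add, der_cube, der_cube, der_cube, der_cube]
  ring

theorem coef (P Q : F[X]) (n m s : ℕ) (hP : P.Monic) (hQ : Q.Monic) (hn : P.natDegree = n)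
    (hm : Q.natDegree = m) (h : n + m = s + 1) : (derivative P * Q).coeff s = (n : F) := by
  rcases Nat.eq_zero_or_pos n with rfl | h0
  · have : P = 1 := Polynomial.eq_one_of_monic_natDegree_zero hP hn
    rw [this]
    simp
  · obtain ⟨n', rfl⟩ : ∃ n', n = n' + 1 := ⟨n - 1, by omega⟩
    have hs : s = n' + m := by omega
    rw [hs, coeff_mul_add_eq_of_natDegree_le (df := n') (dg := m)]
    · have h1 : Q.coeff m = 1 := by rw [← hm]; exact hQ.coeff_natDegree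
      have h2 : P.coeff (n' + 1) = 1 := by rw [← hn]; exact hP.coeff_natDegree
      rw [coeff_derivative, h1, h2]
      push_cast
      ring
    · have := natDegree_derivative_le P
      omega
    · exact hm.le

theorem mod_ne (P₀ P₁ f₀ : F[X]) (a b s : ℕ) (c : F) (h0 : P₀.Monic) (h1 : P₁.Monic)
    (ha : P₀.natDegree = a) (hb : P₁.natDegree = b) (h : a + b = s + 1) (hf : f₀.Monic)
    (hs : f₀.natDegree = s) (hc : c ≠ 0)
    (hW : derivative P₀ * P₁ - P₀ * derivative P₁ = C c * f₀) : a % 3 ≠ b % 3 := by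
  intro hmod
  have hcast : (a : F) = (b : F) := (CharP.natCast_eq_natCast F 3).2 hmod
  have h2 := congrArg (fun p => p.coeff s) hW
  simp only [coeff_sub, coeff_C_mul] at h2
  rw [coef P₀ P₁ a b s h0 h1 ha hb h, mul_comm P₀ (derivative P₁),
    coef P₁ P₀ b a s h1 h0 hb ha (by omega), hcast, sub_self] at h2
  have h3 : f₀.coeff s = 1 := by rw [← hs]; exact hf.coeff_natDegree
  rw [h3, mul_one] at h2
  exact hc h2.symm

theorem gcd_neg (H t : F[X]) (hH : H ≠ 0) :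
    (EuclideanDomain.gcd H t).natDegree ≤ (EuclideanDomain.gcd (-H) t).natDegree := by
  have hne : EuclideanDomain.gcd (-H) t ≠ 0 := by
    intro h
    rw [EuclideanDomain.gcd_eq_zero_iff] at h
    exact hH (neg_eq_zero.1 h.1)
  refine natDegree_le_of_dvd (EuclideanDomain.dvd_gcd ?_ (EuclideanDomain.gcd_dvd_right _ _)) hne
  exact (dvd_neg).2 (EuclideanDomain.gcd_dvd_left _ _)

end basic

variable (F : Type) [Field F] [Fintype F] [CharP F 3]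

theorem pol_sub (hB0 : DH.S_B0 F) {n : ℕ} {x y : F[X]} (hx : x ∈ POL F n) (hy : y ∈ POL F n) :
    x - y ∈ POL F n := by
  rw [hB0.1] at *
  exact (degree_sub_le x y).trans_lt (max_lt hx hy)

theorem pol_add (hB0 : DH.S_B0 F) {n : ℕ} {x y : F[X]} (hx : x ∈ POL F n) (hy : y ∈ POL F n) :
    x + y ∈ POL F n := by
  rw [hB0.1] at *
  exact (degree_add_le x y).trans_lt (max_lt hx hy)

/-- the four maps -/
def T1 (u : (F[X] × F[X]) × (F[X] × F[X])) : (F[X] × F[X]) × (F[X] × F[X]) := u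
def T2 (u : (F[X] × F[X]) × (F[X] × F[X])) : (F[X] × F[X]) × (F[X] × F[X]) := (u.2, u.1)
def T3 (u : (F[X] × F[X]) × (F[X] × F[X])) : (F[X] × F[X]) × (F[X] × F[X]) := (u.2 - u.1, u.1)
def T4 (u : (F[X] × F[X]) × (F[X] × F[X])) : (F[X] × F[X]) × (F[X] × F[X]) := (u.2 + u.1, u.1)

theorem T2_inj : Function.Injective (T2 F) := by
  intro u u' h
  have h1 := congrArg Prod.fst h
  have h2 := congrArg Prod.snd h
  exact Prod.ext h2 h1

theorem T3_inj : Function.Injective (T3 F) := by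
  intro u u' h
  have h1 : u.2 - u.1 = u'.2 - u'.1 := congrArg Prod.fst h
  have h2 : u.1 = u'.1 := congrArg Prod.snd h
  rw [h2] at h1
  exact Prod.ext h2 (sub_left_injective h1)

theorem T4_inj : Function.Injective (T4 F) := by
  intro u u' h
  have h1 : u.2 + u.1 = u'.2 + u'.1 := congrArg Prod.fst h
  have h2 : u.1 = u'.1 := congrArg Prod.snd h
  rw [h2] at h1
  exact Prod.ext h2 (add_left_injective _ h1)

theorem mem_UU {l₀ l₁ : ℕ} {u : (F[X] × F[X]) × (F[X] × F[X])} : u ∈ UU F l₀ l₁ ↔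
    (u.1.1 ∈ POL F (l₀ + 1) ∧ u.1.2 ∈ POL F (l₁ + 1)) ∧
      (u.2.1 ∈ POL F (l₀ + 1) ∧ u.2.2 ∈ POL F (l₁ + 1)) := by
  unfold UU
  rw [Finset.mem_product, Finset.mem_product, Finset.mem_product]

theorem card_pre {l₀ l₁ k : ℕ} (P₀ P₁ : F[X])
    (T : (F[X] × F[X]) × (F[X] × F[X]) → (F[X] × F[X]) × (F[X] × F[X]))
    (hT : Function.Injective T) :
    ((UU F l₀ l₁).filter (fun u => T u ∈ VU F l₀ l₁ k P₀ P₁)).card ≤
      (VU F l₀ l₁ k P₀ P₁).card := by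
  refine Finset.card_le_card_of_injOn T (fun u hu => ?_) hT.injOn
  have hu' : u ∈ (UU F l₀ l₁).filter (fun u => T u ∈ VU F l₀ l₁ k P₀ P₁) := hu
  exact (Finset.mem_filter.1 hu').2

theorem mem_PRS {g : ℕ} {f₀ : F[X]} {p : F[X] × F[X]} : p ∈ PRS F g f₀ ↔
    (p.1 ∈ KG F g f₀ ∧ p.2 ∈ KG F g f₀) ∧ Ind p.1 p.2 ∧
      ∃ f ∈ MON F (2 * g + 1), IsSol f p.1 ∧ IsSol f p.2 := by
  unfold PRS
  refine (@Finset.mem_filter _ _ (_) _ _).trans ?_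
  rw [Finset.mem_product]

theorem mem_VU {l₀ l₁ k : ℕ} {P₀ P₁ : F[X]} {u : (F[X] × F[X]) × (F[X] × F[X])} :
    u ∈ VU F l₀ l₁ k P₀ P₁ ↔ u ∈ UU F l₀ l₁ ∧ HH u ≠ 0 ∧
      k ≤ (EuclideanDomain.gcd (HH u) (u.1.1 ^ 3 * P₀ + u.1.2 ^ 3 * P₁)).natDegree := by
  unfold VU
  rw [Finset.mem_filter]

/-- the count -/
theorem count (hB0 : DH.S_B0 F) (hV1 : S_V1 F) (hV2 : S_V2 F) (g a b : ℕ) (f₀ P₀ P₁ : F[X])
    (hrep : ∀ v ∈ KG F g f₀, ∃ α ∈ POL F ((g - 1 - a) / 3 + 1),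
      ∃ β ∈ POL F ((g - 1 - b) / 3 + 1), v = α ^ 3 * P₀ + β ^ 3 * P₁) (l₀ l₁ : ℕ)
    (hl₀ : l₀ = (g - 1 - a) / 3) (hl₁ : l₁ = (g - 1 - b) / 3) :
    (PRS F g f₀).card ≤
      ((UU F l₀ l₁).filter (fun u => u.1.2 = 0 ∨ u.2.2 = 0 ∨ u.2.2 = u.1.2 ∨
        u.2.2 = - u.1.2)).card +
      (((UU F l₀ l₁).filter (fun u => u.1.2 ≠ 0 ∧ (HH u).natDegree ≤ l₁ / 2)).card +
        4 * (VU F l₀ l₁ (l₁ / 8) P₀ P₁).card) := by
  let Φ : (F[X] × F[X]) × (F[X] × F[X]) → F[X] × F[X] := fun u =>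
    (u.1.1 ^ 3 * P₀ + u.1.2 ^ 3 * P₁, u.2.1 ^ 3 * P₀ + u.2.2 ^ 3 * P₁)
  let B := (UU F l₀ l₁).filter (fun u => Φ u ∈ PRS F g f₀)
  have h1 : (PRS F g f₀).card ≤ B.card := by
    have hsub : PRS F g f₀ ⊆ B.image Φ := by
      intro p hp
      have hp' := (mem_PRS F).1 hp
      obtain ⟨α, hα, β, hβ, e1⟩ := hrep p.1 hp'.1.1
      obtain ⟨α', hα', β', hβ', e2⟩ := hrep p.2 hp'.1.2
      rw [← hl₀] at hα hα'
      rw [← hl₁] at hβ hβ'
      have e3 : Φ ((α, β), (α', β')) = p := Prod.ext e1.symm e2.symm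
      refine Finset.mem_image.2 ⟨((α, β), (α', β')), ?_, e3⟩
      refine Finset.mem_filter.2 ⟨(mem_UU F).2 ⟨⟨hα, hβ⟩, ⟨hα', hβ'⟩⟩, ?_⟩
      rw [e3]
      exact hp
    exact (Finset.card_le_card hsub).trans Finset.card_image_le
  refine h1.trans ?_
  have h2 : B ⊆ ((UU F l₀ l₁).filter (fun u => u.1.2 = 0 ∨ u.2.2 = 0 ∨ u.2.2 = u.1.2 ∨
        u.2.2 = - u.1.2)) ∪
      (((UU F l₀ l₁).filter (fun u => u.1.2 ≠ 0 ∧ (HH u).natDegree ≤ l₁ / 2)) ∪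
        ((((UU F l₀ l₁).filter (fun u => T1 F u ∈ VU F l₀ l₁ (l₁ / 8) P₀ P₁)) ∪
          ((UU F l₀ l₁).filter (fun u => T2 F u ∈ VU F l₀ l₁ (l₁ / 8) P₀ P₁))) ∪
        (((UU F l₀ l₁).filter (fun u => T3 F u ∈ VU F l₀ l₁ (l₁ / 8) P₀ P₁)) ∪
          ((UU F l₀ l₁).filter (fun u => T4 F u ∈ VU F l₀ l₁ (l₁ / 8) P₀ P₁))))) := by
    intro u hu
    obtain ⟨huU, hu2⟩ := Finset.mem_filter.1 hu
    by_cases hβ : u.1.2 = 0
    · exact Finset.mem_union_left _ (Finset.mem_filter.2 ⟨huU, Or.inl hβ⟩)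
    refine Finset.mem_union_right _ ?_
    by_cases hdeg : (HH u).natDegree ≤ l₁ / 2
    · exact Finset.mem_union_left _ (Finset.mem_filter.2 ⟨huU, hβ, hdeg⟩)
    refine Finset.mem_union_right _ ?_
    obtain ⟨-, hInd, f, -, hs1, hs2⟩ := (mem_PRS F).1 hu2
    set v₁ := u.1.1 ^ 3 * P₀ + u.1.2 ^ 3 * P₁ with hv₁
    set v₂ := u.2.1 ^ 3 * P₀ + u.2.2 ^ 3 * P₁ with hv₂
    have hInd' : derivative v₁ * v₂ ≠ v₁ * derivative v₂ := hInd
    have hs1' : IsSol f v₁ := hs1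
    have hs2' : IsSol f v₂ := hs2
    have hw := wr_eq P₀ P₁ u.1.1 u.1.2 u.2.1 u.2.2
    rw [← hv₁, ← hv₂] at hw
    have hH0 : HH u ≠ 0 := by
      intro h0
      unfold HH at h0
      rw [h0] at hw
      refine hInd' (sub_eq_zero.1 ?_)
      rw [hw]
      ring
    have hV := hV1 f v₁ v₂ (HH u) _ hs1' hs2' hw
    have n1 : v₁ ≠ 0 := by
      intro h
      apply hInd'
      rw [h]
      simp
    have n2 : v₂ ≠ 0 := by
      intro h
      apply hInd'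
      rw [h]
      simp
    have n3 : v₂ - v₁ ≠ 0 := by
      intro h
      apply hInd'
      rw [sub_eq_zero.1 h]
      ring
    have n4 : v₂ + v₁ ≠ 0 := by
      intro h
      apply hInd'
      rw [eq_neg_of_add_eq_zero_left h, derivative_neg]
      ring
    have hsum := hV2 (HH u) v₁ v₂ (v₂ - v₁) (v₂ + v₁) hH0 n1 n2 n3 n4 hV
    have hUU := (mem_UU F).1 huU
    have hneg2 : HH (T2 F u) = - HH u := by
      unfold HH T2; ring
    have hneg3 : HH (T3 F u) = - HH u := by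
      unfold HH T3
      simp only [Prod.fst_sub, Prod.snd_sub]
      ring
    have hneg4 : HH (T4 F u) = - HH u := by
      unfold HH T4
      simp only [Prod.fst_add, Prod.snd_add]
      ring
    have hor : l₁ / 8 ≤ (EuclideanDomain.gcd (HH u) v₁).natDegree ∨
        l₁ / 8 ≤ (EuclideanDomain.gcd (HH u) v₂).natDegree ∨
        l₁ / 8 ≤ (EuclideanDomain.gcd (HH u) (v₂ - v₁)).natDegree ∨
        l₁ / 8 ≤ (EuclideanDomain.gcd (HH u) (v₂ + v₁)).natDegree := by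
      omega
    rcases hor with h | h | h | h
    · refine Finset.mem_union_left _ (Finset.mem_union_left _ (Finset.mem_filter.2 ⟨huU, ?_⟩))
      exact (mem_VU F).2 ⟨huU, hH0, h⟩
    · refine Finset.mem_union_left _ (Finset.mem_union_right _ (Finset.mem_filter.2 ⟨huU, ?_⟩))
      refine (mem_VU F).2 ⟨(mem_UU F).2 ⟨hUU.2, hUU.1⟩, ?_, ?_⟩
      · rw [hneg2]; exact neg_ne_zero.2 hH0
      · rw [hneg2]
        exact h.trans (gcd_neg _ _ hH0)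
    · refine Finset.mem_union_right _ (Finset.mem_union_left _ (Finset.mem_filter.2 ⟨huU, ?_⟩))
      refine (mem_VU F).2 ⟨(mem_UU F).2 ⟨⟨pol_sub F hB0 hUU.2.1 hUU.1.1,
        pol_sub F hB0 hUU.2.2 hUU.1.2⟩, hUU.1⟩, ?_, ?_⟩
      · rw [hneg3]; exact neg_ne_zero.2 hH0
      · have e : (T3 F u).1.1 ^ 3 * P₀ + (T3 F u).1.2 ^ 3 * P₁ = v₂ - v₁ := by
          unfold T3
          simp only [Prod.fst_sub, Prod.snd_sub]
          rw [sub_cube, sub_cube, hv₁, hv₂]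
          ring
        rw [hneg3, e]
        exact h.trans (gcd_neg _ _ hH0)
    · refine Finset.mem_union_right _ (Finset.mem_union_right _ (Finset.mem_filter.2 ⟨huU, ?_⟩))
      refine (mem_VU F).2 ⟨(mem_UU F).2 ⟨⟨pol_add F hB0 hUU.2.1 hUU.1.1,
        pol_add F hB0 hUU.2.2 hUU.1.2⟩, hUU.1⟩, ?_, ?_⟩
      · rw [hneg4]; exact neg_ne_zero.2 hH0
      · have e : (T4 F u).1.1 ^ 3 * P₀ + (T4 F u).1.2 ^ 3 * P₁ = v₂ + v₁ := by
          unfold T4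
          simp only [Prod.fst_add, Prod.snd_add]
          rw [add_cube, add_cube, hv₁, hv₂]
          ring
        rw [hneg4, e]
        exact h.trans (gcd_neg _ _ hH0)
  refine (Finset.card_le_card h2).trans ?_
  refine (Finset.card_union_le _ _).trans (Nat.add_le_add_left ?_ _)
  refine (Finset.card_union_le _ _).trans (Nat.add_le_add_left ?_ _)
  refine (Finset.card_union_le _ _).trans ?_
  have c1 := card_pre F (l₀ := l₀) (l₁ := l₁) (k := l₁ / 8) P₀ P₁ (T1 F) Function.injective_id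
  have c2 := card_pre F (l₀ := l₀) (l₁ := l₁) (k := l₁ / 8) P₀ P₁ (T2 F) (T2_inj F)
  have c3 := card_pre F (l₀ := l₀) (l₁ := l₁) (k := l₁ / 8) P₀ P₁ (T3 F) (T3_inj F)
  have c4 := card_pre F (l₀ := l₀) (l₁ := l₁) (k := l₁ / 8) P₀ P₁ (T4 F) (T4_inj F)
  have d1 := Finset.card_union_le
    ((UU F l₀ l₁).filter (fun u => T1 F u ∈ VU F l₀ l₁ (l₁ / 8) P₀ P₁))
    ((UU F l₀ l₁).filter (fun u => T2 F u ∈ VU F l₀ l₁ (l₁ / 8) P₀ P₁))
  have d2 := Finset.card_union_le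
    ((UU F l₀ l₁).filter (fun u => T3 F u ∈ VU F l₀ l₁ (l₁ / 8) P₀ P₁))
    ((UU F l₀ l₁).filter (fun u => T4 F u ∈ VU F l₀ l₁ (l₁ / 8) P₀ P₁))
  omega

/-- the final estimate -/
theorem arith (q C₃ E : ℝ) (hq : 1 ≤ q) (hC₃ : 0 < C₃) (hE : 1 ≤ E) (g l₀ l₁ N V : ℕ)
    (hl : l₁ ≤ l₀) (hlg : l₁ ≤ g)
    (hN : (N : ℝ) ≤ 4 * q ^ (2 * l₀ + l₁ + 3) + (q ^ (l₀ + 2 * l₁ + l₁ / 2 + 4) + 4 * (V : ℝ)))
    (hV : (V : ℝ) ≤ C₃ * E * q ^ (2 * (l₀ + l₁) + 4) *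
      ((((l₁ / 8 : ℕ) : ℝ) + 1) / q ^ (l₁ / 8 / 2) + 1 / q ^ l₀ + 1 / q ^ l₁)) :
    (N : ℝ) ≤ (5 + 12 * C₃) * ((g : ℝ) + 1) * E * q ^ (2 * (l₀ + l₁) + 4) / q ^ (l₁ / 16) := by
  have hq0 : 0 < q := lt_of_lt_of_le one_pos hq
  have he : l₁ / 8 / 2 = l₁ / 16 := by rw [Nat.div_div_eq_div_mul]
  rw [he] at hV
  have hpe : 0 < q ^ (l₁ / 16) := pow_pos hq0 _
  have hpL : 0 < q ^ (2 * (l₀ + l₁) + 4) := pow_pos hq0 _
  have hg0 : (0 : ℝ) ≤ (g : ℝ) := Nat.cast_nonneg g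
  have hpow : ∀ m : ℕ, m + l₁ / 16 ≤ 2 * (l₀ + l₁) + 4 →
      q ^ m ≤ q ^ (2 * (l₀ + l₁) + 4) / q ^ (l₁ / 16) := by
    intro m hm
    rw [le_div_iff₀ hpe, ← pow_add]
    exact pow_le_pow_right₀ hq hm
  have b1 := hpow (2 * l₀ + l₁ + 3) (by omega)
  have b2 := hpow (l₀ + 2 * l₁ + l₁ / 2 + 4) (by omega)
  have hinv : ∀ m : ℕ, l₁ / 16 ≤ m → 1 / q ^ m ≤ 1 / q ^ (l₁ / 16) := fun m hm =>
    one_div_le_one_div_of_le hpe (pow_le_pow_right₀ hq hm)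
  have b3 := hinv l₀ (by omega)
  have b4 := hinv l₁ (by omega)
  have b5 : (((l₁ / 8 : ℕ) : ℝ) + 1) / q ^ (l₁ / 16) ≤ ((g : ℝ) + 1) / q ^ (l₁ / 16) := by
    refine div_le_div_of_nonneg_right ?_ hpe.le
    have : l₁ / 8 ≤ g := by omega
    have : ((l₁ / 8 : ℕ) : ℝ) ≤ (g : ℝ) := by exact_mod_cast this
    linarith
  have b6 : (((l₁ / 8 : ℕ) : ℝ) + 1) / q ^ (l₁ / 16) + 1 / q ^ l₀ + 1 / q ^ l₁ ≤
      3 * (((g : ℝ) + 1) / q ^ (l₁ / 16)) := by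
    have : 1 / q ^ (l₁ / 16) ≤ ((g : ℝ) + 1) / q ^ (l₁ / 16) :=
      div_le_div_of_nonneg_right (by linarith) hpe.le
    linarith
  have hV' : (V : ℝ) ≤ C₃ * E * q ^ (2 * (l₀ + l₁) + 4) * (3 * (((g : ℝ) + 1) / q ^ (l₁ / 16))) :=
    hV.trans (mul_le_mul_of_nonneg_left b6 (by positivity))
  set Y := q ^ (2 * (l₀ + l₁) + 4) / q ^ (l₁ / 16) with hY
  have hY0 : 0 ≤ Y := by positivity
  have e1 : C₃ * E * q ^ (2 * (l₀ + l₁) + 4) * (3 * (((g : ℝ) + 1) / q ^ (l₁ / 16))) =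
      3 * C₃ * (((g : ℝ) + 1) * E * Y) := by
    rw [hY]; ring
  have e2 : (5 + 12 * C₃) * ((g : ℝ) + 1) * E * q ^ (2 * (l₀ + l₁) + 4) / q ^ (l₁ / 16) =
      (5 + 12 * C₃) * (((g : ℝ) + 1) * E * Y) := by
    rw [hY]; ring
  rw [e1] at hV'
  rw [e2]
  have h1 : Y ≤ ((g : ℝ) + 1) * E * Y := by
    have : 1 ≤ ((g : ℝ) + 1) * E := by nlinarith
    nlinarith
  nlinarith

end XV4

variable (F : Type) [Field F] [Fintype F] [CharP F 3]

theorem p_V4 (hB0 : DH.S_B0 F) (hT2 : S_T2 F) (hT5a : S_T5a F) (hV1 : S_V1 F) (hV2 : S_V2 F)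
    (hV3 : S_V3 F) : S_V4 F := by
  intro δ hδ
  obtain ⟨C₃, hC₃, h3⟩ := hV3 δ hδ
  refine ⟨5 + 12 * C₃, by positivity, fun g s f₀ hf₀ hne => ?_⟩
  obtain ⟨p, hp⟩ := hne
  have hp' := (XV4.mem_PRS F).1 hp
  obtain ⟨a, b, P₀, P₁, hab, hs, hbg, hP₀, hP₁, -, ⟨c, hc, hW⟩, hrep⟩ :=
    hT2 g s f₀ p.1 p.2 hf₀ hp'.1.1 hp'.1.2 hp'.2.1
  refine ⟨a, b, hab, hs, hbg, ?_⟩
  have hP₀' := (hB0.2.1 a P₀).1 hP₀
  have hP₁' := (hB0.2.1 b P₁).1 hP₁
  have hf₀' : f₀.Monic ∧ f₀.natDegree = s := by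
    unfold CF at hf₀
    exact (hB0.2.1 s f₀).1 (Finset.mem_filter.1 hf₀).1
  have hmod := XV4.mod_ne P₀ P₁ f₀ a b s c hP₀'.1 hP₁'.1 hP₀'.2 hP₁'.2 hs hf₀'.1 hf₀'.2 hc hW
  have h3' := h3 g ((g - 1 - a) / 3) ((g - 1 - b) / 3) (((g - 1 - b) / 3) / 8) a b P₀ P₁ hP₀ hP₁
    hmod (by omega) (by omega)
  have hq : 1 ≤ qq F := by
    unfold qq
    exact_mod_cast (Fintype.card_pos : 0 < Fintype.card F)
  have hE : 1 ≤ qq F ^ (δ * (g : ℝ)) := Real.one_le_rpow hq (by positivity)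
  have hcount := XV4.count F hB0 hV1 hV2 g a b f₀ P₀ P₁ hrep ((g - 1 - a) / 3) ((g - 1 - b) / 3)
    rfl rfl
  obtain ⟨-, k2, k3⟩ := hT5a ((g - 1 - a) / 3) ((g - 1 - b) / 3)
  have k3' := k3 (((g - 1 - b) / 3) / 2)
  refine XV4.arith (qq F) C₃ (qq F ^ (δ * (g : ℝ))) hq hC₃ hE g ((g - 1 - a) / 3)
    ((g - 1 - b) / 3) _ _ (by omega) (by omega) ?_ h3'
  have hcount' := hcount.trans (Nat.add_le_add k2 (Nat.add_le_add_right k3' _))
  have h5 : ((PRS F g f₀).card : ℝ) ≤ ((4 * Fintype.card F ^ (2 * ((g - 1 - a) / 3) +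
      (g - 1 - b) / 3 + 3) + (Fintype.card F ^ ((g - 1 - a) / 3 + 2 * ((g - 1 - b) / 3) +
      (g - 1 - b) / 3 / 2 + 4) + 4 * (VU F ((g - 1 - a) / 3) ((g - 1 - b) / 3)
      (((g - 1 - b) / 3) / 8) P₀ P₁).card) : ℕ) : ℝ) := by
    exact_mod_cast hcount'
  unfold qq
  push_cast at h5
  exact h5

end PP
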