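import Pool.Agent.H461.PP.Stm2

/-!
# Project PP, V5: the sum over small `s` (helper404)
-/

open Polynomial
open scoped Classical

noncomputable section

namespace PP

open DH

namespace XV5

theorem poly_exp {Q : ℝ} (hQ : 1 < Q) :
    ∃ B : ℝ, 0 < B ∧ ∀ g : ℕ, ((g : ℝ) + 1) ^ 2 ≤ B * (Q ^ ((1 : ℝ) / 80)) ^ g := by
  have hr : 1 < Q ^ ((1 : ℝ) / 80) := Real.one_lt_rpow hQ (by norm_num)
  obtain ⟨r, hr'⟩ : ∃ r : ℝ, r = Q ^ ((1 : ℝ) / 80) := ⟨_, rfl⟩
  rw [← hr'] at hr ⊢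
  have hr0 : 0 < r := by linarith
  obtain ⟨B, hB⟩ := (tendsto_pow_const_div_const_pow_of_one_lt 2 hr).bddAbove_range
  refine ⟨max B 1 * r, mul_pos (lt_of_lt_of_le one_pos (le_max_right _ _)) hr0, fun g => ?_⟩
  have h1 : ((g + 1 : ℕ) : ℝ) ^ 2 / r ^ (g + 1) ≤ max B 1 :=
    (hB ⟨g + 1, rfl⟩).trans (le_max_left _ _)
  rw [div_le_iff₀ (pow_pos hr0 _)] at h1
  push_cast at h1
  calc ((g : ℝ) + 1) ^ 2 ≤ max B 1 * r ^ (g + 1) := h1
    _ = max B 1 * r * r ^ g := by ring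

theorem powers {Q : ℝ} (hQ : 1 < Q) {g s L m k : ℕ} (h1 : s + (2 * L + 4) + k ≤ 2 * g + 3)
    (h2 : 15 * g ≤ 768 * m + 784) :
    Q ^ ((1 : ℝ) / 200 * (g : ℝ)) * Q ^ (2 * L + 4) * Q ^ k * (Q ^ s * (Q ^ ((1 : ℝ) / 80)) ^ g) ≤
      Q ^ (2 * g + 5) * Q ^ m := by
  have hQ0 : 0 < Q := by linarith
  rw [← Real.rpow_natCast Q (2 * L + 4), ← Real.rpow_natCast Q k, ← Real.rpow_natCast Q s,
    ← Real.rpow_natCast Q (2 * g + 5), ← Real.rpow_natCast Q m,
    ← Real.rpow_natCast (Q ^ ((1 : ℝ) / 80)) g, ← Real.rpow_mul hQ0.le, ← Real.rpow_add hQ0,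
    ← Real.rpow_add hQ0, ← Real.rpow_add hQ0, ← Real.rpow_add hQ0, ← Real.rpow_add hQ0]
  apply Real.rpow_le_rpow_of_exponent_le hQ.le
  have h1' : (s : ℝ) + (2 * L + 4) + k ≤ 2 * g + 3 := by exact_mod_cast h1
  have h2' : (15 : ℝ) * g ≤ 768 * m + 784 := by exact_mod_cast h2
  have hm : (0 : ℝ) ≤ m := Nat.cast_nonneg m
  push_cast
  linarith

end XV5

theorem p_V5 (F : Type) [Field F] [Fintype F] [CharP F 3] (hB0 : DH.S_B0 F) (hT10a : S_T10a F)
    (hV4 : S_V4 F) : S_V5 F := by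
  obtain ⟨C, hC, hV⟩ := hV4 (1 / 200) (by norm_num)
  have hQ1 : 1 < qq F := by
    unfold qq
    exact_mod_cast Fintype.one_lt_card
  have hQ0 : 0 < qq F := by linarith
  obtain ⟨B, hB, hBg⟩ := XV5.poly_exp hQ1
  obtain ⟨r, hr⟩ : ∃ r : ℝ, r = qq F ^ ((1 : ℝ) / 80) := ⟨_, rfl⟩
  have hr0 : 0 < r := by
    rw [hr]
    exact Real.rpow_pos_of_pos hQ0 _
  rw [← hr] at hBg
  refine ⟨C * B * qq F ^ 5, by positivity, fun g N => ?_⟩
  have key : ∀ s ∈ (Finset.range N).filter (fun s => 16 * s < g), ∀ f₀ ∈ CF F s,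
      ((TR F g f₀).card : ℝ) ≤ C * ((g : ℝ) + 1) * qq F ^ (2 * g + 5) / (qq F ^ s * r ^ g) := by
    intro s hs f₀ hf₀
    have hs' : 16 * s < g := (Finset.mem_filter.1 hs).2
    rcases (PRS F g f₀).eq_empty_or_nonempty with h0 | h0
    · have h1 := hT10a g s f₀ hf₀ (by omega)
      rw [h0, Finset.card_empty, zero_mul] at h1
      have h2 : (TR F g f₀).card = 0 := by omega
      rw [h2]
      push_cast
      positivity
    · obtain ⟨a, b, hab, habs, hbg, hP⟩ := hV g s f₀ hf₀ h0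
      have h1 : ((TR F g f₀).card : ℝ) ≤ (PRS F g f₀).card * qq F ^ ((2 * g - s) / 3 + 1) := by
        unfold qq
        exact_mod_cast hT10a g s f₀ hf₀ (by omega)
      have h2 : s + (2 * ((g - 1 - a) / 3 + (g - 1 - b) / 3) + 4) + ((2 * g - s) / 3 + 1) ≤
          2 * g + 3 := by omega
      have h3 : 15 * g ≤ 768 * (((g - 1 - b) / 3) / 16) + 784 := by omega
      have h4 := XV5.powers hQ1 h2 h3
      rw [← hr] at h4
      have hm : 0 < qq F ^ (((g - 1 - b) / 3) / 16) := pow_pos hQ0 _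
      have h5 := mul_le_mul_of_nonneg_right hP (pow_pos hQ0 ((2 * g - s) / 3 + 1)).le
      refine (h1.trans h5).trans ?_
      rw [le_div_iff₀ (mul_pos (pow_pos hQ0 _) (pow_pos hr0 _))]
      have h6 : C * ((g : ℝ) + 1) * qq F ^ ((1 : ℝ) / 200 * (g : ℝ)) *
          qq F ^ (2 * ((g - 1 - a) / 3 + (g - 1 - b) / 3) + 4) / qq F ^ (((g - 1 - b) / 3) / 16) *
          qq F ^ ((2 * g - s) / 3 + 1) * (qq F ^ s * r ^ g) =
          C * ((g : ℝ) + 1) * ((qq F ^ ((1 : ℝ) / 200 * (g : ℝ)) *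
          qq F ^ (2 * ((g - 1 - a) / 3 + (g - 1 - b) / 3) + 4) *
          qq F ^ ((2 * g - s) / 3 + 1) * (qq F ^ s * r ^ g)) / qq F ^ (((g - 1 - b) / 3) / 16)) := by
        field_simp
      rw [h6]
      refine mul_le_mul_of_nonneg_left ?_ (by positivity)
      rw [div_le_iff₀ hm]
      exact h4
  have hcf : ∀ s, ((CF F s).card : ℝ) ≤ qq F ^ s := by
    intro s
    have h1 : (CF F s).card ≤ Fintype.card F ^ s := by
      unfold CF
      exact (Finset.card_filter_le _ _).trans (hB0.2.2.2.2.1 s).le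
    unfold qq
    exact_mod_cast h1
  have hsum : ∀ s ∈ (Finset.range N).filter (fun s => 16 * s < g),
      ∑ f₀ ∈ CF F s, ((TR F g f₀).card : ℝ) ≤
        C * ((g : ℝ) + 1) * qq F ^ (2 * g + 5) / r ^ g := by
    intro s hs
    refine (Finset.sum_le_sum (key s hs)).trans ?_
    rw [Finset.sum_const, nsmul_eq_mul]
    have h1 : 0 ≤ C * ((g : ℝ) + 1) * qq F ^ (2 * g + 5) / (qq F ^ s * r ^ g) := by positivity
    refine (mul_le_mul_of_nonneg_right (hcf s) h1).trans (le_of_eq ?_)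
    have h2 : qq F ^ s ≠ 0 := (pow_pos hQ0 s).ne'
    have h3 : r ^ g ≠ 0 := (pow_pos hr0 g).ne'
    field_simp
  refine (Finset.sum_le_sum hsum).trans ?_
  rw [Finset.sum_const, nsmul_eq_mul]
  have hcard : ((((Finset.range N).filter (fun s => 16 * s < g)).card : ℕ) : ℝ) ≤ (g : ℝ) + 1 := by
    have h1 : ((Finset.range N).filter (fun s => 16 * s < g)).card ≤ (Finset.range (g + 1)).card := by
      refine Finset.card_le_card fun s hs => ?_
      have := (Finset.mem_filter.1 hs).2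
      exact Finset.mem_range.2 (by omega)
    rw [Finset.card_range] at h1
    exact_mod_cast h1
  have hnn : 0 ≤ C * ((g : ℝ) + 1) * qq F ^ (2 * g + 5) / r ^ g := by positivity
  refine (mul_le_mul_of_nonneg_right hcard hnn).trans ?_
  have h1 : ((g : ℝ) + 1) * (C * ((g : ℝ) + 1) * qq F ^ (2 * g + 5) / r ^ g) =
      (C * qq F ^ (2 * g + 5)) * (((g : ℝ) + 1) ^ 2 / r ^ g) := by ring
  rw [h1]
  have h2 : ((g : ℝ) + 1) ^ 2 / r ^ g ≤ B := by
    rw [div_le_iff₀ (pow_pos hr0 g)]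
    exact hBg g
  refine (mul_le_mul_of_nonneg_left h2 (by positivity)).trans (le_of_eq ?_)
  ring

end PP
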