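import Pool.Agent.H463.DH.All
import Pool.Agent.H463.DH.DB
import Pool.Agent.H461.PP.T1
import Pool.Agent.H461.PP.T2a
import Pool.Agent.H461.PP.T2b
import Pool.Agent.H461.PP.T2
import Pool.Agent.H461.PP.T3
import Pool.Agent.H461.PP.T4
import Pool.Agent.H461.PP.T5a
import Pool.Agent.H461.PP.T5b
import Pool.Agent.H461.PP.T5c
import Pool.Agent.H461.PP.T5
import Pool.Agent.H461.PP.T6
import Pool.Agent.H461.PP.T7
import Pool.Agent.H461.PP.T8
import Pool.Agent.H461.PP.T9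
import Pool.Agent.H461.PP.T10a
import Pool.Agent.H461.PP.T10b
import Pool.Agent.H461.PP.T10c
import Pool.Agent.H461.PP.N1
import Pool.Agent.H461.PP.U1
import Pool.Agent.H461.PP.U2
import Pool.Agent.H461.PP.U3
import Pool.Agent.H461.PP.U4
import Pool.Agent.H461.PP.V1
import Pool.Agent.H461.PP.V2
import Pool.Agent.H461.PP.V3
import Pool.Agent.H461.PP.V4
import Pool.Agent.H461.PP.V5
import Pool.Agent.H461.PP.SM2
import Pool.Agent.H461.PP.R2

/-! All parts put together. -/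

open Polynomial
open scoped Classical

namespace PP

open DH

theorem all (F : Type) [Field F] [Fintype F] [CharP F 3] : S_SM2 F ∧ S_R2 F := by
  have b0 := p_B0 F
  have b1 := p_B1 F b0
  have a1 := p_A1 F
  have a2 := p_A2 F
  have a3 := p_A3 F
  have a4 := p_A4 F a1 a2 b1
  have a5 := p_A5 F a2
  have a6 := p_A6 F a1 a5
  have a7 := p_A7 F a1 a2 a3 a4 a6
  have a8 := p_A8 F a1 a2
  have a9 := p_A9 F a1 a2 a3 a4 a7 a8 b1
  have b2 := p_B2 F b0
  have dc := p_DC F b0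
  have b3 := p_B3 F b0 b1 b2 dc
  have b4 := p_B4 F b0 b1 b2 b3
  have cp := p_CP F
  have b5 := p_B5 F b0 b1 b4 cp
  have mu := p_MU F b0
  have f1 := p_F1 F b0 b1
  have f4 := p_F4 F b0 b1 b5 cp f1
  have f5 := p_F5 F b0 mu
  have g0 := p_G0 F b1
  have g1 := p_G1 F b1 cp
  have g3 := p_G3 F b0 b3 dc
  have db := p_DB F b0
  have t1 := p_T1 F b1
  have t2a := p_T2a F b0 b3
  have t2b := p_T2b F b0 b1 g1
  have t2 := p_T2 F b0 b1 t2a t2b
  have t3 := p_T3 F b0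
  have t4 := p_T4 F b0 t1 t2 t3
  have t5a := p_T5a F b0
  have t5b := p_T5b F b0
  have t5c := p_T5c F b0 t5b
  have t5 := p_T5 F b0 t5a t5c
  have t6 := p_T6 F b0 b5 cp
  have t7 := p_T7 F b0 g3 dc
  have t8 := p_T8 F b1
  have t9 := p_T9 F b0 b1 b5 cp t7
  have t10a := p_T10a F b0 g1
  have t10b := p_T10b F b0 b1 t8
  have t10c := p_T10c F b0 b1 g0 g1 g3 f4
  have u1 := p_U1 F t4 t5 t10a
  have u2 := p_U2 F t6 t7 t10a
  have u3 := p_U3 F u1 u2 t2
  have u4 := p_U4 F b0 t7 t9 t10a t10b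
  have v1 := p_V1 F
  have v2 := p_V2 F
  have v3 := p_V3 F b0 db t5b
  have v4 := p_V4 F b0 t2 t5a v1 v2 v3
  have v5 := p_V5 F b0 t10a v4
  have sm2 := p_SM2 F p_N1 t10c u3 u4 v5
  exact ⟨sm2, p_R2 F sm2 a3 a9 f5 b0 b1⟩

end PP
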