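import Pool.Agent.H461.PP.Stm3

/-! Tail of the third term. -/

open Polynomial
open scoped Classical

noncomputable section

namespace PP

open DH

namespace XW2

/-- the tail of a convergent series of nonnegative terms -/
theorem tail {f : ℕ → ℝ} {c : ℝ} (hf : ∀ n, 0 ≤ f n)
    (h : ∀ n, ∑ i ∈ Finset.range n, f i ≤ c) {δ : ℝ} (hδ : 0 < δ) :
    ∃ K : ℕ, ∀ t : Finset ℕ, (∀ x ∈ t, K ≤ x) → ∑ x ∈ t, f x ≤ δ := by
  have hs : Summable f := summable_of_sum_range_le hf h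
  obtain ⟨s, hs'⟩ := summable_iff_vanishing_norm.1 hs δ hδ
  obtain ⟨K, hK⟩ := Finset.exists_nat_subset_range s
  refine ⟨K, fun t ht => ?_⟩
  have hd : Disjoint t s := by
    rw [Finset.disjoint_left]
    intro x hx hxs
    have h1 := Finset.mem_range.1 (hK hxs)
    have h2 := ht x hx
    omega
  exact ((le_abs_self _).trans_lt (hs' t hd)).le

end XW2

theorem p_W2 (F : Type) [Field F] [Fintype F] [CharP F 3] (hN1 : S_N1) (hU3 : S_U3 F)
    (hW1 : S_W1 F) : S_W2 F := by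
  intro ε hε
  have hq2 : 2 ≤ Fintype.card F := Fintype.one_lt_card
  have hq : (0 : ℝ) < qq F := by
    unfold qq
    exact_mod_cast (by omega : 0 < Fintype.card F)
  obtain ⟨c, -, hc⟩ := hN1.2.1 (Fintype.card F) hq2
  obtain ⟨K, hK⟩ := XW2.tail (f := fun x : ℕ => ((x : ℝ) + 1) ^ 2 / qq F ^ (x / 256)) (c := c)
    (fun n => by positivity) (fun N => hc N) (δ := ε / 2 / (26 * qq F ^ 4)) (by positivity)
  obtain ⟨g₀, hg₀⟩ := hW1 (ε / 2) (by positivity)
  refine ⟨max K 1000, g₀, fun g hg => ?_⟩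
  have hT : ∀ s, 0 ≤ ∑ f₀ ∈ CF F s, ((TR F g f₀).card : ℝ) := fun s =>
    Finset.sum_nonneg fun _ _ => Nat.cast_nonneg _
  rw [← Finset.sum_filter_add_sum_filter_not _ (fun s => 16 * s < g)]
  have h1 : ∑ s ∈ ((Finset.range (2 * g)).filter (fun s => s + max K 1000 ≤ 2 * g)).filter
      (fun s => 16 * s < g), ∑ f₀ ∈ CF F s, ((TR F g f₀).card : ℝ) ≤ ε / 2 * qq F ^ (2 * g) := by
    refine le_trans (Finset.sum_le_sum_of_subset_of_nonneg ?_ fun s _ _ => hT s) (hg₀ g hg (2 * g))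
    intro s hs
    rw [Finset.mem_filter, Finset.mem_filter] at hs
    exact Finset.mem_filter.2 ⟨hs.1.1, hs.2⟩
  have h2 : ∑ s ∈ ((Finset.range (2 * g)).filter (fun s => s + max K 1000 ≤ 2 * g)).filter
      (fun s => ¬ 16 * s < g), ∑ f₀ ∈ CF F s, ((TR F g f₀).card : ℝ) ≤ ε / 2 * qq F ^ (2 * g) := by
    set A := ((Finset.range (2 * g)).filter (fun s => s + max K 1000 ≤ 2 * g)).filter
      (fun s => ¬ 16 * s < g) with hA
    have hmem : ∀ s ∈ A, s < 2 * g ∧ s + K ≤ 2 * g ∧ s + 1000 ≤ 2 * g ∧ g ≤ 16 * s := by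
      intro s hs
      rw [hA, Finset.mem_filter, Finset.mem_filter, Finset.mem_range] at hs
      have h3 := hs.1.2
      have h4 : K ≤ max K 1000 := le_max_left _ _
      have h5 : 1000 ≤ max K 1000 := le_max_right _ _
      omega
    have h3 : ∀ s ∈ A, ∑ f₀ ∈ CF F s, ((TR F g f₀).card : ℝ) ≤
        26 * qq F ^ (2 * g + 4) * ((((2 * g - s : ℕ) : ℝ) + 1) ^ 2 / qq F ^ ((2 * g - s) / 256)) := by
      intro s hs
      obtain ⟨-, -, h4, h5⟩ := hmem s hs
      refine (hU3 g s h4 h5).trans (le_of_eq ?_)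
      ring
    refine (Finset.sum_le_sum h3).trans ?_
    rw [← Finset.mul_sum]
    have h4 : ∑ s ∈ A, (((2 * g - s : ℕ) : ℝ) + 1) ^ 2 / qq F ^ ((2 * g - s) / 256) =
        ∑ x ∈ A.image (fun s => 2 * g - s), ((x : ℝ) + 1) ^ 2 / qq F ^ (x / 256) := by
      rw [Finset.sum_image]
      intro x hx y hy hxy
      have hx' := hmem x hx
      have hy' := hmem y hy
      simp only at hxy
      omega
    have h5 : ∑ x ∈ A.image (fun s => 2 * g - s), ((x : ℝ) + 1) ^ 2 / qq F ^ (x / 256) ≤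
        ε / 2 / (26 * qq F ^ 4) := by
      refine hK _ fun x hx => ?_
      obtain ⟨s, hs, rfl⟩ := Finset.mem_image.1 hx
      have := hmem s hs
      omega
    rw [h4]
    refine (mul_le_mul_of_nonneg_left h5 (by positivity)).trans (le_of_eq ?_)
    rw [pow_add]
    field_simp
  have h3 : ε * qq F ^ (2 * g) = ε / 2 * qq F ^ (2 * g) + ε / 2 * qq F ^ (2 * g) := by ring
  rw [h3]
  exact add_le_add h1 h2

end PP
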