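import Pool.Agent.H461.PP.Stm3

/-!
# PP W3: reduction of the second moment to the triples with small `s` and the pairs with small defect
-/

set_option autoImplicit false

open Polynomial
open scoped Classical

noncomputable section

namespace PP

open DH

namespace XW3

variable {F : Type} [Field F]

theorem Wr_second [CharP F 3] (h3 : ∀ G : F[X], derivative (derivative (derivative G)) = 0) (a b : F[X]) :
    derivative (derivative (Wr a b * a)) = 0 ∧ derivative (derivative (Wr a b * b)) = 0 := by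
  have h30 : (3 : F[X]) = 0 := by
    have := CharP.cast_eq_zero (R := F[X]) 3
    exact_mod_cast this
  have ha := h3 a
  have hb := h3 b
  unfold Wr
  constructor
  · simp only [derivative_mul, derivative_sub, derivative_add, ha, hb]
    linear_combination (derivative a * derivative (derivative a) * b - a * derivative a * derivative (derivative b)) * h30
  · simp only [derivative_mul, derivative_sub, derivative_add, ha, hb]
    linear_combination (derivative (derivative a) * b * derivative b - a * derivative b * derivative (derivative b)) * h30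

theorem cube_second [CharP F 3] (c u : F[X]) :
    derivative (derivative (c ^ 3 * u)) = c ^ 3 * derivative (derivative u) := by
  have h30 : (3 : F[X]) = 0 := by
    have := CharP.cast_eq_zero (R := F[X]) 3
    exact_mod_cast this
  have h1 : derivative (c ^ 3) = 0 := by
    rw [derivative_pow]
    have : (C ((3 : ℕ) : F)) = (0 : F[X]) := by
      rw [CharP.cast_eq_zero, C_0]
    rw [this, zero_mul, zero_mul]
  simp only [derivative_mul, h1, zero_mul, zero_add]

theorem natDegree_Wr_le (a b : F[X]) : (Wr a b).natDegree ≤ a.natDegree + b.natDegree := by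
  unfold Wr
  refine (natDegree_sub_le _ _).trans (max_le ?_ ?_)
  · refine natDegree_mul_le.trans ?_
    have := natDegree_derivative_le a
    omega
  · refine natDegree_mul_le.trans ?_
    have := natDegree_derivative_le b
    omega

theorem mem_filter' {α : Type} (p : α → Prop) (inst : DecidablePred p) (s : Finset α) (a : α) :
    a ∈ @Finset.filter α p inst s ↔ a ∈ s ∧ p a := Finset.mem_filter

theorem mem_PB {F : Type} [Field F] [Fintype F] (g K : ℕ) (p : F[X] × F[X]) :
    p ∈ PB F g K ↔ p ∈ PG F g ∧ (Wr p.1 p.2 ≠ 0 ∧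
      (∃ f ∈ MON F (2 * g + 1), IsSol f p.1 ∧ IsSol f p.2) ∧
      2 * g + 3 * (cpart (Wr p.1 p.2)).natDegree < (Wr p.1 p.2).natDegree + K) :=
  mem_filter' _ _ _ _

end XW3

theorem p_W3 (F : Type) [Field F] [Fintype F] [CharP F 3] (hB0 : DH.S_B0 F) (hB1 : DH.S_B1 F)
    (hG0 : DH.S_G0 F) (hCP : DH.S_CP F) (hM2 : DH.S_M2 F) : S_W3 F := by
  obtain ⟨hPOL, hMON, -, -, -, -⟩ := hB0
  obtain ⟨-, -, h3, -, hdeg, -, hsolz, -, -⟩ := hB1
  obtain ⟨hcp1, hcp2, -⟩ := hCP
  intro g K
  have hq1 : (1 : ℝ) ≤ qq F := by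
    unfold qq
    exact_mod_cast Fintype.card_pos
  -- the set of all the triples
  set T : Finset (F[X] × F[X] × F[X]) := ((MON F (2 * g + 1)) ×ˢ (PG F g)).filter
    (fun t => Wr t.2.1 t.2.2 ≠ 0 ∧ IsSol t.1 t.2.1 ∧ IsSol t.1 t.2.2) with hT
  -- membership of nonzero solutions
  have hmemPOL : ∀ f ∈ MON F (2 * g + 1), ∀ v : F[X], v ≠ 0 → IsSol f v → v ∈ POL F g := by
    intro f hf v hv hs
    have h1 := hdeg f v hv hs
    rw [((hMON _ _).1 hf).2] at h1
    rw [hPOL]
    exact (natDegree_lt_iff_degree_lt hv).1 (by omega)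
  -- Step 1
  have step1 : ∀ f ∈ MON F (2 * g + 1), ((solz f).card : ℝ) ^ 2 - 2 * ((solz f).card : ℝ) ≤
      (((PG F g).filter (fun p => Wr p.1 p.2 ≠ 0 ∧ IsSol f p.1 ∧ IsSol f p.2)).card : ℝ) := by
    intro f hf
    have e1 : ((solz f ×ˢ solz f).filter (fun p => Wr p.1 p.2 ≠ 0)).card +
        ((solz f ×ˢ solz f).filter (fun p => ¬ Wr p.1 p.2 ≠ 0)).card = (solz f).card * (solz f).card := by
      rw [Finset.card_filter_add_card_filter_not, Finset.card_product]
    have e2 : ((solz f ×ˢ solz f).filter (fun p => ¬ Wr p.1 p.2 ≠ 0)).card ≤ 2 * (solz f).card := by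
      have hsub : (solz f ×ˢ solz f).filter (fun p => ¬ Wr p.1 p.2 ≠ 0) ⊆
          (solz f).image (fun v => (v, v)) ∪ (solz f).image (fun v => (v, -v)) := by
        rintro ⟨v₁, v₂⟩ hp
        rw [Finset.mem_filter, Finset.mem_product] at hp
        obtain ⟨⟨hv1, hv2⟩, hw⟩ := hp
        simp only at hv1 hv2 hw
        obtain ⟨n1, s1⟩ := (hsolz f v₁).1 hv1
        obtain ⟨n2, s2⟩ := (hsolz f v₂).1 hv2
        have hw' : derivative v₁ * v₂ = v₁ * derivative v₂ := by
          have : Wr v₁ v₂ = 0 := not_not.1 hw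
          unfold Wr at this
          exact sub_eq_zero.1 this
        rw [Finset.mem_union, Finset.mem_image, Finset.mem_image]
        rcases hG0 f v₁ v₂ n1 n2 s1 s2 hw' with h | h
        · left; exact ⟨v₁, hv1, by rw [h]⟩
        · right; exact ⟨v₁, hv1, by rw [h, neg_neg]⟩
      calc _ ≤ ((solz f).image (fun v => (v, v)) ∪ (solz f).image (fun v => (v, -v))).card :=
            Finset.card_le_card hsub
        _ ≤ ((solz f).image (fun v => (v, v))).card + ((solz f).image (fun v => (v, -v))).card :=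
            Finset.card_union_le _ _
        _ ≤ (solz f).card + (solz f).card := add_le_add Finset.card_image_le Finset.card_image_le
        _ = 2 * (solz f).card := by ring
    have e3 : ((solz f ×ˢ solz f).filter (fun p => Wr p.1 p.2 ≠ 0)).card ≤
        ((PG F g).filter (fun p => Wr p.1 p.2 ≠ 0 ∧ IsSol f p.1 ∧ IsSol f p.2)).card := by
      apply Finset.card_le_card
      rintro ⟨v₁, v₂⟩ hp
      rw [Finset.mem_filter, Finset.mem_product] at hp
      obtain ⟨⟨hv1, hv2⟩, hw⟩ := hp
      simp only at hv1 hv2 hw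
      obtain ⟨n1, s1⟩ := (hsolz f v₁).1 hv1
      obtain ⟨n2, s2⟩ := (hsolz f v₂).1 hv2
      rw [Finset.mem_filter]
      refine ⟨?_, hw, s1, s2⟩
      unfold PG
      exact Finset.mem_product.2 ⟨hmemPOL f hf v₁ n1 s1, hmemPOL f hf v₂ n2 s2⟩
    have e4 : (solz f).card * (solz f).card ≤
        ((PG F g).filter (fun p => Wr p.1 p.2 ≠ 0 ∧ IsSol f p.1 ∧ IsSol f p.2)).card + 2 * (solz f).card := by
      omega
    have e5 : ((solz f).card : ℝ) * ((solz f).card : ℝ) ≤
        (((PG F g).filter (fun p => Wr p.1 p.2 ≠ 0 ∧ IsSol f p.1 ∧ IsSol f p.2)).card : ℝ) +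
          2 * ((solz f).card : ℝ) := by
      exact_mod_cast e4
    nlinarith
  have hII : II F g ≤ (T.card : ℝ) := by
    have e1 : T.card = ∑ f ∈ MON F (2 * g + 1),
        ((PG F g).filter (fun p => Wr p.1 p.2 ≠ 0 ∧ IsSol f p.1 ∧ IsSol f p.2)).card := by
      rw [hT, Finset.card_filter, Finset.sum_product]
      refine Finset.sum_congr rfl (fun f _ => ?_)
      rw [Finset.card_filter]
    rw [e1]
    push_cast
    unfold II
    exact Finset.sum_le_sum step1
  -- Step 2: the splitting
  set T1 := T.filter (fun t => ((Wr t.2.1 t.2.2).natDegree - 3 * (cpart (Wr t.2.1 t.2.2)).natDegree) + K ≤ 2 * g)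
    with hT1
  set T2 := T.filter (fun t => ¬ ((Wr t.2.1 t.2.2).natDegree - 3 * (cpart (Wr t.2.1 t.2.2)).natDegree) + K ≤ 2 * g)
    with hT2
  have hsplit : T1.card + T2.card = T.card := by
    rw [hT1, hT2, Finset.card_filter_add_card_filter_not]
  have hb1 : (T1.card : ℝ) ≤ ∑ s ∈ (Finset.range (2 * g)).filter (fun s => s + K ≤ 2 * g),
      ∑ f₀ ∈ CF F s, ((TR F g f₀).card : ℝ) := by
    have hsub : T1 ⊆ ((Finset.range (2 * g)).filter (fun s => s + K ≤ 2 * g)).biUnion
        (fun s => (CF F s).biUnion (fun f₀ => TR F g f₀)) := by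
      rintro ⟨f, v₁, v₂⟩ ht
      rw [hT1, Finset.mem_filter, hT, Finset.mem_filter, Finset.mem_product] at ht
      obtain ⟨⟨⟨hf, hp⟩, hw, s1, s2⟩, hs⟩ := ht
      simp only at hf hp hw s1 s2 hs
      unfold PG at hp
      obtain ⟨hp1, hp2⟩ := Finset.mem_product.1 hp
      simp only at hp1 hp2
      have n1 : v₁ ≠ 0 := by
        rintro rfl
        apply hw
        unfold Wr
        simp
      have n2 : v₂ ≠ 0 := by
        rintro rfl
        apply hw
        unfold Wr
        simp
      obtain ⟨hcm, ⟨W₁, hW₁⟩, -⟩ := hcp1 (Wr v₁ v₂) hw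
      set c := cpart (Wr v₁ v₂) with hc
      have hcf := hcp2 (Wr v₁ v₂) W₁ hw hW₁
      have hW₁0 : W₁ ≠ 0 := by
        rintro rfl
        rw [mul_zero] at hW₁
        exact hw hW₁
      have hlc : W₁.leadingCoeff ≠ 0 := leadingCoeff_ne_zero.2 hW₁0
      set f₀ : F[X] := C (W₁.leadingCoeff)⁻¹ * W₁ with hf₀
      have hmon : f₀.Monic := by
        rw [hf₀]
        unfold Polynomial.Monic
        rw [leadingCoeff_mul, leadingCoeff_C, inv_mul_cancel₀ hlc]
      have hdegf : f₀.natDegree = W₁.natDegree := by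
        rw [hf₀, natDegree_C_mul (inv_ne_zero hlc)]
      have hcfree : CubeFree f₀ := by
        intro b hb
        apply hcf b
        have hu : IsUnit (C (W₁.leadingCoeff)⁻¹ : F[X]) := isUnit_C.2 (IsUnit.mk0 _ (inv_ne_zero hlc))
        rw [hf₀] at hb
        exact (IsUnit.dvd_mul_left hu).1 hb
      have hdW : (Wr v₁ v₂).natDegree = 3 * c.natDegree + W₁.natDegree := by
        rw [hW₁, natDegree_mul (pow_ne_zero 3 hcm.ne_zero) hW₁0, natDegree_pow]
      have hdeg1 : v₁.natDegree < g := (natDegree_lt_iff_degree_lt n1).2 ((hPOL _ _).1 hp1)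
      have hdeg2 : v₂.natDegree < g := (natDegree_lt_iff_degree_lt n2).2 ((hPOL _ _).1 hp2)
      have hdWle := XW3.natDegree_Wr_le v₁ v₂
      have hker : ∀ v, derivative (derivative (Wr v₁ v₂ * v)) = 0 →
          derivative (derivative (f₀ * v)) = 0 := by
        intro v hv
        rw [hW₁, mul_assoc, XW3.cube_second] at hv
        have h1 := (mul_eq_zero.1 hv).resolve_left (pow_ne_zero 3 hcm.ne_zero)
        rw [hf₀, mul_assoc]
        simp only [derivative_C_mul]
        rw [h1, mul_zero]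
      have hsec := XW3.Wr_second h3 v₁ v₂
      rw [Finset.mem_biUnion]
      refine ⟨W₁.natDegree, ?_, ?_⟩
      · rw [Finset.mem_filter, Finset.mem_range]
        constructor <;> omega
      · rw [Finset.mem_biUnion]
        refine ⟨f₀, ?_, ?_⟩
        · unfold CF
          rw [Finset.mem_filter, hMON]
          exact ⟨⟨hmon, hdegf⟩, hcfree⟩
        · unfold TR
          rw [Finset.mem_filter, Finset.mem_product, Finset.mem_product]
          refine ⟨⟨hf, ?_, ?_⟩, ?_, s1, s2⟩
          · unfold KG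
            exact Finset.mem_filter.2 ⟨hp1, hker v₁ hsec.1⟩
          · unfold KG
            exact Finset.mem_filter.2 ⟨hp2, hker v₂ hsec.2⟩
          · unfold Ind
            intro h
            apply hw
            unfold Wr
            exact sub_eq_zero.2 h
    calc (T1.card : ℝ) ≤ ((((Finset.range (2 * g)).filter (fun s => s + K ≤ 2 * g)).biUnion
        (fun s => (CF F s).biUnion (fun f₀ => TR F g f₀))).card : ℝ) := by
          exact_mod_cast Finset.card_le_card hsub
      _ ≤ ((∑ s ∈ (Finset.range (2 * g)).filter (fun s => s + K ≤ 2 * g),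
          ∑ f₀ ∈ CF F s, (TR F g f₀).card : ℕ) : ℝ) := by
          refine Nat.cast_le.2 ?_
          refine Finset.card_biUnion_le.trans ?_
          exact Finset.sum_le_sum (fun s _ => Finset.card_biUnion_le)
      _ = _ := by push_cast; rfl
  have hb2 : (T2.card : ℝ) ≤ ∑ p ∈ PB F g K,
      qq F ^ ((2 * g + 3 * (cpart (Wr p.1 p.2)).natDegree - (Wr p.1 p.2).natDegree) / 3 + 1) := by
    have hmaps : ∀ t ∈ T2, t.2 ∈ PB F g K := by
      rintro ⟨f, v₁, v₂⟩ ht
      rw [hT2, Finset.mem_filter, hT, Finset.mem_filter, Finset.mem_product] at ht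
      obtain ⟨⟨⟨hf, hp⟩, hw, s1, s2⟩, hs⟩ := ht
      simp only at hf hp hw s1 s2 hs
      rw [XW3.mem_PB]
      refine ⟨hp, hw, ⟨f, hf, s1, s2⟩, ?_⟩
      obtain ⟨hcm, ⟨W₁, hW₁⟩, -⟩ := hcp1 (Wr v₁ v₂) hw
      have hW₁0 : W₁ ≠ 0 := by
        rintro rfl
        rw [mul_zero] at hW₁
        exact hw hW₁
      have hdW : (Wr v₁ v₂).natDegree = 3 * (cpart (Wr v₁ v₂)).natDegree + W₁.natDegree := by
        conv_lhs => rw [hW₁]
        rw [natDegree_mul (pow_ne_zero 3 hcm.ne_zero) hW₁0, natDegree_pow]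
      simp only
      omega
    have e1 : T2.card = ∑ p ∈ PB F g K, (T2.filter (fun t => t.2 = p)).card :=
      Finset.card_eq_sum_card_fiberwise hmaps
    rw [e1]
    push_cast
    refine Finset.sum_le_sum (fun p hp => ?_)
    have hw := ((XW3.mem_PB g K p).1 hp).2.1
    have e2 : (T2.filter (fun t => t.2 = p)).card ≤
        ((MON F (2 * g + 1)).filter (fun f => IsSol f p.1 ∧ IsSol f p.2)).card := by
      refine Finset.card_le_card_of_injOn (fun t => t.1) ?_ ?_
      · rintro ⟨f, v₁, v₂⟩ ht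
        have ht' := Finset.mem_coe.1 ht
        rw [Finset.mem_filter, hT2, Finset.mem_filter, hT, Finset.mem_filter, Finset.mem_product] at ht'
        obtain ⟨⟨⟨⟨hf, -⟩, -, s1, s2⟩, -⟩, hpp⟩ := ht'
        simp only at hf s1 s2 hpp
        rw [← hpp]
        exact Finset.mem_coe.2 (Finset.mem_filter.2 ⟨hf, s1, s2⟩)
      · rintro ⟨f, v⟩ ht ⟨f', v'⟩ ht' hff
        have h1 := (Finset.mem_filter.1 (Finset.mem_coe.1 ht)).2
        have h2 := (Finset.mem_filter.1 (Finset.mem_coe.1 ht')).2
        simp only at h1 h2 hff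
        rw [hff, h1, h2]
    have e3 := hM2 (2 * g + 1) p.1 p.2 (by omega) hw
    have e4 : (((T2.filter (fun t => t.2 = p)).card : ℕ) : ℝ) ≤
        qq F ^ ((2 * g + 1 - 1 - ((Wr p.1 p.2).natDegree - 3 * (cpart (Wr p.1 p.2)).natDegree)) / 3 + 1) := by
      unfold qq
      exact_mod_cast e2.trans e3
    refine e4.trans (pow_le_pow_right₀ hq1 ?_)
    have : 2 * g + 1 - 1 - ((Wr p.1 p.2).natDegree - 3 * (cpart (Wr p.1 p.2)).natDegree) ≤
        2 * g + 3 * (cpart (Wr p.1 p.2)).natDegree - (Wr p.1 p.2).natDegree := by omega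
    have := Nat.div_le_div_right (c := 3) this
    omega
  calc II F g ≤ (T.card : ℝ) := hII
    _ = (T1.card : ℝ) + (T2.card : ℝ) := by
        rw [← hsplit]; push_cast; rfl
    _ ≤ _ := add_le_add hb1 hb2

end PP
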