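import Pool.Agent.H461.PP.Stm3

/-!
# PP W4: the sum over `h`
-/

open Polynomial
open scoped Classical

noncomputable section

namespace PP

open DH

namespace XW4

theorem om_nonneg {F : Type} [Field F] [Fintype F] (g K : ℕ) (p : F[X] × F[X]) : 0 ≤ om g K p := by
  unfold om
  split_ifs
  · unfold qq
    positivity
  · exact le_rfl

theorem term_nonneg {F : Type} [Field F] [Fintype F] (g K k : ℕ) (h : F[X]) (p : F[X] × F[X]) :
    0 ≤ qq F ^ k * (if CH h p.1 p.2 then om g K p else 0) := by
  have h1 : (0 : ℝ) ≤ qq F ^ k := by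
    unfold qq
    positivity
  refine mul_nonneg h1 ?_
  split_ifs
  · exact om_nonneg g K p
  · exact le_rfl

theorem deg_Wr {F : Type} [Field F] {g : ℕ} {R S : F[X]} (hR : R.natDegree < g)
    (hS : S.natDegree < g) : (Wr R S).natDegree ≤ 2 * g := by
  unfold Wr
  refine (natDegree_sub_le _ _).trans (max_le ?_ ?_)
  · refine natDegree_mul_le.trans ?_
    have h1 := natDegree_derivative_le R
    omega
  · refine natDegree_mul_le.trans ?_
    have h1 := natDegree_derivative_le S
    omega

theorem natDeg_lt {F : Type} [Field F] {g : ℕ} {R : F[X]} (hg : 2 ≤ g) (h : R.degree < g) :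
    R.natDegree < g := by
  by_cases hR : R = 0
  · rw [hR, natDegree_zero]
    omega
  · exact (natDegree_lt_iff_degree_lt hR).2 h

theorem filt {α : Type} (s : Finset α) (q : α → Prop) (i : DecidablePred q) {x : α}
    (h : x ∈ @Finset.filter α q i s) : x ∈ s := (Finset.mem_filter.1 h).1

end XW4

theorem p_W4 (F : Type) [Field F] [Fintype F] [CharP F 3] (hB0 : DH.S_B0 F) (hW4a : S_W4a F) :
    S_W4 F := by
  intro g K hg
  obtain ⟨hP, hM, -⟩ := hB0
  have hsub : PB F g K ⊆ PG F g := by
    intro p hp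
    unfold PB at hp
    exact XW4.filt _ _ _ hp
  -- the estimate for one pair
  have h1 : ∀ p ∈ PB F g K,
      qq F ^ ((2 * g + 3 * (cpart (Wr p.1 p.2)).natDegree - (Wr p.1 p.2).natDegree) / 3 + 1) ≤
        ∑ k ∈ Finset.range K, ∑ h ∈ MON F k, qq F ^ k * (if CH h p.1 p.2 then om g K p else 0) := by
    intro p hp
    obtain ⟨hAD, hCH, hmon, hdeg⟩ := hW4a g K p hg hp
    have hpG := hsub hp
    unfold PG at hpG
    rw [Finset.mem_product] at hpG
    have hR : p.1.natDegree < g := XW4.natDeg_lt hg ((hP g p.1).1 hpG.1)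
    have hS : p.2.natDegree < g := XW4.natDeg_lt hg ((hP g p.2).1 hpG.2)
    have hW := XW4.deg_Wr hR hS
    set c := cpart (Wr p.1 p.2) with hc
    have h2 : (2 * g + 3 * c.natDegree - (Wr p.1 p.2).natDegree) / 3 + 1 =
        c.natDegree + ((2 * g - (Wr p.1 p.2).natDegree) / 3 + 1) := by
      omega
    have h3 : qq F ^ ((2 * g + 3 * c.natDegree - (Wr p.1 p.2).natDegree) / 3 + 1) =
        qq F ^ c.natDegree * (if CH c p.1 p.2 then om g K p else 0) := by
      rw [h2, pow_add, if_pos hCH]
      unfold om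
      rw [if_pos hAD]
    rw [h3]
    have h4 : c ∈ MON F c.natDegree := (hM c.natDegree c).2 ⟨hmon, rfl⟩
    have h5 : qq F ^ c.natDegree * (if CH c p.1 p.2 then om g K p else 0) ≤
        ∑ h ∈ MON F c.natDegree, qq F ^ c.natDegree * (if CH h p.1 p.2 then om g K p else 0) :=
      Finset.single_le_sum
        (f := fun h => qq F ^ c.natDegree * (if CH h p.1 p.2 then om g K p else 0))
        (fun h _ => XW4.term_nonneg g K c.natDegree h p) h4
    refine h5.trans ?_
    exact Finset.single_le_sum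
      (f := fun k => ∑ h ∈ MON F k, qq F ^ k * (if CH h p.1 p.2 then om g K p else 0))
      (fun k _ => Finset.sum_nonneg fun h _ => XW4.term_nonneg g K k h p)
      (Finset.mem_range.2 (by omega))
  calc ∑ p ∈ PB F g K,
        qq F ^ ((2 * g + 3 * (cpart (Wr p.1 p.2)).natDegree - (Wr p.1 p.2).natDegree) / 3 + 1)
      ≤ ∑ p ∈ PB F g K, ∑ k ∈ Finset.range K, ∑ h ∈ MON F k,
          qq F ^ k * (if CH h p.1 p.2 then om g K p else 0) := Finset.sum_le_sum h1
    _ ≤ ∑ p ∈ PG F g, ∑ k ∈ Finset.range K, ∑ h ∈ MON F k,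
          qq F ^ k * (if CH h p.1 p.2 then om g K p else 0) :=
        Finset.sum_le_sum_of_subset_of_nonneg hsub fun p _ _ =>
          Finset.sum_nonneg fun k _ => Finset.sum_nonneg fun h _ => XW4.term_nonneg g K k h p
    _ = ∑ k ∈ Finset.range K, ∑ h ∈ MON F k,
          qq F ^ k * ∑ p ∈ (PG F g).filter (fun p => CH h p.1 p.2), om g K p := by
        rw [Finset.sum_comm]
        refine Finset.sum_congr rfl fun k _ => ?_
        rw [Finset.sum_comm]
        refine Finset.sum_congr rfl fun h _ => ?_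
        rw [← Finset.mul_sum, Finset.sum_filter]

end PP
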