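import Pool.Agent.H461.PP.Stm3

/-!
# PP W4a : necessary conditions of an independent pair with a common `f`
-/

open Polynomial
open scoped Classical

noncomputable section

namespace PP

open DH

namespace XW4a

/-- Coefficients of `X p'`. -/
theorem coeff_th {F : Type} [Field F] (p : F[X]) (k : ℕ) :
    (X * derivative p).coeff k = (k : F) * p.coeff k := by
  cases k with
  | zero => simp
  | succ k =>
    rw [coeff_X_mul, coeff_derivative]
    push_cast
    ring

theorem natDegree_th {F : Type} [Field F] (p : F[X]) (m : ℕ) (h : p.natDegree ≤ m) :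
    (X * derivative p).natDegree ≤ m := by
  rw [natDegree_le_iff_coeff_eq_zero]
  intro N hN
  rw [coeff_th, coeff_eq_zero_of_natDegree_lt (by omega), mul_zero]

/-- `X Wr = (X R') S - R (X S')`. -/
theorem X_Wr {F : Type} [Field F] (R S : F[X]) :
    X * Wr R S = (X * derivative R) * S - R * (X * derivative S) := by
  unfold Wr
  ring

/-- The identity of M1. -/
theorem identity {F : Type} [Field F] (f R S : F[X]) (hR : IsSol f R) (hS : IsSol f S) :
    2 * derivative f * Wr R S + f * derivative (Wr R S) = Mo R S := by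
  unfold IsSol at hR hS
  have h1 : S * derivative (derivative (f * R)) - R * derivative (derivative (f * S)) = Mo R S := by
    rw [hR, hS]
    unfold Mo
    ring
  rw [← h1]
  unfold Wr
  simp only [derivative_mul, derivative_sub, derivative_add]
  ring

theorem Mo_eq {F : Type} [Field F] (R S : F[X]) : Mo R S = R * S * (S - R) * (S + R) := by
  unfold Mo
  ring

theorem isSol_add {F : Type} [Field F] [CharP F 3] (f R S : F[X]) (hR : IsSol f R) (hS : IsSol f S) :
    IsSol f (S + R) := by
  unfold IsSol at *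
  have h3 : (3 : F[X]) = 0 := by
    have h := CharP.cast_eq_zero F[X] 3
    exact_mod_cast h
  rw [mul_add, derivative_add, derivative_add, hR, hS]
  linear_combination (S ^ 2 * R + S * R ^ 2) * h3

theorem isSol_neg {F : Type} [Field F] (f R : F[X]) (hR : IsSol f R) :
    IsSol f (-R) := by
  unfold IsSol at *
  rw [mul_neg, derivative_neg, derivative_neg, hR]
  ring

theorem isSol_sub {F : Type} [Field F] [CharP F 3] (f R S : F[X]) (hR : IsSol f R) (hS : IsSol f S) :
    IsSol f (S - R) := by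
  rw [sub_eq_add_neg]
  exact isSol_add f (-R) S (isSol_neg f R hR) hS

/-- The leading coefficients. -/
theorem lead {F : Type} [Field F] [CharP F 3] (g : ℕ) (f R S : F[X]) (hg : 2 ≤ g) (hf : f.Monic)
    (hfd : f.natDegree = 2 * g + 1) (hR : IsSol f R) (hS : IsSol f S) (hW : Wr R S ≠ 0)
    (hdR : R.natDegree = g - 1) (hdS : S.natDegree = g - 1) (hd1 : (S - R).natDegree = g - 1)
    (hd2 : (S + R).natDegree = g - 1) (hR0 : R ≠ 0) (hS0 : S ≠ 0) (h10 : S - R ≠ 0) (h20 : S + R ≠ 0)
    (hMo : (Mo R S).natDegree ≤ 2 * g + (Wr R S).natDegree) :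
    (Wr R S).leadingCoeff = (Mo R S).leadingCoeff := by
  obtain ⟨k, rfl⟩ : ∃ k, g = k + 2 := ⟨g - 2, by omega⟩
  have e1 : k + 2 - 1 = k + 1 := by omega
  rw [e1] at hdR hdS hd1 hd2
  -- degree of Mo
  have hMd : (Mo R S).natDegree = 4 * k + 4 := by
    rw [Mo_eq, natDegree_mul (mul_ne_zero (mul_ne_zero hR0 hS0) h10) h20,
      natDegree_mul (mul_ne_zero hR0 hS0) h10, natDegree_mul hR0 hS0, hdR, hdS, hd1, hd2]
    omega
  -- degree of Wr
  have hXW : (X * Wr R S).natDegree ≤ (k + 1) + (k + 1) := by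
    rw [X_Wr]
    refine (natDegree_sub_le _ _).trans (max_le ?_ ?_)
    · exact natDegree_mul_le.trans (add_le_add (natDegree_th R _ hdR.le) hdS.le)
    · exact natDegree_mul_le.trans (add_le_add hdR.le (natDegree_th S _ hdS.le))
  have hXWc : (X * Wr R S).coeff ((k + 1) + (k + 1)) = 0 := by
    rw [X_Wr, coeff_sub, coeff_mul_add_eq_of_natDegree_le (natDegree_th R _ hdR.le) hdS.le,
      coeff_mul_add_eq_of_natDegree_le hdR.le (natDegree_th S _ hdS.le), coeff_th, coeff_th]
    ring
  have hXW0 : X * Wr R S ≠ 0 := mul_ne_zero X_ne_zero hW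
  have hXWd : (X * Wr R S).natDegree = (Wr R S).natDegree + 1 := by
    rw [natDegree_mul X_ne_zero hW, natDegree_X, add_comm]
  have hne : (X * Wr R S).natDegree ≠ (k + 1) + (k + 1) := by
    intro h
    have h2 : (X * Wr R S).leadingCoeff = 0 := by
      rw [leadingCoeff, h]
      exact hXWc
    exact hXW0 (leadingCoeff_eq_zero.1 h2)
  have hWd : (Wr R S).natDegree = 2 * k := by
    rw [hXWd] at hXW hne
    rw [hMd] at hMo
    omega
  -- comparison of the coefficients
  have hid := identity f R S hR hS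
  have hid2 : X * Mo R S = 2 * ((X * derivative f) * Wr R S) + f * (X * derivative (Wr R S)) := by
    rw [← hid]
    ring
  have hc : (X * Mo R S).coeff ((2 * (k + 2) + 1) + 2 * k) =
      (2 * ((X * derivative f) * Wr R S) + f * (X * derivative (Wr R S))).coeff
        ((2 * (k + 2) + 1) + 2 * k) := by rw [hid2]
  have e2 : (2 * (k + 2) + 1) + 2 * k = (4 * k + 4) + 1 := by ring
  rw [coeff_add] at hc
  have e3 : (2 * ((X * derivative f) * Wr R S) : F[X]) =
      (X * derivative f) * Wr R S + (X * derivative f) * Wr R S := by ring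
  rw [e3, coeff_add, coeff_mul_add_eq_of_natDegree_le (natDegree_th f _ hfd.le) hWd.le,
    coeff_mul_add_eq_of_natDegree_le hfd.le (natDegree_th _ _ hWd.le), coeff_th, coeff_th] at hc
  rw [e2, coeff_X_mul] at hc
  have hfc : f.coeff (2 * (k + 2) + 1) = 1 := by
    rw [← hfd]
    exact hf
  rw [hfc] at hc
  rw [leadingCoeff, leadingCoeff, hWd, hMd, hc]
  have h3 : (3 : F) = 0 := by
    have h := CharP.cast_eq_zero F 3
    exact_mod_cast h
  push_cast
  linear_combination (-(2 * (k : F) + 3) * (Wr R S).coeff (2 * k)) * h3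

end XW4a

open XW4a in
theorem p_W4a (F : Type) [Field F] [Fintype F] [CharP F 3] (hB0 : DH.S_B0 F) (hB1 : DH.S_B1 F)
    (hCP : DH.S_CP F) (hM1 : DH.S_M1 F) : S_W4a F := by
  intro g K p hg hp
  obtain ⟨R, S⟩ := p
  unfold PB PG at hp
  simp only [Finset.mem_filter, Finset.mem_product] at hp
  obtain ⟨⟨hRg, hSg⟩, hW, ⟨f, hf, hR, hS⟩, hdef⟩ := hp
  show AD g K R S ∧ CH (cpart (Wr R S)) R S ∧ (cpart (Wr R S)).Monic ∧
    3 * (cpart (Wr R S)).natDegree < K
  rw [hB0.1] at hRg hSg
  obtain ⟨hfm, hfd⟩ := (hB0.2.1 _ _).1 hf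
  have nd : ∀ T : F[X], T.degree < g → T.natDegree ≤ g - 1 := by
    intro T hT
    by_cases hT0 : T = 0
    · rw [hT0]
      simp
    · rw [degree_eq_natDegree hT0] at hT
      have : T.natDegree < g := by exact_mod_cast hT
      omega
  have hRn := nd R hRg
  have hSn := nd S hSg
  have h1n := nd (S - R) ((degree_sub_le _ _).trans_lt (max_lt hSg hRg))
  have h2n := nd (S + R) ((degree_add_le _ _).trans_lt (max_lt hSg hRg))
  have hR0 : R ≠ 0 := by
    rintro rfl
    exact hW (by simp [Wr])
  have hS0 : S ≠ 0 := by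
    rintro rfl
    exact hW (by simp [Wr])
  have h10 : S - R ≠ 0 := by
    intro h
    have h' : S = R := sub_eq_zero.1 h
    apply hW
    rw [h']
    unfold Wr
    ring
  have h20 : S + R ≠ 0 := by
    intro h
    have h' : S = -R := eq_neg_of_add_eq_zero_left h
    apply hW
    rw [h']
    unfold Wr
    rw [derivative_neg]
    ring
  have line : ∀ T : F[X], T ≠ 0 → IsSol f T → (T.natDegree + 2 * g + 1) % 3 ≠ 2 := by
    intro T hT0 hT hmod
    have h9 := hB1.2.2.2.2.2.2.2.2 f T hT0 hT (by rw [hfd]; omega)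
    omega
  obtain ⟨hM1a, hM1b⟩ := hM1 g f R S hfd hR hS hW
  obtain ⟨hc1, hc2, _⟩ := hCP.1 (Wr R S) hW
  have hWdle : (Wr R S).natDegree ≤ 2 * g := by
    have h1 : (X * Wr R S).natDegree ≤ (g - 1) + (g - 1) := by
      rw [X_Wr]
      refine (natDegree_sub_le _ _).trans (max_le ?_ ?_)
      · exact natDegree_mul_le.trans (add_le_add (natDegree_th R _ hRn) hSn)
      · exact natDegree_mul_le.trans (add_le_add hRn (natDegree_th S _ hSn))
    rw [natDegree_mul X_ne_zero hW, natDegree_X] at h1
    omega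
  refine ⟨⟨hW, by omega, line R hR0 hR, line S hS0 hS, line _ h10 (isSol_sub f R S hR hS),
    line _ h20 (isSol_add f R S hR hS), hM1b, ?_⟩, ⟨hc2, ?_⟩, hc1, by omega⟩
  · intro hmn
    unfold mn at hmn
    have a1 : g - 1 ≤ R.natDegree := hmn ▸ (min_le_left _ _).trans (min_le_left _ _)
    have a2 : g - 1 ≤ S.natDegree := hmn ▸ (min_le_left _ _).trans (min_le_right _ _)
    have a3 : g - 1 ≤ (S - R).natDegree := hmn ▸ (min_le_right _ _).trans (min_le_left _ _)
    have a4 : g - 1 ≤ (S + R).natDegree := hmn ▸ (min_le_right _ _).trans (min_le_right _ _)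
    exact lead g f R S hg hfm hfd hR hS hW (le_antisymm hRn a1) (le_antisymm hSn a2)
      (le_antisymm h1n a3) (le_antisymm h2n a4) hR0 hS0 h10 h20 hM1b
  · intro P _ hP _
    exact (pow_dvd_pow_of_dvd hP 3).trans hM1a

end PP
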