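import Pool.Agent.H461.PP.Stm3

/-!
# W5: equidistribution (helper897 for helper461)
-/

open Polynomial
open scoped Classical

noncomputable section

namespace PP

open DH

namespace XW5

variable {F : Type} [Field F] [CharP F 3]

theorem der_cube (h : F[X]) : derivative (h ^ 3) = 0 := by
  rw [derivative_pow]
  have h4 : (C ((3 : ℕ) : F) : F[X]) = 0 := by
    rw [CharP.cast_eq_zero F 3, C_0]
  rw [h4, zero_mul, zero_mul]

theorem der_shift (h u a : F[X]) :
    derivative (u + h ^ 3 * a) = derivative u + h ^ 3 * derivative a := by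
  rw [derivative_add, derivative_mul, der_cube, zero_mul, zero_add]

theorem Wr_shift (h u v a b : F[X]) : ∃ w, Wr (u + h ^ 3 * a) (v + h ^ 3 * b) = Wr u v + h ^ 3 * w := by
  refine ⟨derivative u * b + derivative a * v + h ^ 3 * derivative a * b
    - u * derivative b - a * derivative v - h ^ 3 * a * derivative b, ?_⟩
  unfold Wr
  rw [der_shift, der_shift]
  ring

theorem Mo_shift (M u v a b : F[X]) : ∃ w, Mo (u + M * a) (v + M * b) = Mo u v + M * w := by
  refine ⟨a * (v + M * b) ^ 3 + u * b * ((v + M * b) ^ 2 + (v + M * b) * v + v ^ 2)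
    - a * ((u + M * a) ^ 2 + (u + M * a) * u + u ^ 2) * (v + M * b) - u ^ 3 * b, ?_⟩
  unfold Mo
  ring

theorem CH_shift (h u v a b : F[X]) : CH h (u + h ^ 3 * a) (v + h ^ 3 * b) ↔ CH h u v := by
  obtain ⟨w, hw⟩ := Wr_shift h u v a b
  obtain ⟨z, hz⟩ := Mo_shift (h ^ 3) u v a b
  unfold CH
  rw [hw, hz, dvd_add_left (Dvd.intro w rfl)]
  refine and_congr_right fun _ => forall_congr' fun P => forall_congr' fun _ => forall_congr' fun hP => forall_congr' fun _ => ?_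
  have h1 : P ^ 3 ∣ h ^ 3 * z := (pow_dvd_pow_of_dvd hP 3).mul_right z
  exact dvd_add_left h1

variable [Fintype F]

theorem POL_add (hB0 : DH.S_B0 F) {N : ℕ} {a b : F[X]} (ha : a ∈ POL F N) (hb : b ∈ POL F N) :
    a + b ∈ POL F N := by
  rw [hB0.1] at ha hb ⊢
  exact (degree_add_le a b).trans_lt (max_lt ha hb)

theorem POL_neg (hB0 : DH.S_B0 F) {N : ℕ} {a : F[X]} (ha : a ∈ POL F N) :
    -a ∈ POL F N := by
  rw [hB0.1] at ha ⊢
  rwa [degree_neg]

theorem POL_mono (hB0 : DH.S_B0 F) {N M : ℕ} (h : N ≤ M) {a : F[X]} (ha : a ∈ POL F N) :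
    a ∈ POL F M := by
  rw [hB0.1] at ha ⊢
  exact ha.trans_le (by exact_mod_cast h)

theorem count (hB0 : DH.S_B0 F) {N k : ℕ} {h : F[X]} (hh : h ∈ MON F k) (hN : 3 * k ≤ N) (R S : F[X]) :
    ((POL F N ×ˢ POL F N).filter (fun t => CH h (R + t.1) (S + t.2))).card =
      (BB h).card * (Fintype.card F ^ (N - 3 * k) * Fintype.card F ^ (N - 3 * k)) := by
  have hh' := (hB0.2.1 k h).1 hh
  have hmon : (h ^ 3).Monic := hh'.1.pow 3
  have hdeg : (h ^ 3).degree = ((3 * k : ℕ) : WithBot ℕ) := by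
    rw [degree_eq_natDegree hmon.ne_zero, hh'.1.natDegree_pow, hh'.2]
  have hk : h.natDegree = k := hh'.2
  -- residues
  have hmod : ∀ x : F[X], x %ₘ (h ^ 3) ∈ POL F (3 * k) := by
    intro x
    rw [hB0.1, ← hdeg]
    exact degree_modByMonic_lt x hmon
  have hdecomp : ∀ x : F[X], x %ₘ (h ^ 3) + h ^ 3 * (x /ₘ (h ^ 3)) = x := fun x => modByMonic_add_div x (h ^ 3)
  have hmul : ∀ a : F[X], a ∈ POL F (N - 3 * k) → h ^ 3 * a ∈ POL F N := by
    intro a ha
    rw [hB0.1] at ha ⊢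
    rw [degree_mul, hdeg]
    by_cases ha0 : a = 0
    · rw [ha0, degree_zero, WithBot.add_bot]
      exact WithBot.bot_lt_coe N
    · rw [degree_eq_natDegree ha0] at ha ⊢
      have h1 : a.natDegree < N - 3 * k := by exact_mod_cast ha
      have h2 : 3 * k + a.natDegree < N := by omega
      exact_mod_cast h2
  have hdiv : ∀ x : F[X], x ∈ POL F N → x /ₘ (h ^ 3) ∈ POL F (N - 3 * k) := by
    intro x hx
    rw [hB0.1] at hx ⊢
    by_cases hx0 : x /ₘ (h ^ 3) = 0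
    · rw [hx0, degree_zero]
      exact WithBot.bot_lt_coe _
    · have h1 : (x /ₘ (h ^ 3)).natDegree = x.natDegree - (h ^ 3).natDegree := natDegree_divByMonic x hmon
      have h2 : ¬ x.degree < (h ^ 3).degree := fun h3 => hx0 ((divByMonic_eq_zero_iff hmon).2 h3)
      have hx1 : x ≠ 0 := by
        rintro rfl
        exact hx0 (zero_divByMonic _)
      rw [hdeg, degree_eq_natDegree hx1] at h2
      rw [degree_eq_natDegree hx1] at hx
      have h3 : x.natDegree < N := by exact_mod_cast hx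
      have h4 : 3 * k ≤ x.natDegree := by
        by_contra h5
        exact h2 (by exact_mod_cast (not_le.1 h5))
      have h5 : (h ^ 3).natDegree = 3 * k := by rw [hh'.1.natDegree_pow, hh'.2]
      rw [degree_eq_natDegree hx0, h1, h5]
      have h6 : x.natDegree - 3 * k < N - 3 * k := by omega
      exact_mod_cast h6
  have hmodeq : ∀ u ∈ POL F (3 * k), ∀ a : F[X], (u + h ^ 3 * a) %ₘ (h ^ 3) = u ∧ (u + h ^ 3 * a) /ₘ (h ^ 3) = a := by
    intro u hu a
    have h1 := div_modByMonic_unique a u hmon (f := u + h ^ 3 * a) ⟨rfl, by rw [hdeg]; exact (hB0.1 _ _).1 hu⟩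
    exact ⟨h1.2, h1.1⟩
  rw [← hB0.2.2.2.1 (N - 3 * k), ← Finset.card_product, ← Finset.card_product]
  refine Finset.card_nbij'
    (i := fun t => (((R + t.1) %ₘ (h ^ 3), (S + t.2) %ₘ (h ^ 3)), (t.1 /ₘ (h ^ 3), t.2 /ₘ (h ^ 3))))
    (j := fun w => ((w.1.1 - R %ₘ (h ^ 3)) + h ^ 3 * w.2.1, (w.1.2 - S %ₘ (h ^ 3)) + h ^ 3 * w.2.2)) ?_ ?_ ?_ ?_
  · rintro ⟨r, s⟩ ht
    rw [Finset.mem_coe, Finset.mem_filter, Finset.mem_product] at ht
    rw [Finset.mem_coe, Finset.mem_product, Finset.mem_product]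
    refine ⟨?_, hdiv r ht.1.1, hdiv s ht.1.2⟩
    unfold BB
    rw [Finset.mem_filter, Finset.mem_product, hk]
    refine ⟨⟨hmod _, hmod _⟩, ?_⟩
    have h1 := ht.2
    rw [← hdecomp (R + (r, s).1), ← hdecomp (S + (r, s).2), CH_shift] at h1
    exact h1
  · rintro ⟨⟨u, v⟩, ⟨a, b⟩⟩ hw
    rw [Finset.mem_coe, Finset.mem_product, Finset.mem_product] at hw
    have hw1 := hw.1
    unfold BB at hw1
    rw [Finset.mem_filter, Finset.mem_product, hk] at hw1
    rw [Finset.mem_coe, Finset.mem_filter, Finset.mem_product]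
    refine ⟨⟨POL_add hB0 (POL_mono hB0 hN ?_) (hmul a hw.2.1), POL_add hB0 (POL_mono hB0 hN ?_) (hmul b hw.2.2)⟩, ?_⟩
    · rw [sub_eq_add_neg]
      exact POL_add hB0 hw1.1.1 (POL_neg hB0 (hmod R))
    · rw [sub_eq_add_neg]
      exact POL_add hB0 hw1.1.2 (POL_neg hB0 (hmod S))
    · have e1 : R + ((u - R %ₘ (h ^ 3)) + h ^ 3 * a) = u + h ^ 3 * (R /ₘ (h ^ 3) + a) := by
        have h1 := hdecomp R
        linear_combination (-1 : F[X]) * h1
      have e2 : S + ((v - S %ₘ (h ^ 3)) + h ^ 3 * b) = v + h ^ 3 * (S /ₘ (h ^ 3) + b) := by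
        have h1 := hdecomp S
        linear_combination (-1 : F[X]) * h1
      show CH h (R + ((u - R %ₘ (h ^ 3)) + h ^ 3 * a)) (S + ((v - S %ₘ (h ^ 3)) + h ^ 3 * b))
      rw [e1, e2, CH_shift]
      exact hw1.2
  · rintro ⟨r, s⟩ _
    have e : ∀ R r : F[X], ((R + r) %ₘ (h ^ 3) - R %ₘ (h ^ 3)) + h ^ 3 * (r /ₘ (h ^ 3)) = r := by
      intro R r
      rw [add_modByMonic, add_sub_cancel_left]
      exact hdecomp r
    show ((((R + r) %ₘ (h ^ 3) - R %ₘ (h ^ 3)) + h ^ 3 * (r /ₘ (h ^ 3))), (((S + s) %ₘ (h ^ 3) - S %ₘ (h ^ 3)) + h ^ 3 * (s /ₘ (h ^ 3)))) = (r, s)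
    rw [e, e]
  · rintro ⟨⟨u, v⟩, ⟨a, b⟩⟩ hw
    rw [Finset.mem_coe, Finset.mem_product, Finset.mem_product] at hw
    have hw1 := hw.1
    unfold BB at hw1
    rw [Finset.mem_filter, Finset.mem_product, hk] at hw1
    have e : ∀ R u a : F[X], u ∈ POL F (3 * k) →
        (R + ((u - R %ₘ (h ^ 3)) + h ^ 3 * a)) %ₘ (h ^ 3) = u ∧ ((u - R %ₘ (h ^ 3)) + h ^ 3 * a) /ₘ (h ^ 3) = a := by
      intro R u a hu
      have e1 : R + ((u - R %ₘ (h ^ 3)) + h ^ 3 * a) = u + h ^ 3 * (R /ₘ (h ^ 3) + a) := by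
        have h1 := hdecomp R
        linear_combination (-1 : F[X]) * h1
      refine ⟨?_, ?_⟩
      · rw [e1]
        exact (hmodeq u hu _).1
      · refine (hmodeq (u - R %ₘ (h ^ 3)) ?_ a).2
        rw [sub_eq_add_neg]
        exact POL_add hB0 hu (POL_neg hB0 (hmod R))
    have h1 := e R u a hw1.1.1
    have h2 := e S v b hw1.1.2
    show (((R + ((u - R %ₘ (h ^ 3)) + h ^ 3 * a)) %ₘ (h ^ 3), (S + ((v - S %ₘ (h ^ 3)) + h ^ 3 * b)) %ₘ (h ^ 3)), (((u - R %ₘ (h ^ 3)) + h ^ 3 * a) /ₘ (h ^ 3), ((v - S %ₘ (h ^ 3)) + h ^ 3 * b) /ₘ (h ^ 3))) = ((u, v), (a, b))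
    rw [h1.1, h1.2, h2.1, h2.2]

end XW5

open XW5

theorem p_W5 (F : Type) [Field F] [Fintype F] [CharP F 3] (hB0 : DH.S_B0 F) (hW5a : S_W5a F) : S_W5 F := by
  intro g K k h hh hgK
  set N : ℕ := g - K with hN
  have hN3 : 3 * k ≤ N := by omega
  have hNg : N ≤ g := by omega
  have hq0 : (0 : ℝ) < qq F := by
    unfold qq
    exact_mod_cast Fintype.card_pos
  -- the shifted sums
  have hshift : ∀ t ∈ POL F N ×ˢ POL F N, ∑ p ∈ PG F g, (if CH h p.1 p.2 then om g K p else 0) =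
      ∑ p ∈ PG F g, (if CH h (p.1 + t.1) (p.2 + t.2) then om g K p else 0) := by
    rintro ⟨r, s⟩ ht
    rw [Finset.mem_product] at ht
    have hr := POL_mono hB0 hNg ht.1
    have hs := POL_mono hB0 hNg ht.2
    symm
    refine Finset.sum_nbij' (fun p => (p.1 + r, p.2 + s)) (fun p => (p.1 - r, p.2 - s)) ?_ ?_ ?_ ?_ ?_
    · rintro ⟨R, S⟩ hp
      unfold PG at hp ⊢
      rw [Finset.mem_product] at hp ⊢
      exact ⟨POL_add hB0 hp.1 hr, POL_add hB0 hp.2 hs⟩
    · rintro ⟨R, S⟩ hp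
      unfold PG at hp ⊢
      rw [Finset.mem_product] at hp ⊢
      refine ⟨?_, ?_⟩
      · show R - r ∈ POL F g
        rw [sub_eq_add_neg]
        exact POL_add hB0 hp.1 (POL_neg hB0 hr)
      · show S - s ∈ POL F g
        rw [sub_eq_add_neg]
        exact POL_add hB0 hp.2 (POL_neg hB0 hs)
    · rintro ⟨R, S⟩ _
      show (R + r - r, S + s - s) = (R, S)
      rw [add_sub_cancel_right, add_sub_cancel_right]
    · rintro ⟨R, S⟩ _
      show (R - r + r, S - s + s) = (R, S)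
      rw [sub_add_cancel, sub_add_cancel]
    · rintro ⟨R, S⟩ hp
      unfold PG at hp
      rw [Finset.mem_product] at hp
      show (if CH h (R + r) (S + s) then om g K (R, S) else 0) = (if CH h (R + r) (S + s) then om g K (R + r, S + s) else 0)
      rw [hW5a g K R S r s (by omega) hp.1 hp.2 ht.1 ht.2]
  have hsum : ∑ t ∈ POL F N ×ˢ POL F N, ∑ p ∈ PG F g, (if CH h p.1 p.2 then om g K p else 0) =
      ∑ p ∈ PG F g, (((BB h).card * (Fintype.card F ^ (N - 3 * k) * Fintype.card F ^ (N - 3 * k)) : ℕ) : ℝ) * om g K p := by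
    rw [Finset.sum_congr rfl hshift, Finset.sum_comm]
    refine Finset.sum_congr rfl fun p _ => ?_
    rw [← Finset.sum_filter, Finset.sum_const, nsmul_eq_mul, count hB0 hh hN3 p.1 p.2]
  rw [Finset.sum_const, nsmul_eq_mul, Finset.card_product, hB0.2.2.2.1, ← Finset.mul_sum, ← Finset.sum_filter] at hsum
  set A := ∑ p ∈ (PG F g).filter (fun p => CH h p.1 p.2), om g K p with hA
  set B := ∑ p ∈ PG F g, om g K p with hB
  push_cast at hsum
  have hcard : ((Fintype.card F : ℕ) : ℝ) = qq F := rfl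
  rw [hcard] at hsum
  have hpow : qq F ^ N = qq F ^ (N - 3 * k) * qq F ^ (3 * k) := by
    rw [← pow_add]
    congr 1
    omega
  have hpow6 : qq F ^ (6 * k) = qq F ^ (3 * k) * qq F ^ (3 * k) := by
    rw [← pow_add]
    congr 1
    omega
  have hx : (0 : ℝ) < qq F ^ (N - 3 * k) := pow_pos hq0 _
  have hy : (0 : ℝ) < qq F ^ (3 * k) := pow_pos hq0 _
  rw [hpow] at hsum
  rw [hpow6, div_mul_eq_mul_div, eq_div_iff (mul_pos hy hy).ne']
  have h1 : (qq F ^ (N - 3 * k) * qq F ^ (N - 3 * k)) * (A * (qq F ^ (3 * k) * qq F ^ (3 * k))) =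
      (qq F ^ (N - 3 * k) * qq F ^ (N - 3 * k)) * (((BB h).card : ℝ) * B) := by
    linear_combination hsum
  exact mul_left_cancel₀ (mul_pos hx hx).ne' h1

end PP
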