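import Pool.Agent.H461.PP.Stm3

/-!
# Project PP, W5a: the weight at infinity depends on the leading coefficients only
-/

open Polynomial
open scoped Classical

noncomputable section

namespace PP

open DH

namespace XW5a

variable {F : Type} [Field F]

theorem wr_le (A B : F[X]) : (Wr A B).natDegree ≤ A.natDegree + B.natDegree := by
  unfold Wr
  refine (natDegree_sub_le _ _).trans (max_le ?_ ?_)
  · refine natDegree_mul_le.trans ?_
    have := natDegree_derivative_le A
    omega
  · refine natDegree_mul_le.trans ?_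
    have := natDegree_derivative_le B
    omega

theorem lc {T t : F[X]} (h : t.natDegree < T.natDegree) :
    (T + t).natDegree = T.natDegree ∧ (T + t).leadingCoeff = T.leadingCoeff :=
  ⟨natDegree_add_eq_left_of_natDegree_lt h, leadingCoeff_add_of_degree_lt' (degree_lt_degree h)⟩

theorem nz {T : F[X]} {n : ℕ} (h : n < T.natDegree) : T ≠ 0 := by
  rintro rfl
  simp at h

theorem mo_eq (R S : F[X]) : Mo R S = R * S * (S - R) * (S + R) := by
  unfold Mo
  ring

theorem mo_deg {R S R' S' : F[X]} (h1 : R.natDegree = R'.natDegree ∧ R.leadingCoeff = R'.leadingCoeff)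
    (h2 : S.natDegree = S'.natDegree ∧ S.leadingCoeff = S'.leadingCoeff)
    (h3 : (S - R).natDegree = (S' - R').natDegree ∧ (S - R).leadingCoeff = (S' - R').leadingCoeff)
    (h4 : (S + R).natDegree = (S' + R').natDegree ∧ (S + R).leadingCoeff = (S' + R').leadingCoeff)
    (n1 : R ≠ 0) (n2 : S ≠ 0) (n3 : S - R ≠ 0) (n4 : S + R ≠ 0)
    (m1 : R' ≠ 0) (m2 : S' ≠ 0) (m3 : S' - R' ≠ 0) (m4 : S' + R' ≠ 0) :
    (Mo R S).natDegree = (Mo R' S').natDegree ∧ (Mo R S).leadingCoeff = (Mo R' S').leadingCoeff := by
  rw [mo_eq, mo_eq]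
  constructor
  · rw [natDegree_mul (mul_ne_zero (mul_ne_zero n1 n2) n3) n4, natDegree_mul (mul_ne_zero n1 n2) n3,
      natDegree_mul n1 n2, natDegree_mul (mul_ne_zero (mul_ne_zero m1 m2) m3) m4,
      natDegree_mul (mul_ne_zero m1 m2) m3, natDegree_mul m1 m2, h1.1, h2.1, h3.1, h4.1]
  · rw [leadingCoeff_mul, leadingCoeff_mul, leadingCoeff_mul, leadingCoeff_mul, leadingCoeff_mul,
      leadingCoeff_mul, h1.2, h2.2, h3.2, h4.2]

theorem ad_step {g K : ℕ} {R S r s : F[X]} (hKg : K < g) (hR : R.natDegree < g)
    (hS : S.natDegree < g) (hr : r.natDegree < g - K) (hs : s.natDegree < g - K)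
    (h : AD g K R S) :
    AD g K (R + r) (S + s) ∧ (Wr (R + r) (S + s)).natDegree = (Wr R S).natDegree := by
  obtain ⟨hW, hD, a1, a2, a3, a4, a5, a6⟩ := h
  -- the four lines
  have b1 : (Wr R S).natDegree ≤ R.natDegree + S.natDegree := wr_le R S
  have b3 : (Wr R S).natDegree ≤ R.natDegree + (S - R).natDegree := by
    have : Wr R S = Wr R (S - R) := by
      unfold Wr
      rw [derivative_sub]
      ring
    rw [this]
    exact wr_le _ _
  have b4 : (Wr R S).natDegree ≤ R.natDegree + (S + R).natDegree := by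
    have : Wr R S = Wr R (S + R) := by
      unfold Wr
      rw [derivative_add]
      ring
    rw [this]
    exact wr_le _ _
  have d3 : (s - r).natDegree < g - K := by
    refine lt_of_le_of_lt (natDegree_sub_le _ _) (max_lt hs hr)
  have d4 : (s + r).natDegree < g - K := by
    refine lt_of_le_of_lt (natDegree_add_le _ _) (max_lt hs hr)
  have t1 : r.natDegree < R.natDegree := by omega
  have t2 : s.natDegree < S.natDegree := by omega
  have t3 : (s - r).natDegree < (S - R).natDegree := by omega
  have t4 : (s + r).natDegree < (S + R).natDegree := by omega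
  have c1 := lc t1
  have c2 := lc t2
  have c3 := lc t3
  have c4 := lc t4
  have e3 : (S - R) + (s - r) = (S + s) - (R + r) := by ring
  have e4 : (S + R) + (s + r) = (S + s) + (R + r) := by ring
  rw [e3] at c3
  rw [e4] at c4
  -- the Wronskian
  have hE : Wr (R + r) (S + s) = Wr R S + (Wr r (S + s) + Wr R s) := by
    unfold Wr
    rw [derivative_add, derivative_add]
    ring
  have dE : (Wr r (S + s) + Wr R s).natDegree < (Wr R S).natDegree := by
    refine lt_of_le_of_lt (natDegree_add_le _ _) (max_lt ?_ ?_)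
    · refine lt_of_le_of_lt (wr_le _ _) ?_
      rw [c2.1]
      omega
    · refine lt_of_le_of_lt (wr_le _ _) ?_
      omega
  have cW := lc dE
  rw [← hE] at cW
  have n1 : (R + r).natDegree = R.natDegree := c1.1
  have hM := mo_deg c1 c2 c3 c4 (nz (n := r.natDegree) (by rw [c1.1]; exact t1))
    (nz (n := s.natDegree) (by rw [c2.1]; exact t2))
    (nz (n := (s - r).natDegree) (by rw [c3.1]; exact t3))
    (nz (n := (s + r).natDegree) (by rw [c4.1]; exact t4)) (nz t1) (nz t2) (nz t3) (nz t4)
  refine ⟨⟨?_, ?_, ?_, ?_, ?_, ?_, ?_, ?_⟩, cW.1⟩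
  · have : 0 < (Wr (R + r) (S + s)).natDegree := by rw [cW.1]; omega
    exact nz this
  · rw [cW.1]; exact hD
  · rw [c1.1]; exact a1
  · rw [c2.1]; exact a2
  · rw [c3.1]; exact a3
  · rw [c4.1]; exact a4
  · rw [hM.1, cW.1]; exact a5
  · intro hmn
    rw [cW.2, hM.2]
    apply a6
    unfold mn at hmn ⊢
    rw [c1.1, c2.1, c3.1, c4.1] at hmn
    exact hmn

theorem nd_lt {p : F[X]} {n : ℕ} (hn : 0 < n) (h : p.degree < n) : p.natDegree < n := by
  rcases eq_or_ne p 0 with rfl | hp
  · simpa using hn
  · exact (natDegree_lt_iff_degree_lt hp).2 h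

end XW5a

set_option linter.unusedSectionVars false

variable (F : Type) [Field F] [Fintype F] [CharP F 3]

theorem p_W5a (hB0 : DH.S_B0 F) : S_W5a F := by
  intro g K R S r s hKg hR hS hr hs
  rw [hB0.1] at hR hS hr hs
  rcases hKg.eq_or_lt with h0 | h0
  · have z : ∀ p : F[X], p.degree < ((g - K : ℕ) : WithBot ℕ) → p = 0 := by
      intro p hp
      have h1 : g - K = 0 := by omega
      rw [h1] at hp
      by_contra hne
      exact absurd hp (not_lt.2 (by
        rw [degree_eq_natDegree hne]
        exact_mod_cast Nat.zero_le _))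
    rw [z r hr, z s hs, add_zero, add_zero]
  · have g0 : 0 < g := by omega
    have gK : 0 < g - K := by omega
    have hR' := XW5a.nd_lt g0 hR
    have hS' := XW5a.nd_lt g0 hS
    have hr' := XW5a.nd_lt gK hr
    have hs' := XW5a.nd_lt gK hs
    unfold om
    by_cases h : AD g K R S
    · obtain ⟨h1, h2⟩ := XW5a.ad_step h0 hR' hS' hr' hs' h
      rw [if_pos h, if_pos h1, h2]
    · have h1 : ¬ AD g K (R + r) (S + s) := by
        intro h2
        have k1 : (R + r).natDegree < g :=
          lt_of_le_of_lt (natDegree_add_le _ _) (max_lt hR' (by omega))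
        have k2 : (S + s).natDegree < g :=
          lt_of_le_of_lt (natDegree_add_le _ _) (max_lt hS' (by omega))
        have h3 := (XW5a.ad_step (r := -r) (s := -s) h0 k1 k2 (by rw [natDegree_neg]; exact hr')
          (by rw [natDegree_neg]; exact hs') h2).1
        rw [add_neg_cancel_right, add_neg_cancel_right] at h3
        exact h h3
      rw [if_neg h, if_neg h1]

end PP
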