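import Pool.Agent.H461.PP.Stm3

/-!
# W6 of project PP: the sum at infinity (written by helper553)
-/

open Polynomial
open scoped Classical

noncomputable section

namespace PP

open DH

theorem p_W6 (F : Type) [Field F] [Fintype F] [CharP F 3] (hW6a : S_W6a F) (hW6b : S_W6b F)
    (hW6c : S_W6c F) (hW6d : S_W6d) : S_W6 F := by
  intro g K hg hK
  have hq3 : 3 ≤ Fintype.card F := by
    obtain ⟨n, -, hn⟩ := FiniteField.card F 3
    rw [hn]
    calc 3 = 3 ^ 1 := (pow_one 3).symm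
      _ ≤ 3 ^ (n : ℕ) := Nat.pow_le_pow_right (by norm_num) n.pos
  have hqq : qq F = (Fintype.card F : ℝ) := rfl
  have hq0 : (0 : ℝ) ≤ qq F := by rw [hqq]; positivity
  have h1 : ∑ p ∈ PG F g, om g K p = ∑ p ∈ (PG F g).filter (fun p => AD g K p.1 p.2),
      qq F ^ ((2 * g - (Wr p.1 p.2).natDegree) / 3 + 1) := by
    rw [Finset.sum_filter]
    rfl
  rw [h1, ← Finset.sum_filter_add_sum_filter_not _ (fun p => mn p.1 p.2 = g - 1),
    Finset.filter_filter, Finset.filter_filter]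
  refine add_le_add ?_ ?_
  · have h2 : ∀ p ∈ (PG F g).filter (fun p => AD g K p.1 p.2 ∧ mn p.1 p.2 = g - 1),
        qq F ^ ((2 * g - (Wr p.1 p.2).natDegree) / 3 + 1) = qq F ^ 2 := by
      intro p hp
      rw [Finset.mem_filter] at hp
      rw [(hW6b g K hg).1 p hp.1 hp.2.1 hp.2.2]
      have h3 : (2 * g - (2 * g - 4)) / 3 + 1 = 2 := by omega
      rw [h3]
    rw [Finset.sum_congr rfl h2, Finset.sum_const, nsmul_eq_mul]
    have h4 : ((((PG F g).filter (fun p => AD g K p.1 p.2 ∧ mn p.1 p.2 = g - 1)).card : ℕ) : ℝ) ≤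
        qq F ^ (2 * g - 1) := by
      rw [hqq]
      exact_mod_cast (hW6b g K hg).2
    calc _ ≤ qq F ^ (2 * g - 1) * qq F ^ 2 := mul_le_mul_of_nonneg_right h4 (by positivity)
      _ = qq F ^ (2 * g + 1) := by
          rw [← pow_add]
          congr 1
          omega
  · have hmaps : ∀ p ∈ (PG F g).filter (fun p => AD g K p.1 p.2 ∧ ¬ mn p.1 p.2 = g - 1),
        (mx p.1 p.2, mn p.1 p.2, (Wr p.1 p.2).natDegree) ∈ CC g K := by
      intro p hp
      rw [Finset.mem_filter] at hp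
      have hp1 := Finset.mem_product.1 hp.1
      exact hW6c g K p.1 p.2 (by omega) hp1.1 hp1.2 hp.2.1 hp.2.2
    rw [← Finset.sum_fiberwise_of_maps_to hmaps]
    refine le_trans ?_ (hW6d (Fintype.card F) hq3 g K hK)
    refine Finset.sum_le_sum fun t _ => ?_
    have h5 : ∀ p ∈ ((PG F g).filter (fun p => AD g K p.1 p.2 ∧ ¬ mn p.1 p.2 = g - 1)).filter
        (fun p => (mx p.1 p.2, mn p.1 p.2, (Wr p.1 p.2).natDegree) = t),
        qq F ^ ((2 * g - (Wr p.1 p.2).natDegree) / 3 + 1) = qq F ^ ((2 * g - t.2.2) / 3 + 1) := by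
      intro p hp
      rw [Finset.mem_filter] at hp
      rw [← hp.2]
    rw [Finset.sum_congr rfl h5, Finset.sum_const, nsmul_eq_mul]
    have h6 : (((PG F g).filter (fun p => AD g K p.1 p.2 ∧ ¬ mn p.1 p.2 = g - 1)).filter
        (fun p => (mx p.1 p.2, mn p.1 p.2, (Wr p.1 p.2).natDegree) = t)).card ≤
        4 * Fintype.card F ^ (t.1 + 1 + DD t.1 t.2.1 t.2.2) := by
      refine le_trans (Finset.card_le_card ?_) (hW6a g t.1 t.2.1 t.2.2)
      intro p hp
      rw [Finset.mem_filter, Finset.mem_filter] at hp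
      rw [Finset.mem_filter]
      obtain ⟨⟨hp1, hp2, -⟩, hp3⟩ := hp
      refine ⟨hp1, hp2.1, ?_, ?_, ?_⟩
      · rw [← hp3]
      · rw [← hp3]
      · rw [← hp3]
    have h7 : ((((((PG F g).filter (fun p => AD g K p.1 p.2 ∧ ¬ mn p.1 p.2 = g - 1)).filter
        (fun p => (mx p.1 p.2, mn p.1 p.2, (Wr p.1 p.2).natDegree) = t)).card : ℕ) : ℝ)) ≤
        4 * (Fintype.card F : ℝ) ^ (t.1 + 1 + DD t.1 t.2.1 t.2.2) := by
      exact_mod_cast h6
    calc _ ≤ 4 * (Fintype.card F : ℝ) ^ (t.1 + 1 + DD t.1 t.2.1 t.2.2) *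
          qq F ^ ((2 * g - t.2.2) / 3 + 1) := mul_le_mul_of_nonneg_right h7 (by positivity)
      _ = _ := by rw [hqq]

end PP
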