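import Pool.Agent.H461.PP.Stm3

/-!
# W6a: count of pairs of given degrees (by helper195)
-/

set_option autoImplicit false

open Polynomial
open scoped Classical

noncomputable section

namespace PP

open DH

namespace XW6a

variable {F : Type} [Field F]

theorem coeff_one (G U : F[X]) (d e : ℕ) (hG : G.natDegree ≤ d) (hU : U.natDegree ≤ e)
    (h : 1 ≤ d + e) : (derivative G * U).coeff (d + e - 1) = (d : F) * (G.coeff d * U.coeff e) := by
  rcases Nat.eq_zero_or_pos d with hd | hd
  · subst hd
    have h0 : derivative G = 0 := by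
      rw [Polynomial.eq_C_of_natDegree_le_zero hG, Polynomial.derivative_C]
    rw [h0]
    simp
  · obtain ⟨n, rfl⟩ : ∃ n, d = n + 1 := ⟨d - 1, by omega⟩
    have h1 : n + 1 + e - 1 = n + e := by omega
    have h2 : (derivative G).natDegree ≤ n := by
      have := Polynomial.natDegree_derivative_le G
      omega
    rw [h1, Polynomial.coeff_mul_add_eq_of_natDegree_le h2 hU, Polynomial.coeff_derivative]
    push_cast
    ring

theorem coeff_wr (G U : F[X]) (d e : ℕ) (hG : G.natDegree ≤ d) (hU : U.natDegree ≤ e)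
    (h : 1 ≤ d + e) : (Wr G U).coeff (d + e - 1) = ((d : F) - e) * (G.coeff d * U.coeff e) := by
  have h1 := coeff_one G U d e hG hU h
  have h2 := coeff_one U G e d hU hG (by omega)
  have h3 : G * derivative U = derivative U * G := mul_comm _ _
  rw [Wr, Polynomial.coeff_sub, h1, h3]
  rw [add_comm e d] at h2
  rw [h2]
  ring

theorem wr_big [CharP F 3] (G U : F[X]) (hG : G ≠ 0) (hU : U ≠ 0)
    (h : G.natDegree % 3 ≠ U.natDegree % 3) :
    (Wr G U).coeff (G.natDegree + U.natDegree - 1) ≠ 0 := by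
  have h1 : 1 ≤ G.natDegree + U.natDegree := by omega
  rw [coeff_wr G U _ _ le_rfl le_rfl h1]
  refine mul_ne_zero (fun h2 => h ?_) (mul_ne_zero ?_ ?_)
  · have h3 : (G.natDegree : F) = U.natDegree := sub_eq_zero.1 h2
    exact (CharP.natCast_eq_natCast F 3).1 h3
  · exact Polynomial.leadingCoeff_ne_zero.2 hG
  · exact Polynomial.leadingCoeff_ne_zero.2 hU

/-- the map `T ↦ Wr T U` -/
def L (U : F[X]) : F[X] →ₗ[F] F[X] where
  toFun T := Wr T U
  map_add' T T' := by
    simp only [Wr, Polynomial.derivative_add]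
    ring
  map_smul' c T := by
    simp only [Wr, Polynomial.derivative_smul, RingHom.id_apply, smul_sub, smul_mul_assoc]

/-- the subspace -/
def K (U : F[X]) (γ : ℕ) : Submodule F F[X] := (Polynomial.degreeLT F (γ + 1)).comap (L U)

theorem mem_K (U T : F[X]) (γ : ℕ) : T ∈ K U γ ↔ (Wr T U).degree < ((γ + 1 : ℕ) : WithBot ℕ) := by
  rw [K, Submodule.mem_comap, Polynomial.mem_degreeLT]
  rfl

theorem deg_lt (T : F[X]) (n : ℕ) (h : T.natDegree ≤ n) : T.degree < ((n + 1 : ℕ) : WithBot ℕ) :=
  lt_of_le_of_lt Polynomial.degree_le_natDegree (by exact_mod_cast Nat.lt_succ_of_le h)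

end XW6a

open XW6a in
theorem p_W6a (F : Type) [Field F] [Fintype F] [CharP F 3] (hB0 : DH.S_B0 F) (hDC : DH.S_DC F) :
    S_W6a F := by
  intro g δ₀ δ₁ γ
  obtain ⟨hP, _, _, hPc, _, _⟩ := hB0
  obtain ⟨Us, hUs⟩ : ∃ Us : Finset F[X], Us = (POL F (δ₀ + 1)).filter
    (fun U => U ≠ 0 ∧ U.natDegree = δ₀) := ⟨_, rfl⟩
  obtain ⟨Z, hZ⟩ : ∃ Z : Finset (F[X] × F[X]), Z = Us.biUnion (fun U =>
    ((POL F (δ₁ + 1)).filter (fun T => T ∈ K U γ)).image (fun T => (T, U))) := ⟨_, rfl⟩
  have hUsc : Us.card ≤ Fintype.card F ^ (δ₀ + 1) := by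
    rw [hUs, ← hPc]
    exact Finset.card_filter_le _ _
  have hq : 1 ≤ Fintype.card F := Fintype.card_pos
  have hZc : Z.card ≤ Fintype.card F ^ (δ₀ + 1 + DD δ₀ δ₁ γ) := by
    rw [hZ]
    refine (Finset.card_biUnion_le_card_mul _ _ (Fintype.card F ^ DD δ₀ δ₁ γ)
      fun U hU => ?_).trans ?_
    · refine Finset.card_image_le.trans ?_
      rw [hDC (K U γ) (δ₁ + 1)]
      refine Nat.pow_le_pow_right hq ?_
      rw [DD]
      refine Finset.card_le_card fun j hj => ?_
      rw [Finset.mem_filter] at hj ⊢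
      obtain ⟨hj1, G, hG, hG0, rfl⟩ := hj
      rw [hUs, Finset.mem_filter] at hU
      obtain ⟨_, hU0, hUd⟩ := hU
      refine ⟨hj1, ?_⟩
      by_cases h : G.natDegree % 3 = δ₀ % 3
      · exact Or.inr h
      · refine Or.inl ?_
        rw [← hUd] at h ⊢
        have h1 := Polynomial.le_degree_of_ne_zero (wr_big G U hG0 hU0 h)
        have h2 := (mem_K U G γ).1 hG
        have h3 := lt_of_le_of_lt h1 h2
        have h4 : G.natDegree + U.natDegree - 1 < γ + 1 := by exact_mod_cast h3
        omega
    · rw [pow_add]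
      exact Nat.mul_le_mul_right _ hUsc
  -- membership in `Z`
  have hmem : ∀ T U : F[X], T.natDegree = δ₁ → U.natDegree = δ₀ → Wr T U ≠ 0 →
      (Wr T U).natDegree ≤ γ → (T, U) ∈ Z := by
    intro T U hT hU hW hγ
    rw [hZ, Finset.mem_biUnion]
    refine ⟨U, ?_, Finset.mem_image.2 ⟨T, ?_, rfl⟩⟩
    · rw [hUs, Finset.mem_filter]
      refine ⟨(hP _ _).2 (deg_lt U δ₀ hU.le), ?_, hU⟩
      rintro rfl
      apply hW
      simp [Wr]
    · rw [Finset.mem_filter]
      exact ⟨(hP _ _).2 (deg_lt T δ₁ hT.le), (mem_K U T γ).2 (deg_lt _ γ hγ)⟩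
  have hsub : (PG F g).filter (fun p => Wr p.1 p.2 ≠ 0 ∧ mx p.1 p.2 = δ₀ ∧ mn p.1 p.2 = δ₁ ∧
      (Wr p.1 p.2).natDegree = γ) ⊆
      (Z.image (fun t => (t.1, t.2)) ∪ Z.image (fun t => (t.2, t.1))) ∪
        (Z.image (fun t => (t.2, t.1 + t.2)) ∪ Z.image (fun t => (t.2, t.1 - t.2))) := by
    rintro ⟨R, S⟩ hp
    rw [Finset.mem_filter] at hp
    obtain ⟨_, hW, hmx, hmn, hγ⟩ := hp
    simp only at hW hmx hmn hγ
    rw [mx] at hmx
    rw [mn] at hmn
    have w1 : Wr S R = - Wr R S := by
      simp only [Wr]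
      ring
    have w2 : Wr (S - R) R = - Wr R S := by
      simp only [Wr, Polynomial.derivative_sub]
      ring
    have w3 : Wr (S + R) R = - Wr R S := by
      simp only [Wr, Polynomial.derivative_add]
      ring
    by_cases c1 : R.natDegree = δ₁
    · refine Finset.mem_union_left _ (Finset.mem_union_left _ (Finset.mem_image.2
        ⟨(R, S), hmem R S c1 ?_ hW hγ.le, rfl⟩))
      omega
    · by_cases c2 : S.natDegree = δ₁
      · refine Finset.mem_union_left _ (Finset.mem_union_right _ (Finset.mem_image.2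
          ⟨(S, R), hmem S R c2 ?_ ?_ ?_, rfl⟩))
        · omega
        · rw [w1]
          exact neg_ne_zero.2 hW
        · rw [w1, Polynomial.natDegree_neg, hγ]
      · by_cases c3 : (S - R).natDegree = δ₁
        · refine Finset.mem_union_right _ (Finset.mem_union_left _ (Finset.mem_image.2
            ⟨(S - R, R), hmem (S - R) R c3 ?_ ?_ ?_, ?_⟩))
          · by_cases h : R.natDegree < S.natDegree
            · have := Polynomial.natDegree_sub_eq_left_of_natDegree_lt h
              omega
            · omega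
          · rw [w2]
            exact neg_ne_zero.2 hW
          · rw [w2, Polynomial.natDegree_neg, hγ]
          · simp
        · have c4 : (S + R).natDegree = δ₁ := by omega
          refine Finset.mem_union_right _ (Finset.mem_union_right _ (Finset.mem_image.2
            ⟨(S + R, R), hmem (S + R) R c4 ?_ ?_ ?_, ?_⟩))
          · by_cases h : R.natDegree < S.natDegree
            · have := Polynomial.natDegree_add_eq_left_of_natDegree_lt h
              omega
            · omega
          · rw [w3]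
            exact neg_ne_zero.2 hW
          · rw [w3, Polynomial.natDegree_neg, hγ]
          · simp
  refine (Finset.card_le_card hsub).trans ?_
  refine (Finset.card_union_le _ _).trans ?_
  have k1 := Finset.card_union_le (Z.image (fun t => (t.1, t.2))) (Z.image (fun t => (t.2, t.1)))
  have k2 := Finset.card_union_le (Z.image (fun t => (t.2, t.1 + t.2)))
    (Z.image (fun t => (t.2, t.1 - t.2)))
  have i1 : (Z.image (fun t => (t.1, t.2))).card ≤ Z.card := Finset.card_image_le
  have i2 : (Z.image (fun t => (t.2, t.1))).card ≤ Z.card := Finset.card_image_le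
  have i3 : (Z.image (fun t => (t.2, t.1 + t.2))).card ≤ Z.card := Finset.card_image_le
  have i4 : (Z.image (fun t => (t.2, t.1 - t.2))).card ≤ Z.card := Finset.card_image_le
  omega

end PP
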