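import Pool.Agent.H461.PP.Stm3

/-!
# Project PP, task W6c: degree constraints
-/

open Polynomial
open scoped Classical

noncomputable section

namespace PP

open DH

namespace XW6c

variable {F : Type} [Field F]

theorem Wr_neg (R S : F[X]) : Wr S R = - Wr R S := by
  unfold Wr; ring

theorem Wr_sub (R S : F[X]) : Wr (S - R) R = - Wr R S := by
  unfold Wr; rw [derivative_sub]; ring

theorem Wr_add (R S : F[X]) : Wr (S + R) R = - Wr R S := by
  unfold Wr; rw [derivative_add]; ring

theorem Wr_zero_left (S : F[X]) : Wr 0 S = 0 := by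
  unfold Wr; rw [derivative_zero]; ring

theorem Mo_eq (R S : F[X]) : Mo R S = R * S * (S - R) * (S + R) := by
  unfold Mo; ring

theorem coeff_a (T U : F[X]) (h : 1 ≤ T.natDegree + U.natDegree) :
    (derivative T * U).coeff (T.natDegree + U.natDegree - 1) =
      (T.natDegree : F) * T.leadingCoeff * U.leadingCoeff := by
  rcases Nat.eq_zero_or_pos T.natDegree with h0 | h0
  · rw [derivative_of_natDegree_zero h0, h0]
    simp
  · obtain ⟨t, ht⟩ : ∃ t, T.natDegree = t + 1 := ⟨T.natDegree - 1, by omega⟩
    have e1 : T.natDegree + U.natDegree - 1 = t + U.natDegree := by omega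
    have h1 : (derivative T).natDegree ≤ t := by
      have := natDegree_derivative_le T
      omega
    rw [e1, coeff_mul_add_eq_of_natDegree_le h1 le_rfl, coeff_derivative, ← ht, leadingCoeff,
      leadingCoeff, ht]
    push_cast
    ring

theorem coeff_Wr (T U : F[X]) (h : 1 ≤ T.natDegree + U.natDegree) :
    (Wr T U).coeff (T.natDegree + U.natDegree - 1) =
      ((T.natDegree : F) - (U.natDegree : F)) * T.leadingCoeff * U.leadingCoeff := by
  unfold Wr
  rw [coeff_sub, coeff_a T U h, mul_comm T (derivative U), add_comm T.natDegree U.natDegree,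
    coeff_a U T (by omega)]
  ring

theorem deg_Wr (T U : F[X]) (hT : T ≠ 0) (hU : U ≠ 0) :
    (Wr T U).natDegree ≤ T.natDegree + U.natDegree - 1 := by
  unfold Wr
  refine (natDegree_sub_le _ _).trans (max_le ?_ ?_)
  · rcases Nat.eq_zero_or_pos T.natDegree with h0 | h0
    · rw [derivative_of_natDegree_zero h0, zero_mul, natDegree_zero]
      exact Nat.zero_le _
    · have h1 := natDegree_derivative_le T
      have h2 := natDegree_mul_le (p := derivative T) (q := U)
      omega
  · rcases Nat.eq_zero_or_pos U.natDegree with h0 | h0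
    · rw [derivative_of_natDegree_zero h0, mul_zero, natDegree_zero]
      exact Nat.zero_le _
    · have h1 := natDegree_derivative_le U
      have h2 := natDegree_mul_le (p := T) (q := derivative U)
      omega

theorem pos_of_Wr (T U : F[X]) (h : Wr T U ≠ 0) : 1 ≤ T.natDegree + U.natDegree := by
  by_contra hc
  apply h
  unfold Wr
  rw [derivative_of_natDegree_zero (by omega : T.natDegree = 0),
    derivative_of_natDegree_zero (by omega : U.natDegree = 0)]
  ring

/-- the degree of the Wronskian -/
theorem main_deg [CharP F 3] (T U : F[X]) (hT : T ≠ 0) (hU : U ≠ 0) (h : Wr T U ≠ 0) :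
    (U.natDegree % 3 ≠ T.natDegree % 3 → (Wr T U).natDegree + 1 = U.natDegree + T.natDegree) ∧
    (U.natDegree % 3 = T.natDegree % 3 → (Wr T U).natDegree + 2 ≤ U.natDegree + T.natDegree) := by
  have hpos := pos_of_Wr T U h
  have hc := coeff_Wr T U hpos
  have hd := deg_Wr T U hT hU
  have hcast : ((T.natDegree : F) = (U.natDegree : F)) ↔ T.natDegree % 3 = U.natDegree % 3 :=
    CharP.natCast_eq_natCast F 3
  constructor
  · intro hne
    have h1 : (Wr T U).coeff (T.natDegree + U.natDegree - 1) ≠ 0 := by
      rw [hc]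
      refine mul_ne_zero (mul_ne_zero ?_ (leadingCoeff_ne_zero.2 hT)) (leadingCoeff_ne_zero.2 hU)
      rw [sub_ne_zero]
      intro h2
      exact hne (hcast.1 h2).symm
    have h2 := le_natDegree_of_ne_zero h1
    omega
  · intro he
    have h1 : (Wr T U).coeff (T.natDegree + U.natDegree - 1) = 0 := by
      rw [hc, hcast.2 he.symm, sub_self, zero_mul, zero_mul]
    have h2 : (Wr T U).natDegree ≠ T.natDegree + U.natDegree - 1 := by
      intro h3
      rw [← h3] at h1
      exact h (leadingCoeff_eq_zero.1 h1)
    omega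

/-- the conclusion from a pair of lines of the smallest and the largest degree -/
theorem fin [CharP F 3] (g K : ℕ) (R S T U : F[X]) (hg : 2 ≤ g) (hT : T ≠ 0) (hU : U ≠ 0)
    (h0 : Wr R S ≠ 0) (hW : Wr T U = Wr R S ∨ Wr T U = - Wr R S)
    (hmx : U.natDegree = mx R S) (hmn : T.natDegree = mn R S) (hle : mn R S ≤ mx R S)
    (hlt : mx R S < g) (hng : mn R S ≠ g - 1)
    (h1 : (mx R S + 2 * g + 1) % 3 ≠ 2) (h2 : (mn R S + 2 * g + 1) % 3 ≠ 2)
    (hMo : (Mo R S).natDegree = 3 * mx R S + mn R S)
    (h3 : (Mo R S).natDegree ≤ 2 * g + (Wr R S).natDegree)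
    (h4 : 2 * g < (Wr R S).natDegree + K) :
    (mx R S, mn R S, (Wr R S).natDegree) ∈ CC g K := by
  have hW0 : Wr T U ≠ 0 := by
    rcases hW with h | h
    · rw [h]; exact h0
    · rw [h]; exact neg_ne_zero.2 h0
  have hWd : (Wr T U).natDegree = (Wr R S).natDegree := by
    rcases hW with h | h
    · rw [h]
    · rw [h, natDegree_neg]
  obtain ⟨k1, k2⟩ := main_deg T U hT hU hW0
  rw [hWd, hmx, hmn] at k1 k2
  have k3 : (Wr R S).natDegree + 1 ≤ mx R S + mn R S := by
    by_cases h : mx R S % 3 = mn R S % 3
    · have := k2 h; omega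
    · have := k1 h; omega
  unfold CC
  rw [Finset.mem_filter, Finset.mem_product, Finset.mem_product, Finset.mem_range,
    Finset.mem_range, Finset.mem_range]
  have a1 : mn R S < g := by omega
  have a2 : mn R S + 1 < g := by omega
  have a3 : 3 * mx R S + mn R S ≤ 2 * g + (Wr R S).natDegree := by omega
  have a4 : (Wr R S).natDegree < 2 * g := by omega
  exact ⟨⟨hlt, a1, a4⟩, hle, a2, h1, h2, k1, k2, a3, h4⟩

end XW6c

open XW6c in
theorem p_W6c (F : Type) [Field F] [Fintype F] [CharP F 3] (hB0 : DH.S_B0 F) : S_W6c F := by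
  intro g K R S hg hR hS hAD hng
  obtain ⟨hW, hK, hr, hs, ha, hb, hMo, -⟩ := hAD
  have hRd := (hB0.1 g R).1 hR
  have hSd := (hB0.1 g S).1 hS
  have hR0 : R ≠ 0 := by
    rintro rfl
    exact hW (Wr_zero_left S)
  have hS0 : S ≠ 0 := by
    rintro rfl
    apply hW
    rw [Wr_neg, Wr_zero_left, neg_zero]
  have hA0 : S - R ≠ 0 := by
    intro h
    have h1 := Wr_sub R S
    rw [h, Wr_zero_left] at h1
    exact hW (neg_eq_zero.1 h1.symm)
  have hB0' : S + R ≠ 0 := by
    intro h
    have h1 := Wr_add R S
    rw [h, Wr_zero_left] at h1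
    exact hW (neg_eq_zero.1 h1.symm)
  have hRn : R.natDegree < g := (natDegree_lt_iff_degree_lt hR0).2 hRd
  have hSn : S.natDegree < g := (natDegree_lt_iff_degree_lt hS0).2 hSd
  have hMoD : (Mo R S).natDegree = R.natDegree + S.natDegree + (S - R).natDegree +
      (S + R).natDegree := by
    rw [Mo_eq, natDegree_mul (mul_ne_zero (mul_ne_zero hR0 hS0) hA0) hB0',
      natDegree_mul (mul_ne_zero hR0 hS0) hA0, natDegree_mul hR0 hS0]
  have hmxd : mx R S = max R.natDegree S.natDegree := rfl
  have hmnd : mn R S = min (min R.natDegree S.natDegree) (min (S - R).natDegree (S + R).natDegree) :=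
    rfl
  rcases lt_trichotomy R.natDegree S.natDegree with hlt | heq | hgt
  · have e1 : (S - R).natDegree = S.natDegree := natDegree_sub_eq_left_of_natDegree_lt hlt
    have e2 : (S + R).natDegree = S.natDegree := natDegree_add_eq_left_of_natDegree_lt hlt
    have m1 : mx R S = S.natDegree := by rw [hmxd]; omega
    have m2 : mn R S = R.natDegree := by rw [hmnd]; omega
    exact fin g K R S R S hg hR0 hS0 hW (Or.inl rfl) m1.symm m2.symm (by omega) (by omega) hng
      (by rw [m1]; exact hs) (by rw [m2]; exact hr) (by omega) hMo hK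
  · -- equal degrees
    have hle1 : (S - R).natDegree ≤ R.natDegree := by
      have := natDegree_sub_le S R
      omega
    have hle2 : (S + R).natDegree ≤ R.natDegree := by
      have := natDegree_add_le S R
      omega
    have hor : (S - R).natDegree = R.natDegree ∨ (S + R).natDegree = R.natDegree := by
      by_contra hc
      push Not at hc
      have c1 : (S - R).coeff R.natDegree = 0 := coeff_eq_zero_of_natDegree_lt (by omega)
      have c2 : (S + R).coeff R.natDegree = 0 := coeff_eq_zero_of_natDegree_lt (by omega)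
      rw [coeff_sub] at c1
      rw [coeff_add] at c2
      have c3 : R.coeff R.natDegree ≠ 0 := leadingCoeff_ne_zero.2 hR0
      have c4 : (2 : F) * R.coeff R.natDegree = 0 := by linear_combination c2 - c1
      have c5 : (2 : F) ≠ 0 := by
        intro h
        have h3 : ((3 : ℕ) : F) = 0 := CharP.cast_eq_zero F 3
        have h1 : (1 : F) = 0 := by
          have : ((3 : ℕ) : F) = 2 + 1 := by norm_num
          rw [h3, h] at this
          simpa using this.symm
        exact one_ne_zero h1
      exact (mul_ne_zero c5 c3) c4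
    have m1 : mx R S = R.natDegree := by rw [hmxd]; omega
    by_cases hA : (S - R).natDegree = R.natDegree
    · by_cases hB : (S + R).natDegree = R.natDegree
      · have m2 : mn R S = R.natDegree := by rw [hmnd]; omega
        exact fin g K R S R S hg hR0 hS0 hW (Or.inl rfl) (by omega) (by omega) (by omega)
          (by omega) hng (by rw [m1]; exact hr) (by rw [m2]; exact hr) (by omega) hMo hK
      · have m2 : mn R S = (S + R).natDegree := by rw [hmnd]; omega
        exact fin g K R S (S + R) R hg hB0' hR0 hW (Or.inr (Wr_add R S)) (by omega) (by omega)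
          (by omega) (by omega) hng (by rw [m1]; exact hr) (by rw [m2]; exact hb) (by omega) hMo hK
    · have hB : (S + R).natDegree = R.natDegree := hor.resolve_left hA
      have m2 : mn R S = (S - R).natDegree := by rw [hmnd]; omega
      exact fin g K R S (S - R) R hg hA0 hR0 hW (Or.inr (Wr_sub R S)) (by omega) (by omega)
        (by omega) (by omega) hng (by rw [m1]; exact hr) (by rw [m2]; exact ha) (by omega) hMo hK
  · have e1 : (S - R).natDegree = R.natDegree := natDegree_sub_eq_right_of_natDegree_lt hgt
    have e2 : (S + R).natDegree = R.natDegree := natDegree_add_eq_right_of_natDegree_lt hgt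
    have m1 : mx R S = R.natDegree := by rw [hmxd]; omega
    have m2 : mn R S = S.natDegree := by rw [hmnd]; omega
    exact fin g K R S S R hg hS0 hR0 hW (Or.inr (Wr_neg R S)) m1.symm m2.symm (by omega)
      (by omega) hng (by rw [m1]; exact hr) (by rw [m2]; exact hs) (by omega) hMo hK

end PP
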