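import Pool.Agent.H461.PP.Stm3

/-!
# Project PP, W6d: a pure arithmetic sum (helper51 for helper461)
-/

open Polynomial
open scoped Classical

noncomputable section

namespace PP

open DH

namespace XW6d

open Finset

theorem dd_le (a b c : ℕ) (h0 : a % 3 = b % 3) (h1 : c + 2 ≤ a + b) (h2 : a ≤ c) :
    DD a b c ≤ (c + 2 - a) + (a + b - c + 1) / 3 := by
  unfold DD
  have hsub : ((Finset.range (b + 1)).filter (fun d => d + a ≤ c + 1 ∨ d % 3 = a % 3)) ⊆
      Finset.range (c + 2 - a) ∪ (Finset.range ((a + b - c + 1) / 3)).image (fun j => b - 3 * j) := by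
    intro d hd
    rw [Finset.mem_filter, Finset.mem_range] at hd
    rw [Finset.mem_union, Finset.mem_range]
    by_cases h : d < c + 2 - a
    · exact Or.inl h
    · right
      rw [Finset.mem_image]
      refine ⟨(b - d) / 3, Finset.mem_range.2 ?_, ?_⟩
      · omega
      · omega
  refine (Finset.card_le_card hsub).trans ((Finset.card_union_le _ _).trans ?_)
  rw [Finset.card_range]
  exact Nat.add_le_add_left (Finset.card_image_le.trans (Finset.card_range _).le) _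

theorem dd_le' (a b c : ℕ) : DD a b c ≤ b + 1 := by
  unfold DD
  exact (Finset.card_filter_le _ _).trans (Finset.card_range _).le

theorem key (g K a b c : ℕ) (hK : K ≤ g) (ht : (a, b, c) ∈ CC g K) :
    a < g ∧ b < g ∧ c + 1 ≤ a + b ∧
    ∃ m, (a + 1 + DD a b c) + ((2 * g - c) / 3 + 1) + m = 2 * g ∧
      2 * (g - 1 - a) + 2 * (g - 1 - b) + (a + b - c - 1) + 1 ≤ 3 * m + 9 := by
  unfold CC at ht
  simp only [Finset.mem_filter, Finset.mem_product, Finset.mem_range] at ht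
  obtain ⟨⟨ha, hb, hc⟩, h1, h2, h3, h4, h5, h6, h7, h8⟩ := ht
  by_cases hmod : a % 3 = b % 3
  · have h9 := h6 hmod
    have hD := dd_le a b c hmod h9 (by omega)
    generalize DD a b c = D at hD ⊢
    refine ⟨ha, hb, by omega, 2 * g - ((a + 1 + D) + ((2 * g - c) / 3 + 1)), ?_, ?_⟩
    · clear h5 h6
      omega
    · clear h5 h6
      omega
  · have h9 := h5 hmod
    have hD := dd_le' a b c
    generalize DD a b c = D at hD ⊢
    obtain ⟨s, hs⟩ : ∃ s, a + s + 1 = g := ⟨g - 1 - a, by omega⟩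
    obtain ⟨t, ht⟩ : ∃ t, b + t + 1 = g := ⟨g - 1 - b, by omega⟩
    clear h5 h6 h7 h8 hc
    have k1 : s % 3 ≠ 1 := by omega
    have k2 : t % 3 ≠ 1 := by omega
    have k3 : s % 3 ≠ t % 3 := by omega
    have k4 : (s + t) % 3 = 2 := by omega
    obtain ⟨k, hk⟩ : ∃ k, s + t = 3 * k + 2 := ⟨(s + t) / 3, by omega⟩
    have k5 : 2 * g - c = 3 * k + 5 := by omega
    have k6 : (2 * g - c) / 3 = k + 1 := by omega
    rw [k6]
    exact ⟨ha, hb, by omega, 2 * g - ((a + 1 + D) + (k + 1 + 1)), by omega, by omega⟩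

theorem geom_le {x : ℝ} (h0 : 0 ≤ x) (h1 : x < 1) (n : ℕ) :
    ∑ i ∈ Finset.range n, x ^ i ≤ 1 / (1 - x) := by
  rw [le_div_iff₀ (by linarith), mul_comm, mul_neg_geom_sum]
  have := pow_nonneg h0 n
  linarith

end XW6d

open XW6d in
theorem p_W6d : S_W6d := by
  intro q hq g K hK
  have hqR : (3 : ℝ) ≤ q := by exact_mod_cast hq
  have hq0 : (0 : ℝ) < q := by linarith
  obtain ⟨r, hr⟩ : ∃ r : ℝ, r = 7 / 10 := ⟨_, rfl⟩
  have hr0 : 0 < r := by rw [hr]; norm_num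
  have hr1 : r ≤ 1 := by rw [hr]; norm_num
  have hqr : 1 ≤ (q : ℝ) * r ^ 3 := by
    have : (0.343 : ℝ) = r ^ 3 := by rw [hr]; norm_num
    rw [← this]
    linarith
  -- the terms
  have hterm : ∀ t ∈ CC g K, r ^ 9 * (4 * (q : ℝ) ^ (t.1 + 1 + DD t.1 t.2.1 t.2.2) *
      (q : ℝ) ^ ((2 * g - t.2.2) / 3 + 1)) ≤
      4 * (q : ℝ) ^ (2 * g) * ((r ^ 2) ^ (g - 1 - t.1) * ((r ^ 2) ^ (g - 1 - t.2.1) *
        (r * r ^ (t.1 + t.2.1 - t.2.2 - 1)))) := by
    rintro ⟨a, b, c⟩ ht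
    obtain ⟨-, -, -, m, hm1, hm2⟩ := key g K a b c hK ht
    simp only
    have e1 : (1 : ℝ) ≤ ((q : ℝ) * r ^ 3) ^ m := one_le_pow₀ hqr
    have e2 : r ^ 9 * (4 * (q : ℝ) ^ (a + 1 + DD a b c) * (q : ℝ) ^ ((2 * g - c) / 3 + 1)) ≤
        r ^ 9 * (4 * (q : ℝ) ^ (a + 1 + DD a b c) * (q : ℝ) ^ ((2 * g - c) / 3 + 1)) *
          ((q : ℝ) * r ^ 3) ^ m := le_mul_of_one_le_right (by positivity) e1
    have e3 : r ^ 9 * (4 * (q : ℝ) ^ (a + 1 + DD a b c) * (q : ℝ) ^ ((2 * g - c) / 3 + 1)) *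
          ((q : ℝ) * r ^ 3) ^ m = 4 * (q : ℝ) ^ (2 * g) * r ^ (3 * m + 9) := by
      have e0 : (q : ℝ) ^ (2 * g) = (q : ℝ) ^ (a + 1 + DD a b c) *
          (q : ℝ) ^ ((2 * g - c) / 3 + 1) * (q : ℝ) ^ m := by
        rw [← pow_add, ← pow_add, hm1]
      rw [e0, mul_pow, pow_add r, ← pow_mul]
      ring
    have e4 : r ^ (3 * m + 9) ≤ r ^ (2 * (g - 1 - a) + 2 * (g - 1 - b) + (a + b - c - 1) + 1) :=
      pow_le_pow_of_le_one hr0.le hr1 hm2
    have e5 : r ^ (2 * (g - 1 - a) + 2 * (g - 1 - b) + (a + b - c - 1) + 1) =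
        (r ^ 2) ^ (g - 1 - a) * ((r ^ 2) ^ (g - 1 - b) * (r * r ^ (a + b - c - 1))) := by
      rw [pow_add, pow_add, pow_add, pow_mul, pow_mul]
      ring
    rw [e5] at e4
    rw [e3] at e2
    exact e2.trans (mul_le_mul_of_nonneg_left e4 (by positivity))
  -- the sum of the weights
  obtain ⟨w, hw⟩ : ∃ w : ℕ × ℕ × ℕ → ℝ, ∀ s, w s =
    (r ^ 2) ^ s.1 * ((r ^ 2) ^ s.2.1 * (r * r ^ s.2.2)) := ⟨_, fun _ => rfl⟩
  have hw0 : ∀ s, 0 ≤ w s := fun s => by rw [hw]; positivity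
  have hinj : ∑ t ∈ CC g K, w (g - 1 - t.1, g - 1 - t.2.1, t.1 + t.2.1 - t.2.2 - 1) ≤
      ∑ s ∈ (Finset.range g) ×ˢ ((Finset.range g) ×ˢ (Finset.range (2 * g))), w s := by
    have e1 : Set.InjOn (fun t : ℕ × ℕ × ℕ => (g - 1 - t.1, g - 1 - t.2.1,
        t.1 + t.2.1 - t.2.2 - 1)) (CC g K) := by
      rintro ⟨a, b, c⟩ h ⟨a', b', c'⟩ h' he
      obtain ⟨h1, h2, h3, -⟩ := key g K a b c hK (Finset.mem_coe.1 h)
      obtain ⟨h1', h2', h3', -⟩ := key g K a' b' c' hK (Finset.mem_coe.1 h')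
      simp only [Prod.mk.injEq] at he ⊢
      obtain ⟨e1, e2, e3⟩ := he
      have f1 : a = a' := by omega
      have f2 : b = b' := by omega
      subst f1 f2
      exact ⟨rfl, rfl, by omega⟩
    rw [← Finset.sum_image (f := w) e1]
    refine Finset.sum_le_sum_of_subset_of_nonneg ?_ fun s _ _ => hw0 s
    intro s hs
    rw [Finset.mem_image] at hs
    obtain ⟨⟨a, b, c⟩, h, rfl⟩ := hs
    obtain ⟨h1, h2, h3, -⟩ := key g K a b c hK h
    simp only [Finset.mem_product, Finset.mem_range]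
    refine ⟨by omega, by omega, by omega⟩
  have hprod : ∑ s ∈ (Finset.range g) ×ˢ ((Finset.range g) ×ˢ (Finset.range (2 * g))), w s =
      (∑ i ∈ Finset.range g, (r ^ 2) ^ i) * ((∑ i ∈ Finset.range g, (r ^ 2) ^ i) *
        (r * ∑ i ∈ Finset.range (2 * g), r ^ i)) := by
    rw [Finset.sum_product]
    simp only [hw]
    rw [Finset.sum_mul]
    refine Finset.sum_congr rfl fun i _ => ?_
    rw [Finset.sum_product, Finset.sum_mul, Finset.mul_sum]
    refine Finset.sum_congr rfl fun j _ => ?_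
    rw [Finset.mul_sum, Finset.mul_sum, Finset.mul_sum]
  have hr2 : r ^ 2 = 49 / 100 := by rw [hr]; norm_num
  have g1 : ∑ i ∈ Finset.range g, (r ^ 2) ^ i ≤ 100 / 51 := by
    have := geom_le (x := r ^ 2) (by positivity) (by rw [hr2]; norm_num) g
    rw [hr2] at this ⊢
    norm_num at this ⊢
    exact this
  have g2 : ∑ i ∈ Finset.range (2 * g), r ^ i ≤ 10 / 3 := by
    have := geom_le (x := r) hr0.le (by rw [hr]; norm_num) (2 * g)
    rw [hr] at this ⊢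
    norm_num at this ⊢
    exact this
  have g3 : 0 ≤ ∑ i ∈ Finset.range g, (r ^ 2) ^ i := Finset.sum_nonneg fun i _ => by positivity
  have g4 : 0 ≤ ∑ i ∈ Finset.range (2 * g), r ^ i := Finset.sum_nonneg fun i _ => by positivity
  have hW : ∑ t ∈ CC g K, w (g - 1 - t.1, g - 1 - t.2.1, t.1 + t.2.1 - t.2.2 - 1) ≤
      (100 / 51) * ((100 / 51) * (r * (10 / 3))) := by
    refine hinj.trans ?_
    rw [hprod]
    refine mul_le_mul g1 (mul_le_mul g1 (mul_le_mul_of_nonneg_left g2 hr0.le) (by positivity)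
      (by norm_num)) (by positivity) (by norm_num)
  have hsum := Finset.sum_le_sum hterm
  rw [← Finset.mul_sum, ← Finset.mul_sum] at hsum
  have hsum2 : ∑ t ∈ CC g K, ((r ^ 2) ^ (g - 1 - t.1) * ((r ^ 2) ^ (g - 1 - t.2.1) *
        (r * r ^ (t.1 + t.2.1 - t.2.2 - 1)))) =
      ∑ t ∈ CC g K, w (g - 1 - t.1, g - 1 - t.2.1, t.1 + t.2.1 - t.2.2 - 1) :=
    Finset.sum_congr rfl fun t _ => by rw [hw]
  rw [hsum2] at hsum
  have hq2 : 0 < (q : ℝ) ^ (2 * g) := by positivity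
  have h1 := hsum.trans (mul_le_mul_of_nonneg_left hW (by positivity))
  have h2 : r ^ 9 = 40353607 / 1000000000 := by rw [hr]; norm_num
  rw [h2] at h1
  rw [hr] at h1
  have h3 : 4 * (q : ℝ) ^ (2 * g) * (100 / 51 * (100 / 51 * (7 / 10 * (10 / 3)))) ≤
      40353607 / 1000000000 * (1000 * (q : ℝ) ^ (2 * g)) := by
    nlinarith
  have h4 := h1.trans h3
  exact le_of_mul_le_mul_left h4 (by norm_num)

end PP
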