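import Pool.Agent.H461.PP.Stm3

open Polynomial
open scoped Classical

noncomputable section

namespace PP

open DH

namespace XW7

lemma pow5 (K : ℕ) : ∑ d ∈ Finset.range K, ((d : ℝ) + 2) ^ 5 * (1 / 3) ^ d +
    (3 / 2 * (K : ℝ) ^ 5 + 75 / 4 * (K : ℝ) ^ 4 + 105 * (K : ℝ) ^ 3 + 1365 / 4 * (K : ℝ) ^ 2 + 660 * K + 2445 / 4) *
      (1 / 3) ^ K = 2445 / 4 := by
  induction K with
  | zero => simp
  | succ K ih =>
    rw [Finset.sum_range_succ, pow_succ]
    push_cast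
    linear_combination ih

lemma pow1 (K : ℕ) : ∑ d ∈ Finset.range K, ((d : ℝ) + 2) * (1 / 3) ^ d + (3 / 2 * (K : ℝ) + 15 / 4) * (1 / 3) ^ K =
    15 / 4 := by
  induction K with
  | zero => simp
  | succ K ih =>
    rw [Finset.sum_range_succ, pow_succ]
    push_cast
    linear_combination ih

lemma A_le (x : ℝ) (h0 : 0 ≤ x) (h1 : x ≤ 1 / 3) (K : ℕ) :
    ∑ d ∈ Finset.range K, ((d : ℝ) + 1) ^ 5 * x ^ d ≤ 1 + 700 * x := by
  cases K with
  | zero => simp; linarith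
  | succ K =>
    rw [Finset.sum_range_succ']
    have h2 : ∑ d ∈ Finset.range K, (((d + 1 : ℕ) : ℝ) + 1) ^ 5 * x ^ (d + 1) ≤
        x * ∑ d ∈ Finset.range K, ((d : ℝ) + 2) ^ 5 * (1 / 3) ^ d := by
      rw [Finset.mul_sum]
      apply Finset.sum_le_sum
      intro d _
      have h3 : x ^ d ≤ (1 / 3) ^ d := pow_le_pow_left₀ h0 h1 d
      have h4 : (((d + 1 : ℕ) : ℝ) + 1) = (d : ℝ) + 2 := by push_cast; ring
      rw [h4]
      calc ((d : ℝ) + 2) ^ 5 * x ^ (d + 1) = x * (((d : ℝ) + 2) ^ 5 * x ^ d) := by ring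
        _ ≤ x * (((d : ℝ) + 2) ^ 5 * (1 / 3) ^ d) := by
          apply mul_le_mul_of_nonneg_left _ h0
          exact mul_le_mul_of_nonneg_left h3 (by positivity)
    have h5 := pow5 K
    have h6 : 0 ≤ (3 / 2 * (K : ℝ) ^ 5 + 75 / 4 * (K : ℝ) ^ 4 + 105 * (K : ℝ) ^ 3 + 1365 / 4 * (K : ℝ) ^ 2 +
      660 * K + 2445 / 4) * (1 / 3) ^ K := by positivity
    have h7 : ∑ d ∈ Finset.range K, ((d : ℝ) + 2) ^ 5 * (1 / 3) ^ d ≤ 700 := by linarith
    have h8 := mul_le_mul_of_nonneg_left h7 h0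
    have h9 : (((0 : ℕ) : ℝ) + 1) ^ 5 * x ^ 0 = 1 := by norm_num
    rw [h9]
    linarith

lemma B_le (x : ℝ) (h0 : 0 ≤ x) (h1 : x ≤ 1 / 3) (K : ℕ) :
    ∑ d ∈ Finset.range K, ((d : ℝ) + 1) * x ^ d ≤ 1 + 4 * x := by
  cases K with
  | zero => simp; linarith
  | succ K =>
    rw [Finset.sum_range_succ']
    have h2 : ∑ d ∈ Finset.range K, (((d + 1 : ℕ) : ℝ) + 1) * x ^ (d + 1) ≤
        x * ∑ d ∈ Finset.range K, ((d : ℝ) + 2) * (1 / 3) ^ d := by
      rw [Finset.mul_sum]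
      apply Finset.sum_le_sum
      intro d _
      have h3 : x ^ d ≤ (1 / 3) ^ d := pow_le_pow_left₀ h0 h1 d
      have h4 : (((d + 1 : ℕ) : ℝ) + 1) = (d : ℝ) + 2 := by push_cast; ring
      rw [h4]
      calc ((d : ℝ) + 2) * x ^ (d + 1) = x * (((d : ℝ) + 2) * x ^ d) := by ring
        _ ≤ x * (((d : ℝ) + 2) * (1 / 3) ^ d) := by
          apply mul_le_mul_of_nonneg_left _ h0
          exact mul_le_mul_of_nonneg_left h3 (by positivity)
    have h5 := pow1 K
    have h6 : 0 ≤ (3 / 2 * (K : ℝ) + 15 / 4) * (1 / 3) ^ K := by positivity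
    have h7 : ∑ d ∈ Finset.range K, ((d : ℝ) + 2) * (1 / 3) ^ d ≤ 4 := by linarith
    have h8 := mul_le_mul_of_nonneg_left h7 h0
    have h9 : (((0 : ℕ) : ℝ) + 1) * x ^ 0 = 1 := by norm_num
    rw [h9]
    linarith

lemma final (x A B C : ℝ) (h0 : 0 ≤ x) (h1 : x ≤ 1 / 3) (hA : A ≤ 1 + 700 * x) (hB0 : 0 ≤ B)
    (hB : B ≤ 1 + 4 * x) (hC0 : 0 ≤ C) (hC : C ≤ 1 + 4 * x) : A * (B * C) ≤ 1 + 10000 * x := by
  have h2 : B * C ≤ (1 + 4 * x) * (1 + 4 * x) := mul_le_mul hB hC hC0 (by linarith)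
  have h3 : A * (B * C) ≤ (1 + 700 * x) * ((1 + 4 * x) * (1 + 4 * x)) :=
    mul_le_mul hA h2 (mul_nonneg hB0 hC0) (by linarith)
  have h4 : x ^ 2 ≤ x * (1 / 3) := by rw [sq]; exact mul_le_mul_of_nonneg_left h1 h0
  have h5 : x ^ 3 ≤ x * (1 / 9) := by
    calc x ^ 3 = x * x ^ 2 := by ring
      _ ≤ x * (1 / 9) := by
        apply mul_le_mul_of_nonneg_left _ h0
        nlinarith
  have h6 : (1 + 700 * x) * ((1 + 4 * x) * (1 + 4 * x)) = 1 + 708 * x + 5616 * x ^ 2 + 11200 * x ^ 3 := by ring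
  rw [h6] at h3
  linarith

end XW7

open XW7

theorem p_W7 (F : Type) [Field F] [Fintype F] [CharP F 3] (hB0 : DH.S_B0 F) (hTA : DH.S_TA F)
    (hW7d : S_W7d F) (hW7e : S_W7e F) : S_W7 F := by
  intro K
  obtain ⟨-, hMON, -, -, -, -⟩ := hB0
  obtain ⟨hTA, -⟩ := hTA
  have hcard : 3 ≤ Fintype.card F := by
    have h1 : ((Fintype.card F : ℕ) : F) = 0 := FiniteField.cast_card_eq_zero F
    have h2 := (CharP.cast_eq_zero_iff F 3 _).1 h1
    exact Nat.le_of_dvd Fintype.card_pos h2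
  have hq3 : (3 : ℝ) ≤ qq F := by unfold qq; exact_mod_cast hcard
  set q : ℝ := qq F with hq
  have hq0 : 0 < q := by linarith
  set M : Finset F[X] := (Finset.range K).biUnion (MON F) with hM
  have hMmem : ∀ f : F[X], f ∈ M ↔ f.Monic ∧ f.natDegree < K := by
    intro f
    rw [hM, Finset.mem_biUnion]
    constructor
    · rintro ⟨k, hk, hf⟩
      obtain ⟨h1, h2⟩ := (hMON k f).1 hf
      exact ⟨h1, by rw [h2]; exact Finset.mem_range.1 hk⟩
    · rintro ⟨h1, h2⟩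
      exact ⟨f.natDegree, Finset.mem_range.2 h2, (hMON _ f).2 ⟨h1, rfl⟩⟩
  have hsum : ∀ g : F[X] → ℝ, ∑ h ∈ M, g h = ∑ k ∈ Finset.range K, ∑ h ∈ MON F k, g h := by
    intro g
    rw [hM, Finset.sum_biUnion]
    intro k _ k' _ hkk'
    rw [Function.onFun, Finset.disjoint_left]
    intro f hf hf'
    exact hkk' (((hMON k f).1 hf).2.symm.trans ((hMON k' f).1 hf').2)
  unfold S_W7e at hW7e
  choose! H₁ A B hH using hW7e
  obtain ⟨u, hu⟩ : ∃ u : F[X] × F[X] × F[X] → ℝ, ∀ t, u t = om6 t.1 / q ^ (2 * t.1.natDegree) *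
      ((tau t.2.1 : ℝ) / q ^ (2 * t.2.1.natDegree) * ((tau t.2.2 : ℝ) / q ^ (3 * t.2.2.natDegree))) :=
    ⟨_, fun _ => rfl⟩
  have hom : ∀ h : F[X], 0 ≤ om6 h := by intro h; unfold om6; positivity
  have hu0 : ∀ t, 0 ≤ u t := by
    intro t
    rw [hu]
    have := hom t.1
    positivity
  -- the terms
  have hdeg : ∀ h : F[X], h.Monic → h.natDegree = (H₁ h).natDegree + 2 * (A h).natDegree + 3 * (B h).natDegree := by
    intro h hh
    obtain ⟨m1, m2, m3, -, h5, -⟩ := hH h hh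
    conv_lhs => rw [h5]
    rw [Monic.natDegree_mul (m1.mul (m2.pow 2)) (m3.pow 3), Monic.natDegree_mul m1 (m2.pow 2), m2.natDegree_pow,
      m3.natDegree_pow]
  have hterm : ∀ k, ∀ h ∈ MON F k, q ^ k * ((BB h).card : ℝ) / q ^ (6 * k) ≤ u (H₁ h, A h, B h) := by
    intro k h hh
    obtain ⟨hm, hk⟩ := (hMON k h).1 hh
    obtain ⟨m1, m2, m3, h4, h5, h6⟩ := hH h hm
    have hd := hdeg h hm
    rw [hk] at hd
    have e1 : q ^ k * ((BB h).card : ℝ) / q ^ (6 * k) ≤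
        q ^ k * (om6 (H₁ h) * q ^ (3 * (H₁ h).natDegree) * (tau (A h) : ℝ) * (tau (B h) : ℝ) *
          q ^ (4 * (2 * (A h).natDegree + 3 * (B h).natDegree))) / q ^ (6 * k) := by
      apply div_le_div_of_nonneg_right _ (by positivity)
      exact mul_le_mul_of_nonneg_left h6 (by positivity)
    refine e1.trans (le_of_eq ?_)
    rw [hu]
    simp only
    rw [div_mul_div_comm, div_mul_div_comm, div_eq_div_iff (by positivity) (by positivity)]
    rw [hd]
    ring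
  have hinj : Set.InjOn (fun h => (H₁ h, A h, B h)) (M : Set F[X]) := by
    intro h hh h' hh' heq
    have m := ((hMmem h).1 (Finset.mem_coe.1 hh)).1
    have m' := ((hMmem h').1 (Finset.mem_coe.1 hh')).1
    simp only [Prod.mk.injEq] at heq
    obtain ⟨e1, e2, e3⟩ := heq
    obtain ⟨-, -, -, -, h5, -⟩ := hH h m
    obtain ⟨-, -, -, -, h5', -⟩ := hH h' m'
    rw [h5, h5', e1, e2, e3]
  have hmap : ∀ h ∈ M, (H₁ h, A h, B h) ∈ (M.filter (fun h => Squarefree h)) ×ˢ M ×ˢ M := by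
    intro h hh
    obtain ⟨hm, hk⟩ := (hMmem h).1 hh
    obtain ⟨m1, m2, m3, h4, -, -⟩ := hH h hm
    have hd := hdeg h hm
    rw [Finset.mem_product, Finset.mem_product, Finset.mem_filter, hMmem, hMmem, hMmem]
    exact ⟨⟨⟨m1, by simp only; omega⟩, h4⟩, ⟨m2, by simp only; omega⟩, ⟨m3, by simp only; omega⟩⟩
  have step1 : ∑ k ∈ Finset.range K, ∑ h ∈ MON F k, q ^ k * ((BB h).card : ℝ) / q ^ (6 * k) ≤
      ∑ t ∈ (M.filter (fun h => Squarefree h)) ×ˢ M ×ˢ M, u t := by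
    calc ∑ k ∈ Finset.range K, ∑ h ∈ MON F k, q ^ k * ((BB h).card : ℝ) / q ^ (6 * k) ≤
        ∑ k ∈ Finset.range K, ∑ h ∈ MON F k, u (H₁ h, A h, B h) :=
          Finset.sum_le_sum fun k _ => Finset.sum_le_sum fun h hh => hterm k h hh
      _ = ∑ h ∈ M, u (H₁ h, A h, B h) := (hsum fun h => u (H₁ h, A h, B h)).symm
      _ = ∑ t ∈ M.image (fun h => (H₁ h, A h, B h)), u t := (Finset.sum_image hinj).symm
      _ ≤ _ := by
        apply Finset.sum_le_sum_of_subset_of_nonneg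
        · intro t ht
          obtain ⟨h, hh, rfl⟩ := Finset.mem_image.1 ht
          exact hmap h hh
        · intro t _ _
          exact hu0 t
  have step2 : ∑ t ∈ (M.filter (fun h => Squarefree h)) ×ˢ M ×ˢ M, u t =
      (∑ h ∈ M.filter (fun h => Squarefree h), om6 h / q ^ (2 * h.natDegree)) *
        ((∑ a ∈ M, (tau a : ℝ) / q ^ (2 * a.natDegree)) * ∑ b ∈ M, (tau b : ℝ) / q ^ (3 * b.natDegree)) := by
    rw [Finset.sum_mul_sum, Finset.sum_mul_sum, Finset.sum_product]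
    apply Finset.sum_congr rfl
    intro h _
    rw [Finset.sum_product]
    apply Finset.sum_congr rfl
    intro a _
    rw [Finset.mul_sum]
    apply Finset.sum_congr rfl
    intro b _
    rw [hu]
  have hx0 : (0 : ℝ) ≤ 1 / q := by positivity
  have hx1 : 1 / q ≤ 1 / 3 := one_div_le_one_div_of_le (by norm_num) hq3
  have htau : ∀ i, ∑ a ∈ MON F i, (tau a : ℝ) = ((i : ℝ) + 1) * q ^ i := by
    intro i
    have h1 := hTA i i le_rfl
    have h2 : ∑ a ∈ MON F i, tau a = (i + 1) * Fintype.card F ^ i := by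
      rw [← h1]
      apply Finset.sum_congr rfl
      intro a ha
      unfold tau
      rw [((hMON i a).1 ha).2]
    rw [hq]
    unfold qq
    rw [← Nat.cast_sum, h2]
    push_cast
    ring
  have hA : ∑ h ∈ M.filter (fun h => Squarefree h), om6 h / q ^ (2 * h.natDegree) ≤ 1 + 700 * (1 / q) := by
    rw [Finset.sum_filter, hsum]
    refine le_trans ?_ (A_le (1 / q) hx0 hx1 K)
    apply Finset.sum_le_sum
    intro d _
    rw [← Finset.sum_filter]
    have h1 : ∑ h ∈ (MON F d).filter (fun h => Squarefree h), om6 h / q ^ (2 * h.natDegree) =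
        (∑ h ∈ (MON F d).filter (fun h => Squarefree h), om6 h) / q ^ (2 * d) := by
      rw [Finset.sum_div]
      apply Finset.sum_congr rfl
      intro h hh
      rw [((hMON d h).1 (Finset.mem_filter.1 hh).1).2]
    rw [h1, div_le_iff₀ (by positivity)]
    refine (hW7d d).trans (le_of_eq ?_)
    rw [← hq, one_div, inv_pow, two_mul, pow_add]
    field_simp
  have hB : ∑ a ∈ M, (tau a : ℝ) / q ^ (2 * a.natDegree) ≤ 1 + 4 * (1 / q) := by
    rw [hsum]
    refine le_trans ?_ (B_le (1 / q) hx0 hx1 K)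
    apply Finset.sum_le_sum
    intro d _
    have h1 : ∑ h ∈ MON F d, (tau h : ℝ) / q ^ (2 * h.natDegree) =
        (∑ h ∈ MON F d, (tau h : ℝ)) / q ^ (2 * d) := by
      rw [Finset.sum_div]
      apply Finset.sum_congr rfl
      intro h hh
      rw [((hMON d h).1 hh).2]
    rw [h1, htau, div_le_iff₀ (by positivity)]
    refine le_of_eq ?_
    rw [one_div, inv_pow, two_mul, pow_add]
    field_simp
  have hC : ∑ a ∈ M, (tau a : ℝ) / q ^ (3 * a.natDegree) ≤ 1 + 4 * (1 / q) := by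
    refine le_trans ?_ hB
    apply Finset.sum_le_sum
    intro a _
    apply div_le_div_of_nonneg_left (Nat.cast_nonneg _) (by positivity)
    exact pow_le_pow_right₀ (by linarith) (by omega)
  have h1 := final (1 / q) _ _ _ hx0 hx1 hA (Finset.sum_nonneg fun a _ => by positivity) hB
    (Finset.sum_nonneg fun a _ => by positivity) hC
  calc _ ≤ _ := step1
    _ = _ := step2
    _ ≤ _ := h1
    _ = 1 + 10000 / q := by ring

end PP
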