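import Pool.Agent.H461.PP.Stm3

/-!
# Project PP, W7a: submultiplicativity of the number of residue pairs (helper241)
-/

open Polynomial
open scoped Classical

noncomputable section

namespace PP

open DH

namespace XW7a

variable {F : Type} [Field F] [CharP F 3]

lemma der_cube (h u : F[X]) : derivative (h ^ 3 * u) = h ^ 3 * derivative u := by
  have h3 : (3 : F[X]) = 0 := by
    have : ((3 : ℕ) : F[X]) = 0 := CharP.cast_eq_zero F[X] 3
    exact_mod_cast this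
  rw [derivative_mul, derivative_pow]
  have e : C ((3 : ℕ) : F) = 0 := by
    rw [CharP.cast_eq_zero F 3, C_0]
  rw [e]
  ring

lemma Wr_cong {h R S : F[X]} (u v : F[X]) (hW : h ^ 3 ∣ Wr R S) :
    h ^ 3 ∣ Wr (R + h ^ 3 * u) (S + h ^ 3 * v) := by
  have e : Wr (R + h ^ 3 * u) (S + h ^ 3 * v) = Wr R S + h ^ 3 * (derivative R * v +
      derivative u * S + derivative u * (h ^ 3 * v) - R * derivative v - u * derivative S -
      u * (h ^ 3 * derivative v)) := by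
    unfold Wr
    rw [derivative_add, derivative_add, der_cube, der_cube]
    ring
  rw [e]
  exact dvd_add hW (dvd_mul_right _ _)

omit [CharP F 3] in
lemma Mo_cong {P h R S : F[X]} (u v : F[X]) (hP : P ^ 3 ∣ h ^ 3) (hM : P ^ 3 ∣ Mo R S) :
    P ^ 3 ∣ Mo (R + h ^ 3 * u) (S + h ^ 3 * v) := by
  have e : ∃ w : F[X], Mo (R + h ^ 3 * u) (S + h ^ 3 * v) = Mo R S + h ^ 3 * w := by
    refine ⟨u * (S + h ^ 3 * v) ^ 3 + R * (3 * S ^ 2 * v + 3 * S * h ^ 3 * v ^ 2 +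
      (h ^ 3) ^ 2 * v ^ 3) - (v * (R + h ^ 3 * u) ^ 3 + S * (3 * R ^ 2 * u + 3 * R * h ^ 3 * u ^ 2 +
      (h ^ 3) ^ 2 * u ^ 3)), ?_⟩
    unfold Mo
    ring
  obtain ⟨w, hw⟩ := e
  rw [hw]
  exact dvd_add hM (hP.mul_right w)

lemma CH_mod {a b R S : F[X]} (ha : a.Monic) (hab : IsCoprime a b) (h : CH (a * b) R S) :
    CH a (R %ₘ a ^ 3) (S %ₘ a ^ 3) := by
  have eR : R %ₘ a ^ 3 = R + a ^ 3 * (-(R /ₘ a ^ 3)) := by
    have := modByMonic_add_div R (a ^ 3)
    linear_combination this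
  have eS : S %ₘ a ^ 3 = S + a ^ 3 * (-(S /ₘ a ^ 3)) := by
    have := modByMonic_add_div S (a ^ 3)
    linear_combination this
  obtain ⟨h1, h2⟩ := h
  rw [eR, eS]
  refine ⟨Wr_cong _ _ ((pow_dvd_pow_of_dvd (dvd_mul_right a b) 3).trans h1), ?_⟩
  intro P hP hPa hP2
  refine Mo_cong _ _ (pow_dvd_pow_of_dvd hPa 3) (h2 P hP (hPa.mul_right b) fun h3 => hP2 ?_)
  have h4 : IsCoprime (P ^ 2) b := (hab.of_isCoprime_of_dvd_left hPa).pow_left
  exact h4.dvd_of_dvd_mul_right h3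

end XW7a

open XW7a in
theorem p_W7a (F : Type) [Field F] [Fintype F] [CharP F 3] (hB0 : DH.S_B0 F) : S_W7a F := by
  intro a b ha hb hab
  have hP := hB0.1
  have hdeg : ∀ {c : F[X]}, c.Monic → (c ^ 3).degree = ((3 * c.natDegree : ℕ) : WithBot ℕ) := by
    intro c hc
    rw [degree_eq_natDegree (hc.pow 3).ne_zero, natDegree_pow]
  rw [← Finset.card_product]
  refine Finset.card_le_card_of_injOn
    (fun p : F[X] × F[X] => ((p.1 %ₘ a ^ 3, p.2 %ₘ a ^ 3), (p.1 %ₘ b ^ 3, p.2 %ₘ b ^ 3))) ?_ ?_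
  · intro p hp
    have hp' := Finset.mem_filter.1 (Finset.mem_coe.1 hp)
    have hmem : ∀ {c : F[X]}, c.Monic → ∀ R : F[X], R %ₘ c ^ 3 ∈ POL F (3 * c.natDegree) := by
      intro c hc R
      rw [hP]
      have h1 := degree_modByMonic_lt R (hc.pow 3)
      rwa [hdeg hc] at h1
    rw [Finset.mem_coe, Finset.mem_product]
    refine ⟨?_, ?_⟩
    · refine Finset.mem_filter.2 ⟨Finset.mem_product.2 ⟨hmem ha _, hmem ha _⟩, ?_⟩
      exact CH_mod ha hab hp'.2
    · refine Finset.mem_filter.2 ⟨Finset.mem_product.2 ⟨hmem hb _, hmem hb _⟩, ?_⟩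
      have h2 : CH (b * a) p.1 p.2 := by
        rw [mul_comm b a]
        exact hp'.2
      exact CH_mod hb hab.symm h2
  · intro p hp p' hp' he
    have h1 := (Finset.mem_product.1 (Finset.mem_filter.1 (Finset.mem_coe.1 hp)).1)
    have h2 := (Finset.mem_product.1 (Finset.mem_filter.1 (Finset.mem_coe.1 hp')).1)
    simp only [Prod.mk.injEq] at he
    obtain ⟨⟨e1, e2⟩, e3, e4⟩ := he
    have key : ∀ R R' : F[X], R ∈ POL F (3 * (a * b).natDegree) →
        R' ∈ POL F (3 * (a * b).natDegree) → R %ₘ a ^ 3 = R' %ₘ a ^ 3 →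
        R %ₘ b ^ 3 = R' %ₘ b ^ 3 → R = R' := by
      intro R R' hR hR' ea eb
      rw [hP] at hR hR'
      have hd : ∀ {c : F[X]}, c.Monic → R %ₘ c ^ 3 = R' %ₘ c ^ 3 → c ^ 3 ∣ R - R' := by
        intro c hc h
        rw [← modByMonic_eq_zero_iff_dvd (hc.pow 3), sub_modByMonic, h, sub_self]
      have h3 : a ^ 3 * b ^ 3 ∣ R - R' := (hab.pow).mul_dvd (hd ha ea) (hd hb eb)
      rw [← mul_pow] at h3
      have h4 : (R - R').degree < ((a * b) ^ 3).degree := by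
        rw [hdeg (ha.mul hb)]
        exact (degree_sub_le _ _).trans_lt (max_lt hR hR')
      have h5 := eq_zero_of_dvd_of_degree_lt h3 h4
      exact sub_eq_zero.1 h5
    exact Prod.ext (key _ _ h1.1 h2.1 e1 e3) (key _ _ h1.2 h2.2 e2 e4)

end PP
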