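import Pool.Agent.H461.PP.Stm3

set_option autoImplicit false
set_option linter.unusedVariables false
set_option linter.unusedSectionVars false

open Polynomial
open scoped Classical

noncomputable section

namespace PP

open DH

namespace XW7b

variable {F : Type} [Field F] [Fintype F] [CharP F 3]

omit [Fintype F] in
lemma three : (3 : F[X]) = 0 := by
  have h : ((3 : ℕ) : F[X]) = 0 := CharP.cast_eq_zero F[X] 3
  exact_mod_cast h

omit [CharP F 3] in
lemma not_dvd_der {P : F[X]} (hP : Irreducible P) : ¬ P ∣ derivative P := by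
  intro h
  have h1 : P.Separable := PerfectField.separable_of_irreducible hP
  have h2 : IsCoprime P (derivative P) := h1
  exact hP.not_isUnit (h2.isUnit_of_dvd' dvd_rfl h)

omit [Fintype F] [CharP F 3] in
lemma Wr_mul (P A B : F[X]) : Wr (P * A) (P * B) = P ^ 2 * Wr A B := by
  unfold Wr
  rw [derivative_mul, derivative_mul]
  ring

omit [Fintype F] [CharP F 3] in
lemma Wr_sub (A A' B : F[X]) : Wr (A - A') B = Wr A B - Wr A' B := by
  unfold Wr
  rw [derivative_sub]
  ring

omit [Fintype F] [CharP F 3] in
/-- dividing by `P` lowers the degree. -/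
lemma deg_div {P A : F[X]} {n d : ℕ} (hP : P.Monic) (hd : P.natDegree = d) (h : (P * A).degree < ((n + d : ℕ) : WithBot ℕ)) :
    A.degree < (n : WithBot ℕ) := by
  by_cases hA : A = 0
  · subst hA
    rw [degree_zero]
    exact WithBot.bot_lt_coe n
  · have hP0 : P ≠ 0 := hP.ne_zero
    rw [degree_eq_natDegree (mul_ne_zero hP0 hA), natDegree_mul hP0 hA, hd] at h
    rw [degree_eq_natDegree hA]
    have h1 : d + A.natDegree < n + d := by exact_mod_cast h
    have h2 : A.natDegree < n := by omega
    exact_mod_cast h2

lemma fibre (hB0 : DH.S_B0 F) (d : ℕ) (P S : F[X]) (hm : P.Monic) (hd : P.natDegree = d) (hi : Irreducible P)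
    (hS : S ≠ 0) (hSd : S.degree < ((2 * d : ℕ) : WithBot ℕ)) :
    ((POL F (2 * d)).filter (fun R => P ∣ Wr R S)).card ≤ Fintype.card F ^ d := by
  have hp : Prime P := hi.prime
  have hPd : P.degree = (d : WithBot ℕ) := by rw [degree_eq_natDegree hm.ne_zero, hd]
  rw [← hB0.2.2.2.1 d]
  by_cases hPS : P ∣ S
  · obtain ⟨T, hT⟩ := hPS
    have hT0 : T ≠ 0 := by
      rintro rfl
      exact hS (by rw [hT, mul_zero])
    have hTd : T.degree < (d : WithBot ℕ) := by
      apply deg_div hm hd
      rw [← hT]
      have e : d + d = 2 * d := by ring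
      rw [e]
      exact hSd
    have hPT : ¬ P ∣ T := by
      intro h
      exact hT0 (eq_zero_of_dvd_of_degree_lt h (by rw [hPd]; exact hTd))
    refine (Finset.card_le_card ?_).trans (Finset.card_image_le (s := POL F d) (f := fun E => P * E))
    intro R hR
    rw [Finset.mem_filter] at hR
    rw [Finset.mem_image]
    have h1 : P ∣ R * (derivative P * T) := by
      have h2 : R * (derivative P * T) = P * (derivative R * T - R * derivative T) - Wr R S := by
        unfold Wr
        rw [hT, derivative_mul]
        ring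
      rw [h2]
      exact dvd_sub (dvd_mul_right _ _) hR.2
    have h3 : P ∣ R := by
      rcases hp.dvd_or_dvd h1 with h | h
      · exact h
      · rcases hp.dvd_or_dvd h with h | h
        · exact absurd h (not_dvd_der hi)
        · exact absurd h hPT
    obtain ⟨E, hE⟩ := h3
    refine ⟨E, ?_, hE.symm⟩
    rw [hB0.1]
    apply deg_div hm hd
    rw [← hE]
    have e : d + d = 2 * d := by ring
    rw [e]
    exact (hB0.1 _ _).1 hR.1
  · apply Finset.card_le_card_of_injOn (fun R => R %ₘ P)
    · intro R hR
      rw [Finset.mem_coe, hB0.1]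
      have := degree_modByMonic_lt R hm
      rw [hPd] at this
      exact this
    · intro R₁ h1 R₂ h2 h12
      rw [Finset.mem_coe, Finset.mem_filter] at h1 h2
      have h12' : R₁ %ₘ P = R₂ %ₘ P := h12
      have hD : P ∣ R₁ - R₂ := by
        rw [← modByMonic_eq_zero_iff_dvd hm, sub_modByMonic, h12', sub_self]
      have hW : P ∣ Wr (R₁ - R₂) S := by
        rw [Wr_sub]
        exact dvd_sub h1.2 h2.2
      obtain ⟨E, hE⟩ := hD
      have hEd : E.degree < (d : WithBot ℕ) := by
        apply deg_div hm hd
        rw [← hE]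
        have e : d + d = 2 * d := by ring
        rw [e]
        refine (degree_sub_le _ _).trans_lt ?_
        rw [max_lt_iff]
        exact ⟨(hB0.1 _ _).1 h1.1, (hB0.1 _ _).1 h2.1⟩
      rw [hE] at hW
      have h3 : P ∣ derivative P * E * S := by
        have h4 : derivative P * E * S = Wr (P * E) S - P * (derivative E * S - E * derivative S) := by
          unfold Wr
          rw [derivative_mul]
          ring
        rw [h4]
        exact dvd_sub hW (dvd_mul_right _ _)
      have h5 : P ∣ E := by
        rcases hp.dvd_or_dvd h3 with h | h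
        · rcases hp.dvd_or_dvd h with h | h
          · exact absurd h (not_dvd_der hi)
          · exact h
        · exact absurd h hPS
      have h6 : E = 0 := eq_zero_of_dvd_of_degree_lt h5 (by rw [hPd]; exact hEd)
      rw [h6, mul_zero] at hE
      exact sub_eq_zero.1 hE

lemma B5 (hB0 : DH.S_B0 F) (d : ℕ) (P : F[X]) (hm : P.Monic) (hd : P.natDegree = d) (hi : Irreducible P) :
    (((POL F (2 * d)) ×ˢ (POL F (2 * d))).filter (fun p => P ∣ Wr p.1 p.2)).card ≤ 2 * Fintype.card F ^ (3 * d) := by
  have h0 : (((POL F (2 * d)) ×ˢ (POL F (2 * d))).filter (fun p => P ∣ Wr p.1 p.2)).card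
      = ∑ S ∈ POL F (2 * d), ((POL F (2 * d)).filter (fun R => P ∣ Wr R S)).card := by
    rw [Finset.card_filter, Finset.sum_product_right]
    refine Finset.sum_congr rfl fun S _ => ?_
    rw [Finset.card_filter]
  rw [h0]
  have hq : 1 ≤ Fintype.card F := Fintype.card_pos
  have h1 : ∀ S ∈ POL F (2 * d), ((POL F (2 * d)).filter (fun R => P ∣ Wr R S)).card ≤
      Fintype.card F ^ d + (if S = 0 then Fintype.card F ^ (2 * d) else 0) := by
    intro S hS
    split_ifs with h
    · refine (Finset.card_filter_le _ _).trans ?_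
      rw [hB0.2.2.2.1]
      omega
    · rw [add_zero]
      exact fibre hB0 d P S hm hd hi h ((hB0.1 _ _).1 hS)
  refine (Finset.sum_le_sum h1).trans ?_
  rw [Finset.sum_add_distrib, Finset.sum_const, hB0.2.2.2.1, Finset.sum_ite_eq', smul_eq_mul]
  have h2 : Fintype.card F ^ (2 * d) * Fintype.card F ^ d = Fintype.card F ^ (3 * d) := by
    rw [← pow_add]
    congr 1
    ring
  have h3 : Fintype.card F ^ (2 * d) ≤ Fintype.card F ^ (3 * d) := Nat.pow_le_pow_right hq (by omega)
  rw [h2]
  split_ifs <;> omega

omit [Fintype F] in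
/-- the classification of the pairs. -/
lemma cases_pair (d : ℕ) (P R S : F[X]) (hm : P.Monic) (hd : P.natDegree = d) (hi : Irreducible P)
    (hR : R.degree < ((3 * d : ℕ) : WithBot ℕ)) (hS : S.degree < ((3 * d : ℕ) : WithBot ℕ)) (hM : P ^ 3 ∣ Mo R S) :
    R = 0 ∨ S = 0 ∨ S = R ∨ S = - R ∨ (P ∣ R ∧ P ∣ S) := by
  have hp : Prime P := hi.prime
  have h3 := three (F := F)
  have hcube : (P ^ 3).degree = ((3 * d : ℕ) : WithBot ℕ) := by
    rw [degree_eq_natDegree (pow_ne_zero 3 hm.ne_zero), natDegree_pow, hd]
  have key : ∀ T U : F[X], T.degree < ((3 * d : ℕ) : WithBot ℕ) → ¬ P ∣ U → P ^ 3 ∣ T * U → T = 0 := by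
    intro T U hT hU hTU
    have h1 : P ^ 3 ∣ T := by
      have hc : IsCoprime (P ^ 3) U := by
        apply IsCoprime.pow_left
        exact (hi.coprime_iff_not_dvd).2 hU
      exact hc.dvd_of_dvd_mul_right hTU
    exact eq_zero_of_dvd_of_degree_lt h1 (by rw [hcube]; exact hT)
  have hMo : Mo R S = R * (S * ((S - R) * (S + R))) := by
    unfold Mo
    ring
  rw [hMo] at hM
  have nd : ∀ A B : F[X], ¬ P ∣ A → ¬ P ∣ B → ¬ P ∣ A * B := by
    intro A B hA hB h
    rcases hp.dvd_or_dvd h with h | h
    · exact hA h
    · exact hB h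
  by_cases hPR : P ∣ R
  · by_cases hPS : P ∣ S
    · right; right; right; right
      exact ⟨hPR, hPS⟩
    · left
      apply key R _ hR _ hM
      apply nd _ _ hPS
      apply nd
      · intro h
        exact hPS ((dvd_sub_left hPR).1 h)
      · intro h
        exact hPS ((dvd_add_left hPR).1 h)
  · by_cases hPS : P ∣ S
    · right; left
      apply key S (R * ((S - R) * (S + R))) hS
      · apply nd _ _ hPR
        apply nd
        · intro h
          exact hPR ((dvd_sub_right hPS).1 h)
        · intro h
          exact hPR ((dvd_add_right hPS).1 h)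
      · have e : S * (R * ((S - R) * (S + R))) = R * (S * ((S - R) * (S + R))) := by ring
        rw [e]
        exact hM
    · by_cases hD : P ∣ S - R
      · right; right; left
        have h1 : S - R = 0 := by
          apply key (S - R) (R * (S * (S + R)))
          · refine (degree_sub_le _ _).trans_lt ?_
            rw [max_lt_iff]
            exact ⟨hS, hR⟩
          · apply nd _ _ hPR
            apply nd _ _ hPS
            intro h
            apply hPS
            have h2 : S = - ((S - R) + (S + R)) := by
              linear_combination (S) * h3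
            rw [h2]
            exact (dvd_neg).2 (dvd_add hD h)
          · have e : (S - R) * (R * (S * (S + R))) = R * (S * ((S - R) * (S + R))) := by ring
            rw [e]
            exact hM
        exact sub_eq_zero.1 h1
      · right; right; right; left
        have h1 : S + R = 0 := by
          apply key (S + R) (R * (S * (S - R)))
          · refine (degree_add_le _ _).trans_lt ?_
            rw [max_lt_iff]
            exact ⟨hS, hR⟩
          · apply nd _ _ hPR
            apply nd _ _ hPS
            exact hD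
          · have e : (S + R) * (R * (S * (S - R))) = R * (S * ((S - R) * (S + R))) := by ring
            rw [e]
            exact hM
        exact eq_neg_of_add_eq_zero_left h1

end XW7b

open XW7b in
theorem p_W7b (F : Type) [Field F] [Fintype F] [CharP F 3] (hB0 : DH.S_B0 F) : S_W7b F := by
  intro d P hPm hi
  obtain ⟨hm, hd⟩ := (hB0.2.1 _ _).1 hPm
  have hsub : BB P ⊆ ((((POL F (3 * d)).image (fun S => ((0 : F[X]), S)) ∪ (POL F (3 * d)).image (fun R => (R, (0 : F[X])))) ∪
      ((POL F (3 * d)).image (fun R => (R, R)) ∪ (POL F (3 * d)).image (fun R => (R, -R)))) ∪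
      (((POL F (2 * d)) ×ˢ (POL F (2 * d))).filter (fun p => P ∣ Wr p.1 p.2)).image (fun p => (P * p.1, P * p.2))) := by
    intro p hp
    obtain ⟨R, S⟩ := p
    unfold BB at hp
    rw [Finset.mem_filter, Finset.mem_product, hd] at hp
    obtain ⟨⟨hR, hS⟩, hC⟩ := hp
    simp only at hR hS hC
    obtain ⟨hC1, hC2⟩ := hC
    have hR' := (hB0.1 _ _).1 hR
    have hS' := (hB0.1 _ _).1 hS
    have hM := hC2 P hi dvd_rfl (by
      intro h
      have h1 : P * P ∣ P * 1 := by
        rw [mul_one, ← sq]
        exact h
      have h2 : P ∣ 1 := (mul_dvd_mul_iff_left hi.ne_zero).1 h1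
      exact hi.not_isUnit (isUnit_of_dvd_one h2))
    rcases cases_pair d P R S hm hd hi hR' hS' hM with h | h | h | h | ⟨h1, h2⟩
    · apply Finset.mem_union_left; apply Finset.mem_union_left; apply Finset.mem_union_left
      rw [Finset.mem_image]
      exact ⟨S, hS, by rw [h]⟩
    · apply Finset.mem_union_left; apply Finset.mem_union_left; apply Finset.mem_union_right
      rw [Finset.mem_image]
      exact ⟨R, hR, by rw [h]⟩
    · apply Finset.mem_union_left; apply Finset.mem_union_right; apply Finset.mem_union_left
      rw [Finset.mem_image]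
      exact ⟨R, hR, by rw [h]⟩
    · apply Finset.mem_union_left; apply Finset.mem_union_right; apply Finset.mem_union_right
      rw [Finset.mem_image]
      exact ⟨R, hR, by rw [h]⟩
    · apply Finset.mem_union_right
      obtain ⟨A, hA⟩ := h1
      obtain ⟨B, hB⟩ := h2
      rw [Finset.mem_image]
      refine ⟨(A, B), ?_, by rw [hA, hB]⟩
      rw [Finset.mem_filter, Finset.mem_product, hB0.1, hB0.1]
      have e : 2 * d + d = 3 * d := by ring
      refine ⟨⟨?_, ?_⟩, ?_⟩
      · apply deg_div hm hd
        rw [← hA, e]
        exact hR'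
      · apply deg_div hm hd
        rw [← hB, e]
        exact hS'
      · rw [hA, hB, Wr_mul] at hC1
        have h3 : P ^ 2 * P ∣ P ^ 2 * Wr A B := by
          rw [← pow_succ]
          exact hC1
        exact (mul_dvd_mul_iff_left (pow_ne_zero 2 hi.ne_zero)).1 h3
  refine (Finset.card_le_card hsub).trans ?_
  have hq3 := hB0.2.2.2.1 (3 * d)
  have c1 : ((POL F (3 * d)).image (fun S => ((0 : F[X]), S))).card ≤ Fintype.card F ^ (3 * d) := by
    rw [← hq3]; exact Finset.card_image_le
  have c2 : ((POL F (3 * d)).image (fun R => (R, (0 : F[X])))).card ≤ Fintype.card F ^ (3 * d) := by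
    rw [← hq3]; exact Finset.card_image_le
  have c3 : ((POL F (3 * d)).image (fun R => (R, R))).card ≤ Fintype.card F ^ (3 * d) := by
    rw [← hq3]; exact Finset.card_image_le
  have c4 : ((POL F (3 * d)).image (fun R => (R, -R))).card ≤ Fintype.card F ^ (3 * d) := by
    rw [← hq3]; exact Finset.card_image_le
  have c5 : ((((POL F (2 * d)) ×ˢ (POL F (2 * d))).filter (fun p => P ∣ Wr p.1 p.2)).image
      (fun p => (P * p.1, P * p.2))).card ≤ 2 * Fintype.card F ^ (3 * d) :=
    Finset.card_image_le.trans (B5 hB0 d P hm hd hi)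
  refine (Finset.card_union_le _ _).trans ?_
  refine (Nat.add_le_add ((Finset.card_union_le _ _).trans (Nat.add_le_add (Finset.card_union_le _ _)
    (Finset.card_union_le _ _))) le_rfl).trans ?_
  omega

end PP
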