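import Pool.Agent.H461.PP.Stm3

/-! # W7c: local count at prime powers (helper115 for helper461) -/

set_option autoImplicit false

open Polynomial
open scoped Classical

noncomputable section

namespace PP

open DH

namespace XW7c

variable {F : Type} [Field F] [Fintype F] [CharP F 3]

omit [Fintype F] in
theorem three : (3 : F[X]) = 0 := by
  have h : ((3 : ℕ) : F[X]) = 0 := by
    rw [← C_eq_natCast, CharP.cast_eq_zero F 3, C_0]
  exact_mod_cast h

omit [Fintype F] in
theorem dcube (a : F[X]) : derivative (a ^ 3) = 0 := by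
  rw [derivative_pow, CharP.cast_eq_zero F 3, C_0, zero_mul, zero_mul]

omit [Fintype F] in
theorem dcube_mul (a b : F[X]) : derivative (a ^ 3 * b) = a ^ 3 * derivative b := by
  rw [derivative_mul, dcube, zero_mul, zero_add]

omit [Fintype F] in
theorem dform (a b c : F[X]) :
    derivative (a ^ 3 + X * b ^ 3 + X ^ 2 * c ^ 3) = b ^ 3 + 2 * X * c ^ 3 := by
  rw [derivative_add, derivative_add, derivative_mul, derivative_mul, dcube, dcube, dcube,
    derivative_X, derivative_X_pow]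
  have : (C ((2 : ℕ) : F) : F[X]) = 2 := by
    rw [C_eq_natCast]
    norm_num
  rw [this]
  ring

omit [Fintype F] in
theorem dform2 (b c : F[X]) : derivative (b ^ 3 + 2 * X * c ^ 3) = 2 * c ^ 3 := by
  have e : b ^ 3 + 2 * X * c ^ 3 = b ^ 3 + (c ^ 3 * X + c ^ 3 * X) := by ring
  rw [e, derivative_add, derivative_add, dcube, dcube_mul, derivative_X]
  ring

theorem coords (hB1 : S_B1 F) (R : F[X]) : ∃ a b c : F[X],
    R = a ^ 3 + X * b ^ 3 + X ^ 2 * c ^ 3 := by
  obtain ⟨h1, h2, h3, -⟩ := hB1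
  obtain ⟨c, hc⟩ := (h1 (derivative (derivative R))).1 (h3 R)
  have h4 : derivative (derivative (R + X ^ 2 * c ^ 3)) = 0 := by
    have e1 : derivative (X ^ 2 * c ^ 3) = c ^ 3 * X + c ^ 3 * X := by
      have e : X ^ 2 * c ^ 3 = c ^ 3 * (X * X) := by ring
      rw [e, dcube_mul, derivative_mul, derivative_X]
      ring
    rw [derivative_add, derivative_add, e1, derivative_add, dcube_mul, derivative_X, hc]
    have h := three (F := F)
    linear_combination (c ^ 3) * h
  obtain ⟨A, B, hAB⟩ := (h2 _).1 h4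
  refine ⟨A, B, -c, ?_⟩
  linear_combination hAB

omit [Fintype F] in
theorem dvd_der {Q G : F[X]} (h : Q ^ 3 ∣ G) : Q ^ 3 ∣ derivative G := by
  obtain ⟨H, rfl⟩ := h
  rw [dcube_mul]
  exact dvd_mul_right _ _

omit [Fintype F] in
theorem dvd_form {Q a b c : F[X]} (h : Q ^ 3 ∣ a ^ 3 + X * b ^ 3 + X ^ 2 * c ^ 3) :
    Q ∣ a ∧ Q ∣ b ∧ Q ∣ c := by
  have h1 := dvd_der h
  rw [dform] at h1
  have h2 := dvd_der h1
  rw [dform2] at h2
  have h3 : Q ^ 3 ∣ c ^ 3 := by
    have e : c ^ 3 = -(2 * c ^ 3) := by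
      linear_combination (c ^ 3) * (three (F := F))
    rw [e]
    exact (dvd_neg).2 h2
  have h4 : Q ^ 3 ∣ b ^ 3 := by
    have e : b ^ 3 = (b ^ 3 + 2 * X * c ^ 3) - c ^ 3 * (2 * X) := by ring
    rw [e]
    exact dvd_sub h1 (h3.mul_right _)
  have h5 : Q ^ 3 ∣ a ^ 3 := by
    have e : a ^ 3 = (a ^ 3 + X * b ^ 3 + X ^ 2 * c ^ 3) - (b ^ 3 * X + c ^ 3 * X ^ 2) := by ring
    rw [e]
    exact dvd_sub h (dvd_add (h4.mul_right _) (h3.mul_right _))
  exact ⟨(UniqueFactorizationMonoid.pow_dvd_pow_iff_dvd (by norm_num)).1 h5,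
    (UniqueFactorizationMonoid.pow_dvd_pow_iff_dvd (by norm_num)).1 h4,
    (UniqueFactorizationMonoid.pow_dvd_pow_iff_dvd (by norm_num)).1 h3⟩

omit [Fintype F] in
theorem wr_form (a b c s t u : F[X]) :
    Wr (a ^ 3 + X * b ^ 3 + X ^ 2 * c ^ 3) (s ^ 3 + X * t ^ 3 + X ^ 2 * u ^ 3) =
      (b * s - a * t) ^ 3 + X * (a * u - c * s) ^ 3 + X ^ 2 * (c * t - b * u) ^ 3 := by
  unfold Wr
  rw [dform, dform]
  linear_combination (b * s * a * t * (b * s - a * t) + X * (c ^ 3 * s ^ 3 - a ^ 3 * u ^ 3) +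
    X * (a * u * c * s * (a * u - c * s)) + X ^ 2 * (c * t * b * u * (c * t - b * u))) *
    (three (F := F))

omit [Fintype F] in
/-- the key: a solution is determined by one coordinate -/
theorem key {P a b c s t u : F[X]} {e : ℕ} (hP : Irreducible P)
    (h : P ^ (3 * e) ∣ Wr (a ^ 3 + X * b ^ 3 + X ^ 2 * c ^ 3) (s ^ 3 + X * t ^ 3 + X ^ 2 * u ^ 3)) :
    (¬ P ∣ a → P ^ e ∣ s → P ^ e ∣ t ∧ P ^ e ∣ u) ∧
    (¬ P ∣ b → P ^ e ∣ t → P ^ e ∣ s ∧ P ^ e ∣ u) ∧
    (¬ P ∣ c → P ^ e ∣ u → P ^ e ∣ s ∧ P ^ e ∣ t) := by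
  rw [wr_form, mul_comm 3 e, pow_mul] at h
  obtain ⟨m1, m2, m3⟩ := dvd_form h
  have cop : ∀ r : F[X], ¬ P ∣ r → IsCoprime (P ^ e) r := fun r hr =>
    ((hP.coprime_iff_not_dvd).2 hr).pow_left
  refine ⟨fun hr h0 => ⟨?_, ?_⟩, fun hr h0 => ⟨?_, ?_⟩, fun hr h0 => ⟨?_, ?_⟩⟩
  · refine (cop a hr).dvd_of_dvd_mul_left ?_
    have e1 : a * t = s * b - (b * s - a * t) := by ring
    rw [e1]
    exact dvd_sub (h0.mul_right _) m1
  · refine (cop a hr).dvd_of_dvd_mul_left ?_
    have e1 : a * u = s * c + (a * u - c * s) := by ring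
    rw [e1]
    exact dvd_add (h0.mul_right _) m2
  · refine (cop b hr).dvd_of_dvd_mul_left ?_
    have e1 : b * s = t * a + (b * s - a * t) := by ring
    rw [e1]
    exact dvd_add (h0.mul_right _) m1
  · refine (cop b hr).dvd_of_dvd_mul_left ?_
    have e1 : b * u = t * c - (c * t - b * u) := by ring
    rw [e1]
    exact dvd_sub (h0.mul_right _) m3
  · refine (cop c hr).dvd_of_dvd_mul_left ?_
    have e1 : c * s = u * a - (a * u - c * s) := by ring
    rw [e1]
    exact dvd_sub (h0.mul_right _) m2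
  · refine (cop c hr).dvd_of_dvd_mul_left ?_
    have e1 : c * t = u * b + (c * t - b * u) := by ring
    rw [e1]
    exact dvd_add (h0.mul_right _) m3

/-- the pairs modulo `P ^ (3 e)` -/
def NS (P : F[X]) (d e : ℕ) : Finset (F[X] × F[X]) :=
  ((POL F (3 * (d * e))) ×ˢ (POL F (3 * (d * e)))).filter (fun p => P ^ (3 * e) ∣ Wr p.1 p.2)

omit [Fintype F] in
theorem wr_sub (R S T : F[X]) : Wr R (S - T) = Wr R S - Wr R T := by
  unfold Wr
  rw [derivative_sub]
  ring

omit [Fintype F] in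
theorem natDegree_lt' {g : F[X]} {n : ℕ} (hn : 0 < n) (h : g.degree < n) : g.natDegree < n := by
  by_cases h0 : g = 0
  · rw [h0, natDegree_zero]
    exact hn
  · exact (natDegree_lt_iff_degree_lt h0).2 h

omit [Fintype F] in
theorem degree_lt' {g : F[X]} {n : ℕ} (h : g.natDegree < n) : g.degree < n :=
  degree_le_natDegree.trans_lt (by exact_mod_cast h)

/-- the primitive `R` -/
theorem prim (hB0 : S_B0 F) (hB1 : S_B1 F) {P : F[X]} {d : ℕ} (hM : P.Monic)
    (hd : P.natDegree = d) (hP : Irreducible P) (e : ℕ) :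
    ((NS P d e).filter (fun p => ¬ P ^ 3 ∣ p.1)).card ≤ Fintype.card F ^ (4 * (d * e)) := by
  have hex : ∀ R : F[X], ∃ a b c : F[X], R = a ^ 3 + X * b ^ 3 + X ^ 2 * c ^ 3 := coords hB1
  choose c0 c1 c2 hc using hex
  have hmon : (P ^ e).Monic := hM.pow e
  let f : F[X] × F[X] → F[X] × F[X] := fun p =>
    (p.1, (if ¬ P ∣ c0 p.1 then c0 p.2 else if ¬ P ∣ c1 p.1 then c1 p.2 else c2 p.2) %ₘ (P ^ e))
  have hcard : (POL F (3 * (d * e)) ×ˢ POL F (d * e)).card = Fintype.card F ^ (4 * (d * e)) := by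
    rw [Finset.card_product, hB0.2.2.2.1, hB0.2.2.2.1, ← pow_add]
    congr 1
    ring
  rw [← hcard]
  refine Finset.card_le_card_of_injOn f ?_ ?_
  · intro p hp
    have hp' := (Finset.mem_filter.1 (Finset.mem_coe.1 hp)).1
    have hp2 := Finset.mem_product.1 (Finset.mem_filter.1 hp').1
    refine Finset.mem_coe.2 (Finset.mem_product.2 ⟨hp2.1, ?_⟩)
    rw [hB0.1]
    refine (degree_modByMonic_lt _ hmon).trans_le ?_
    rw [degree_eq_natDegree hmon.ne_zero, hM.natDegree_pow, hd, mul_comm]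
  · intro p hp p' hp' hff
    obtain ⟨hp1, hp2⟩ := Finset.mem_filter.1 (Finset.mem_coe.1 hp)
    obtain ⟨hp3, hp4⟩ := Finset.mem_filter.1 hp1
    obtain ⟨hp5, hp6⟩ := Finset.mem_product.1 hp3
    obtain ⟨hq1, hq2⟩ := Finset.mem_filter.1 (Finset.mem_coe.1 hp')
    obtain ⟨hq3, hq4⟩ := Finset.mem_filter.1 hq1
    obtain ⟨hq5, hq6⟩ := Finset.mem_product.1 hq3
    obtain ⟨R, S⟩ := p
    obtain ⟨R', S'⟩ := p'
    have e1 : R = R' := congrArg Prod.fst hff
    subst e1
    have e2 := congrArg Prod.snd hff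
    simp only [f] at e2
    simp only at hp2 hp4 hp6 hq4 hq6
    -- the difference
    have hD : S - S' = (c0 S - c0 S') ^ 3 + X * (c1 S - c1 S') ^ 3 + X ^ 2 * (c2 S - c2 S') ^ 3 := by
      have hS := hc S
      have hS' := hc S'
      have h3 := three (F := F)
      have e3 : ∀ x y : F[X], (x - y) ^ 3 = x ^ 3 - y ^ 3 := by
        intro x y
        linear_combination (-(x * y * (x - y))) * h3
      rw [e3, e3, e3]
      linear_combination hS - hS'
    have hW : P ^ (3 * e) ∣ Wr R (S - S') := by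
      rw [wr_sub]
      exact dvd_sub hp4 hq4
    rw [hD] at hW
    have hW' : P ^ (3 * e) ∣ Wr (c0 R ^ 3 + X * c1 R ^ 3 + X ^ 2 * c2 R ^ 3)
        ((c0 S - c0 S') ^ 3 + X * (c1 S - c1 S') ^ 3 + X ^ 2 * (c2 S - c2 S') ^ 3) := by
      rw [← hc R]
      exact hW
    obtain ⟨k1, k2, k3⟩ := key hP hW'
    have hmod : ∀ x y : F[X], x %ₘ (P ^ e) = y %ₘ (P ^ e) → P ^ e ∣ x - y := by
      intro x y hxy
      rw [← modByMonic_eq_zero_iff_dvd hmon, sub_modByMonic, hxy, sub_self]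
    have hall : P ^ e ∣ c0 S - c0 S' ∧ P ^ e ∣ c1 S - c1 S' ∧ P ^ e ∣ c2 S - c2 S' := by
      by_cases h0 : P ∣ c0 R
      · by_cases h1 : P ∣ c1 R
        · have h2 : ¬ P ∣ c2 R := by
            intro h2
            apply hp2
            rw [hc R]
            exact dvd_add (dvd_add (pow_dvd_pow_of_dvd h0 3)
              ((pow_dvd_pow_of_dvd h1 3).mul_left _)) ((pow_dvd_pow_of_dvd h2 3).mul_left _)
          rw [if_neg (not_not.2 h0), if_neg (not_not.2 h1), if_neg (not_not.2 h0),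
            if_neg (not_not.2 h1)] at e2
          have h3 := hmod _ _ e2
          exact ⟨(k3 h2 h3).1, (k3 h2 h3).2, h3⟩
        · rw [if_neg (not_not.2 h0), if_pos h1, if_neg (not_not.2 h0), if_pos h1] at e2
          have h3 := hmod _ _ e2
          exact ⟨(k2 h1 h3).1, h3, (k2 h1 h3).2⟩
      · rw [if_pos h0, if_pos h0] at e2
        have h3 := hmod _ _ e2
        exact ⟨h3, (k1 h0 h3).1, (k1 h0 h3).2⟩
    have hdiv : P ^ (3 * e) ∣ S - S' := by
      rw [hD, mul_comm 3 e, pow_mul]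
      exact dvd_add (dvd_add (pow_dvd_pow_of_dvd hall.1 3)
        ((pow_dvd_pow_of_dvd hall.2.1 3).mul_left _)) ((pow_dvd_pow_of_dvd hall.2.2 3).mul_left _)
    have hdeg : (S - S').degree < (P ^ (3 * e)).degree := by
      have hm3 : (P ^ (3 * e)).Monic := hM.pow _
      rw [degree_eq_natDegree hm3.ne_zero, hM.natDegree_pow, hd]
      rw [hB0.1] at hp6 hq6
      have e4 : 3 * e * d = 3 * (d * e) := by ring
      rw [e4]
      exact (degree_sub_le _ _).trans_lt (max_lt hp6 hq6)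
    have h0 := eq_zero_of_dvd_of_degree_lt hdiv hdeg
    rw [sub_eq_zero.1 h0]

/-- the `R` divisible by `P ^ 3` -/
theorem nonprim (hB0 : S_B0 F) {P : F[X]} {d : ℕ} (hM : P.Monic)
    (hd : P.natDegree = d) (hP : Irreducible P) (e : ℕ) :
    ((NS P d (e + 1)).filter (fun p => P ^ 3 ∣ p.1)).card ≤
      (NS P d e).card * Fintype.card F ^ (3 * d) := by
  have hd0 : 0 < d := by
    rw [← hd]
    exact hP.natDegree_pos
  rw [← hB0.2.2.2.1, ← Finset.card_product]
  have hm3 : (P ^ 3).Monic := hM.pow _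
  have hme : (P ^ (3 * e)).Monic := hM.pow _
  refine (Finset.card_le_card (t := (NS P d e ×ˢ POL F (3 * d)).image
    (fun x => (P ^ 3 * x.1.1, x.1.2 + P ^ (3 * e) * x.2))) ?_).trans Finset.card_image_le
  intro p hp
  obtain ⟨hp1, hp2⟩ := Finset.mem_filter.1 hp
  obtain ⟨hp3, hp4⟩ := Finset.mem_filter.1 hp1
  obtain ⟨hp5, hp6⟩ := Finset.mem_product.1 hp3
  obtain ⟨R, S⟩ := p
  simp only at hp2 hp4 hp5 hp6
  obtain ⟨R₁, rfl⟩ := hp2
  rw [hB0.1] at hp5 hp6
  have hpos : 0 < 3 * (d * (e + 1)) := by positivity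
  have hnS := natDegree_lt' hpos hp6
  set S₁ := S %ₘ (P ^ (3 * e)) with hS₁
  set T := S /ₘ (P ^ (3 * e)) with hT
  have hST : S₁ + P ^ (3 * e) * T = S := modByMonic_add_div S (P ^ (3 * e))
  have hnT : T.degree < ((3 * d : ℕ) : WithBot ℕ) := by
    apply degree_lt'
    rw [hT, natDegree_divByMonic _ hme, hM.natDegree_pow, hd]
    have e1 : 3 * (d * (e + 1)) = 3 * e * d + 3 * d := by ring
    omega
  have hnS₁ : S₁.degree < ((3 * (d * e) : ℕ) : WithBot ℕ) := by
    refine (degree_modByMonic_lt _ hme).trans_le ?_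
    rw [degree_eq_natDegree hme.ne_zero, hM.natDegree_pow, hd]
    have e1 : 3 * e * d = 3 * (d * e) := by ring
    rw [e1]
  have hnR₁ : R₁.degree < ((3 * (d * e) : ℕ) : WithBot ℕ) := by
    by_cases h0 : R₁ = 0
    · rw [h0, degree_zero]
      exact WithBot.bot_lt_coe _
    · have h1 := natDegree_lt' hpos hp5
      rw [natDegree_mul hm3.ne_zero h0, hM.natDegree_pow, hd] at h1
      apply degree_lt'
      have e1 : 3 * (d * (e + 1)) = 3 * (d * e) + 3 * d := by ring
      omega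
  refine Finset.mem_image.2 ⟨((R₁, S₁), T), ?_, ?_⟩
  · refine Finset.mem_product.2 ⟨Finset.mem_filter.2 ⟨Finset.mem_product.2 ⟨?_, ?_⟩, ?_⟩, ?_⟩
    · rw [hB0.1]
      exact hnR₁
    · rw [hB0.1]
      exact hnS₁
    · show P ^ (3 * e) ∣ Wr R₁ S₁
      have e1 : Wr (P ^ 3 * R₁) S = P ^ 3 * Wr R₁ S := by
        unfold Wr
        rw [dcube_mul]
        ring
      have e2 : P ^ (3 * (e + 1)) = P ^ 3 * P ^ (3 * e) := by
        rw [← pow_add]
        congr 1
        ring
      rw [e1, e2] at hp4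
      have h1 : P ^ (3 * e) ∣ Wr R₁ S := (mul_dvd_mul_iff_left hm3.ne_zero).1 hp4
      have e3 : Wr R₁ S₁ = Wr R₁ S - P ^ (3 * e) * Wr R₁ T := by
        have e4 : derivative (P ^ (3 * e) * T) = P ^ (3 * e) * derivative T := by
          rw [mul_comm 3 e, pow_mul, dcube_mul]
        rw [← hST]
        unfold Wr
        rw [derivative_add, e4]
        ring
      rw [e3]
      exact dvd_sub h1 (dvd_mul_right _ _)
    · rw [hB0.1]
      exact hnT
  · show (P ^ 3 * R₁, S₁ + P ^ (3 * e) * T) = (P ^ 3 * R₁, S)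
    rw [hST]

theorem count (hB0 : S_B0 F) (hB1 : S_B1 F) {P : F[X]} {d : ℕ} (hM : P.Monic)
    (hd : P.natDegree = d) (hP : Irreducible P) : ∀ e : ℕ,
    (NS P d e).card ≤ 2 * Fintype.card F ^ (4 * (d * e)) := by
  have hd0 : 0 < d := by
    rw [← hd]
    exact hP.natDegree_pos
  have hq : 2 ≤ Fintype.card F := Fintype.one_lt_card
  intro e
  induction e with
  | zero =>
    have h1 : (NS P d 0).card ≤ (POL F (3 * (d * 0)) ×ˢ POL F (3 * (d * 0))).card :=
      Finset.card_filter_le _ _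
    rw [Finset.card_product, hB0.2.2.2.1] at h1
    simp only [mul_zero, pow_zero, mul_one] at h1 ⊢
    omega
  | succ e ih =>
    have h1 := prim hB0 hB1 hM hd hP (e + 1)
    have h2 := nonprim hB0 hM hd hP e
    have h3 : (NS P d (e + 1)).card = ((NS P d (e + 1)).filter (fun p => P ^ 3 ∣ p.1)).card +
        ((NS P d (e + 1)).filter (fun p => ¬ P ^ 3 ∣ p.1)).card :=
      (Finset.card_filter_add_card_filter_not _).symm
    have h4 : (NS P d e).card * Fintype.card F ^ (3 * d) ≤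
        Fintype.card F ^ (4 * (d * (e + 1))) := by
      calc (NS P d e).card * Fintype.card F ^ (3 * d)
          ≤ 2 * Fintype.card F ^ (4 * (d * e)) * Fintype.card F ^ (3 * d) :=
            Nat.mul_le_mul_right _ ih
        _ ≤ Fintype.card F ^ d * Fintype.card F ^ (4 * (d * e)) * Fintype.card F ^ (3 * d) := by
            apply Nat.mul_le_mul_right
            apply Nat.mul_le_mul_right
            calc 2 ≤ Fintype.card F := hq
              _ = Fintype.card F ^ 1 := (pow_one _).symm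
              _ ≤ Fintype.card F ^ d := Nat.pow_le_pow_right (by omega) hd0
        _ = Fintype.card F ^ (4 * (d * (e + 1))) := by
            rw [← pow_add, ← pow_add]
            congr 1
            ring
    omega

end XW7c

open XW7c

variable (F : Type) [Field F] [Fintype F] [CharP F 3]

theorem p_W7c (hB0 : DH.S_B0 F) (hB1 : DH.S_B1 F) : S_W7c F := by
  intro d e P hPM hP _
  obtain ⟨hM, hd⟩ := (hB0.2.1 d P).1 hPM
  have h1 := count hB0 hB1 hM hd hP e
  refine ⟨h1, le_trans (Finset.card_le_card ?_) h1⟩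
  intro p hp
  obtain ⟨hp1, hp2⟩ := Finset.mem_filter.1 hp
  have e1 : (P ^ e).natDegree = d * e := by
    rw [hM.natDegree_pow, hd, mul_comm]
  rw [e1] at hp1
  refine Finset.mem_filter.2 ⟨hp1, ?_⟩
  have h2 := hp2.1
  rw [← pow_mul, mul_comm e 3] at h2
  exact h2

end PP
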