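import Pool.Agent.H461.PP.Stm3

/-!
# W7d: the sum of `6 ^ Ω` over the squarefree polynomials of degree `d`, by helper550
-/

set_option autoImplicit false

open Polynomial
open scoped Classical

noncomputable section

namespace PP

open DH

namespace XW7d

open UniqueFactorizationMonoid

/-- the number of prime factors -/
def Om {F : Type} [Field F] (h : F[X]) : ℕ := Multiset.card (normalizedFactors h)

variable (F : Type) [Field F] [Fintype F] [CharP F 3]

variable {F}

/-- the product of a set of normalized prime factors -/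
def pr (S : Finset F[X]) : F[X] := S.val.prod

omit [Fintype F] [CharP F 3] in
theorem nf_pr {h : F[X]} {S : Finset F[X]} (hS : S ⊆ (normalizedFactors h).toFinset) :
    normalizedFactors (pr S) = S.val := by
  have hm : ∀ P ∈ S.val, P ∈ normalizedFactors h := fun P hP =>
    Multiset.mem_toFinset.1 (hS hP)
  rw [pr, normalizedFactors_prod_eq _ fun P hP => irreducible_of_normalized_factor P (hm P hP)]
  conv_rhs => rw [← Multiset.map_id' S.val]
  exact Multiset.map_congr rfl fun P hP => normalize_normalized_factor P (hm P hP)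

omit [Fintype F] [CharP F 3] in
theorem monic_pr {h : F[X]} {S : Finset F[X]} (hS : S ⊆ (normalizedFactors h).toFinset) :
    (pr S).Monic := by
  unfold pr
  have h1 := monic_multiset_prod_of_monic S.val (fun P => P) (by
    intro P hP
    have h2 : P ∈ normalizedFactors h := Multiset.mem_toFinset.1 (hS hP)
    have h3 : P ≠ 0 := (irreducible_of_normalized_factor P h2).ne_zero
    exact (normalize_eq_self_iff_monic h3).1 (normalize_normalized_factor P h2))
  rwa [Multiset.map_id'] at h1

omit [Fintype F] [CharP F 3] in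
theorem pr_dvd {h : F[X]} (h0 : h ≠ 0) {S : Finset F[X]}
    (hS : S ⊆ (normalizedFactors h).toFinset) : pr S ∣ h := by
  have h1 : S.val ≤ normalizedFactors h := by
    refine (Multiset.le_iff_subset S.nodup).2 fun P hP => Multiset.mem_toFinset.1 (hS hP)
  exact (Multiset.prod_dvd_prod_of_le h1).trans (prod_normalizedFactors h0).dvd

/-- the monic divisors of degree at most `m` -/
def dv (m : ℕ) (h : F[X]) : Finset F[X] :=
  (Finset.range (m + 1)).biUnion fun j => (MON F j).filter (fun a => a ∣ h)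

/-- the inequality for one polynomial -/
theorem one (hB0 : S_B0 F) (k : ℕ) {m : ℕ} {h : F[X]} (hm : h.Monic) (hs : Squarefree h)
    (hd : h.natDegree ≤ m) : ((k : ℝ) + 1) ^ Om h ≤
      ∑ j ∈ Finset.range (m + 1), ∑ a ∈ (MON F j).filter (fun a => a ∣ h), (k : ℝ) ^ Om a := by
  have h0 : h ≠ 0 := hm.ne_zero
  have hnd : (normalizedFactors h).Nodup := (squarefree_iff_nodup_normalizedFactors h0).1 hs
  obtain ⟨T, hT⟩ : ∃ T : Finset F[X], T = (normalizedFactors h).toFinset := ⟨_, rfl⟩
  have hcard : Om h = T.card := by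
    rw [hT, Multiset.toFinset_card_of_nodup hnd]
    rfl
  rw [hcard, ← Finset.sum_pow_mul_eq_add_pow]
  have hmem : ∀ j a, a ∈ MON F j ↔ a.Monic ∧ a.natDegree = j := hB0.2.1
  have hdis : ∀ i ∈ Finset.range (m + 1), ∀ j ∈ Finset.range (m + 1), i ≠ j →
      Disjoint ((MON F i).filter (fun a => a ∣ h)) ((MON F j).filter (fun a => a ∣ h)) := by
    intro i _ j _ hij
    rw [Finset.disjoint_left]
    intro a ha hb
    exact hij (((hmem i a).1 (Finset.mem_filter.1 ha).1).2.symm.trans
      ((hmem j a).1 (Finset.mem_filter.1 hb).1).2)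
  have e1 := Finset.sum_biUnion (f := fun a : F[X] => (k : ℝ) ^ Om a) hdis
  rw [← e1]
  have hinj : ∀ S ∈ T.powerset, ∀ S' ∈ T.powerset, pr S = pr S' → S = S' := by
    intro S hS S' hS' he
    rw [hT] at hS hS'
    have h1 := nf_pr (Finset.mem_powerset.1 hS)
    rw [he, nf_pr (Finset.mem_powerset.1 hS')] at h1
    exact (Finset.val_injective h1).symm
  have e2 : ∑ S ∈ T.powerset, (k : ℝ) ^ S.card * 1 ^ (T.card - S.card) =
      ∑ a ∈ T.powerset.image pr, (k : ℝ) ^ Om a := by
    rw [Finset.sum_image hinj]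
    refine Finset.sum_congr rfl fun S hS => ?_
    rw [hT] at hS
    rw [one_pow, mul_one, Om, nf_pr (Finset.mem_powerset.1 hS)]
    rfl
  rw [e2]
  refine Finset.sum_le_sum_of_subset_of_nonneg ?_ fun a _ _ => by positivity
  intro a ha
  obtain ⟨S, hS, rfl⟩ := Finset.mem_image.1 ha
  rw [hT] at hS
  have hS' := Finset.mem_powerset.1 hS
  have h2 := pr_dvd h0 hS'
  refine Finset.mem_biUnion.2 ⟨(pr S).natDegree, ?_, Finset.mem_filter.2
    ⟨(hmem _ _).2 ⟨monic_pr hS', rfl⟩, h2⟩⟩
  rw [Finset.mem_range]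
  have h3 := natDegree_le_of_dvd h2 h0
  omega

/-- multiples of `a` of degree `d` -/
theorem mult (hB0 : S_B0 F) {j d : ℕ} (hj : j ≤ d) {a : F[X]} (ha : a ∈ MON F j) :
    (((MON F d).filter (fun h => a ∣ h)).card : ℝ) ≤ qq F ^ (d - j) := by
  have hmem : ∀ j a, a ∈ MON F j ↔ a.Monic ∧ a.natDegree = j := hB0.2.1
  obtain ⟨h1, h2⟩ := (hmem j a).1 ha
  have h3 : (MON F d).filter (fun h => a ∣ h) ⊆ (MON F (d - j)).image (fun b => a * b) := by
    intro h hh
    obtain ⟨h4, b, rfl⟩ := Finset.mem_filter.1 hh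
    obtain ⟨h5, h6⟩ := (hmem d _).1 h4
    refine Finset.mem_image.2 ⟨b, (hmem _ _).2 ⟨h1.of_mul_monic_left h5, ?_⟩, rfl⟩
    rw [h1.natDegree_mul (h1.of_mul_monic_left h5), h2] at h6
    omega
  have h4 := (Finset.card_le_card h3).trans Finset.card_image_le
  rw [hB0.2.2.2.2.1] at h4
  unfold qq
  exact_mod_cast h4

/-- the sum of `k ^ Ω` over the squarefree monic polynomials of degree `d` -/
def A (F : Type) [Field F] [Fintype F] (k d : ℕ) : ℝ :=
  ∑ h ∈ (MON F d).filter (fun h => Squarefree h), (k : ℝ) ^ Om h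

theorem step (hB0 : S_B0 F) (k d : ℕ) :
    A F (k + 1) d ≤ ∑ j ∈ Finset.range (d + 1), qq F ^ (d - j) * A F k j := by
  have hmem : ∀ j a, a ∈ MON F j ↔ a.Monic ∧ a.natDegree = j := hB0.2.1
  have h1 : A F (k + 1) d ≤ ∑ h ∈ (MON F d).filter (fun h => Squarefree h),
      ∑ j ∈ Finset.range (d + 1), ∑ a ∈ (MON F j).filter (fun a => a ∣ h), (k : ℝ) ^ Om a := by
    refine Finset.sum_le_sum fun h hh => ?_
    obtain ⟨h2, h3⟩ := Finset.mem_filter.1 hh
    obtain ⟨h4, h5⟩ := (hmem d h).1 h2
    push_cast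
    exact one hB0 k h4 h3 h5.le
  refine h1.trans ?_
  rw [Finset.sum_comm]
  refine Finset.sum_le_sum fun j hj => ?_
  have hjd : j ≤ d := by
    have := Finset.mem_range.1 hj
    omega
  have e1 : ∑ h ∈ (MON F d).filter (fun h => Squarefree h),
      ∑ a ∈ (MON F j).filter (fun a => a ∣ h), (k : ℝ) ^ Om a =
      ∑ a ∈ MON F j, ∑ h ∈ (MON F d).filter (fun h => Squarefree h),
        if a ∣ h then (k : ℝ) ^ Om a else 0 := by
    rw [Finset.sum_comm]
    refine Finset.sum_congr rfl fun h _ => ?_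
    rw [Finset.sum_filter]
  rw [e1, A, Finset.mul_sum, Finset.sum_filter (s := MON F j)]
  refine Finset.sum_le_sum fun a ha => ?_
  rw [← Finset.sum_filter, Finset.sum_const, nsmul_eq_mul]
  split_ifs with hsq
  · refine mul_le_mul_of_nonneg_right ?_ (by positivity)
    refine le_trans ?_ (mult hB0 hjd ha)
    have h2 : ((MON F d).filter (fun h => Squarefree h)).filter (fun h => a ∣ h) ⊆
        (MON F d).filter (fun h => a ∣ h) := by
      intro h hh
      rw [Finset.mem_filter, Finset.mem_filter] at hh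
      exact Finset.mem_filter.2 ⟨hh.1.1, hh.2⟩
    exact_mod_cast Finset.card_le_card h2
  · have h2 : ((MON F d).filter (fun h => Squarefree h)).filter (fun h => a ∣ h) = ∅ := by
      rw [Finset.filter_eq_empty_iff]
      intro h hh hah
      exact hsq ((Finset.mem_filter.1 hh).2.squarefree_of_dvd hah)
    rw [h2]
    simp

theorem bound (hB0 : S_B0 F) (k : ℕ) : ∀ d : ℕ,
    A F (k + 1) d ≤ ((d : ℝ) + 1) ^ k * qq F ^ d := by
  have hq : 0 ≤ qq F := by
    unfold qq
    positivity
  induction k with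
  | zero =>
    intro d
    have h1 : A F (0 + 1) d ≤ ((MON F d).card : ℝ) := by
      unfold A
      have h2 : ∀ h ∈ (MON F d).filter (fun h => Squarefree h),
          (((0 + 1 : ℕ) : ℝ)) ^ Om h = 1 := fun h _ => by simp
      rw [Finset.sum_congr rfl h2, Finset.sum_const, nsmul_eq_mul, mul_one]
      exact_mod_cast Finset.card_le_card (Finset.filter_subset _ _)
    refine h1.trans (le_of_eq ?_)
    rw [hB0.2.2.2.2.1]
    unfold qq
    push_cast
    ring
  | succ k ih =>
    intro d
    refine (step hB0 (k + 1) d).trans ?_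
    have h1 : ∀ j ∈ Finset.range (d + 1), qq F ^ (d - j) * A F (k + 1) j ≤
        ((d : ℝ) + 1) ^ k * qq F ^ d := by
      intro j hj
      have hjd : j ≤ d := by
        have := Finset.mem_range.1 hj
        omega
      have h2 : ((j : ℝ) + 1) ^ k ≤ ((d : ℝ) + 1) ^ k := by
        have : (j : ℝ) ≤ d := by exact_mod_cast hjd
        gcongr
      calc qq F ^ (d - j) * A F (k + 1) j
          ≤ qq F ^ (d - j) * (((j : ℝ) + 1) ^ k * qq F ^ j) :=
            mul_le_mul_of_nonneg_left (ih j) (by positivity)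
        _ = ((j : ℝ) + 1) ^ k * (qq F ^ (d - j) * qq F ^ j) := by ring
        _ = ((j : ℝ) + 1) ^ k * qq F ^ d := by
            rw [← pow_add, Nat.sub_add_cancel hjd]
        _ ≤ ((d : ℝ) + 1) ^ k * qq F ^ d := mul_le_mul_of_nonneg_right h2 (by positivity)
    refine (Finset.sum_le_sum h1).trans (le_of_eq ?_)
    rw [Finset.sum_const, Finset.card_range, nsmul_eq_mul]
    push_cast
    ring

end XW7d

/-- W7d -/
theorem p_W7d (F : Type) [Field F] [Fintype F] [CharP F 3] (hB0 : DH.S_B0 F) : S_W7d F := by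
  intro d
  have h := XW7d.bound hB0 5 d
  refine le_trans (le_of_eq ?_) h
  unfold XW7d.A om6 XW7d.Om
  refine Finset.sum_congr rfl fun h _ => ?_
  norm_num

end PP
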