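import Pool.Agent.H461.PP.Stm3

open Polynomial
open scoped Classical

noncomputable section

namespace PP

open DH

namespace XW7e

variable {F : Type} [Field F] [Fintype F] [CharP F 3]

/-- The monic divisors. -/
def Dv (W : F[X]) : Finset F[X] :=
  (Finset.range (W.natDegree + 1)).biUnion (fun k => (MON F k).filter (fun a => a ∣ W))

theorem mem_Dv (hB0 : S_B0 F) {W a : F[X]} (hW : W ≠ 0) : a ∈ Dv W ↔ a.Monic ∧ a ∣ W := by
  unfold Dv
  simp only [Finset.mem_biUnion, Finset.mem_range, Finset.mem_filter, hB0.2.1]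
  constructor
  · rintro ⟨k, -, ⟨h1, -⟩, h2⟩
    exact ⟨h1, h2⟩
  · rintro ⟨h1, h2⟩
    exact ⟨a.natDegree, Nat.lt_succ_of_le (natDegree_le_of_dvd h2 hW), ⟨h1, rfl⟩, h2⟩

theorem tau_eq (hB0 : S_B0 F) (W : F[X]) : tau W = (Dv W).card := by
  unfold tau Dv
  rw [Finset.card_biUnion]
  intro i _ j _ hij
  rw [Function.onFun, Finset.disjoint_left]
  intro a ha hb
  rw [Finset.mem_filter, hB0.2.1] at ha hb
  exact hij (ha.1.2.symm.trans hb.1.2)

theorem tau_mul (hB0 : S_B0 F) {a b : F[X]} (ha : a.Monic) (hb : b.Monic) (hab : IsCoprime a b) :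
    tau a * tau b ≤ tau (a * b) := by
  rw [tau_eq hB0, tau_eq hB0, tau_eq hB0, ← Finset.card_product]
  refine Finset.card_le_card_of_injOn (fun p => p.1 * p.2) ?_ ?_
  · rintro ⟨c, d⟩ h
    rw [Finset.mem_coe, Finset.mem_product, mem_Dv hB0 ha.ne_zero, mem_Dv hB0 hb.ne_zero] at h
    rw [Finset.mem_coe, mem_Dv hB0 (ha.mul hb).ne_zero]
    exact ⟨h.1.1.mul h.2.1, mul_dvd_mul h.1.2 h.2.2⟩
  · rintro ⟨c, d⟩ h ⟨c', d'⟩ h' he
    rw [Finset.mem_coe, Finset.mem_product, mem_Dv hB0 ha.ne_zero, mem_Dv hB0 hb.ne_zero] at h h'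
    simp only at he h h'
    obtain ⟨⟨hc, hca⟩, hd, hdb⟩ := h
    obtain ⟨⟨hc', hca'⟩, hd', hdb'⟩ := h'
    have e1 : IsCoprime c d' := (hab.of_isCoprime_of_dvd_left hca).of_isCoprime_of_dvd_right hdb'
    have e2 : IsCoprime c' d := (hab.of_isCoprime_of_dvd_left hca').of_isCoprime_of_dvd_right hdb
    have f1 : c ∣ c' := e1.dvd_of_dvd_mul_right (by rw [← he]; exact dvd_mul_right _ _)
    have f2 : c' ∣ c := e2.dvd_of_dvd_mul_right (by rw [he]; exact dvd_mul_right _ _)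
    have g1 : c = c' := eq_of_monic_of_associated hc hc' (associated_of_dvd_dvd f1 f2)
    subst g1
    have : d = d' := mul_left_cancel₀ hc.ne_zero he
    rw [this]

theorem tau_pos (hB0 : S_B0 F) {W : F[X]} (hW : W.Monic) : 1 ≤ tau W := by
  rw [tau_eq hB0, Nat.one_le_iff_ne_zero, Finset.card_ne_zero]
  exact ⟨1, (mem_Dv hB0 hW.ne_zero).mpr ⟨monic_one, one_dvd _⟩⟩

theorem tau_two (hB0 : S_B0 F) {W P : F[X]} (hW : W.Monic) (hP : P.Monic) (hi : Irreducible P) (hd : P ∣ W) :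
    2 ≤ tau W := by
  rw [tau_eq hB0]
  have h1 : ({1, P} : Finset F[X]) ⊆ Dv W := by
    intro x hx
    rw [Finset.mem_insert, Finset.mem_singleton] at hx
    rw [mem_Dv hB0 hW.ne_zero]
    rcases hx with rfl | rfl
    · exact ⟨monic_one, one_dvd _⟩
    · exact ⟨hP, hd⟩
  have h2 : ({1, P} : Finset F[X]).card = 2 := by
    refine Finset.card_pair ?_
    intro h
    exact hi.not_isUnit (h ▸ isUnit_one)
  rw [← h2]
  exact Finset.card_le_card h1

theorem om6_one : om6 (1 : F[X]) = 1 := by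
  unfold om6
  rw [UniqueFactorizationMonoid.normalizedFactors_one]
  simp

theorem om6_irr {P : F[X]} (hP : Irreducible P) : om6 P = 6 := by
  unfold om6
  rw [UniqueFactorizationMonoid.normalizedFactors_irreducible hP]
  simp

theorem om6_mul {a b : F[X]} (ha : a ≠ 0) (hb : b ≠ 0) : om6 (a * b) = om6 a * om6 b := by
  unfold om6
  rw [UniqueFactorizationMonoid.normalizedFactors_mul ha hb, Multiset.card_add, pow_add]

/-- The goal for one `h`. -/
def Q (h : F[X]) : Prop := ∃ h₁ a b : F[X], h₁.Monic ∧ a.Monic ∧ b.Monic ∧ Squarefree h₁ ∧ h = h₁ * a ^ 2 * b ^ 3 ∧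
    ((BB h).card : ℝ) ≤ om6 h₁ * qq F ^ (3 * h₁.natDegree) * (tau a : ℝ) * (tau b : ℝ) * qq F ^ (4 * (2 * a.natDegree + 3 * b.natDegree))

theorem Q_one (hB0 : S_B0 F) : Q (1 : F[X]) := by
  refine ⟨1, 1, 1, monic_one, monic_one, monic_one, squarefree_one, by ring, ?_⟩
  have h1 : (BB (1 : F[X])).card ≤ 1 := by
    unfold BB
    refine (Finset.card_filter_le _ _).trans ?_
    rw [Finset.card_product, natDegree_one, hB0.2.2.2.1]
    simp
  have h2 : (1 : ℝ) ≤ tau (1 : F[X]) := by exact_mod_cast tau_pos hB0 monic_one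
  have h3 : ((BB (1 : F[X])).card : ℝ) ≤ 1 := by exact_mod_cast h1
  rw [om6_one, natDegree_one]
  simp only [mul_zero, pow_zero, one_mul, mul_one, add_zero]
  nlinarith

theorem Q_pow (hB0 : S_B0 F) (hb : S_W7b F) (hc : S_W7c F) {P : F[X]} (hP : P.Monic) (hi : Irreducible P) (e : ℕ) :
    Q (P ^ e) := by
  have hmem : P ∈ MON F P.natDegree := (hB0.2.1 _ _).mpr ⟨hP, rfl⟩
  have ht1 : (1 : ℝ) ≤ tau (1 : F[X]) := by exact_mod_cast tau_pos hB0 monic_one
  rcases Nat.lt_or_ge e 2 with he | he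
  · interval_cases e
    · rw [pow_zero]; exact Q_one hB0
    · rw [pow_one]
      refine ⟨P, 1, 1, hP, monic_one, monic_one, hi.squarefree, by ring, ?_⟩
      have h1 : ((BB P).card : ℝ) ≤ 6 * qq F ^ (3 * P.natDegree) := by
        unfold qq
        exact_mod_cast hb _ P hmem hi
      rw [om6_irr hi, natDegree_one]
      simp only [mul_zero, pow_zero, mul_one, add_zero]
      have h2 : (0 : ℝ) ≤ 6 * qq F ^ (3 * P.natDegree) := by unfold qq; positivity
      refine h1.trans ?_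
      have h3 : (1 : ℝ) ≤ (tau (1 : F[X]) : ℝ) * (tau (1 : F[X]) : ℝ) := by nlinarith
      calc 6 * qq F ^ (3 * P.natDegree) = 6 * qq F ^ (3 * P.natDegree) * 1 := by ring
        _ ≤ 6 * qq F ^ (3 * P.natDegree) * ((tau (1 : F[X]) : ℝ) * (tau (1 : F[X]) : ℝ)) :=
          mul_le_mul_of_nonneg_left h3 h2
        _ = _ := by ring
  · have h1 : ((BB (P ^ e)).card : ℝ) ≤ 2 * qq F ^ (4 * (P.natDegree * e)) := by
      unfold qq
      exact_mod_cast (hc _ e P hmem hi (by omega)).2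
    have h2 : (0 : ℝ) ≤ qq F ^ (4 * (P.natDegree * e)) := by unfold qq; positivity
    rcases Nat.even_or_odd' e with ⟨m, hm | hm⟩
    · refine ⟨1, P ^ m, 1, monic_one, hP.pow m, monic_one, squarefree_one, ?_, ?_⟩
      · rw [hm, ← pow_mul]; ring
      · have h3 : (2 : ℝ) ≤ tau (P ^ m) := by
          exact_mod_cast tau_two hB0 (hP.pow m) hP hi (dvd_pow_self P (by omega))
        rw [om6_one, natDegree_one, hP.natDegree_pow]
        simp only [mul_zero, pow_zero, one_mul, mul_one, add_zero]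
        rw [show 4 * (2 * (m * P.natDegree)) = 4 * (P.natDegree * e) by rw [hm]; ring]
        refine h1.trans (mul_le_mul_of_nonneg_right ?_ h2)
        nlinarith
    · obtain ⟨k, rfl⟩ : ∃ k, m = k + 1 := ⟨m - 1, by omega⟩
      refine ⟨1, P ^ k, P, monic_one, hP.pow k, hP, squarefree_one, ?_, ?_⟩
      · rw [hm, ← pow_mul]; ring
      · have h3 : (2 : ℝ) ≤ tau P := by
          exact_mod_cast tau_two hB0 hP hP hi (dvd_refl P)
        have h4 : (1 : ℝ) ≤ tau (P ^ k) := by exact_mod_cast tau_pos hB0 (hP.pow k)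
        rw [om6_one, natDegree_one, hP.natDegree_pow]
        simp only [mul_zero, pow_zero, one_mul]
        rw [show 4 * (2 * (k * P.natDegree) + 3 * P.natDegree) = 4 * (P.natDegree * e) by rw [hm]; ring]
        refine h1.trans (mul_le_mul_of_nonneg_right ?_ h2)
        nlinarith

theorem Q_mul (hB0 : S_B0 F) (ha : S_W7a F) {x y : F[X]} (hx : x.Monic) (hy : y.Monic) (hxy : IsCoprime x y)
    (h1 : Q x) (h2 : Q y) : Q (x * y) := by
  obtain ⟨u, a, b, hu, hma, hmb, hsu, hxe, hbx⟩ := h1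
  obtain ⟨u', a', b', hu', hma', hmb', hsu', hye, hby⟩ := h2
  have dux : u ∣ x := ⟨a ^ 2 * b ^ 3, by rw [hxe]; ring⟩
  have dax : a ∣ x := ⟨u * a * b ^ 3, by rw [hxe]; ring⟩
  have dbx : b ∣ x := ⟨u * a ^ 2 * b ^ 2, by rw [hxe]; ring⟩
  have duy : u' ∣ y := ⟨a' ^ 2 * b' ^ 3, by rw [hye]; ring⟩
  have day : a' ∣ y := ⟨u' * a' * b' ^ 3, by rw [hye]; ring⟩
  have dby : b' ∣ y := ⟨u' * a' ^ 2 * b' ^ 2, by rw [hye]; ring⟩
  have cu : IsCoprime u u' := (hxy.of_isCoprime_of_dvd_left dux).of_isCoprime_of_dvd_right duy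
  have ca : IsCoprime a a' := (hxy.of_isCoprime_of_dvd_left dax).of_isCoprime_of_dvd_right day
  have cb : IsCoprime b b' := (hxy.of_isCoprime_of_dvd_left dbx).of_isCoprime_of_dvd_right dby
  refine ⟨u * u', a * a', b * b', hu.mul hu', hma.mul hma', hmb.mul hmb', ?_, ?_, ?_⟩
  · exact squarefree_mul_iff.mpr ⟨cu.isRelPrime, hsu, hsu'⟩
  · rw [hxe, hye]; ring
  · have t1 : ((BB (x * y)).card : ℝ) ≤ (BB x).card * (BB y).card := by exact_mod_cast ha x y hx hy hxy
    have t2 : (tau a : ℝ) * tau a' ≤ tau (a * a') := by exact_mod_cast tau_mul hB0 hma hma' ca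
    have t3 : (tau b : ℝ) * tau b' ≤ tau (b * b') := by exact_mod_cast tau_mul hB0 hmb hmb' cb
    have t4 := mul_le_mul hbx hby (by positivity) (le_trans (by positivity) hbx)
    have t5 := mul_le_mul t2 t3 (by positivity) (by positivity)
    rw [om6_mul hu.ne_zero hu'.ne_zero, hu.natDegree_mul hu', hma.natDegree_mul hma', hmb.natDegree_mul hmb']
    have t6 : (0 : ℝ) ≤ om6 u * om6 u' * qq F ^ (3 * (u.natDegree + u'.natDegree)) *
        qq F ^ (4 * (2 * (a.natDegree + a'.natDegree) + 3 * (b.natDegree + b'.natDegree))) := by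
      unfold om6 qq; positivity
    have t7 := mul_le_mul_of_nonneg_left t5 t6
    refine t1.trans (t4.trans ?_)
    refine le_trans (le_of_eq ?_) (t7.trans (le_of_eq ?_))
    · rw [show 3 * (u.natDegree + u'.natDegree) = 3 * u.natDegree + 3 * u'.natDegree by ring,
        show 4 * (2 * (a.natDegree + a'.natDegree) + 3 * (b.natDegree + b'.natDegree)) =
          4 * (2 * a.natDegree + 3 * b.natDegree) + 4 * (2 * a'.natDegree + 3 * b'.natDegree) by ring,
        pow_add (qq F) (3 * u.natDegree), pow_add (qq F) (4 * (2 * a.natDegree + 3 * b.natDegree))]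
      ring
    · ring

/-- The monic associate. -/
def mk (x : F[X]) : F[X] := x * C (x.leadingCoeff)⁻¹

theorem mk_monic {x : F[X]} (hx : x ≠ 0) : (mk x).Monic := monic_mul_leadingCoeff_inv hx

theorem mk_mul (x y : F[X]) : mk (x * y) = mk x * mk y := by
  unfold mk
  rw [leadingCoeff_mul, mul_inv, C_mul]
  ring

theorem mk_pow (x : F[X]) (n : ℕ) : mk (x ^ n) = mk x ^ n := by
  unfold mk
  rw [leadingCoeff_pow, ← inv_pow, C_pow, mul_pow]

theorem isUnit_C {x : F[X]} (hx : x ≠ 0) : IsUnit (C (x.leadingCoeff)⁻¹ : F[X]) :=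
  Polynomial.isUnit_C.mpr (IsUnit.mk0 _ (inv_ne_zero (leadingCoeff_ne_zero.mpr hx)))

theorem all (hB0 : S_B0 F) (hW7a : S_W7a F) (hW7b : S_W7b F) (hW7c : S_W7c F) (h : F[X]) : h ≠ 0 → Q (mk h) := by
  refine UniqueFactorizationMonoid.induction_on_coprime (P := fun h => h ≠ 0 → Q (mk h)) h ?_ ?_ ?_ ?_
  · intro h0; exact absurd rfl h0
  · intro x hu h0
    have h1 : IsUnit (mk x) := hu.mul (isUnit_C h0)
    rw [(mk_monic h0).eq_one_of_isUnit h1]
    exact Q_one hB0
  · intro p i hp _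
    rw [mk_pow]
    refine Q_pow hB0 hW7b hW7c (mk_monic hp.ne_zero) ?_ i
    exact (irreducible_mul_isUnit (isUnit_C hp.ne_zero)).mpr hp.irreducible
  · intro x y hxy ihx ihy h0
    have hx : x ≠ 0 := left_ne_zero_of_mul h0
    have hy : y ≠ 0 := right_ne_zero_of_mul h0
    rw [mk_mul]
    refine Q_mul hB0 hW7a (mk_monic hx) (mk_monic hy) ?_ (ihx hx) (ihy hy)
    have h1 : IsCoprime x y := hxy.isCoprime
    have e1 : mk x ∣ x := by
      unfold mk
      exact (isUnit_C hx).mul_right_dvd.mpr (dvd_refl x)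
    have e2 : mk y ∣ y := by
      unfold mk
      exact (isUnit_C hy).mul_right_dvd.mpr (dvd_refl y)
    exact (h1.of_isCoprime_of_dvd_left e1).of_isCoprime_of_dvd_right e2

end XW7e

theorem p_W7e (F : Type) [Field F] [Fintype F] [CharP F 3] (hB0 : DH.S_B0 F) (hW7a : S_W7a F) (hW7b : S_W7b F)
    (hW7c : S_W7c F) : S_W7e F := by
  intro h hh
  have h1 := XW7e.all hB0 hW7a hW7b hW7c h hh.ne_zero
  have h2 : XW7e.mk h = h := by
    unfold XW7e.mk
    rw [hh.leadingCoeff, inv_one, C_1, mul_one]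
  rw [h2] at h1
  exact h1

end PP
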