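import Pool.Agent.H461.PP.Stm3

set_option autoImplicit false
set_option linter.unusedVariables false

open Polynomial
open scoped Classical

noncomputable section

namespace PP

open DH

namespace XW8

lemma card_ge_three (F : Type) [Field F] [Fintype F] [CharP F 3] : 3 ≤ Fintype.card F := by
  obtain ⟨n, _, h⟩ := FiniteField.card F 3
  rw [h]
  calc 3 = 3 ^ 1 := by norm_num
    _ ≤ 3 ^ (n : ℕ) := Nat.pow_le_pow_right (by norm_num) n.pos

lemma fin {q Q ε : ℝ} (hq : 3 ≤ q) (hQ : 0 < Q) (hε : 0 < ε) :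
    ε * Q + (1 + 10000 / q) * (Q * q + 1000 * Q) ≤ (1 + 4000000 / q + ε) * (Q * q) := by
  have hq0 : 0 < q := by linarith
  have e1 : (1 + 10000 / q) * (Q * q + 1000 * Q) = Q * q + 11000 * Q + 10000000 * Q / q := by
    field_simp
    ring
  have e2 : (1 + 4000000 / q + ε) * (Q * q) = Q * q + 4000000 * Q + ε * Q * q := by
    field_simp
  rw [e1, e2]
  have h1 : 10000000 * Q / q ≤ 10000000 * Q / 3 := by
    apply div_le_div_of_nonneg_left _ (by norm_num) hq
    positivity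
  have h2 : ε * Q ≤ ε * Q * q := by
    have : 0 < ε * Q := by positivity
    nlinarith
  linarith

end XW8

theorem p_W8 (F : Type) [Field F] [Fintype F] [CharP F 3] (hB0 : DH.S_B0 F) (hW2 : S_W2 F) (hW3 : S_W3 F)
    (hW4 : S_W4 F) (hW5 : S_W5 F) (hW6 : S_W6 F) (hW7 : S_W7 F) : S_W8 F := by
  intro ε hε
  obtain ⟨K, g₀, hK⟩ := hW2 ε hε
  refine ⟨4 * K + 3 + g₀, fun g hg => ?_⟩
  have hq3 : (3:ℝ) ≤ qq F := by
    have := XW8.card_ge_three F
    unfold DH.qq
    exact_mod_cast this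
  have hq0 : (0:ℝ) < qq F := by linarith
  have h1 := hK g (by omega)
  have h2 := hW3 g K
  have h3 := hW4 g K (by omega)
  have h6 := hW6 g K (by omega) (by omega)
  have h7 := hW7 K
  have hM0 : 0 ≤ ∑ p ∈ PG F g, om g K p := by
    apply Finset.sum_nonneg
    intro p _
    unfold om
    split_ifs
    · positivity
    · exact le_rfl
  have h4 : ∑ k ∈ Finset.range K, ∑ h ∈ MON F k, qq F ^ k * ∑ p ∈ (PG F g).filter (fun p => CH h p.1 p.2), om g K p
      = (∑ k ∈ Finset.range K, ∑ h ∈ MON F k, qq F ^ k * ((BB h).card : ℝ) / qq F ^ (6 * k)) *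
        ∑ p ∈ PG F g, om g K p := by
    rw [Finset.sum_mul]
    refine Finset.sum_congr rfl fun k hk => ?_
    rw [Finset.sum_mul]
    refine Finset.sum_congr rfl fun h hh => ?_
    rw [hW5 g K k h hh (by have := Finset.mem_range.mp hk; omega)]
    ring
  rw [h4] at h3
  have h5 : (∑ k ∈ Finset.range K, ∑ h ∈ MON F k, qq F ^ k * ((BB h).card : ℝ) / qq F ^ (6 * k)) *
        ∑ p ∈ PG F g, om g K p ≤ (1 + 10000 / qq F) * (qq F ^ (2 * g + 1) + 1000 * qq F ^ (2 * g)) :=
    mul_le_mul h7 h6 hM0 (by positivity)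
  have hQ : 0 < qq F ^ (2 * g) := by positivity
  have h8 : II F g ≤ ε * qq F ^ (2 * g) + (1 + 10000 / qq F) * (qq F ^ (2 * g + 1) + 1000 * qq F ^ (2 * g)) := by
    linarith
  refine h8.trans ?_
  have hpow : qq F ^ (2 * g + 1) = qq F ^ (2 * g) * qq F := pow_succ _ _
  rw [hpow]
  exact XW8.fin hq3 hQ hε

end PP
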