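import Pool.Agent.H461.PP.Stm3

/-!
# X1: the number of the `f` for a pair with the right leading coefficients (helper388)
-/

open Polynomial
open scoped Classical

set_option linter.unusedSectionVars false

noncomputable section

namespace PP

open DH

namespace XX1

section general

variable {F : Type} [Field F]

/-- The second coefficient from the top of a product. -/
theorem coeff_top2 (p r : F[X]) (a b : ℕ) (hp : p.natDegree ≤ a + 1) (hr : r.natDegree ≤ b + 1) :
    (p * r).coeff (a + b + 1) = p.coeff (a + 1) * r.coeff b + p.coeff a * r.coeff (b + 1) := by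
  have h1 : r = (r - C (r.coeff (b + 1)) * X ^ (b + 1)) + C (r.coeff (b + 1)) * X ^ (b + 1) := by ring
  have hr0 : (r - C (r.coeff (b + 1)) * X ^ (b + 1)).natDegree ≤ b := by
    rw [natDegree_le_iff_coeff_eq_zero]
    intro N hN
    rw [coeff_sub, coeff_C_mul_X_pow]
    by_cases h : N = b + 1
    · rw [if_pos h, h, sub_self]
    · rw [if_neg h, sub_zero]
      exact coeff_eq_zero_of_natDegree_lt (by omega)
  have hrb : (r - C (r.coeff (b + 1)) * X ^ (b + 1)).coeff b = r.coeff b := by
    rw [coeff_sub, coeff_C_mul_X_pow, if_neg (by omega), sub_zero]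
  have h2 : (p * (r - C (r.coeff (b + 1)) * X ^ (b + 1))).coeff (a + b + 1) =
      p.coeff (a + 1) * r.coeff b := by
    rw [show a + b + 1 = (a + 1) + b by ring, coeff_mul_add_eq_of_natDegree_le hp hr0, hrb]
  have h3 : (p * (C (r.coeff (b + 1)) * X ^ (b + 1))).coeff (a + b + 1) =
      p.coeff a * r.coeff (b + 1) := by
    rw [← mul_assoc, show a + b + 1 = a + (b + 1) by ring, coeff_mul_X_pow, coeff_mul_C]
  calc (p * r).coeff (a + b + 1)
      = (p * ((r - C (r.coeff (b + 1)) * X ^ (b + 1)) + C (r.coeff (b + 1)) * X ^ (b + 1))).coeff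
        (a + b + 1) := by rw [← h1]
    _ = _ := by rw [mul_add, coeff_add, h2, h3]

/-- The coefficients of the second derivative. -/
theorem coeff_D2 (G : F[X]) (j : ℕ) : (derivative (derivative G)).coeff j =
    G.coeff (j + 2) * (((j : F) + 2) * ((j : F) + 1)) := by
  rw [coeff_derivative, coeff_derivative]
  push_cast
  ring

theorem mem_POL_iff [Fintype F] [CharP F 3] (hB0 : DH.S_B0 F) (n : ℕ) (G : F[X]) :
    G ∈ POL F n ↔ ∀ m, n ≤ m → G.coeff m = 0 := by
  rw [hB0.1, degree_lt_iff_coeff_zero]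

/-- The coefficient of the Wronskian. -/
theorem coeff_Wr (R S : F[X]) (l : ℕ) (hR : R.natDegree ≤ l + 2) (hS : S.natDegree ≤ l + 2) :
    (Wr R S).coeff (2 * l + 2) =
      R.coeff (l + 2) * S.coeff (l + 1) - S.coeff (l + 2) * R.coeff (l + 1) := by
  have hR' : (derivative R).natDegree ≤ l + 1 := (natDegree_derivative_le R).trans (by omega)
  have hS' : (derivative S).natDegree ≤ l + 1 := (natDegree_derivative_le S).trans (by omega)
  unfold Wr
  have h1 := coeff_top2 (derivative R) S l (l + 1) hR' hS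
  have h2 := coeff_top2 (derivative S) R l (l + 1) hS' hR
  rw [coeff_sub, mul_comm R (derivative S), show 2 * l + 2 = l + (l + 1) + 1 by ring, h1, h2,
    coeff_derivative, coeff_derivative, coeff_derivative, coeff_derivative]
  push_cast
  ring

/-- The leading coefficient of `Mo`. -/
theorem coeff_Mo (R S : F[X]) (k : ℕ) (hR : R.natDegree ≤ k) (hS : S.natDegree ≤ k) :
    (Mo R S).coeff (4 * k) =
      R.coeff k * S.coeff k ^ 3 - R.coeff k ^ 3 * S.coeff k := by
  have hR3 : (R ^ 3).natDegree ≤ 3 * k := natDegree_pow_le_of_le 3 hR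
  have hS3 : (S ^ 3).natDegree ≤ 3 * k := natDegree_pow_le_of_le 3 hS
  unfold Mo
  have e1 : (R * S ^ 3).coeff (4 * k) = R.coeff k * S.coeff k ^ 3 := by
    rw [show 4 * k = k + 3 * k by ring, coeff_mul_add_eq_of_natDegree_le hR hS3,
      coeff_pow_of_natDegree_le hS]
  have e2 : (R ^ 3 * S).coeff (4 * k) = R.coeff k ^ 3 * S.coeff k := by
    rw [show 4 * k = 3 * k + k by ring, coeff_mul_add_eq_of_natDegree_le hR3 hS,
      coeff_pow_of_natDegree_le hR]
  rw [coeff_sub, e1, e2]

end general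

section char3

variable {F : Type} [Field F] [Fintype F] [CharP F 3]

theorem three_poly : (3 : F[X]) = 0 := by
  have h := CharP.cast_eq_zero F[X] 3
  exact_mod_cast h

theorem three_F : (3 : F) = 0 := by
  have h := CharP.cast_eq_zero F 3
  exact_mod_cast h

/-- `Wr` is in the kernel. -/
theorem D2_Wr (hB1 : DH.S_B1 F) (R S : F[X]) :
    derivative (derivative (Wr R S * R)) = 0 ∧ derivative (derivative (Wr R S * S)) = 0 := by
  have hR := hB1.2.2.1 R
  have hS := hB1.2.2.1 S
  have h3 := three_poly (F := F)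
  constructor
  · unfold Wr
    simp only [derivative_mul, derivative_sub, derivative_add]
    rw [hR, hS]
    linear_combination (derivative R * derivative (derivative R) * S -
      R * derivative R * derivative (derivative S)) * h3
  · unfold Wr
    simp only [derivative_mul, derivative_sub, derivative_add]
    rw [hR, hS]
    linear_combination (derivative S * derivative (derivative R) * S -
      R * derivative S * derivative (derivative S)) * h3

theorem D_cube (T : F[X]) : derivative (T ^ 3) = 0 := by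
  have h3 := three_poly (F := F)
  rw [derivative_pow]
  have e : (C ((3 : ℕ) : F) : F[X]) = 0 := by
    rw [CharP.cast_eq_zero F 3, C_0]
  rw [e]
  ring

/-- cube roots are unique -/
theorem cube_inj {x y : F} (h : x ^ 3 = y ^ 3) : x = y := by
  have h3 := three_F (F := F)
  have h1 : (x - y) ^ 3 = 0 := by
    linear_combination h + (-(x ^ 2 * y) + x * y ^ 2) * h3
  exact sub_eq_zero.1 (pow_eq_zero_iff (by norm_num) |>.1 h1)

/-- cube roots exist -/
theorem cube_root (hB1 : DH.S_B1 F) (x : F) : ∃ t : F, t ^ 3 = x := by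
  obtain ⟨A, hA⟩ := (hB1.1 (C x)).1 derivative_C
  refine ⟨A.coeff 0, ?_⟩
  have h1 : (A ^ 3).coeff 0 = A.coeff 0 ^ 3 := by
    rw [coeff_zero_eq_eval_zero, coeff_zero_eq_eval_zero, eval_pow]
  rw [← h1, ← hA, coeff_C_zero]

/-- The superset of the image. -/
def YY (F : Type) [Field F] [Fintype F] (k : ℕ) (t : F) : Finset (F[X] × F[X]) :=
  ((POL F (k + 1)) ×ˢ (POL F k)).image (fun p =>
    (p.1 ^ 3, (p.2 + C (t * p.1.coeff k) * X ^ k) ^ 3))

theorem card_YY (hB0 : DH.S_B0 F) (k : ℕ) (t : F) : (YY F k t).card ≤ Fintype.card F ^ (2 * k + 1) := by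
  refine Finset.card_image_le.trans ?_
  rw [Finset.card_product, hB0.2.2.2.1, hB0.2.2.2.1, ← pow_add]
  exact le_of_eq (by ring)

theorem natDegree_root {A U : F[X]} {k : ℕ} (hU : U = A ^ 3) (h : ∀ m, 3 * k + 1 ≤ m → U.coeff m = 0) :
    A.natDegree ≤ k := by
  by_contra hcon
  have h1 : U.natDegree = 3 * A.natDegree := by rw [hU, natDegree_pow]
  have hA : A ≠ 0 := by
    intro h0
    rw [h0, natDegree_zero] at hcon
    omega
  have hU0 : U ≠ 0 := by
    rw [hU]
    exact pow_ne_zero 3 hA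
  have h2 := h U.natDegree (by omega)
  exact hU0 (leadingCoeff_eq_zero.1 h2)

theorem mem_YY (hB0 : DH.S_B0 F) (hB1 : DH.S_B1 F) (k : ℕ) (t α β : F) (hα : α ≠ 0)
    (ht : t ^ 3 = β / α) (U T : F[X]) (hU : derivative U = 0) (hT : derivative T = 0)
    (hU2 : ∀ m, 3 * k + 1 ≤ m → U.coeff m = 0) (hT2 : ∀ m, 3 * k + 1 ≤ m → T.coeff m = 0)
    (hc : β * U.coeff (3 * k) = α * T.coeff (3 * k)) : (U, T) ∈ YY F k t := by
  obtain ⟨A, hA⟩ := (hB1.1 U).1 hU
  obtain ⟨B, hB⟩ := (hB1.1 T).1 hT
  have hAd := natDegree_root hA hU2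
  have hBd := natDegree_root hB hT2
  have hAc : U.coeff (3 * k) = A.coeff k ^ 3 := by
    rw [hA, coeff_pow_of_natDegree_le hAd]
  have hBc : T.coeff (3 * k) = B.coeff k ^ 3 := by
    rw [hB, coeff_pow_of_natDegree_le hBd]
  rw [hAc, hBc] at hc
  have hBk : t * A.coeff k = B.coeff k := by
    apply cube_inj
    rw [mul_pow, ht, div_mul_eq_mul_div, hc, mul_div_assoc, mul_comm, div_mul_cancel₀]
    exact hα
  unfold YY
  rw [Finset.mem_image]
  refine ⟨(A, B - C (B.coeff k) * X ^ k), ?_, ?_⟩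
  · rw [Finset.mem_product]
    refine ⟨(mem_POL_iff hB0 _ _).2 fun m hm => ?_, (mem_POL_iff hB0 _ _).2 fun m hm => ?_⟩
    · change A.coeff m = 0
      exact coeff_eq_zero_of_natDegree_lt (by omega)
    · change (B - C (B.coeff k) * X ^ k).coeff m = 0
      rw [coeff_sub, coeff_C_mul_X_pow]
      by_cases h : m = k
      · rw [if_pos h, h, sub_self]
      · rw [if_neg h, sub_zero]
        exact coeff_eq_zero_of_natDegree_lt (by omega)
  · change (A ^ 3, (B - C (B.coeff k) * X ^ k + C (t * A.coeff k) * X ^ k) ^ 3) = (U, T)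
    rw [hBk, sub_add_cancel, ← hA, ← hB]

/-- The linear map. -/
def Ph (R S h : F[X]) : F[X] × F[X] :=
  (derivative (derivative (h * R)), derivative (derivative (h * S)))

theorem Ph_add (R S a b : F[X]) : Ph R S (a + b) = Ph R S a + Ph R S b := by
  unfold Ph
  rw [Prod.mk_add_mk]
  simp only [add_mul, derivative_add]

theorem Ph_sub (R S a b : F[X]) : Ph R S (a - b) = Ph R S a - Ph R S b := by
  unfold Ph
  rw [Prod.mk_sub_mk]
  simp only [sub_mul, derivative_sub]

/-- all nonempty fibres have the same number of elements -/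
theorem card_fibre (hB0 : DH.S_B0 F) (R S : F[X]) (n : ℕ) (y : F[X] × F[X])
    (hy : y ∈ (POL F n).image (Ph R S)) :
    ((POL F n).filter (fun h => Ph R S h = y)).card =
      ((POL F n).filter (fun h => Ph R S h = 0)).card := by
  obtain ⟨h0, hh0, hy0⟩ := Finset.mem_image.1 hy
  have hc0 := (mem_POL_iff hB0 _ _).1 hh0
  symm
  refine Finset.card_bij (fun h _ => h + h0) ?_ ?_ ?_
  · intro h hh
    rw [Finset.mem_filter] at hh ⊢
    refine ⟨(mem_POL_iff hB0 _ _).2 fun m hm => ?_, ?_⟩
    · rw [coeff_add, (mem_POL_iff hB0 _ _).1 hh.1 m hm, hc0 m hm, add_zero]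
    · rw [Ph_add, hh.2, zero_add, hy0]
  · intro a _ b _ hab
    exact add_right_cancel hab
  · intro h hh
    rw [Finset.mem_filter] at hh
    refine ⟨h - h0, ?_, sub_add_cancel _ _⟩
    rw [Finset.mem_filter]
    refine ⟨(mem_POL_iff hB0 _ _).2 fun m hm => ?_, ?_⟩
    · rw [coeff_sub, (mem_POL_iff hB0 _ _).1 hh.1 m hm, hc0 m hm, sub_zero]
    · rw [Ph_sub, hh.2, hy0, sub_self]

theorem card_mul (hB0 : DH.S_B0 F) (R S : F[X]) (n : ℕ) :
    ((POL F n).image (Ph R S)).card * ((POL F n).filter (fun h => Ph R S h = 0)).card =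
      Fintype.card F ^ n := by
  rw [← hB0.2.2.2.1 n, Finset.card_eq_sum_card_image (Ph R S) (POL F n),
    Finset.sum_congr rfl (fun y hy => card_fibre hB0 R S n y hy), Finset.sum_const, smul_eq_mul]

/-- the kernel -/
theorem card_ker (hB0 : DH.S_B0 F) (hB1 : DH.S_B1 F) (hG1 : DH.S_G1 F) (R S : F[X]) (n : ℕ)
    (hW : Wr R S ≠ 0) (hcf : CubeFree (Wr R S)) (hn : n ≤ (Wr R S).natDegree + 6) :
    ((POL F n).filter (fun h => Ph R S h = 0)).card ≤ Fintype.card F ^ 2 := by
  have hne : derivative R * S ≠ R * derivative S := fun h => hW (sub_eq_zero.2 h)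
  obtain ⟨f₀, hmon, -, -, hall⟩ := hG1 R S (Wr R S) hne hW (D2_Wr hB1 R S).1 (D2_Wr hB1 R S).2
  obtain ⟨c₁, hc₁⟩ := (hall (Wr R S)).1 (D2_Wr hB1 R S)
  have hu : IsUnit c₁ := hcf c₁ (by rw [hc₁]; exact dvd_mul_left _ _)
  have hdeg : (Wr R S).natDegree = f₀.natDegree := by
    rw [hc₁, natDegree_mul hmon.ne_zero (pow_ne_zero 3 hu.ne_zero), natDegree_pow,
      natDegree_eq_zero_of_isUnit hu, mul_zero, add_zero]
  have hsub : (POL F n).filter (fun h => Ph R S h = 0) ⊆ (POL F 2).image (fun c => f₀ * c ^ 3) := by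
    intro h hh
    rw [Finset.mem_filter] at hh
    obtain ⟨h1, h2⟩ := hh
    have h3 : derivative (derivative (h * R)) = 0 ∧ derivative (derivative (h * S)) = 0 := by
      have h4 : (derivative (derivative (h * R)), derivative (derivative (h * S))) =
        ((0, 0) : F[X] × F[X]) := h2
      exact Prod.mk.inj h4
    obtain ⟨c, hc⟩ := (hall h).1 h3
    rw [Finset.mem_image]
    refine ⟨c, (mem_POL_iff hB0 _ _).2 fun m hm => ?_, hc.symm⟩
    by_cases hc0 : c = 0
    · rw [hc0, coeff_zero]
    · have h5 : h ≠ 0 := by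
        rw [hc]
        exact mul_ne_zero hmon.ne_zero (pow_ne_zero 3 hc0)
      have h6 : h.natDegree = f₀.natDegree + 3 * c.natDegree := by
        rw [hc, natDegree_mul hmon.ne_zero (pow_ne_zero 3 hc0), natDegree_pow]
      have h7 : h.natDegree < n := by
        by_contra hcon
        exact h5 (leadingCoeff_eq_zero.1 ((mem_POL_iff hB0 _ _).1 h1 _ (not_lt.1 hcon)))
      exact coeff_eq_zero_of_natDegree_lt (by omega)
  exact (Finset.card_le_card hsub).trans (Finset.card_image_le.trans_eq (hB0.2.2.2.1 2))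

theorem cast3 (l : ℕ) : (((3 * l + 6 : ℕ) : F) + 2) * (((3 * l + 6 : ℕ) : F) + 1) = -1 := by
  have h3 := three_F (F := F)
  push_cast
  linear_combination (3 * (l : F) ^ 2 + 15 * (l : F) + 19) * h3

end char3

end XX1

open XX1 in
theorem p_X1 (F : Type) [Field F] [Fintype F] [CharP F 3] (hB0 : DH.S_B0 F) (hB1 : DH.S_B1 F)
    (hG1 : DH.S_G1 F) : S_X1 F := by
  intro g p hg hp hcf
  obtain ⟨R, S⟩ := p
  obtain ⟨l, rfl⟩ : ∃ l, g = l + 3 := ⟨g - 3, by omega⟩
  unfold MP at hp
  rw [Finset.mem_filter] at hp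
  obtain ⟨hPG, hmn, hco⟩ := hp
  have hPG' : R ∈ POL F (l + 3) ∧ S ∈ POL F (l + 3) := Finset.mem_product.1 hPG
  obtain ⟨hRP, hSP⟩ := hPG'
  have hRc := (mem_POL_iff hB0 _ _).1 hRP
  have hSc := (mem_POL_iff hB0 _ _).1 hSP
  have hRd : R.natDegree ≤ l + 2 := natDegree_le_iff_coeff_eq_zero.2 fun m hm => hRc m (by omega)
  have hSd : S.natDegree ≤ l + 2 := natDegree_le_iff_coeff_eq_zero.2 fun m hm => hSc m (by omega)
  change mn R S = l + 3 - 1 at hmn
  change (Wr R S).coeff (2 * (l + 3) - 4) = (Mo R S).coeff (4 * (l + 3) - 4) at hco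
  have hcf' : CubeFree (Wr R S) := hcf
  -- the degrees of the lines
  have hm : l + 2 ≤ min (min R.natDegree S.natDegree) (min (S - R).natDegree (S + R).natDegree) := by
    have h1 : mn R S = min (min R.natDegree S.natDegree) (min (S - R).natDegree (S + R).natDegree) :=
      rfl
    rw [← h1, hmn]
    omega
  rw [le_min_iff, le_min_iff, le_min_iff] at hm
  obtain ⟨⟨hm1, hm2⟩, hm3, hm4⟩ := hm
  have lead : ∀ T : F[X], T.natDegree ≤ l + 2 → l + 2 ≤ T.natDegree → T.coeff (l + 2) ≠ 0 := by
    intro T h1 h2 h3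
    have h4 : T.natDegree = l + 2 := le_antisymm h1 h2
    rw [← h4] at h3
    have h5 := leadingCoeff_eq_zero.1 h3
    rw [h5, natDegree_zero] at h4
    omega
  have hα := lead R hRd hm1
  have hβ := lead S hSd hm2
  have hβα := lead (S - R) ((natDegree_sub_le S R).trans (max_le hSd hRd)) hm3
  have hβα' := lead (S + R) ((natDegree_add_le S R).trans (max_le hSd hRd)) hm4
  rw [coeff_sub] at hβα
  rw [coeff_add] at hβα'
  have e1 := coeff_Wr R S l hRd hSd
  have e2 := coeff_Mo R S (l + 2) hRd hSd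
  rw [show 2 * (l + 3) - 4 = 2 * l + 2 by omega, show 4 * (l + 3) - 4 = 4 * (l + 2) by omega, e1, e2]
    at hco
  set α := R.coeff (l + 2) with hαdef
  set β := S.coeff (l + 2) with hβdef
  set ρ := R.coeff (l + 1) with hρdef
  set σ := S.coeff (l + 1) with hσdef
  have hprod : α * β ^ 3 - α ^ 3 * β ≠ 0 := by
    have h1 : α * β ^ 3 - α ^ 3 * β = α * β * ((β - α) * (β + α)) := by ring
    rw [h1]
    exact mul_ne_zero (mul_ne_zero hα hβ) (mul_ne_zero hβα hβα')
  have hWc : (Wr R S).coeff (2 * l + 2) ≠ 0 := by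
    rw [e1, hco]
    exact hprod
  have hWd : 2 * l + 2 ≤ (Wr R S).natDegree := le_natDegree_of_ne_zero hWc
  have hW : Wr R S ≠ 0 := by
    intro h0
    rw [h0, coeff_zero] at hWc
    exact hWc rfl
  -- the image and the kernel
  obtain ⟨t, ht⟩ := cube_root hB1 (β / α)
  have hker := card_ker hB0 hB1 hG1 R S (2 * (l + 3) + 1) hW hcf' (by omega)
  have hmul := card_mul hB0 R S (2 * (l + 3) + 1)
  have hY := card_YY hB0 (l + 2) t
  have hc3 := cast3 (F := F) l
  have himg : (POL F (2 * (l + 3) + 1)).image (Ph R S) ⊆ YY F (l + 2) t := by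
    intro y hy
    obtain ⟨h, hh, rfl⟩ := Finset.mem_image.1 hy
    have hhc := (mem_POL_iff hB0 _ _).1 hh
    have hhd : h.natDegree ≤ 2 * l + 6 :=
      natDegree_le_iff_coeff_eq_zero.2 fun m hm => hhc m (by omega)
    have hz : ∀ T : F[X], T.natDegree ≤ l + 2 → ∀ m, 3 * (l + 2) + 1 ≤ m →
        (derivative (derivative (h * T))).coeff m = 0 := by
      intro T hT m hm
      rw [coeff_D2, coeff_eq_zero_of_natDegree_lt, zero_mul]
      exact lt_of_le_of_lt (natDegree_mul_le_of_le hhd hT) (by omega)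
    have hl : ∀ T : F[X], T.natDegree ≤ l + 2 →
        (derivative (derivative (h * T))).coeff (3 * (l + 2)) =
          - (h.coeff (2 * l + 6) * T.coeff (l + 2)) := by
      intro T hT
      rw [coeff_D2, show 3 * (l + 2) + 2 = (2 * l + 6) + (l + 2) by ring,
        coeff_mul_add_eq_of_natDegree_le hhd hT, show 3 * (l + 2) = 3 * l + 6 by ring, hc3]
      ring
    refine mem_YY hB0 hB1 (l + 2) t α β hα ht _ _ (hB1.2.2.1 _) (hB1.2.2.1 _) (hz R hRd)
      (hz S hSd) ?_
    rw [hl R hRd, hl S hSd]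
    ring
  have hq : 0 < Fintype.card F := Fintype.card_pos
  have hcard : (YY F (l + 2) t).card ≤ ((POL F (2 * (l + 3) + 1)).image (Ph R S)).card := by
    by_contra hcon
    have h1 := not_le.1 hcon
    have h2 : ((POL F (2 * (l + 3) + 1)).image (Ph R S)).card < Fintype.card F ^ (2 * (l + 2) + 1) :=
      lt_of_lt_of_le h1 hY
    have h3 : Fintype.card F ^ (2 * (l + 3) + 1) < Fintype.card F ^ (2 * (l + 3) + 1) := by
      calc Fintype.card F ^ (2 * (l + 3) + 1)
          = ((POL F (2 * (l + 3) + 1)).image (Ph R S)).card *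
            ((POL F (2 * (l + 3) + 1)).filter (fun h => Ph R S h = 0)).card := hmul.symm
        _ ≤ ((POL F (2 * (l + 3) + 1)).image (Ph R S)).card * Fintype.card F ^ 2 :=
            Nat.mul_le_mul_left _ hker
        _ < Fintype.card F ^ (2 * (l + 2) + 1) * Fintype.card F ^ 2 :=
            Nat.mul_lt_mul_of_pos_right h2 (pow_pos hq 2)
        _ = Fintype.card F ^ (2 * (l + 3) + 1) := by rw [← pow_add]; congr 1
    exact lt_irrefl _ h3
  have heq := Finset.eq_of_subset_of_card_le himg hcard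
  -- the kernel has at least `q ^ 2` elements
  have hker2 : Fintype.card F ^ 2 ≤
      ((POL F (2 * (l + 3) + 1)).filter (fun h => Ph R S h = 0)).card := by
    have h1 : ((POL F (2 * (l + 3) + 1)).image (Ph R S)).card ≤ Fintype.card F ^ (2 * (l + 2) + 1) := by
      rw [heq]
      exact hY
    have h2 : Fintype.card F ^ (2 * (l + 2) + 1) * Fintype.card F ^ 2 ≤
        Fintype.card F ^ (2 * (l + 2) + 1) *
          ((POL F (2 * (l + 3) + 1)).filter (fun h => Ph R S h = 0)).card := by
      calc Fintype.card F ^ (2 * (l + 2) + 1) * Fintype.card F ^ 2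
          = Fintype.card F ^ (2 * (l + 3) + 1) := by rw [← pow_add]; congr 1
        _ = ((POL F (2 * (l + 3) + 1)).image (Ph R S)).card *
            ((POL F (2 * (l + 3) + 1)).filter (fun h => Ph R S h = 0)).card := hmul.symm
        _ ≤ _ := Nat.mul_le_mul_right _ h1
    exact Nat.le_of_mul_le_mul_left h2 (pow_pos hq _)
  -- the point
  have hpt : ((- R ^ 3 - derivative (derivative (X ^ (2 * (l + 3) + 1) * R)),
      - S ^ 3 - derivative (derivative (X ^ (2 * (l + 3) + 1) * S))) : F[X] × F[X]) ∈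
        (POL F (2 * (l + 3) + 1)).image (Ph R S) := by
    rw [heq]
    have hd : ∀ T : F[X], derivative (- T ^ 3 - derivative (derivative (X ^ (2 * (l + 3) + 1) * T))) =
        0 := by
      intro T
      rw [derivative_sub, derivative_neg, D_cube, hB1.2.2.1, neg_zero, sub_zero]
    have hz : ∀ T : F[X], T.natDegree ≤ l + 2 → ∀ m, 3 * (l + 2) + 1 ≤ m →
        (- T ^ 3 - derivative (derivative (X ^ (2 * (l + 3) + 1) * T))).coeff m = 0 := by
      intro T hT m hm
      have h1 : (T ^ 3).coeff m = 0 := coeff_eq_zero_of_natDegree_lt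
        (lt_of_le_of_lt (natDegree_pow_le_of_le 3 hT) (by omega))
      have h2 : (derivative (derivative (X ^ (2 * (l + 3) + 1) * T))).coeff m = 0 := by
        rw [coeff_D2]
        rcases Nat.eq_or_lt_of_le hm with h | h
        · have h3 : ((m : F) + 2) = 0 := by
            rw [← h]
            have h4 := three_F (F := F)
            push_cast
            linear_combination ((l : F) + 3) * h4
          rw [h3, zero_mul, mul_zero]
        · rw [mul_comm (X ^ (2 * (l + 3) + 1)) T,
            show m + 2 = (m - (2 * l + 5)) + (2 * (l + 3) + 1) by omega, coeff_mul_X_pow,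
            coeff_eq_zero_of_natDegree_lt (by omega), zero_mul]
      rw [coeff_sub, coeff_neg, h1, h2, neg_zero, sub_zero]
    have hl : ∀ T : F[X], T.natDegree ≤ l + 2 →
        (- T ^ 3 - derivative (derivative (X ^ (2 * (l + 3) + 1) * T))).coeff (3 * (l + 2)) =
          - T.coeff (l + 2) ^ 3 + T.coeff (l + 1) := by
      intro T hT
      have h1 : (X ^ (2 * (l + 3) + 1) * T).coeff (3 * (l + 2) + 2) = T.coeff (l + 1) := by
        rw [mul_comm, show 3 * (l + 2) + 2 = (l + 1) + (2 * (l + 3) + 1) by ring, coeff_mul_X_pow]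
      rw [coeff_sub, coeff_neg, coeff_pow_of_natDegree_le hT, coeff_D2, h1,
        show 3 * (l + 2) = 3 * l + 6 by ring, hc3]
      ring
    refine mem_YY hB0 hB1 (l + 2) t α β hα ht _ _ (hd R) (hd S) (hz R hRd) (hz S hSd) ?_
    rw [hl R hRd, hl S hSd, ← hαdef, ← hβdef, ← hρdef, ← hσdef]
    linear_combination -hco
  refine hker2.trans ?_
  rw [← card_fibre hB0 R S _ _ hpt]
  refine Finset.card_le_card_of_injOn (fun h => X ^ (2 * (l + 3) + 1) + h) ?_ ?_
  · intro h hh
    rw [Finset.mem_coe, Finset.mem_filter] at hh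
    rw [Finset.mem_coe, Finset.mem_filter]
    obtain ⟨h1, h2⟩ := hh
    obtain ⟨h3, h4⟩ := Prod.mk.inj h2
    refine ⟨?_, ?_, ?_⟩
    · unfold MON
      exact Finset.mem_image_of_mem _ h1
    · change derivative (derivative ((X ^ (2 * (l + 3) + 1) + h) * R)) = - R ^ 3
      rw [add_mul, derivative_add, derivative_add, h3]
      ring
    · change derivative (derivative ((X ^ (2 * (l + 3) + 1) + h) * S)) = - S ^ 3
      rw [add_mul, derivative_add, derivative_add, h4]
      ring
  · intro a _ b _ hab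
    exact add_left_cancel hab

end PP
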