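import Pool.Agent.H461.PP.Stm3

/-!
# Project PP: X2a, the count of `MP g` (by helper52)
-/

open Polynomial
open scoped Classical

noncomputable section

namespace PP

open DH

namespace XX2a

section general

variable {F : Type} [Field F]

theorem dm (R S : F[X]) (u : ℕ) (hR : R.natDegree ≤ u + 2) (hS : S.natDegree ≤ u + 2) :
    (derivative R * S).coeff (2 * u + 2) =
      R.coeff (u + 1) * ((u : F) + 1) * S.coeff (u + 2) + R.coeff (u + 2) * ((u : F) + 2) * S.coeff (u + 1) := by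
  have h1 : (derivative R).natDegree ≤ u + 1 := by
    have := Polynomial.natDegree_derivative_le R
    omega
  set b := S.coeff (u + 2) with hb
  set S₁ := S - C b * X ^ (u + 2) with hS₁
  have hdec : S = S₁ + C b * X ^ (u + 2) := by rw [hS₁]; ring
  have hS1 : S₁.natDegree ≤ u + 1 := by
    rw [Polynomial.natDegree_le_iff_coeff_eq_zero]
    intro N hN
    rw [hS₁, Polynomial.coeff_sub, Polynomial.coeff_C_mul, Polynomial.coeff_X_pow]
    by_cases h : N = u + 2
    · rw [if_pos h, h, mul_one, hb, sub_self]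
    · rw [if_neg h, mul_zero, sub_zero]
      exact Polynomial.coeff_eq_zero_of_natDegree_lt (by omega)
  have hc : S₁.coeff (u + 1) = S.coeff (u + 1) := by
    rw [hS₁, Polynomial.coeff_sub, Polynomial.coeff_C_mul, Polynomial.coeff_X_pow, if_neg (by omega), mul_zero, sub_zero]
  have e1 : (derivative R * S₁).coeff (2 * u + 2) = R.coeff (u + 2) * ((u : F) + 2) * S.coeff (u + 1) := by
    have h2 := Polynomial.coeff_mul_add_eq_of_natDegree_le h1 hS1
    rw [show 2 * u + 2 = u + 1 + (u + 1) by ring, h2, Polynomial.coeff_derivative, hc]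
    push_cast
    ring
  have e2 : (derivative R * (C b * X ^ (u + 2))).coeff (2 * u + 2) = R.coeff (u + 1) * ((u : F) + 1) * b := by
    rw [show 2 * u + 2 = u + (u + 2) by ring, ← mul_assoc, Polynomial.coeff_mul_X_pow, Polynomial.coeff_mul_C,
      Polynomial.coeff_derivative]
  conv_lhs => rw [hdec]
  rw [mul_add, Polynomial.coeff_add, e1, e2]
  ring

theorem wr_coeff (R S : F[X]) (u : ℕ) (hR : R.natDegree ≤ u + 2) (hS : S.natDegree ≤ u + 2) :
    (Wr R S).coeff (2 * u + 2) = R.coeff (u + 2) * S.coeff (u + 1) - S.coeff (u + 2) * R.coeff (u + 1) := by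
  unfold Wr
  rw [Polynomial.coeff_sub, dm R S u hR hS, mul_comm R (derivative S), dm S R u hS hR]
  ring

theorem wr_deg (R S : F[X]) (u : ℕ) (hR : R.natDegree ≤ u + 2) (hS : S.natDegree ≤ u + 2) :
    (Wr R S).natDegree ≤ 2 * u + 2 := by
  have h1 : (derivative R).natDegree ≤ u + 1 := by
    have := Polynomial.natDegree_derivative_le R
    omega
  have h2 : (derivative S).natDegree ≤ u + 1 := by
    have := Polynomial.natDegree_derivative_le S
    omega
  rw [Polynomial.natDegree_le_iff_coeff_eq_zero]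
  intro N hN
  unfold Wr
  rw [Polynomial.coeff_sub]
  by_cases h : N = 2 * u + 3
  · have e1 := Polynomial.coeff_mul_add_eq_of_natDegree_le h1 hS
    have e2 := Polynomial.coeff_mul_add_eq_of_natDegree_le h2 hR
    rw [mul_comm R (derivative S), h, show 2 * u + 3 = u + 1 + (u + 2) by ring, e1, e2, Polynomial.coeff_derivative,
      Polynomial.coeff_derivative]
    ring
  · have e1 : (derivative R * S).coeff N = 0 := by
      refine Polynomial.coeff_eq_zero_of_natDegree_lt ?_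
      have := Polynomial.natDegree_mul_le (p := derivative R) (q := S)
      omega
    have e2 : (R * derivative S).coeff N = 0 := by
      refine Polynomial.coeff_eq_zero_of_natDegree_lt ?_
      have := Polynomial.natDegree_mul_le (p := R) (q := derivative S)
      omega
    rw [e1, e2, sub_self]

theorem mo_coeff (R S : F[X]) (u : ℕ) (hR : R.natDegree ≤ u + 2) (hS : S.natDegree ≤ u + 2) :
    (Mo R S).coeff (4 * u + 8) = R.coeff (u + 2) * S.coeff (u + 2) ^ 3 - R.coeff (u + 2) ^ 3 * S.coeff (u + 2) := by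
  have h3 : ∀ P : F[X], P.natDegree ≤ u + 2 → (P ^ 3).natDegree ≤ 3 * (u + 2) := fun P hP =>
    (Polynomial.natDegree_pow_le_of_le 3 hP)
  have e1 := Polynomial.coeff_mul_add_eq_of_natDegree_le hR (h3 S hS)
  have e2 := Polynomial.coeff_mul_add_eq_of_natDegree_le (h3 R hR) hS
  have e3 : (S ^ 3).coeff (3 * (u + 2)) = S.coeff (u + 2) ^ 3 := Polynomial.coeff_pow_of_natDegree_le hS
  have e4 : (R ^ 3).coeff (3 * (u + 2)) = R.coeff (u + 2) ^ 3 := Polynomial.coeff_pow_of_natDegree_le hR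
  unfold Mo
  rw [Polynomial.coeff_sub]
  have e5 : (R * S ^ 3).coeff (4 * u + 8) = R.coeff (u + 2) * S.coeff (u + 2) ^ 3 := by
    rw [show 4 * u + 8 = u + 2 + 3 * (u + 2) by ring, e1, e3]
  have e6 : (R ^ 3 * S).coeff (4 * u + 8) = R.coeff (u + 2) ^ 3 * S.coeff (u + 2) := by
    rw [show 4 * u + 8 = 3 * (u + 2) + (u + 2) by ring, e2, e4]
  rw [e5, e6]

theorem nd {P : F[X]} {u : ℕ} (hP : P.natDegree ≤ u + 2) : P.natDegree = u + 2 ↔ P.coeff (u + 2) ≠ 0 := by
  constructor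
  · intro h h1
    rw [← h] at h1
    have h2 : P = 0 := Polynomial.leadingCoeff_eq_zero.1 h1
    rw [h2, Polynomial.natDegree_zero] at h
    omega
  · intro h
    exact le_antisymm hP (Polynomial.le_natDegree_of_ne_zero h)

theorem mn_iff (R S : F[X]) (u : ℕ) (hR : R.natDegree ≤ u + 2) (hS : S.natDegree ≤ u + 2) :
    mn R S = u + 2 ↔ R.coeff (u + 2) ≠ 0 ∧ S.coeff (u + 2) ≠ 0 ∧ S.coeff (u + 2) - R.coeff (u + 2) ≠ 0 ∧
      S.coeff (u + 2) + R.coeff (u + 2) ≠ 0 := by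
  have h1 : (S - R).natDegree ≤ u + 2 := (Polynomial.natDegree_sub_le _ _).trans (max_le hS hR)
  have h2 : (S + R).natDegree ≤ u + 2 := (Polynomial.natDegree_add_le _ _).trans (max_le hS hR)
  rw [← Polynomial.coeff_sub, ← Polynomial.coeff_add, ← nd hR, ← nd hS, ← nd h1, ← nd h2]
  unfold mn
  constructor
  · intro h
    refine ⟨?_, ?_, ?_, ?_⟩ <;> omega
  · rintro ⟨a, b, c, d⟩
    omega

/-- the top two coefficients and the rest -/
def asm (u : ℕ) (a b : F) (P : F[X]) : F[X] := C a * X ^ (u + 2) + C b * X ^ (u + 1) + P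

/-- the rest -/
def rst (u : ℕ) (P : F[X]) : F[X] := P - C (P.coeff (u + 2)) * X ^ (u + 2) - C (P.coeff (u + 1)) * X ^ (u + 1)

theorem asm_coeff (u N : ℕ) (a b : F) (P : F[X]) :
    (asm u a b P).coeff N = (if N = u + 2 then a else 0) + (if N = u + 1 then b else 0) + P.coeff N := by
  unfold asm
  rw [Polynomial.coeff_add, Polynomial.coeff_add, Polynomial.coeff_C_mul, Polynomial.coeff_C_mul, Polynomial.coeff_X_pow,
    Polynomial.coeff_X_pow, mul_ite, mul_ite, mul_one, mul_one, mul_zero, mul_zero]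

theorem rst_coeff (u N : ℕ) (P : F[X]) :
    (rst u P).coeff N = P.coeff N - (if N = u + 2 then P.coeff (u + 2) else 0) -
      (if N = u + 1 then P.coeff (u + 1) else 0) := by
  unfold rst
  rw [Polynomial.coeff_sub, Polynomial.coeff_sub, Polynomial.coeff_C_mul, Polynomial.coeff_C_mul, Polynomial.coeff_X_pow,
    Polynomial.coeff_X_pow, mul_ite, mul_ite, mul_one, mul_one, mul_zero, mul_zero]

theorem asm_rst (u : ℕ) (P : F[X]) : asm u (P.coeff (u + 2)) (P.coeff (u + 1)) (rst u P) = P := by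
  unfold asm rst
  ring

theorem key {α γ ρ σ : F} (hα : α ≠ 0) :
    α * σ - α * γ * ρ = α * (α * γ) ^ 3 - α ^ 3 * (α * γ) ↔ σ = γ * ρ + α ^ 3 * (γ ^ 3 - γ) := by
  constructor
  · intro h
    apply mul_left_cancel₀ hα
    linear_combination h
  · intro h
    rw [h]
    ring

theorem sg_ne {α γ : F} (hα : α ≠ 0) (h0 : γ ≠ 0) (h1 : γ ≠ 1) (h2 : γ ≠ -1) :
    α * (α * γ) ^ 3 - α ^ 3 * (α * γ) ≠ 0 := by
  have e : α * (α * γ) ^ 3 - α ^ 3 * (α * γ) = α ^ 4 * (γ * ((γ - 1) * (γ - -1))) := by ring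
  rw [e]
  exact mul_ne_zero (pow_ne_zero _ hα) (mul_ne_zero h0 (mul_ne_zero (sub_ne_zero.2 h1) (sub_ne_zero.2 h2)))

end general

section count

variable {F : Type} [Field F] [Fintype F]

/-- the parameters -/
def Tx (F : Type) [Field F] [Fintype F] (u : ℕ) : Finset (((F × F) × F) × (F[X] × F[X])) :=
  (((Finset.univ.erase (0 : F)) ×ˢ (Finset.univ \ {0, 1, -1})) ×ˢ (Finset.univ : Finset F)) ×ˢ
    (POL F (u + 1) ×ˢ POL F (u + 1))

theorem card_sd [CharP F 3] : (Finset.univ \ ({0, 1, -1} : Finset F)).card + 3 = Fintype.card F := by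
  have h2 : (1 : F) ≠ -1 := by
    intro h
    have h3 : ((2 : ℕ) : F) = 0 := by
      push_cast
      linear_combination h
    have h4 := (CharP.cast_eq_zero_iff F 3 2).1 h3
    omega
  have h3 : ({0, 1, -1} : Finset F).card = 3 := by
    rw [Finset.card_insert_of_notMem, Finset.card_insert_of_notMem, Finset.card_singleton]
    · simpa using h2
    · simp only [Finset.mem_insert, Finset.mem_singleton, not_or]
      refine ⟨zero_ne_one, ?_⟩
      intro h
      have : (1 : F) = 0 := by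
        rw [← neg_neg (1 : F), ← h, neg_zero]
      exact one_ne_zero this
  have h4 := Finset.card_sdiff_add_card_eq_card (Finset.subset_univ ({0, 1, -1} : Finset F))
  rw [h3, Finset.card_univ] at h4
  exact h4

theorem mem_pol (hB0 : DH.S_B0 F) (n : ℕ) (P : F[X]) : P ∈ POL F n ↔ ∀ N, n ≤ N → P.coeff N = 0 := by
  rw [hB0.1 n P, Polynomial.degree_lt_iff_coeff_zero]

theorem nat_deg (hB0 : DH.S_B0 F) {u : ℕ} {P : F[X]} (h : P ∈ POL F (u + 3)) : P.natDegree ≤ u + 2 := by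
  rw [Polynomial.natDegree_le_iff_coeff_eq_zero]
  intro N hN
  exact (mem_pol hB0 _ _).1 h N (by omega)

theorem asm_mem (hB0 : DH.S_B0 F) {u : ℕ} {P : F[X]} (a b : F) (h : P ∈ POL F (u + 1)) :
    asm u a b P ∈ POL F (u + 3) := by
  rw [mem_pol hB0]
  intro N hN
  rw [asm_coeff, if_neg (by omega), if_neg (by omega), (mem_pol hB0 _ _).1 h N (by omega)]
  ring

theorem rst_mem (hB0 : DH.S_B0 F) {u : ℕ} {P : F[X]} (h : P ∈ POL F (u + 3)) : rst u P ∈ POL F (u + 1) := by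
  rw [mem_pol hB0]
  intro N hN
  rw [rst_coeff]
  by_cases h1 : N = u + 2
  · rw [if_pos h1, if_neg (by omega), h1]
    ring
  by_cases h2 : N = u + 1
  · rw [if_neg h1, if_pos h2, h2]
    ring
  rw [if_neg h1, if_neg h2, (mem_pol hB0 _ _).1 h N (by omega)]
  ring

theorem asm_c2 (hB0 : DH.S_B0 F) {u : ℕ} {P : F[X]} (a b : F) (h : P ∈ POL F (u + 1)) :
    (asm u a b P).coeff (u + 2) = a := by
  rw [asm_coeff, if_pos rfl, if_neg (by omega), (mem_pol hB0 _ _).1 h _ (by omega)]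
  ring

theorem asm_c1 (hB0 : DH.S_B0 F) {u : ℕ} {P : F[X]} (a b : F) (h : P ∈ POL F (u + 1)) :
    (asm u a b P).coeff (u + 1) = b := by
  rw [asm_coeff, if_neg (by omega), if_pos rfl, (mem_pol hB0 _ _).1 h _ (by omega)]
  ring

theorem rst_asm (hB0 : DH.S_B0 F) {u : ℕ} {P : F[X]} (a b : F) (h : P ∈ POL F (u + 1)) :
    rst u (asm u a b P) = P := by
  unfold rst
  rw [asm_c2 hB0 a b h, asm_c1 hB0 a b h]
  unfold asm
  ring

theorem mem_MP (hB0 : DH.S_B0 F) (u : ℕ) (R S : F[X]) : (R, S) ∈ MP F (u + 3) ↔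
    R ∈ POL F (u + 3) ∧ S ∈ POL F (u + 3) ∧ (R.coeff (u + 2) ≠ 0 ∧ S.coeff (u + 2) ≠ 0 ∧
      S.coeff (u + 2) - R.coeff (u + 2) ≠ 0 ∧ S.coeff (u + 2) + R.coeff (u + 2) ≠ 0) ∧
      R.coeff (u + 2) * S.coeff (u + 1) - S.coeff (u + 2) * R.coeff (u + 1) =
        R.coeff (u + 2) * S.coeff (u + 2) ^ 3 - R.coeff (u + 2) ^ 3 * S.coeff (u + 2) := by
  unfold MP PG
  rw [Finset.mem_filter, Finset.mem_product]
  constructor
  · rintro ⟨⟨h1, h2⟩, h3, h4⟩
    have h1 : R ∈ POL F (u + 3) := h1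
    have h2 : S ∈ POL F (u + 3) := h2
    have h3 : mn R S = u + 3 - 1 := h3
    have h4 : (Wr R S).coeff (2 * (u + 3) - 4) = (Mo R S).coeff (4 * (u + 3) - 4) := h4
    have d1 := nat_deg hB0 h1
    have d2 := nat_deg hB0 h2
    rw [show u + 3 - 1 = u + 2 by omega, mn_iff R S u d1 d2] at h3
    rw [show 2 * (u + 3) - 4 = 2 * u + 2 by omega, show 4 * (u + 3) - 4 = 4 * u + 8 by omega, wr_coeff R S u d1 d2,
      mo_coeff R S u d1 d2] at h4
    exact ⟨h1, h2, h3, h4⟩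
  · rintro ⟨h1, h2, h3, h4⟩
    have d1 := nat_deg hB0 h1
    have d2 := nat_deg hB0 h2
    refine ⟨⟨h1, h2⟩, ?_, ?_⟩
    · show mn R S = u + 3 - 1
      rw [show u + 3 - 1 = u + 2 by omega, mn_iff R S u d1 d2]
      exact h3
    · show (Wr R S).coeff (2 * (u + 3) - 4) = (Mo R S).coeff (4 * (u + 3) - 4)
      rw [show 2 * (u + 3) - 4 = 2 * u + 2 by omega, show 4 * (u + 3) - 4 = 4 * u + 8 by omega, wr_coeff R S u d1 d2,
        mo_coeff R S u d1 d2]
      exact h4

theorem card_MP (hB0 : DH.S_B0 F) (u : ℕ) : (MP F (u + 3)).card = (Tx F u).card := by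
  refine Finset.card_nbij'
    (fun p => (((p.1.coeff (u + 2), p.2.coeff (u + 2) / p.1.coeff (u + 2)), p.1.coeff (u + 1)), (rst u p.1, rst u p.2)))
    (fun t => (asm u t.1.1.1 t.1.2 t.2.1,
      asm u (t.1.1.1 * t.1.1.2) (t.1.1.2 * t.1.2 + t.1.1.1 ^ 3 * (t.1.1.2 ^ 3 - t.1.1.2)) t.2.2)) ?_ ?_ ?_ ?_
  · rintro ⟨R, S⟩ hp
    have hp := (mem_MP hB0 u R S).1 hp
    obtain ⟨h1, h2, ⟨h3, h4, h5, h6⟩, h7⟩ := hp
    show (((R.coeff (u + 2), S.coeff (u + 2) / R.coeff (u + 2)), R.coeff (u + 1)), (rst u R, rst u S)) ∈ Tx F u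
    unfold Tx
    rw [Finset.mem_product, Finset.mem_product, Finset.mem_product, Finset.mem_product]
    refine ⟨⟨⟨Finset.mem_erase.2 ⟨h3, Finset.mem_univ _⟩, ?_⟩, Finset.mem_univ _⟩, rst_mem hB0 h1, rst_mem hB0 h2⟩
    show S.coeff (u + 2) / R.coeff (u + 2) ∈ Finset.univ \ ({0, 1, -1} : Finset F)
    rw [Finset.mem_sdiff, Finset.mem_insert, Finset.mem_insert, Finset.mem_singleton, not_or, not_or]
    refine ⟨Finset.mem_univ _, div_ne_zero h4 h3, ?_, ?_⟩
    · intro h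
      rw [div_eq_one_iff_eq h3] at h
      exact h5 (by rw [h, sub_self])
    · intro h
      rw [div_eq_iff h3] at h
      exact h6 (by rw [h]; ring)
  · rintro ⟨⟨⟨α, γ⟩, ρ⟩, P, Q⟩ ht
    have ht : (((α, γ), ρ), (P, Q)) ∈ Tx F u := ht
    unfold Tx at ht
    rw [Finset.mem_product, Finset.mem_product, Finset.mem_product, Finset.mem_product] at ht
    obtain ⟨⟨⟨h1, h2⟩, _⟩, h3, h4⟩ := ht
    have h1 : α ∈ Finset.univ.erase (0 : F) := h1
    have h2 : γ ∈ Finset.univ \ ({0, 1, -1} : Finset F) := h2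
    have h3 : P ∈ POL F (u + 1) := h3
    have h4 : Q ∈ POL F (u + 1) := h4
    rw [Finset.mem_erase] at h1
    rw [Finset.mem_sdiff, Finset.mem_insert, Finset.mem_insert, Finset.mem_singleton, not_or, not_or] at h2
    obtain ⟨_, k1, k2, k3⟩ := h2
    have hα := h1.1
    show (asm u α ρ P, asm u (α * γ) (γ * ρ + α ^ 3 * (γ ^ 3 - γ)) Q) ∈ MP F (u + 3)
    rw [mem_MP hB0]
    rw [asm_c2 hB0 _ _ h3, asm_c2 hB0 _ _ h4, asm_c1 hB0 _ _ h3, asm_c1 hB0 _ _ h4]
    refine ⟨asm_mem hB0 _ _ h3, asm_mem hB0 _ _ h4, ⟨hα, mul_ne_zero hα k1, ?_, ?_⟩, (key hα).2 rfl⟩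
    · rw [show α * γ - α = α * (γ - 1) by ring]
      exact mul_ne_zero hα (sub_ne_zero.2 k2)
    · rw [show α * γ + α = α * (γ - -1) by ring]
      exact mul_ne_zero hα (sub_ne_zero.2 k3)
  · rintro ⟨R, S⟩ hp
    have hp := (mem_MP hB0 u R S).1 hp
    obtain ⟨h1, h2, ⟨h3, h4, h5, h6⟩, h7⟩ := hp
    show (asm u (R.coeff (u + 2)) (R.coeff (u + 1)) (rst u R),
      asm u (R.coeff (u + 2) * (S.coeff (u + 2) / R.coeff (u + 2)))
        ((S.coeff (u + 2) / R.coeff (u + 2)) * R.coeff (u + 1) + R.coeff (u + 2) ^ 3 *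
          ((S.coeff (u + 2) / R.coeff (u + 2)) ^ 3 - (S.coeff (u + 2) / R.coeff (u + 2)))) (rst u S)) = (R, S)
    have e1 : R.coeff (u + 2) * (S.coeff (u + 2) / R.coeff (u + 2)) = S.coeff (u + 2) := mul_div_cancel₀ _ h3
    have e2 : (S.coeff (u + 2) / R.coeff (u + 2)) * R.coeff (u + 1) + R.coeff (u + 2) ^ 3 *
          ((S.coeff (u + 2) / R.coeff (u + 2)) ^ 3 - (S.coeff (u + 2) / R.coeff (u + 2))) = S.coeff (u + 1) := by
      refine ((key (σ := S.coeff (u + 1)) (ρ := R.coeff (u + 1)) h3).1 ?_).symm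
      rw [e1]
      exact h7
    rw [e1, e2, asm_rst, asm_rst]
  · rintro ⟨⟨⟨α, γ⟩, ρ⟩, P, Q⟩ ht
    have ht : (((α, γ), ρ), (P, Q)) ∈ Tx F u := ht
    unfold Tx at ht
    rw [Finset.mem_product, Finset.mem_product, Finset.mem_product, Finset.mem_product] at ht
    obtain ⟨⟨⟨h1, h2⟩, _⟩, h3, h4⟩ := ht
    have h1 : α ∈ Finset.univ.erase (0 : F) := h1
    have h3 : P ∈ POL F (u + 1) := h3
    have h4 : Q ∈ POL F (u + 1) := h4
    have hα := (Finset.mem_erase.1 h1).1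
    show ((((asm u α ρ P).coeff (u + 2), (asm u (α * γ) (γ * ρ + α ^ 3 * (γ ^ 3 - γ)) Q).coeff (u + 2) /
        (asm u α ρ P).coeff (u + 2)), (asm u α ρ P).coeff (u + 1)),
        (rst u (asm u α ρ P), rst u (asm u (α * γ) (γ * ρ + α ^ 3 * (γ ^ 3 - γ)) Q))) = (((α, γ), ρ), (P, Q))
    rw [asm_c2 hB0 _ _ h3, asm_c2 hB0 _ _ h4, asm_c1 hB0 _ _ h3, rst_asm hB0 _ _ h3, rst_asm hB0 _ _ h4,
      mul_div_cancel_left₀ _ hα]

end count

end XX2a

open XX2a in
/-- **X2a** -/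
theorem p_X2a (F : Type) [Field F] [Fintype F] [CharP F 3] (hB0 : DH.S_B0 F) : S_X2a F := by
  intro g hg
  obtain ⟨u, rfl⟩ : ∃ u, g = u + 3 := ⟨g - 3, by omega⟩
  constructor
  · rw [card_MP hB0 u]
    unfold Tx
    rw [Finset.card_product, Finset.card_product, Finset.card_product, Finset.card_product,
      Finset.card_erase_of_mem (Finset.mem_univ _), Finset.card_univ, hB0.2.2.2.1]
    have h1 := card_sd (F := F)
    have h2 : 1 ≤ Fintype.card F := by omega
    have h3 : (((Finset.univ \ ({0, 1, -1} : Finset F)).card : ℕ) : ℝ) = qq F - 3 := by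
      unfold qq
      rw [← h1]
      push_cast
      ring
    rw [show 2 * (u + 3) - 3 = (u + 1) + (u + 1) + 1 by omega]
    push_cast [Nat.cast_sub h2]
    rw [h3]
    unfold qq
    ring
  · rintro ⟨R, S⟩ hp
    have hp := (mem_MP hB0 u R S).1 hp
    obtain ⟨h1, h2, ⟨h3, h4, h5, h6⟩, h7⟩ := hp
    have d1 := nat_deg hB0 h1
    have d2 := nat_deg hB0 h2
    have hne : (Wr R S).coeff (2 * u + 2) ≠ 0 := by
      rw [wr_coeff R S u d1 d2, h7]
      have e : R.coeff (u + 2) * S.coeff (u + 2) ^ 3 - R.coeff (u + 2) ^ 3 * S.coeff (u + 2) =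
          R.coeff (u + 2) * (S.coeff (u + 2) * ((S.coeff (u + 2) - R.coeff (u + 2)) *
            (S.coeff (u + 2) + R.coeff (u + 2)))) := by ring
      rw [e]
      exact mul_ne_zero h3 (mul_ne_zero h4 (mul_ne_zero h5 h6))
    have hd := wr_deg R S u d1 d2
    show Wr R S ≠ 0 ∧ (Wr R S).natDegree = 2 * (u + 3) - 4
    refine ⟨fun h => hne (by rw [h, Polynomial.coeff_zero]), ?_⟩
    have := Polynomial.le_natDegree_of_ne_zero hne
    omega

end PP
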