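import Pool.Agent.H461.PP.Stm3

/-!
# PP X2b: pairs of `MP` with `P³ ∣ Wr`
-/

open Polynomial
open scoped Classical

noncomputable section

namespace PP

open DH

namespace XX2b

theorem deriv_cube {F : Type} [Field F] [CharP F 3] (P : F[X]) : derivative (P ^ 3) = 0 := by
  have h : ((3 : ℕ) : F) = 0 := CharP.cast_eq_zero F 3
  rw [derivative_pow, h]
  simp

theorem wr_mod {F : Type} [Field F] [CharP F 3] (P A B r s : F[X])
    (h : P ^ 3 ∣ Wr (r + P ^ 3 * A) (s + P ^ 3 * B)) : P ^ 3 ∣ Wr r s := by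
  have e : Wr (r + P ^ 3 * A) (s + P ^ 3 * B) = Wr r s + P ^ 3 * (derivative r * B +
      derivative A * (s + P ^ 3 * B) - r * derivative B - A * (derivative s + P ^ 3 * derivative B)) := by
    unfold Wr
    rw [derivative_add, derivative_add, derivative_mul, derivative_mul, deriv_cube]
    ring
  rw [e] at h
  exact (dvd_add_left (dvd_mul_right _ _)).1 h

/-- The coefficient of the Wronskian of `R` (degree `≤ g - 1`) and the monic `U` of degree `g - 2`. -/
theorem coeff_wr {F : Type} [Field F] (n : ℕ) (R U : F[X]) (hR : R.natDegree ≤ n + 2)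
    (hU : U.natDegree ≤ n + 1) : (Wr R U).coeff (2 * n + 2) = R.coeff (n + 2) * U.coeff (n + 1) := by
  unfold Wr
  have h1 : (derivative R).natDegree ≤ n + 1 := (natDegree_derivative_le R).trans (by omega)
  have h2 : (derivative U).natDegree ≤ n := (natDegree_derivative_le U).trans (by omega)
  have h3 := coeff_mul_add_eq_of_natDegree_le h1 hU
  have h4 := coeff_mul_add_eq_of_natDegree_le hR h2
  rw [coeff_sub]
  have e1 : 2 * n + 2 = (n + 1) + (n + 1) := by ring
  have e2 : (n + 1) + (n + 1) = (n + 2) + n := by ring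
  rw [e1, h3, e2, h4, coeff_derivative, coeff_derivative]
  push_cast
  ring

theorem coeff_mo {F : Type} [Field F] (n : ℕ) (R S : F[X]) (hR : R.natDegree ≤ n)
    (hS : S.natDegree ≤ n) : (Mo R S).coeff (4 * n) = R.coeff n * S.coeff n ^ 3 -
      R.coeff n ^ 3 * S.coeff n := by
  unfold Mo
  have h1 : (R ^ 3).natDegree ≤ 3 * n := natDegree_pow_le_of_le 3 hR
  have h2 : (S ^ 3).natDegree ≤ 3 * n := natDegree_pow_le_of_le 3 hS
  have h3 := coeff_mul_add_eq_of_natDegree_le hR h2
  have h4 := coeff_mul_add_eq_of_natDegree_le h1 hS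
  have e1 : 4 * n = n + 3 * n := by ring
  have e2 : n + 3 * n = 3 * n + n := by ring
  rw [coeff_sub, e1, h3, e2, h4, coeff_pow_of_natDegree_le hR, coeff_pow_of_natDegree_le hS]

/-- Two pairs of `MP` with the same `R` whose `S` differ by a multiple of a monic polynomial of degree `g - 2`. -/
theorem key {F : Type} [Field F] (n : ℕ) (R S U : F[X]) (c : F)
    (hR : R.natDegree ≤ n + 2) (hS : S.natDegree ≤ n + 2) (hU : U.natDegree = n + 1) (hm : U.Monic)
    (h0 : R.coeff (n + 2) ≠ 0)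
    (h1 : (Wr R S).coeff (2 * n + 2) = (Mo R S).coeff (4 * (n + 2)))
    (h2 : (Wr R (S + C c * U)).coeff (2 * n + 2) = (Mo R (S + C c * U)).coeff (4 * (n + 2))) :
    c = 0 := by
  have hcU : (C c * U).natDegree ≤ n + 1 := (natDegree_C_mul_le c U).trans hU.le
  have hS' : (S + C c * U).natDegree ≤ n + 2 :=
    (natDegree_add_le _ _).trans (max_le hS (hcU.trans (by omega)))
  have e0 : (C c * U).coeff (n + 2) = 0 := coeff_eq_zero_of_natDegree_lt (by omega)
  rw [coeff_mo _ _ _ hR hS'] at h2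
  rw [coeff_mo _ _ _ hR hS] at h1
  rw [coeff_add, e0, add_zero, ← h1] at h2
  have e1 : Wr R (S + C c * U) = Wr R S + Wr R (C c * U) := by
    unfold Wr
    rw [derivative_add]
    ring
  rw [e1, coeff_add, coeff_wr n R (C c * U) hR hcU, coeff_C_mul] at h2
  have e2 : U.coeff (n + 1) = 1 := by
    rw [← hU]
    exact hm.coeff_natDegree
  rw [e2, mul_one] at h2
  have h3 : R.coeff (n + 2) * c = 0 := by linear_combination h2
  rcases mul_eq_zero.1 h3 with h4 | h4
  · exact absurd h4 h0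
  · exact h4

theorem lead {F : Type} [Field F] (g : ℕ) (hg : 3 ≤ g) (R : F[X]) (hR : R.degree < g)
    (h : g - 1 ≤ R.natDegree) : R.natDegree = g - 1 ∧ R.coeff (g - 1) ≠ 0 := by
  have h1 : R ≠ 0 := by
    rintro rfl
    rw [natDegree_zero] at h
    omega
  have h2 : R.natDegree < g := (natDegree_lt_iff_degree_lt h1).2 hR
  have h3 : R.natDegree = g - 1 := by omega
  refine ⟨h3, ?_⟩
  rw [← h3]
  exact leadingCoeff_ne_zero.2 h1

end XX2b

open XX2b

variable (F : Type) [Field F] [Fintype F] [CharP F 3]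

theorem p_X2b (hB0 : DH.S_B0 F) (hW7c : S_W7c F) : S_X2b F := by
  intro g d P hP hirr hg hg3
  obtain ⟨hPOL, hMON, -, cPOL, -, -⟩ := hB0
  obtain ⟨hPm, hPd⟩ := (hMON d P).1 hP
  obtain ⟨m, hm⟩ : ∃ m, g = 3 * d + (m + 2) := ⟨g - 3 * d - 2, by omega⟩
  obtain ⟨n, hn⟩ : ∃ n, g = n + 3 := ⟨g - 3, by omega⟩
  have hP3m : (P ^ 3).Monic := hPm.pow 3
  have hP3d : (P ^ 3).natDegree = 3 * d := by rw [hPm.natDegree_pow, hPd]
  have hW := (hW7c d 1 P hP hirr le_rfl).1
  rw [mul_one, mul_one] at hW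
  set W := ((POL F (3 * d)) ×ˢ (POL F (3 * d))).filter (fun p => P ^ 3 ∣ Wr p.1 p.2) with hWdef
  set T := (MP F g).filter (fun p => P ^ 3 ∣ Wr p.1 p.2) with hT
  have hcard : T.card * Fintype.card F ≤ W.card * (Fintype.card F ^ (m + 2) * Fintype.card F ^ (m + 2)) := by
    have h1 : (T ×ˢ (Finset.univ : Finset F)).card ≤
        (W ×ˢ ((POL F (m + 2)) ×ˢ (POL F (m + 2)))).card := by
      refine Finset.card_le_card_of_injOn (fun x => ((x.1.1 %ₘ P ^ 3, x.1.2 %ₘ P ^ 3),
        (x.1.1 /ₘ P ^ 3, x.1.2 /ₘ P ^ 3 + C x.2 * X ^ m))) ?_ ?_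
      · rintro ⟨⟨R, S⟩, c⟩ hx
        have hx1 : (R, S) ∈ T := (Finset.mem_product.1 (Finset.mem_coe.1 hx)).1
        rw [hT, Finset.mem_filter, MP, Finset.mem_filter, PG, Finset.mem_product, hPOL, hPOL] at hx1
        obtain ⟨⟨⟨hR, hS⟩, -, -⟩, hdvd⟩ := hx1
        simp only at hR hS hdvd
        have hmod : ∀ Q : F[X], Q %ₘ P ^ 3 ∈ POL F (3 * d) := fun Q => by
          rw [hPOL]
          have h := degree_modByMonic_lt Q hP3m
          rw [degree_eq_natDegree hP3m.ne_zero, hP3d] at h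
          exact h
        have hdiv : ∀ Q : F[X], Q.degree < g → (Q /ₘ P ^ 3).degree < ((m + 2 : ℕ) : WithBot ℕ) := fun Q hQ => by
          by_cases h0 : Q /ₘ P ^ 3 = 0
          · rw [h0, degree_zero]
            exact WithBot.bot_lt_coe _
          · rw [← natDegree_lt_iff_degree_lt h0, natDegree_divByMonic _ hP3m, hP3d]
            have hQ0 : Q ≠ 0 := by
              rintro rfl
              exact h0 (zero_divByMonic _)
            have := (natDegree_lt_iff_degree_lt hQ0).2 hQ
            omega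
        rw [Finset.mem_coe, Finset.mem_product, Finset.mem_product]
        refine ⟨?_, ?_, ?_⟩
        · rw [hWdef, Finset.mem_filter, Finset.mem_product]
          refine ⟨⟨hmod R, hmod S⟩, ?_⟩
          apply wr_mod P (R /ₘ P ^ 3) (S /ₘ P ^ 3)
          rw [modByMonic_add_div, modByMonic_add_div]
          exact hdvd
        · rw [hPOL]
          exact hdiv R hR
        · rw [hPOL]
          refine lt_of_le_of_lt (degree_add_le _ _) (max_lt (hdiv S hS) ?_)
          refine lt_of_le_of_lt (degree_C_mul_X_pow_le m c) ?_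
          exact_mod_cast (by omega : m < m + 2)
      · rintro ⟨⟨R, S⟩, c⟩ hx ⟨⟨R', S'⟩, c'⟩ hx' heq
        have hx1 : (R, S) ∈ T := (Finset.mem_product.1 (Finset.mem_coe.1 hx)).1
        have hx2 : (R', S') ∈ T := (Finset.mem_product.1 (Finset.mem_coe.1 hx')).1
        rw [hT, Finset.mem_filter, MP, Finset.mem_filter, PG, Finset.mem_product, hPOL, hPOL] at hx1 hx2
        obtain ⟨⟨⟨hR, hS⟩, hmn, hco⟩, -⟩ := hx1
        obtain ⟨⟨⟨-, -⟩, -, hco'⟩, -⟩ := hx2
        simp only at hR hS hmn hco hco' heq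
        obtain ⟨⟨e1, e2⟩, e3, e4⟩ : (R %ₘ P ^ 3 = R' %ₘ P ^ 3 ∧ S %ₘ P ^ 3 = S' %ₘ P ^ 3) ∧
            R /ₘ P ^ 3 = R' /ₘ P ^ 3 ∧
            S /ₘ P ^ 3 + C c * X ^ m = S' /ₘ P ^ 3 + C c' * X ^ m := by
          simpa only [Prod.mk.injEq] using heq
        have hRR : R = R' := by
          rw [← modByMonic_add_div R (P ^ 3), ← modByMonic_add_div R' (P ^ 3), e1, e3]
        subst hRR
        have hSS : S' = S + C (c - c') * (P ^ 3 * X ^ m) := by
          rw [← modByMonic_add_div S (P ^ 3), ← modByMonic_add_div S' (P ^ 3), e2, C_sub]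
          linear_combination (-(P ^ 3)) * e4
        have hle1 : g - 1 ≤ R.natDegree := by
          rw [← hmn, mn]
          exact (min_le_left _ _).trans (min_le_left _ _)
        have hle2 : g - 1 ≤ S.natDegree := by
          rw [← hmn, mn]
          exact (min_le_left _ _).trans (min_le_right _ _)
        obtain ⟨dR, lR⟩ := lead g hg3 R hR hle1
        obtain ⟨dS, -⟩ := lead g hg3 S hS hle2
        have hUm : (P ^ 3 * X ^ m : F[X]).Monic := hP3m.mul (monic_X_pow m)
        have hUd : (P ^ 3 * X ^ m : F[X]).natDegree = n + 1 := by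
          rw [hP3m.natDegree_mul (monic_X_pow m), hP3d, natDegree_X_pow]
          omega
        have i1 : g - 1 = n + 2 := by omega
        have i2 : 2 * g - 4 = 2 * n + 2 := by omega
        have i3 : 4 * g - 4 = 4 * (n + 2) := by omega
        rw [i1] at dR dS lR
        rw [i2, i3] at hco hco'
        rw [hSS] at hco'
        have hc := key n R S _ (c - c') dR.le dS.le hUd hUm lR hco hco'
        have hcc : c = c' := sub_eq_zero.1 hc
        rw [hcc, sub_self, C_0, zero_mul, add_zero] at hSS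
        rw [hSS, hcc]
    rw [Finset.card_product, Finset.card_product, Finset.card_product, Finset.card_univ, cPOL] at h1
    exact h1
  have hq : (0 : ℝ) < qq F := by
    unfold qq
    exact_mod_cast Fintype.card_pos
  have hcR : (T.card : ℝ) * qq F ≤ (2 * qq F ^ (4 * d)) * (qq F ^ (m + 2) * qq F ^ (m + 2)) := by
    have h1 : T.card * Fintype.card F ≤ (2 * Fintype.card F ^ (4 * d)) *
        (Fintype.card F ^ (m + 2) * Fintype.card F ^ (m + 2)) :=
      hcard.trans (Nat.mul_le_mul_right _ hW)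
    unfold qq
    exact_mod_cast h1
  rw [le_div_iff₀ (pow_pos hq _)]
  have e5 : 2 * g - 1 = 6 * d + 2 * m + 3 := by omega
  rw [e5]
  have h6 : ((T.card : ℝ) * qq F ^ (2 * d)) * qq F ≤ (2 * qq F ^ (6 * d + 2 * m + 3)) * qq F := by
    calc ((T.card : ℝ) * qq F ^ (2 * d)) * qq F = ((T.card : ℝ) * qq F) * qq F ^ (2 * d) := by ring
      _ ≤ ((2 * qq F ^ (4 * d)) * (qq F ^ (m + 2) * qq F ^ (m + 2))) * qq F ^ (2 * d) :=
        mul_le_mul_of_nonneg_right hcR (pow_pos hq _).le
      _ = (2 * qq F ^ (6 * d + 2 * m + 3)) * qq F := by ring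
  exact le_of_mul_le_mul_right h6 hq

end PP
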