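import Pool.Agent.H461.PP.Stm3

/-!
# PP X2c: pairs with a large cube part
-/

open Polynomial
open scoped Classical

noncomputable section

namespace PP

open DH

namespace XX2c

variable {F : Type} [Field F] [Fintype F] [CharP F 3]

omit [Fintype F] in
lemma e3 : (3 : F[X]) = 0 := by
  have h := CharP.cast_eq_zero F[X] 3
  exact_mod_cast h

/-- `(Wr R)'' = (Wr S)'' = 0`. -/
lemma wr_dd (R S : F[X]) (hR : derivative (derivative (derivative R)) = 0)
    (hS : derivative (derivative (derivative S)) = 0) :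
    derivative (derivative (Wr R S * R)) = 0 ∧ derivative (derivative (Wr R S * S)) = 0 := by
  have h3 : (3 : F[X]) = 0 := e3
  constructor
  · simp only [Wr, derivative_mul, derivative_sub, derivative_add]
    linear_combination (S * R) * hR - (R * R) * hS +
      (derivative R * derivative (derivative R) * S - R * derivative R * derivative (derivative S)) * h3
  · simp only [Wr, derivative_mul, derivative_sub, derivative_add]
    linear_combination (S * S) * hR - (R * S) * hS +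
      (derivative (derivative R) * S * derivative S - R * derivative S * derivative (derivative S)) * h3

lemma cube_dd (c Y : F[X]) : derivative (derivative (c ^ 3 * Y)) = c ^ 3 * derivative (derivative Y) := by
  have h3 : (3 : F[X]) = 0 := e3
  have hc : derivative (c ^ 3) = 0 := by
    rw [derivative_pow]
    have : (C ((3 : ℕ) : F) : F[X]) = 0 := by
      rw [CharP.cast_eq_zero, C_0]
    rw [this]
    ring
  rw [derivative_mul, hc, zero_mul, zero_add, derivative_mul, hc, zero_mul, zero_add]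

/-- The `f₀` of a pair. -/
lemma exists_f0 (hB0 : DH.S_B0 F) (hB1 : DH.S_B1 F) (hCP : DH.S_CP F) (g s₁ : ℕ) (R S : F[X])
    (hR : R ∈ POL F g) (hS : S ∈ POL F g) (hW : Wr R S ≠ 0)
    (hd : (Wr R S).natDegree ≤ 3 * (cpart (Wr R S)).natDegree + s₁) :
    ∃ s ∈ Finset.range (s₁ + 1), ∃ f₀ ∈ CF F s, R ∈ KG F g f₀ ∧ S ∈ KG F g f₀ ∧ Ind R S := by
  obtain ⟨-, hMON, -, -, -, -⟩ := hB0
  obtain ⟨-, -, hthird, -⟩ := hB1
  obtain ⟨hc1, hc2, -⟩ := hCP
  obtain ⟨hcm, ⟨W₁, hW₁⟩, -⟩ := hc1 (Wr R S) hW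
  have hfree : CubeFree W₁ := hc2 _ W₁ hW hW₁
  have hc0 : (cpart (Wr R S)) ^ 3 ≠ 0 := pow_ne_zero _ hcm.ne_zero
  have hW₁0 : W₁ ≠ 0 := by
    rintro rfl
    exact hW (by rw [hW₁, mul_zero])
  have hdeg : (Wr R S).natDegree = 3 * (cpart (Wr R S)).natDegree + W₁.natDegree := by
    conv_lhs => rw [hW₁]
    rw [natDegree_mul hc0 hW₁0, natDegree_pow]
  obtain ⟨hRR, hSS⟩ := wr_dd R S (hthird R) (hthird S)
  have hlc : W₁.leadingCoeff ≠ 0 := leadingCoeff_ne_zero.mpr hW₁0
  have hinv : (W₁.leadingCoeff)⁻¹ ≠ 0 := inv_ne_zero hlc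
  have key : ∀ Y : F[X], derivative (derivative (Wr R S * Y)) = 0 →
      derivative (derivative ((C (W₁.leadingCoeff)⁻¹ * W₁) * Y)) = 0 := by
    intro Y hY
    rw [hW₁, mul_assoc, cube_dd] at hY
    have hY' := (mul_eq_zero.mp hY).resolve_left hc0
    rw [mul_assoc, derivative_C_mul, derivative_C_mul, hY', mul_zero]
  refine ⟨W₁.natDegree, ?_, C (W₁.leadingCoeff)⁻¹ * W₁, ?_, ?_, ?_, ?_⟩
  · rw [Finset.mem_range]
    omega
  · rw [CF, Finset.mem_filter, hMON]
    refine ⟨⟨?_, ?_⟩, ?_⟩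
    · rw [Monic, leadingCoeff_mul, leadingCoeff_C, inv_mul_cancel₀ hlc]
    · exact natDegree_C_mul hinv
    · intro b hb
      refine hfree b ?_
      have hu : IsUnit (C (W₁.leadingCoeff)⁻¹ : F[X]) := isUnit_C.mpr (isUnit_iff_ne_zero.mpr hinv)
      exact (hu.dvd_mul_left).mp hb
  · rw [KG, Finset.mem_filter]
    exact ⟨hR, key R hRR⟩
  · rw [KG, Finset.mem_filter]
    exact ⟨hS, key S hSS⟩
  · intro h
    exact hW (by rw [Wr, h, sub_self])

end XX2c

open XX2c

variable (F : Type) [Field F] [Fintype F] [CharP F 3]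

theorem p_X2c (hB0 : DH.S_B0 F) (hB1 : DH.S_B1 F) (hCP : DH.S_CP F) (hG3 : DH.S_G3 F) : S_X2c F := by
  intro g s₁
  have hq : 0 < Fintype.card F := Fintype.card_pos
  have hq1 : 1 ≤ Fintype.card F := hq
  -- the independent pairs in a kernel
  have hA : ∀ s ∈ Finset.range (s₁ + 1), ∀ f₀ ∈ CF F s,
      (((KG F g f₀) ×ˢ (KG F g f₀)).filter (fun p => Ind p.1 p.2)).card * Fintype.card F ^ s ≤
        Fintype.card F ^ ((4 * g + s₁ + 4) / 3) := by
    intro s hs f₀ hf₀
    rw [Finset.mem_range] at hs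
    rcases Finset.eq_empty_or_nonempty (((KG F g f₀) ×ˢ (KG F g f₀)).filter (fun p => Ind p.1 p.2)) with he | ⟨p, hp⟩
    · rw [he, Finset.card_empty, zero_mul]
      exact Nat.zero_le _
    · rw [Finset.mem_filter, Finset.mem_product] at hp
      obtain ⟨⟨hp1, hp2⟩, hI⟩ := hp
      have hp1' := hp1
      have hp2' := hp2
      rw [KG, Finset.mem_filter] at hp1' hp2'
      have hf₀' := hf₀
      rw [CF, Finset.mem_filter, hB0.2.1] at hf₀'
      obtain ⟨-, hle, hcard⟩ := hG3 g s f₀ p.1 p.2 hf₀'.1.1 hf₀'.1.2 hf₀'.2 hp1'.1 hp2'.1 hI hp1'.2 hp2'.2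
      have h1 : (((KG F g f₀) ×ˢ (KG F g f₀)).filter (fun p => Ind p.1 p.2)).card ≤
          Fintype.card F ^ (NN (g + s) - s) * Fintype.card F ^ (NN (g + s) - s) := by
        refine le_trans (Finset.card_filter_le _ _) ?_
        rw [Finset.card_product]
        have h2 : (KG F g f₀).card = Fintype.card F ^ (NN (g + s) - s) := hcard
        rw [h2]
      refine le_trans (Nat.mul_le_mul_right _ h1) ?_
      rw [← pow_add, ← pow_add]
      refine Nat.pow_le_pow_right hq ?_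
      rw [NN] at hle ⊢
      omega
  -- sums over `f₀`
  have hS : ∀ s ∈ Finset.range (s₁ + 1), ∑ f₀ ∈ CF F s,
      (((KG F g f₀) ×ˢ (KG F g f₀)).filter (fun p => Ind p.1 p.2)).card ≤
        Fintype.card F ^ ((4 * g + s₁ + 4) / 3) := by
    intro s hs
    have h1 : (∑ f₀ ∈ CF F s, (((KG F g f₀) ×ˢ (KG F g f₀)).filter (fun p => Ind p.1 p.2)).card) * Fintype.card F ^ s ≤
        Fintype.card F ^ ((4 * g + s₁ + 4) / 3) * Fintype.card F ^ s := by
      rw [Finset.sum_mul]
      refine le_trans (Finset.sum_le_card_nsmul _ _ _ (hA s hs)) ?_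
      rw [smul_eq_mul, mul_comm]
      refine Nat.mul_le_mul_left _ ?_
      rw [← hB0.2.2.2.2.1 s]
      exact Finset.card_filter_le _ _
    exact Nat.le_of_mul_le_mul_right h1 (pow_pos hq s)
  have hmain : ((PG F g).filter (fun p => Wr p.1 p.2 ≠ 0 ∧
      (Wr p.1 p.2).natDegree ≤ 3 * (cpart (Wr p.1 p.2)).natDegree + s₁)).card ≤
      (s₁ + 1) * Fintype.card F ^ ((4 * g + s₁ + 4) / 3) := by
    have hsub : (PG F g).filter (fun p => Wr p.1 p.2 ≠ 0 ∧
        (Wr p.1 p.2).natDegree ≤ 3 * (cpart (Wr p.1 p.2)).natDegree + s₁) ⊆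
        (Finset.range (s₁ + 1)).biUnion (fun s => (CF F s).biUnion (fun f₀ =>
          ((KG F g f₀) ×ˢ (KG F g f₀)).filter (fun p => Ind p.1 p.2))) := by
      intro p hp
      rw [Finset.mem_filter, PG, Finset.mem_product] at hp
      obtain ⟨⟨hp1, hp2⟩, hW, hd⟩ := hp
      obtain ⟨s, hs, f₀, hf₀, hk1, hk2, hI⟩ := exists_f0 hB0 hB1 hCP g s₁ p.1 p.2 hp1 hp2 hW hd
      rw [Finset.mem_biUnion]
      refine ⟨s, hs, ?_⟩
      rw [Finset.mem_biUnion]
      refine ⟨f₀, hf₀, ?_⟩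
      rw [Finset.mem_filter, Finset.mem_product]
      exact ⟨⟨hk1, hk2⟩, hI⟩
    refine le_trans (Finset.card_le_card hsub) ?_
    refine le_trans Finset.card_biUnion_le ?_
    have h2 : ∀ s ∈ Finset.range (s₁ + 1), ((CF F s).biUnion (fun f₀ =>
          ((KG F g f₀) ×ˢ (KG F g f₀)).filter (fun p => Ind p.1 p.2))).card ≤
          Fintype.card F ^ ((4 * g + s₁ + 4) / 3) := by
      intro s hs
      exact le_trans Finset.card_biUnion_le (hS s hs)
    refine le_trans (Finset.sum_le_card_nsmul _ _ _ h2) ?_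
    rw [Finset.card_range, smul_eq_mul]
  have hfin := (Nat.cast_le (α := ℝ)).mpr hmain
  rw [Nat.cast_mul, Nat.cast_pow, Nat.cast_add, Nat.cast_one] at hfin
  exact hfin

end PP
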