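import Pool.Agent.H461.PP.Stm3

/-! Project PP (helper461), part 3, statement X3: the lower bound (helper719). -/

open Polynomial Filter Topology
open scoped Classical

noncomputable section

namespace PP

open DH

namespace XX3

theorem three_le (F : Type) [Field F] [Fintype F] [CharP F 3] : (3 : ℝ) ≤ qq F := by
  have h : 3 ∣ Fintype.card F := (CharP.cast_eq_zero_iff F 3 _).1 (Nat.cast_card_eq_zero F)
  have h2 := Nat.le_of_dvd Fintype.card_pos h
  unfold qq
  exact_mod_cast h2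

theorem eq_zero {F : Type} [Field F] [CharP F 3] {v : F[X]} (h : v = -v) : v = 0 := by
  have h3 : (3 : F[X]) = 0 := by exact_mod_cast CharP.cast_eq_zero F[X] 3
  have h4 : v = 3 * v - (v - -v) := by ring
  rw [h4, h3, ← h]
  ring

theorem sol_neg {F : Type} [Field F] {f v : F[X]} (h : IsSol f v) : IsSol f (-v) := by
  unfold IsSol at h ⊢
  rw [mul_neg, derivative_neg, derivative_neg, h]
  ring

theorem wr_self {F : Type} [Field F] (v : F[X]) : Wr v v = 0 := by
  unfold Wr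
  ring

theorem wr_neg {F : Type} [Field F] (v : F[X]) : Wr v (-v) = 0 := by
  unfold Wr
  rw [derivative_neg]
  ring

/-- the independent pairs for one `f` -/
theorem pairs_le {F : Type} [Field F] [Fintype F] [CharP F 3] (hB1 : DH.S_B1 F) (f : F[X]) :
    ((((solz f) ×ˢ (solz f)).filter (fun p => Wr p.1 p.2 ≠ 0)).card : ℝ) ≤
      ((solz f).card : ℝ) ^ 2 - 2 * ((solz f).card : ℝ) := by
  have hm : ∀ v, v ∈ solz f ↔ v ≠ 0 ∧ IsSol f v := hB1.2.2.2.2.2.2.1 f
  have h1 := Finset.card_filter_add_card_filter_not (s := (solz f) ×ˢ (solz f))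
    (fun p : F[X] × F[X] => Wr p.1 p.2 ≠ 0)
  rw [Finset.card_product] at h1
  have h2 : (solz f).card + (solz f).card ≤
      (((solz f) ×ˢ (solz f)).filter (fun p : F[X] × F[X] => ¬ (Wr p.1 p.2 ≠ 0))).card := by
    have e1 : ((solz f).image (fun v => (v, v))).card = (solz f).card :=
      Finset.card_image_of_injective _ fun a b h => (Prod.ext_iff.1 h).1
    have e2 : ((solz f).image (fun v => (v, -v))).card = (solz f).card :=
      Finset.card_image_of_injective _ fun a b h => (Prod.ext_iff.1 h).1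
    have hd : Disjoint ((solz f).image (fun v => (v, v))) ((solz f).image (fun v => (v, -v))) := by
      rw [Finset.disjoint_left]
      intro p hp hp'
      obtain ⟨v, hv, rfl⟩ := Finset.mem_image.1 hp
      obtain ⟨w, hw, h⟩ := Finset.mem_image.1 hp'
      obtain ⟨h3, h4⟩ := Prod.ext_iff.1 h
      change w = v at h3
      change -w = v at h4
      rw [h3] at h4
      exact ((hm v).1 hv).1 (eq_zero h4.symm)
    calc (solz f).card + (solz f).card
        = ((solz f).image (fun v => (v, v))).card + ((solz f).image (fun v => (v, -v))).card := by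
          rw [e1, e2]
      _ = (((solz f).image (fun v => (v, v))) ∪ ((solz f).image (fun v => (v, -v)))).card :=
          (Finset.card_union_of_disjoint hd).symm
      _ ≤ _ := by
          refine Finset.card_le_card fun p hp => ?_
          rw [Finset.mem_filter, Finset.mem_product, not_not]
          rcases Finset.mem_union.1 hp with h | h
          · obtain ⟨v, hv, rfl⟩ := Finset.mem_image.1 h
            exact ⟨⟨hv, hv⟩, wr_self v⟩
          · obtain ⟨v, hv, rfl⟩ := Finset.mem_image.1 h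
            have hv' := (hm v).1 hv
            exact ⟨⟨hv, (hm (-v)).2 ⟨neg_ne_zero.2 hv'.1, sol_neg hv'.2⟩⟩, wr_neg v⟩
  have h3 : ((((solz f) ×ˢ (solz f)).filter (fun p : F[X] × F[X] => Wr p.1 p.2 ≠ 0)).card : ℝ) +
      ((((solz f) ×ˢ (solz f)).filter
        (fun p : F[X] × F[X] => ¬ (Wr p.1 p.2 ≠ 0))).card : ℝ) =
      ((solz f).card : ℝ) * ((solz f).card : ℝ) := by exact_mod_cast h1
  have h4 : ((solz f).card : ℝ) + ((solz f).card : ℝ) ≤
      ((((solz f) ×ˢ (solz f)).filter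
        (fun p : F[X] × F[X] => ¬ (Wr p.1 p.2 ≠ 0))).card : ℝ) := by exact_mod_cast h2
  nlinarith

/-- the good pairs -/
def MC (F : Type) [Field F] [Fintype F] [CharP F 3] (g : ℕ) : Finset (F[X] × F[X]) :=
  (MP F g).filter (fun p => CubeFree (Wr p.1 p.2))

theorem ii_ge {F : Type} [Field F] [Fintype F] [CharP F 3] (hB1 : DH.S_B1 F) (hX1 : S_X1 F)
    (hX2a : S_X2a F) {g : ℕ} (hg : 3 ≤ g) : qq F ^ 2 * ((MC F g).card : ℝ) ≤ II F g := by
  have hm : ∀ f v, v ∈ solz f ↔ v ≠ 0 ∧ IsSol f v := hB1.2.2.2.2.2.2.1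
  let r : F[X] → F[X] × F[X] → Prop := fun f p => IsSol f p.1 ∧ IsSol f p.2
  have h1 := Finset.sum_card_bipartiteAbove_eq_sum_card_bipartiteBelow
    (s := MON F (2 * g + 1)) (t := MC F g) r
  have h2 : (MC F g).card * Fintype.card F ^ 2 ≤
      ∑ p ∈ MC F g, ((MON F (2 * g + 1)).bipartiteBelow r p).card := by
    rw [← smul_eq_mul]
    refine Finset.card_nsmul_le_sum _ _ _ fun p hp => ?_
    obtain ⟨hp1, hp2⟩ := Finset.mem_filter.1 hp
    exact hX1 g p hg hp1 hp2
  have h3 : ∀ f : F[X], (((MC F g).bipartiteAbove r f).card : ℝ) ≤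
      ((solz f).card : ℝ) ^ 2 - 2 * ((solz f).card : ℝ) := by
    intro f
    refine le_trans ?_ (pairs_le hB1 f)
    have h4 : (MC F g).bipartiteAbove r f ⊆
        ((solz f) ×ˢ (solz f)).filter (fun p => Wr p.1 p.2 ≠ 0) := by
      intro p hp
      obtain ⟨hp1, hp2, hp3⟩ := Finset.mem_filter.1 hp
      have hw := ((hX2a g hg).2 p (Finset.mem_filter.1 hp1).1).1
      rw [Finset.mem_filter, Finset.mem_product]
      refine ⟨⟨(hm f _).2 ⟨?_, hp2⟩, (hm f _).2 ⟨?_, hp3⟩⟩, hw⟩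
      · intro h
        apply hw
        rw [h]
        unfold Wr
        rw [derivative_zero]
        ring
      · intro h
        apply hw
        rw [h]
        unfold Wr
        rw [derivative_zero]
        ring
    exact_mod_cast Finset.card_le_card h4
  have h5 : ((∑ f ∈ MON F (2 * g + 1), ((MC F g).bipartiteAbove r f).card : ℕ) : ℝ) ≤ II F g := by
    push_cast
    exact Finset.sum_le_sum fun f _ => h3 f
  rw [h1] at h5
  refine le_trans ?_ h5
  have h6 : (((MC F g).card * Fintype.card F ^ 2 : ℕ) : ℝ) ≤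
      ((∑ p ∈ MC F g, ((MON F (2 * g + 1)).bipartiteBelow r p).card : ℕ) : ℝ) := by
    exact_mod_cast h2
  refine le_trans (le_of_eq ?_) h6
  unfold qq
  push_cast
  ring

theorem geo {q : ℝ} (hq : 3 ≤ q) (n : ℕ) : ∑ d ∈ Finset.range n, 1 / q ^ (d + 1) ≤ 3 / (2 * q) := by
  have hq0 : 0 < q := by linarith
  have h : ∑ d ∈ Finset.range n, 1 / q ^ (d + 1) = 1 / (q - 1) * (1 - 1 / q ^ n) := by
    have hq1 : q - 1 ≠ 0 := by
      intro h
      linarith
    induction n with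
    | zero => simp
    | succ n ih =>
      rw [Finset.sum_range_succ, ih]
      field_simp
      ring
  rw [h]
  have h1 : 1 / (q - 1) ≤ 3 / (2 * q) := by
    rw [div_le_div_iff₀ (by linarith) (by linarith)]
    linarith
  have h2 : 0 ≤ 1 / q ^ n := by positivity
  have h3 : 0 ≤ 1 / (q - 1) := by
    apply div_nonneg zero_le_one
    linarith
  calc 1 / (q - 1) * (1 - 1 / q ^ n) ≤ 1 / (q - 1) * 1 :=
        mul_le_mul_of_nonneg_left (by linarith) h3
    _ ≤ 3 / (2 * q) := by rw [mul_one]; exact h1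

/-- the bad pairs -/
theorem bad_le {F : Type} [Field F] [Fintype F] [CharP F 3] (hB0 : DH.S_B0 F) (hCP : DH.S_CP F)
    (hX2a : S_X2a F) (hX2b : S_X2b F) (hX2c : S_X2c F) {g : ℕ} (hg : 3 ≤ g) :
    (((MP F g).filter (fun p => ¬ CubeFree (Wr p.1 p.2))).card : ℝ) ≤
      3 / qq F * qq F ^ (2 * g - 1) + ((g : ℝ) + 1) * qq F ^ ((4 * g + g + 4) / 3) := by
  have hq := three_le F
  have hq0 : 0 < qq F := by linarith
  let T : Finset ℕ := (Finset.range g).filter (fun d => 3 * (d + 1) + 2 ≤ g)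
  let A : ℕ → Finset (F[X] × F[X]) := fun d =>
    ((MON F (d + 1)).filter (fun P => Irreducible P)).biUnion
      (fun P => (MP F g).filter (fun p => P ^ 3 ∣ Wr p.1 p.2))
  let B : Finset (F[X] × F[X]) := (PG F g).filter (fun p => Wr p.1 p.2 ≠ 0 ∧
    (Wr p.1 p.2).natDegree ≤ 3 * (cpart (Wr p.1 p.2)).natDegree + g)
  have hsub : (MP F g).filter (fun p => ¬ CubeFree (Wr p.1 p.2)) ⊆ T.biUnion A ∪ B := by
    intro p hp
    obtain ⟨hp1, hp2⟩ := Finset.mem_filter.1 hp
    obtain ⟨hw0, hwd⟩ := (hX2a g hg).2 p hp1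
    unfold CubeFree at hp2
    push Not at hp2
    obtain ⟨b, hb, hbu⟩ := hp2
    obtain ⟨P, hPm, hPi, hPb⟩ := exists_monic_irreducible_factor b hbu
    have hP3 : P ^ 3 ∣ Wr p.1 p.2 := (pow_dvd_pow_of_dvd hPb 3).trans hb
    have hPd : 1 ≤ P.natDegree := hPi.natDegree_pos
    obtain ⟨hcm, hc3, hcl⟩ := hCP.1 (Wr p.1 p.2) hw0
    rw [Finset.mem_union]
    by_cases h : 3 * P.natDegree + 2 ≤ g
    · left
      rw [Finset.mem_biUnion]
      refine ⟨P.natDegree - 1, ?_, ?_⟩
      · rw [Finset.mem_filter, Finset.mem_range]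
        omega
      · rw [Finset.mem_biUnion]
        refine ⟨P, ?_, ?_⟩
        · rw [Finset.mem_filter, hB0.2.1]
          exact ⟨⟨hPm, by omega⟩, hPi⟩
        · rw [Finset.mem_filter]
          exact ⟨hp1, hP3⟩
    · right
      have h2 : P.natDegree ≤ (cpart (Wr p.1 p.2)).natDegree :=
        natDegree_le_of_dvd (hcl P hP3) hcm.ne_zero
      rw [Finset.mem_filter]
      refine ⟨(Finset.mem_filter.1 hp1).1, hw0, ?_⟩
      rw [hwd]
      omega
  have hA : ∀ d ∈ T, ((A d).card : ℝ) ≤ 2 * qq F ^ (2 * g - 1) * (1 / qq F ^ (d + 1)) := by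
    intro d hd
    obtain ⟨_, hd2⟩ := Finset.mem_filter.1 hd
    have h1 : ((A d).card : ℝ) ≤ ∑ P ∈ (MON F (d + 1)).filter (fun P => Irreducible P),
        (((MP F g).filter (fun p => P ^ 3 ∣ Wr p.1 p.2)).card : ℝ) := by
      exact_mod_cast Finset.card_biUnion_le
    have h2 : ∑ P ∈ (MON F (d + 1)).filter (fun P => Irreducible P),
        (((MP F g).filter (fun p => P ^ 3 ∣ Wr p.1 p.2)).card : ℝ) ≤
        ∑ P ∈ (MON F (d + 1)).filter (fun P => Irreducible P),
          2 * qq F ^ (2 * g - 1) / qq F ^ (2 * (d + 1)) := by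
      refine Finset.sum_le_sum fun P hP => ?_
      obtain ⟨hP1, hP2⟩ := Finset.mem_filter.1 hP
      exact hX2b g (d + 1) P hP1 hP2 hd2 hg
    have h3 : (((MON F (d + 1)).filter (fun P => Irreducible P)).card : ℝ) ≤ qq F ^ (d + 1) := by
      have h4 := Finset.card_filter_le (MON F (d + 1)) (fun P => Irreducible P)
      rw [hB0.2.2.2.2.1] at h4
      unfold qq
      exact_mod_cast h4
    rw [Finset.sum_const, nsmul_eq_mul] at h2
    refine (h1.trans h2).trans ?_
    refine (mul_le_mul_of_nonneg_right h3 (by positivity)).trans (le_of_eq ?_)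
    rw [show 2 * (d + 1) = (d + 1) + (d + 1) by ring, pow_add (qq F) (d + 1) (d + 1)]
    field_simp
  have hB : (B.card : ℝ) ≤ ((g : ℝ) + 1) * qq F ^ ((4 * g + g + 4) / 3) := hX2c g g
  have h1 : (((MP F g).filter (fun p => ¬ CubeFree (Wr p.1 p.2))).card : ℝ) ≤
      ∑ d ∈ T, ((A d).card : ℝ) + (B.card : ℝ) := by
    have h2 := (Finset.card_le_card hsub).trans
      ((Finset.card_union_le _ _).trans (Nat.add_le_add_right Finset.card_biUnion_le _))
    exact_mod_cast h2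
  have h2 : ∑ d ∈ T, ((A d).card : ℝ) ≤ 3 / qq F * qq F ^ (2 * g - 1) := by
    calc ∑ d ∈ T, ((A d).card : ℝ) ≤
        ∑ d ∈ T, 2 * qq F ^ (2 * g - 1) * (1 / qq F ^ (d + 1)) := Finset.sum_le_sum hA
      _ ≤ ∑ d ∈ Finset.range g, 2 * qq F ^ (2 * g - 1) * (1 / qq F ^ (d + 1)) :=
          Finset.sum_le_sum_of_subset_of_nonneg (Finset.filter_subset _ _)
            fun d _ _ => by positivity
      _ = 2 * qq F ^ (2 * g - 1) * ∑ d ∈ Finset.range g, 1 / qq F ^ (d + 1) := by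
          rw [Finset.mul_sum]
      _ ≤ 2 * qq F ^ (2 * g - 1) * (3 / (2 * qq F)) :=
          mul_le_mul_of_nonneg_left (geo hq g) (by positivity)
      _ = 3 / qq F * qq F ^ (2 * g - 1) := by
          field_simp
  linarith

theorem small {ε : ℝ} (hε : 0 < ε) : ∃ m₀ : ℕ, ∀ m ≥ m₀, 3 * (m : ℝ) + 8 ≤ ε * 2 ^ m := by
  have h1 := tendsto_pow_const_div_const_pow_of_one_lt 1 (one_lt_two : (1 : ℝ) < 2)
  have h0 := tendsto_pow_const_div_const_pow_of_one_lt 0 (one_lt_two : (1 : ℝ) < 2)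
  have h := (h1.const_mul 3).add (h0.const_mul 8)
  rw [mul_zero, mul_zero, add_zero] at h
  obtain ⟨m₀, hm⟩ := eventually_atTop.1 (h.eventually (gt_mem_nhds hε))
  refine ⟨m₀, fun m h => ?_⟩
  have h2 := hm m h
  have h3 : (0 : ℝ) < 2 ^ m := by positivity
  rw [pow_one, pow_zero] at h2
  have h4 : 3 * ((m : ℝ) / 2 ^ m) + 8 * (1 / 2 ^ m) = (3 * (m : ℝ) + 8) / 2 ^ m := by ring
  rw [h4, div_lt_iff₀ h3] at h2
  exact h2.le

end XX3

open XX3 in
theorem p_X3 (F : Type) [Field F] [Fintype F] [CharP F 3] (hB0 : DH.S_B0 F) (hB1 : DH.S_B1 F)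
    (hCP : DH.S_CP F) (hX1 : S_X1 F) (hX2a : S_X2a F) (hX2b : S_X2b F) (hX2c : S_X2c F) :
    S_X3 F := by
  intro ε hε
  obtain ⟨m₀, hm₀⟩ := small hε
  refine ⟨3 * m₀ + 20, fun g hg => ?_⟩
  have hg3 : 3 ≤ g := by omega
  have hq := three_le F
  have hq0 : 0 < qq F := by linarith
  refine le_trans ?_ (ii_ge hB1 hX1 hX2a hg3)
  have h1 := Finset.card_filter_add_card_filter_not (s := MP F g)
    (fun p : F[X] × F[X] => CubeFree (Wr p.1 p.2))
  have h2 : ((MC F g).card : ℝ) + (((MP F g).filter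
      (fun p => ¬ CubeFree (Wr p.1 p.2))).card : ℝ) = ((MP F g).card : ℝ) := by exact_mod_cast h1
  have h3 := bad_le hB0 hCP hX2a hX2b hX2c hg3
  rw [(hX2a g hg3).1] at h2
  obtain ⟨m, hm⟩ : ∃ m, 2 * g - 1 = (4 * g + g + 4) / 3 + m :=
    ⟨2 * g - 1 - (4 * g + g + 4) / 3, by omega⟩
  have hm1 : m₀ ≤ m := by omega
  have hm2 : g ≤ 3 * m + 7 := by omega
  have h4 : ((g : ℝ) + 1) * qq F ^ ((4 * g + g + 4) / 3) ≤ ε * qq F ^ (2 * g - 1) := by
    have h5 : (g : ℝ) + 1 ≤ ε * qq F ^ m := by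
      have h6 : (g : ℝ) ≤ 3 * m + 7 := by exact_mod_cast hm2
      have h7 := hm₀ m hm1
      have h8 : (2 : ℝ) ^ m ≤ qq F ^ m := pow_le_pow_left₀ (by norm_num) (by linarith) m
      have h9 := mul_le_mul_of_nonneg_left h8 hε.le
      linarith
    rw [hm, pow_add]
    calc ((g : ℝ) + 1) * qq F ^ ((4 * g + g + 4) / 3) ≤
        (ε * qq F ^ m) * qq F ^ ((4 * g + g + 4) / 3) :=
          mul_le_mul_of_nonneg_right h5 (by positivity)
      _ = ε * (qq F ^ ((4 * g + g + 4) / 3) * qq F ^ m) := by ring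
  have e1 : qq F ^ (2 * g - 1) = qq F ^ (2 * g - 3) * qq F ^ 2 := by
    rw [← pow_add]
    congr 1
    omega
  have e2 : qq F ^ (2 * g + 1) = qq F ^ (2 * g - 3) * qq F ^ 4 := by
    rw [← pow_add]
    congr 1
    omega
  have hA : 0 < qq F ^ (2 * g - 3) := by positivity
  have h5 : 3 / qq F * qq F ^ (2 * g - 1) = 3 * qq F ^ (2 * g - 3) * qq F := by
    rw [e1]
    field_simp
  rw [h5] at h3
  rw [e1] at h4
  rw [e2]
  have h6 : ((MC F g).card : ℝ) ≥ (qq F - 1) * (qq F - 3) * qq F ^ (2 * g - 3) -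
      3 * qq F ^ (2 * g - 3) * qq F - ε * (qq F ^ (2 * g - 3) * qq F ^ 2) := by linarith
  have h7 := mul_le_mul_of_nonneg_left h6 (by positivity : 0 ≤ qq F ^ 2)
  refine le_trans ?_ h7
  have h8 : (1 - 7 / qq F - ε) * (qq F ^ (2 * g - 3) * qq F ^ 4) =
      qq F ^ (2 * g - 3) * qq F ^ 4 - 7 * qq F ^ (2 * g - 3) * qq F ^ 3 -
        ε * (qq F ^ (2 * g - 3) * qq F ^ 4) := by
    field_simp
  rw [h8]
  have h9 : 0 ≤ 3 * qq F ^ (2 * g - 3) * qq F ^ 2 := by positivity
  nlinarith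

end PP
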