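import Pool.Agent.H461.PP.Stm3

/-!
# PP Z1: the second moment over the squarefree `f`
-/

open Polynomial
open scoped Classical

noncomputable section

namespace PP

open DH

namespace XZ1

variable (F : Type) [Field F] [Fintype F] [CharP F 3]

/-- `q ≥ 3`. -/
theorem three_le_qq : (3 : ℝ) ≤ qq F := by
  obtain ⟨n, -, hn⟩ := FiniteField.card F 3
  have h1 : 3 ^ 1 ≤ 3 ^ (n : ℕ) := Nat.pow_le_pow_right (by norm_num) n.pos
  have h2 : 3 ≤ Fintype.card F := by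
    rw [hn]
    simpa using h1
  unfold qq
  exact_mod_cast h2

/-- `(g + 1)³ / q^{g/4} → 0`. -/
theorem small (Cst : ℝ) (hC : 0 < Cst) (e : ℝ) (he : 0 < e) :
    ∃ g₀ : ℕ, ∀ g ≥ g₀, Cst * ((g : ℝ) + 1) ^ 3 / qq F ^ (g / 4) ≤ e := by
  have hq := three_le_qq F
  have hq0 : 0 < qq F := by linarith
  have hq1 : 1 < qq F := by linarith
  have hT := tendsto_pow_const_div_const_pow_of_one_lt 3 hq1
  have hd : 0 < e / (64 * Cst * qq F) := by positivity
  have hE := hT.eventually (eventually_le_nhds hd)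
  obtain ⟨n₀, hn₀⟩ := Filter.eventually_atTop.1 hE
  refine ⟨4 * n₀, fun g hg => ?_⟩
  set m := g / 4 with hm
  have hm1 : n₀ ≤ m + 1 := by omega
  have hm2 : g + 1 ≤ 4 * (m + 1) := by omega
  have h1 := hn₀ (m + 1) hm1
  have h2 : ((g : ℝ) + 1) ≤ 4 * ((m + 1 : ℕ) : ℝ) := by exact_mod_cast hm2
  have h3 : ((g : ℝ) + 1) ^ 3 ≤ (4 * ((m + 1 : ℕ) : ℝ)) ^ 3 := by
    gcongr
  rw [div_le_iff₀ (by positivity)] at h1 ⊢
  have h4 : qq F ^ (m + 1) = qq F ^ m * qq F := pow_succ _ _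
  rw [h4] at h1
  have h5 : e / (64 * Cst * qq F) * (qq F ^ m * qq F) = e / (64 * Cst) * qq F ^ m := by
    field_simp
  rw [h5] at h1
  calc Cst * ((g : ℝ) + 1) ^ 3 ≤ Cst * (4 * ((m + 1 : ℕ) : ℝ)) ^ 3 := by
        exact mul_le_mul_of_nonneg_left h3 hC.le
    _ = 64 * Cst * ((m + 1 : ℕ) : ℝ) ^ 3 := by ring
    _ ≤ 64 * Cst * (e / (64 * Cst) * qq F ^ m) := by
        exact mul_le_mul_of_nonneg_left h1 (by positivity)
    _ = e * qq F ^ m := by
        field_simp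

/-- `#solz f` is `0` or at least `2`. -/
theorem solz_card (hB1 : DH.S_B1 F) (f : F[X]) : (solz f).card = 0 ∨ 2 ≤ (solz f).card := by
  obtain ⟨-, -, -, -, -, -, h7, -, -⟩ := hB1
  by_cases h : (solz f).card = 0
  · exact Or.inl h
  · right
    obtain ⟨v, hv⟩ := Finset.card_pos.1 (Nat.pos_of_ne_zero h)
    obtain ⟨hv0, hvs⟩ := (h7 f v).1 hv
    have hneg : -v ∈ solz f := by
      refine (h7 f (-v)).2 ⟨neg_ne_zero.2 hv0, ?_⟩
      unfold IsSol at hvs ⊢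
      rw [mul_neg, derivative_neg, derivative_neg, hvs]
      ring
    have hne : v ≠ -v := by
      intro he
      have h1 : v + v = 0 := by
        nth_rewrite 1 [he]
        ring
      have h3 : (3 : F[X]) = 0 := by
        have := CharP.cast_eq_zero F[X] 3
        exact_mod_cast this
      have h4 : v = 3 * v - (v + v) := by ring
      rw [h3, h1] at h4
      apply hv0
      rw [h4]
      ring
    have hsub : ({v, -v} : Finset F[X]) ⊆ solz f := by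
      intro w hw
      rw [Finset.mem_insert, Finset.mem_singleton] at hw
      rcases hw with rfl | rfl
      · exact hv
      · exact hneg
    have hc := Finset.card_le_card hsub
    rwa [Finset.card_pair hne] at hc

/-- `0 ≤ I(f)`. -/
theorem I_nonneg (hB1 : DH.S_B1 F) (f : F[X]) :
    0 ≤ ((solz f).card : ℝ) ^ 2 - 2 * ((solz f).card : ℝ) := by
  rcases solz_card F hB1 f with h | h
  · rw [h]
    norm_num
  · have h2 : (2 : ℝ) ≤ ((solz f).card : ℝ) := by exact_mod_cast h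
    nlinarith

/-- `I(f) ≤ (#sol f)²`. -/
theorem I_le (hB1 : DH.S_B1 F) (f : F[X]) :
    ((solz f).card : ℝ) ^ 2 - 2 * ((solz f).card : ℝ) ≤ ((sol f).card : ℝ) ^ 2 := by
  obtain ⟨-, -, -, -, -, -, -, h8, -⟩ := hB1
  rw [h8 f]
  have h0 : (0 : ℝ) ≤ ((solz f).card : ℝ) := Nat.cast_nonneg _
  push_cast
  nlinarith

/-- `(cl3 f)² = I(f) + 4 #solz f + 1` on `SQF`. -/
theorem cl3_sq (hB0 : DH.S_B0 F) (hB1 : DH.S_B1 F) (hA9 : DH.S_A9 F) (g : ℕ) (f : F[X])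
    (hf : f ∈ SQF F (2 * g + 1)) :
    (cl3 f : ℝ) ^ 2 = (((solz f).card : ℝ) ^ 2 - 2 * ((solz f).card : ℝ)) +
      4 * (((solz f).card : ℝ) - 1) + 5 := by
  obtain ⟨-, h2, -, -, -, -⟩ := hB0
  obtain ⟨-, -, -, -, -, -, -, h8, -⟩ := hB1
  unfold SQF at hf
  obtain ⟨hfM, hfS⟩ := Finset.mem_filter.1 hf
  obtain ⟨hm, hd⟩ := (h2 _ f).1 hfM
  have hG : Good f := ⟨hm, hfS, by rw [hd]; exact ⟨g, rfl⟩⟩
  rw [hA9 f hG, h8 f]
  push_cast
  ring

/-- The numbers. -/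
theorem final (q N Q S1 S2 A I J e e₁ : ℝ) (hq : 3 ≤ q) (hN : N = Q - Q / q) (hQ : 0 < Q)
    (he : 0 < e) (he₁ : e₁ = e / 10)
    (hA : A = S1 + 4 * S2 + 5 * N)
    (hI : I = S1 + J) (hJ0 : 0 ≤ J) (hJ : J ≤ (30000000 / q + e₁) * Q)
    (hW : I ≤ (1 + 4000000 / q + e₁) * Q) (hX : (1 - 7 / q - e₁) * Q ≤ I)
    (hS : |S2| ≤ e₁ * Q) :
    |A - 6 * N| ≤ (1000000000 / q + e) * N := by
  have hq0 : 0 < q := by linarith
  obtain ⟨hS1, hS2⟩ := abs_le.1 hS
  have hr : 1 / q ≤ 1 / 3 := one_div_le_one_div_of_le (by norm_num) hq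
  have hr0 : 0 < 1 / q := by positivity
  have e1 : 30000000 / q = 30000000 * (1 / q) := by ring
  have e2 : 4000000 / q = 4000000 * (1 / q) := by ring
  have e3 : 7 / q = 7 * (1 / q) := by ring
  have e4 : 1000000000 / q = 1000000000 * (1 / q) := by ring
  have e5 : Q / q = Q * (1 / q) := by ring
  rw [e5] at hN
  rw [e1] at hJ
  rw [e2] at hW
  rw [e3] at hX
  rw [e4]
  generalize 1 / q = r at *
  have hrQ : 0 < r * Q := by positivity
  have heQ : 0 < e * Q := by positivity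
  have hNQ : 2 / 3 * Q ≤ N := by
    rw [hN]
    nlinarith
  have k1 : 2 / 3 * (r * Q) ≤ r * N := by nlinarith
  have k2 : 2 / 3 * (e * Q) ≤ e * N := by nlinarith
  rw [abs_le]
  subst he₁
  constructor
  · nlinarith
  · nlinarith

end XZ1

open XZ1 in
theorem p_Z1 (F : Type) [Field F] [Fintype F] [CharP F 3] (hB0 : DH.S_B0 F) (hB1 : DH.S_B1 F)
    (hA9 : DH.S_A9 F) (hF5 : DH.S_F5 F) (hF9 : DH.S_F9 F) (hW8 : S_W8 F) (hX3 : S_X3 F)
    (hY1 : S_Y1 F) : S_Z1 F := by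
  intro e he
  have hq := three_le_qq F
  have hq0 : 0 < qq F := by linarith
  have he₁ : 0 < e / 10 := by positivity
  obtain ⟨Cst, hC, hF9'⟩ := hF9
  obtain ⟨g₁, hg₁⟩ := hW8 (e / 10) he₁
  obtain ⟨g₂, hg₂⟩ := hX3 (e / 10) he₁
  obtain ⟨g₃, hg₃⟩ := hY1 (e / 10) he₁
  obtain ⟨g₄, hg₄⟩ := small F Cst hC (e / 10) he₁
  refine ⟨g₁ + g₂ + g₃ + g₄ + 1, fun g hg => ?_⟩
  have hW := hg₁ g (by omega)
  have hX := hg₂ g (by omega)
  have hY := hg₃ g (by omega)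
  have hsm := hg₄ g (by omega)
  have hQ : 0 < qq F ^ (2 * g + 1) := by positivity
  refine final (qq F) _ (qq F ^ (2 * g + 1))
    (∑ f ∈ SQF F (2 * g + 1), (((solz f).card : ℝ) ^ 2 - 2 * ((solz f).card : ℝ)))
    (∑ f ∈ SQF F (2 * g + 1), (((solz f).card : ℝ) - 1)) _ (II F g)
    (∑ f ∈ (MON F (2 * g + 1)).filter (fun f => ¬ Squarefree f),
      (((solz f).card : ℝ) ^ 2 - 2 * ((solz f).card : ℝ))) e (e / 10) hq ?_ hQ he rfl ?_ ?_ ?_ ?_
    hW hX ?_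
  · rw [hF5.2 g (by omega)]
    have : qq F ^ (2 * g + 1) / qq F = qq F ^ (2 * g) := by
      rw [pow_succ]
      field_simp
    rw [this]
  · rw [Finset.sum_congr rfl (fun f hf => cl3_sq F hB0 hB1 hA9 g f hf), Finset.sum_add_distrib,
      Finset.sum_add_distrib, ← Finset.mul_sum, Finset.sum_const, nsmul_eq_mul]
    ring
  · unfold II SQF
    exact (Finset.sum_filter_add_sum_filter_not (MON F (2 * g + 1)) (fun f => Squarefree f) _).symm
  · exact Finset.sum_nonneg (fun f _ => I_nonneg F hB1 f)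
  · exact le_trans (Finset.sum_le_sum (fun f _ => I_le F hB1 f)) hY
  · refine le_trans (hF9' g) ?_
    have : Cst * ((g : ℝ) + 1) ^ 3 * qq F ^ (2 * g + 1) / qq F ^ (g / 4) =
        Cst * ((g : ℝ) + 1) ^ 3 / qq F ^ (g / 4) * qq F ^ (2 * g + 1) := by
      ring
    rw [this]
    exact mul_le_mul_of_nonneg_right hsm hQ.le

end PP
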