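import Pool.Agent.H461.PP.Stm3
import Pool.Agent.H463.DH.Stm3

set_option autoImplicit false

/-!
# Z2: the proportion `9/16` (by helper120)
-/

open Polynomial
open scoped Classical

noncomputable section

namespace PP

open DH

namespace XZ2

variable {F : Type} [Field F] [Fintype F] [CharP F 3]

theorem qq_ge : (3 : ℝ) ≤ qq F := by
  obtain ⟨n, _, hn⟩ := FiniteField.card F 3
  unfold qq
  rw [hn]
  push_cast
  calc (3 : ℝ) = 3 ^ 1 := (pow_one 3).symm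
    _ ≤ 3 ^ (n : ℕ) := pow_le_pow_right₀ (by norm_num) n.pos

theorem card_sol (hB0 : DH.S_B0 F) (f : F[X]) (hf : 0 < f.natDegree) :
    (sol f).card = (solz f).card + 1 := by
  have h0 : (0 : F[X]) ∉ solz f := by
    unfold solz
    rw [Finset.mem_filter]
    rintro ⟨_, h, _⟩
    exact h rfl
  rw [← Finset.card_insert_of_notMem h0]
  congr 1
  ext v
  unfold sol solz
  rw [Finset.mem_insert, Finset.mem_filter, Finset.mem_filter]
  constructor
  · rintro ⟨h1, h2⟩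
    by_cases hv : v = 0
    · exact Or.inl hv
    · exact Or.inr ⟨h1, hv, h2⟩
  · rintro (rfl | ⟨h1, _, h2⟩)
    · refine ⟨(hB0.1 _ _).2 ?_, ?_⟩
      · rw [degree_zero]
        exact WithBot.bot_lt_coe _
      · unfold IsSol
        simp
    · exact ⟨h1, h2⟩

theorem good_of (hB0 : DH.S_B0 F) (g : ℕ) (f : F[X]) (hf : f ∈ SQF F (2 * g + 1)) :
    Good f ∧ 0 < f.natDegree := by
  unfold SQF at hf
  rw [Finset.mem_filter, hB0.2.1] at hf
  refine ⟨⟨hf.1.1, hf.2, ?_⟩, ?_⟩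
  · rw [hf.1.2]
    exact ⟨g, rfl⟩
  · rw [hf.1.2]
    omega

/-- the elementary inequality -/
theorem ineq (r : ℕ) : (if (3 : ℕ) ^ r = 1 then (16 : ℝ) else 0) ≤
    ((3 ^ r : ℕ) : ℝ) ^ 2 - 12 * ((3 ^ r : ℕ) : ℝ) + 27 := by
  have e : ((3 ^ r : ℕ) : ℝ) ^ 2 - 12 * ((3 ^ r : ℕ) : ℝ) + 27 =
      (((3 ^ r : ℕ) : ℝ) - 3) * (((3 ^ r : ℕ) : ℝ) - 9) := by ring
  rw [e]
  rcases r with _ | r
  · norm_num
  · have h1 : ¬ (3 : ℕ) ^ (r + 1) = 1 := by
      have : 3 ^ (r + 1) = 3 * 3 ^ r := by ring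
      omega
    rw [if_neg h1]
    rcases r with _ | r
    · norm_num
    · have h2 : (9 : ℝ) ≤ ((3 ^ (r + 1 + 1) : ℕ) : ℝ) := by
        have h3 : (1 : ℝ) ≤ 3 ^ r := one_le_pow₀ (by norm_num)
        push_cast
        rw [pow_succ, pow_succ]
        linarith
      exact mul_nonneg (by linarith) (by linarith)

theorem small (q C ε : ℝ) (hq : 1 < q) (hC : 0 < C) (hε : 0 < ε) :
    ∃ g₀ : ℕ, ∀ g : ℕ, g₀ ≤ g → C * ((g : ℝ) + 1) ^ 3 / q ^ (g / 4) ≤ ε := by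
  have hq0 : 0 < q := by linarith
  have h1 := tendsto_pow_const_div_const_pow_of_one_lt 3 hq
  have hpos : 0 < ε / (64 * C * q) := by positivity
  obtain ⟨m₀, hm₀⟩ := Filter.eventually_atTop.1 (h1.eventually (gt_mem_nhds hpos))
  refine ⟨4 * m₀, fun g hg => ?_⟩
  have h2 := hm₀ (g / 4 + 1) (by omega)
  have h3 : (g : ℝ) + 1 ≤ 4 * ((g / 4 + 1 : ℕ) : ℝ) := by
    have : g + 1 ≤ 4 * (g / 4 + 1) := by omega
    exact_mod_cast this
  have h4 : ((g : ℝ) + 1) ^ 3 ≤ 64 * ((g / 4 + 1 : ℕ) : ℝ) ^ 3 := by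
    calc ((g : ℝ) + 1) ^ 3 ≤ (4 * ((g / 4 + 1 : ℕ) : ℝ)) ^ 3 :=
          pow_le_pow_left₀ (by positivity) h3 3
      _ = 64 * ((g / 4 + 1 : ℕ) : ℝ) ^ 3 := by ring
  calc C * ((g : ℝ) + 1) ^ 3 / q ^ (g / 4)
      ≤ C * (64 * ((g / 4 + 1 : ℕ) : ℝ) ^ 3) / q ^ (g / 4) := by
        apply div_le_div_of_nonneg_right _ (by positivity)
        exact mul_le_mul_of_nonneg_left h4 hC.le
    _ = 64 * C * q * (((g / 4 + 1 : ℕ) : ℝ) ^ 3 / q ^ (g / 4 + 1)) := by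
        rw [pow_succ q]
        field_simp
    _ ≤ 64 * C * q * (ε / (64 * C * q)) := mul_le_mul_of_nonneg_left h2.le (by positivity)
    _ = ε := by field_simp

end XZ2

open XZ2

theorem p_Z2 (F : Type) [Field F] [Fintype F] [CharP F 3] (hB0 : DH.S_B0 F) (hA9 : DH.S_A9 F)
    (hF5 : DH.S_F5 F) (hF9 : DH.S_F9 F) (hC2 : DH.S_C2 F) (hZ1 : S_Z1 F) : S_Z2 F := by
  intro ε hε
  have hq3 := qq_ge (F := F)
  have hq0 : 0 < qq F := by linarith
  obtain ⟨C, hC, hmom⟩ := hF9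
  obtain ⟨g₁, hg₁⟩ := hZ1 ε hε
  obtain ⟨g₂, hg₂⟩ := small (qq F) C (ε / 100) (by linarith) hC (by positivity)
  refine ⟨g₁ + g₂ + 1, fun g hg => ?_⟩
  have h1 := (abs_le.1 (hg₁ g (by omega))).2
  have h2 := hg₂ g (by omega)
  have h3 := (abs_le.1 (hmom g)).1
  have hS := hF5.2 g (by omega)
  set S : ℝ := ((SQF F (2 * g + 1)).card : ℝ) with hSdef
  have hqp : 0 < qq F ^ (2 * g) := by positivity
  have hSle : qq F ^ (2 * g + 1) ≤ 3 / 2 * S := by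
    rw [hS, pow_succ]
    nlinarith
  have hS0 : 0 ≤ S := Nat.cast_nonneg _
  -- the first moment
  have h4 : C * ((g : ℝ) + 1) ^ 3 * qq F ^ (2 * g + 1) / qq F ^ (g / 4) ≤ ε / 50 * S := by
    calc C * ((g : ℝ) + 1) ^ 3 * qq F ^ (2 * g + 1) / qq F ^ (g / 4)
        = (C * ((g : ℝ) + 1) ^ 3 / qq F ^ (g / 4)) * qq F ^ (2 * g + 1) := by ring
      _ ≤ ε / 100 * (3 / 2 * S) := mul_le_mul h2 hSle (by positivity) (by positivity)
      _ ≤ ε / 50 * S := by nlinarith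
  have h5 : ∑ f ∈ SQF F (2 * g + 1), (((solz f).card : ℝ) - 1) =
      ∑ f ∈ SQF F (2 * g + 1), (cl3 f : ℝ) - 2 * S := by
    have h6 : ∀ f ∈ SQF F (2 * g + 1), (((solz f).card : ℝ) - 1) = (cl3 f : ℝ) - 2 := by
      intro f hf
      obtain ⟨hgood, hdeg⟩ := good_of hB0 g f hf
      rw [hA9 f hgood, card_sol hB0 f hdeg]
      push_cast
      ring
    rw [Finset.sum_congr rfl h6, Finset.sum_sub_distrib, Finset.sum_const, nsmul_eq_mul]
    ring
  rw [h5] at h3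
  -- the inequality for every polynomial
  have h7 : ∀ f ∈ SQF F (2 * g + 1), (if cl3 f = 1 then (16 : ℝ) else 0) ≤
      (cl3 f : ℝ) ^ 2 - 12 * (cl3 f : ℝ) + 27 := by
    intro f hf
    obtain ⟨hgood, _⟩ := good_of hB0 g f hf
    obtain ⟨_, _, r, hr⟩ := hC2 f hgood
    rw [hr]
    exact ineq r
  have h8 := Finset.sum_le_sum h7
  have h9 : ∑ f ∈ SQF F (2 * g + 1), ((cl3 f : ℝ) ^ 2 - 12 * (cl3 f : ℝ) + 27) =
      ∑ f ∈ SQF F (2 * g + 1), (cl3 f : ℝ) ^ 2 - 12 * ∑ f ∈ SQF F (2 * g + 1), (cl3 f : ℝ) +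
        27 * S := by
    rw [Finset.sum_add_distrib, Finset.sum_sub_distrib, ← Finset.mul_sum, Finset.sum_const,
      nsmul_eq_mul]
    ring
  have h10 : ∑ f ∈ SQF F (2 * g + 1), (if cl3 f = 1 then (16 : ℝ) else 0) =
      16 * (((SQF F (2 * g + 1)).filter (fun f => cl3 f = 1)).card : ℝ) := by
    rw [← Finset.sum_filter, Finset.sum_const, nsmul_eq_mul, mul_comm]
  rw [h9, h10] at h8
  have h11 : (1000000000 / qq F) * S ≤ 16 * ((1000000000 / qq F) * S) := by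
    have : 0 ≤ (1000000000 / qq F) * S := by positivity
    linarith
  have h12 : (9 / 16 + 1000000000 / qq F + ε) * S =
      9 / 16 * S + (1000000000 / qq F) * S + ε * S := by ring
  have h13 : (1000000000 / qq F + ε) * S = (1000000000 / qq F) * S + ε * S := by ring
  rw [h13] at h1
  rw [h12]
  have h14 : 0 ≤ ε * S := by positivity
  nlinarith

end PP
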