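import Pool.Agent.H461.PP.Z2

set_option autoImplicit false

/-!
# Z3: the ranks 1 and `≥ 2`
-/

open Polynomial
open scoped Classical

noncomputable section

namespace PP

open DH

variable (F : Type) [Field F] [Fintype F] [CharP F 3]

/-- **Z3** the proportion of `cl3 f = 3` is at least `5/12 - O(1/q)`, the proportion of `cl3 f ≥ 9` at most `1/48 + O(1/q)`. -/
def S_Z3 : Prop :=
  ∀ ε : ℝ, 0 < ε → ∃ g₀ : ℕ, ∀ g ≥ g₀,
    (5 / 12 - 1000000000 / qq F - ε) * ((SQF F (2 * g + 1)).card : ℝ) ≤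
      (((SQF F (2 * g + 1)).filter (fun f => cl3 f = 3)).card : ℝ) ∧
    (((SQF F (2 * g + 1)).filter (fun f => 9 ≤ cl3 f)).card : ℝ) ≤
      (1 / 48 + 1000000000 / qq F + ε) * ((SQF F (2 * g + 1)).card : ℝ)

namespace XZ3

open XZ2

variable {F}

/-- the elementary inequalities -/
theorem ineq1 (r : ℕ) : -(((3 ^ r : ℕ) : ℝ) ^ 2 - 10 * ((3 ^ r : ℕ) : ℝ) + 9) ≤
    (if (3 : ℕ) ^ r = 3 then (12 : ℝ) else 0) := by
  have e : -(((3 ^ r : ℕ) : ℝ) ^ 2 - 10 * ((3 ^ r : ℕ) : ℝ) + 9) =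
      -((((3 ^ r : ℕ) : ℝ) - 1) * (((3 ^ r : ℕ) : ℝ) - 9)) := by ring
  rw [e]
  rcases r with _ | r
  · norm_num
  · rcases r with _ | r
    · norm_num
    · have h0 : (1 : ℕ) ≤ 3 ^ r := Nat.one_le_pow _ _ (by norm_num)
      have h1 : ¬ (3 : ℕ) ^ (r + 1 + 1) = 3 := by
        have : 3 ^ (r + 1 + 1) = 9 * 3 ^ r := by ring
        omega
      rw [if_neg h1]
      have h2 : (9 : ℝ) ≤ ((3 ^ (r + 1 + 1) : ℕ) : ℝ) := by
        have : 9 ≤ 3 ^ (r + 1 + 1) := by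
          have : 3 ^ (r + 1 + 1) = 9 * 3 ^ r := by ring
          omega
        exact_mod_cast this
      have := mul_nonneg (show (0:ℝ) ≤ ((3 ^ (r + 1 + 1) : ℕ) : ℝ) - 1 by linarith)
        (show (0:ℝ) ≤ ((3 ^ (r + 1 + 1) : ℕ) : ℝ) - 9 by linarith)
      linarith

theorem ineq2 (r : ℕ) : (if 9 ≤ (3 : ℕ) ^ r then (48 : ℝ) else 0) ≤
    ((3 ^ r : ℕ) : ℝ) ^ 2 - 4 * ((3 ^ r : ℕ) : ℝ) + 3 := by
  have e : ((3 ^ r : ℕ) : ℝ) ^ 2 - 4 * ((3 ^ r : ℕ) : ℝ) + 3 =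
      (((3 ^ r : ℕ) : ℝ) - 1) * (((3 ^ r : ℕ) : ℝ) - 3) := by ring
  rw [e]
  rcases r with _ | r
  · norm_num
  · rcases r with _ | r
    · norm_num
    · have h2 : (9 : ℝ) ≤ ((3 ^ (r + 1 + 1) : ℕ) : ℝ) := by
        have h0 : (1 : ℕ) ≤ 3 ^ r := Nat.one_le_pow _ _ (by norm_num)
        have : 9 ≤ 3 ^ (r + 1 + 1) := by
          have : 3 ^ (r + 1 + 1) = 9 * 3 ^ r := by ring
          omega
        exact_mod_cast this
      have h3 := mul_nonneg (show (0:ℝ) ≤ ((3 ^ (r + 1 + 1) : ℕ) : ℝ) - 9 by linarith)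
        (show (0:ℝ) ≤ ((3 ^ (r + 1 + 1) : ℕ) : ℝ) + 5 by linarith)
      have h4 : (((3 ^ (r + 1 + 1) : ℕ) : ℝ) - 1) * (((3 ^ (r + 1 + 1) : ℕ) : ℝ) - 3) =
          (((3 ^ (r + 1 + 1) : ℕ) : ℝ) - 9) * (((3 ^ (r + 1 + 1) : ℕ) : ℝ) + 5) + 48 := by ring
      rw [h4]
      split_ifs <;> linarith

theorem first (hB0 : DH.S_B0 F) (hA9 : DH.S_A9 F) (hF5 : DH.S_F5 F) (hF9 : DH.S_F9 F) (ε : ℝ) (hε : 0 < ε) :
    ∃ g₀ : ℕ, ∀ g ≥ g₀, |∑ f ∈ SQF F (2 * g + 1), (cl3 f : ℝ) - 2 * ((SQF F (2 * g + 1)).card : ℝ)| ≤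
      ε * ((SQF F (2 * g + 1)).card : ℝ) := by
  have hq3 := qq_ge (F := F)
  have hq0 : 0 < qq F := by linarith
  obtain ⟨C, hC, hmom⟩ := hF9
  obtain ⟨g₂, hg₂⟩ := small (qq F) C (ε / 2) (by linarith) hC (by positivity)
  refine ⟨g₂ + 1, fun g hg => ?_⟩
  have h2 := hg₂ g (by omega)
  have h3 := hmom g
  have hS := hF5.2 g (by omega)
  set S : ℝ := ((SQF F (2 * g + 1)).card : ℝ) with hSdef
  have hqp : 0 < qq F ^ (2 * g) := by positivity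
  have hSle : qq F ^ (2 * g + 1) ≤ 3 / 2 * S := by
    rw [hS, pow_succ]
    nlinarith
  have hS0 : 0 ≤ S := Nat.cast_nonneg _
  have h4 : C * ((g : ℝ) + 1) ^ 3 * qq F ^ (2 * g + 1) / qq F ^ (g / 4) ≤ ε * S := by
    calc C * ((g : ℝ) + 1) ^ 3 * qq F ^ (2 * g + 1) / qq F ^ (g / 4)
        = (C * ((g : ℝ) + 1) ^ 3 / qq F ^ (g / 4)) * qq F ^ (2 * g + 1) := by ring
      _ ≤ ε / 2 * (3 / 2 * S) := mul_le_mul h2 hSle (by positivity) (by positivity)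
      _ ≤ ε * S := by nlinarith
  have h5 : ∑ f ∈ SQF F (2 * g + 1), (((solz f).card : ℝ) - 1) =
      ∑ f ∈ SQF F (2 * g + 1), (cl3 f : ℝ) - 2 * S := by
    have h6 : ∀ f ∈ SQF F (2 * g + 1), (((solz f).card : ℝ) - 1) = (cl3 f : ℝ) - 2 := by
      intro f hf
      obtain ⟨hgood, hdeg⟩ := good_of hB0 g f hf
      rw [hA9 f hgood, card_sol hB0 f hdeg]
      push_cast
      ring
    rw [Finset.sum_congr rfl h6, Finset.sum_sub_distrib, Finset.sum_const, nsmul_eq_mul]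
    ring
  rw [h5] at h3
  exact h3.trans h4

end XZ3

open XZ2 XZ3

theorem p_Z3 (F : Type) [Field F] [Fintype F] [CharP F 3] (hB0 : DH.S_B0 F) (hA9 : DH.S_A9 F)
    (hF5 : DH.S_F5 F) (hF9 : DH.S_F9 F) (hC2 : DH.S_C2 F) (hZ1 : S_Z1 F) : S_Z3 F := by
  intro ε hε
  have hq3 := qq_ge (F := F)
  have hq0 : 0 < qq F := by linarith
  obtain ⟨g₁, hg₁⟩ := hZ1 ε hε
  obtain ⟨g₂, hg₂⟩ := first hB0 hA9 hF5 hF9 (ε / 20) (by positivity)
  refine ⟨g₁ + g₂ + 1, fun g hg => ?_⟩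
  have h1 := abs_le.1 (hg₁ g (by omega))
  have h2 := abs_le.1 (hg₂ g (by omega))
  set S : ℝ := ((SQF F (2 * g + 1)).card : ℝ) with hSdef
  have hS0 : 0 ≤ S := Nat.cast_nonneg _
  have hD0 : 0 ≤ (1000000000 / qq F) * S := by positivity
  have hE0 : 0 ≤ ε * S := by positivity
  set A : ℝ := ∑ f ∈ SQF F (2 * g + 1), (cl3 f : ℝ) ^ 2 with hA
  set B : ℝ := ∑ f ∈ SQF F (2 * g + 1), (cl3 f : ℝ) with hB
  have e1 : (1000000000 / qq F + ε) * S = (1000000000 / qq F) * S + ε * S := by ring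
  have e2 : ε / 20 * S = (ε * S) / 20 := by ring
  rw [e1] at h1
  rw [e2] at h2
  set D : ℝ := (1000000000 / qq F) * S with hD
  set E : ℝ := ε * S with hE
  constructor
  · have h7 : ∀ f ∈ SQF F (2 * g + 1), -((cl3 f : ℝ) ^ 2 - 10 * (cl3 f : ℝ) + 9) ≤
        (if cl3 f = 3 then (12 : ℝ) else 0) := by
      intro f hf
      obtain ⟨hgood, _⟩ := good_of hB0 g f hf
      obtain ⟨_, _, r, hr⟩ := hC2 f hgood
      rw [hr]
      exact ineq1 r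
    have h8 := Finset.sum_le_sum h7
    have h9 : ∑ f ∈ SQF F (2 * g + 1), -((cl3 f : ℝ) ^ 2 - 10 * (cl3 f : ℝ) + 9) =
        -(A - 10 * B + 9 * S) := by
      rw [Finset.sum_neg_distrib, Finset.sum_add_distrib, Finset.sum_sub_distrib, ← Finset.mul_sum, Finset.sum_const,
        nsmul_eq_mul]
      ring
    have h10 : ∑ f ∈ SQF F (2 * g + 1), (if cl3 f = 3 then (12 : ℝ) else 0) =
        12 * (((SQF F (2 * g + 1)).filter (fun f => cl3 f = 3)).card : ℝ) := by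
      rw [← Finset.sum_filter, Finset.sum_const, nsmul_eq_mul, mul_comm]
    rw [h9, h10] at h8
    have h12 : (5 / 12 - 1000000000 / qq F - ε) * S = 5 / 12 * S - D - E := by
      rw [hD, hE]; ring
    rw [h12]
    linarith [h1.1, h1.2, h2.1, h2.2]
  · have h7 : ∀ f ∈ SQF F (2 * g + 1), (if 9 ≤ cl3 f then (48 : ℝ) else 0) ≤
        (cl3 f : ℝ) ^ 2 - 4 * (cl3 f : ℝ) + 3 := by
      intro f hf
      obtain ⟨hgood, _⟩ := good_of hB0 g f hf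
      obtain ⟨_, _, r, hr⟩ := hC2 f hgood
      rw [hr]
      exact ineq2 r
    have h8 := Finset.sum_le_sum h7
    have h9 : ∑ f ∈ SQF F (2 * g + 1), ((cl3 f : ℝ) ^ 2 - 4 * (cl3 f : ℝ) + 3) =
        A - 4 * B + 3 * S := by
      rw [Finset.sum_add_distrib, Finset.sum_sub_distrib, ← Finset.mul_sum, Finset.sum_const,
        nsmul_eq_mul]
      ring
    have h10 : ∑ f ∈ SQF F (2 * g + 1), (if 9 ≤ cl3 f then (48 : ℝ) else 0) =
        48 * (((SQF F (2 * g + 1)).filter (fun f => 9 ≤ cl3 f)).card : ℝ) := by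
      rw [← Finset.sum_filter, Finset.sum_const, nsmul_eq_mul, mul_comm]
    rw [h9, h10] at h8
    have h12 : (1 / 48 + 1000000000 / qq F + ε) * S = 1 / 48 * S + D + E := by
      rw [hD, hE]; ring
    rw [h12]
    linarith [h1.1, h1.2, h2.1, h2.2]

end PP
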