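import Pool.Agent.H461.PP.All
import Pool.Agent.H463.DH.C1
import Pool.Agent.H463.DH.C2
import Pool.Agent.H463.DH.M1
import Pool.Agent.H463.DH.M2
import Pool.Agent.H463.DH.TA
import Pool.Agent.H463.DH.F9
import Pool.Agent.H461.PP.W1
import Pool.Agent.H461.PP.W2
import Pool.Agent.H461.PP.W3
import Pool.Agent.H461.PP.W4a
import Pool.Agent.H461.PP.W4
import Pool.Agent.H461.PP.W5a
import Pool.Agent.H461.PP.W5
import Pool.Agent.H461.PP.W6a
import Pool.Agent.H461.PP.W6b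
import Pool.Agent.H461.PP.W6c
import Pool.Agent.H461.PP.W6d
import Pool.Agent.H461.PP.W6
import Pool.Agent.H461.PP.W7a
import Pool.Agent.H461.PP.W7b
import Pool.Agent.H461.PP.W7c
import Pool.Agent.H461.PP.W7d
import Pool.Agent.H461.PP.W7e
import Pool.Agent.H461.PP.W7
import Pool.Agent.H461.PP.W8
import Pool.Agent.H461.PP.X1
import Pool.Agent.H461.PP.X2a
import Pool.Agent.H461.PP.X2b
import Pool.Agent.H461.PP.X2c
import Pool.Agent.H461.PP.X3
import Pool.Agent.H461.PP.Y1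
import Pool.Agent.H461.PP.Z1
import Pool.Agent.H461.PP.Z2
import Pool.Agent.H461.PP.Z3

/-! All parts put together (third part). -/

open Polynomial
open scoped Classical

namespace PP

open DH

theorem all3 (F : Type) [Field F] [Fintype F] [CharP F 3] :
    S_SM2 F ∧ S_R2 F ∧ S_Z1 F ∧ S_Z2 F ∧ S_Z3 F := by
  have b0 := p_B0 F
  have b1 := p_B1 F b0
  have a1 := p_A1 F
  have a2 := p_A2 F
  have a3 := p_A3 F
  have a4 := p_A4 F a1 a2 b1
  have a5 := p_A5 F a2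
  have a6 := p_A6 F a1 a5
  have a7 := p_A7 F a1 a2 a3 a4 a6
  have a8 := p_A8 F a1 a2
  have a9 := p_A9 F a1 a2 a3 a4 a7 a8 b1
  have b2 := p_B2 F b0
  have dc := p_DC F b0
  have b3 := p_B3 F b0 b1 b2 dc
  have b4 := p_B4 F b0 b1 b2 b3
  have cp := p_CP F
  have b5 := p_B5 F b0 b1 b4 cp
  have ph := p_PH F b0 cp
  have mu := p_MU F b0
  have ta := p_TA F b0
  have kb := p_KB F b0 mu
  have l3 := p_L3 F b0
  have sw := p_SW F b0 mu
  have me1 := p_ME1 F b0 cp ph l3 sw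
  have me2 := p_ME2 F b0 mu kb ta ph me1
  have f1 := p_F1 F b0 b1
  have f2 := p_F2 F b1
  have f3 := p_F3 F b0 f2
  have f4 := p_F4 F b0 b1 b5 cp f1
  have f5 := p_F5 F b0 mu
  have f6 := p_F6 F b0 b1 ta f3 f4
  have f7 := p_F7 F b0 b5 f1
  have f8 := p_F8
  have f9 := p_F9 F b1 f4 f5 f6 f7 f8 me2
  have g0 := p_G0 F b1
  have g1 := p_G1 F b1 cp
  have g3 := p_G3 F b0 b3 dc
  have db := p_DB F b0
  have m1 := p_M1 F cp
  have m2 := p_M2 F b0 b1 cp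
  have c1 := p_C1 F
  have c2 := p_C2 F a2 (c1 a2 a3)
  have t1 := p_T1 F b1
  have t2a := p_T2a F b0 b3
  have t2b := p_T2b F b0 b1 g1
  have t2 := p_T2 F b0 b1 t2a t2b
  have t3 := p_T3 F b0
  have t4 := p_T4 F b0 t1 t2 t3
  have t5a := p_T5a F b0
  have t5b := p_T5b F b0
  have t5c := p_T5c F b0 t5b
  have t5 := p_T5 F b0 t5a t5c
  have t6 := p_T6 F b0 b5 cp
  have t7 := p_T7 F b0 g3 dc
  have t8 := p_T8 F b1
  have t9 := p_T9 F b0 b1 b5 cp t7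
  have t10a := p_T10a F b0 g1
  have t10b := p_T10b F b0 b1 t8
  have t10c := p_T10c F b0 b1 g0 g1 g3 f4
  have u1 := p_U1 F t4 t5 t10a
  have u2 := p_U2 F t6 t7 t10a
  have u3 := p_U3 F u1 u2 t2
  have u4 := p_U4 F b0 t7 t9 t10a t10b
  have v1 := p_V1 F
  have v2 := p_V2 F
  have v3 := p_V3 F b0 db t5b
  have v4 := p_V4 F b0 t2 t5a v1 v2 v3
  have v5 := p_V5 F b0 t10a v4
  have sm2 := p_SM2 F p_N1 t10c u3 u4 v5
  have w1 := p_W1 F b0 t10a v4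
  have w2 := p_W2 F p_N1 u3 w1
  have w3 := p_W3 F b0 b1 g0 cp m2
  have w4a := p_W4a F b0 b1 cp m1
  have w4 := p_W4 F b0 w4a
  have w5a := p_W5a F b0
  have w5 := p_W5 F b0 w5a
  have w6a := p_W6a F b0 dc
  have w6b := p_W6b F b0
  have w6c := p_W6c F b0
  have w6 := p_W6 F w6a w6b w6c p_W6d
  have w7a := p_W7a F b0
  have w7b := p_W7b F b0
  have w7c := p_W7c F b0 b1
  have w7d := p_W7d F b0
  have w7e := p_W7e F b0 w7a w7b w7c
  have w7 := p_W7 F b0 ta w7d w7e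
  have w8 := p_W8 F b0 w2 w3 w4 w5 w6 w7
  have x1 := p_X1 F b0 b1 g1
  have x2a := p_X2a F b0
  have x2b := p_X2b F b0 w7c
  have x2c := p_X2c F b0 b1 cp g3
  have x3 := p_X3 F b0 b1 cp x1 x2a x2b x2c
  have y1 := p_Y1 F b0 b1 f2 f4 w8 sm2
  have z1 := p_Z1 F b0 b1 a9 f5 f9 w8 x3 y1
  have z2 := p_Z2 F b0 a9 f5 f9 c2 z1
  have z3 := p_Z3 F b0 a9 f5 f9 c2 z1
  exact ⟨sm2, p_R2 F sm2 a3 a9 f5 b0 b1, z1, z2, z3⟩

end PP
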