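import Pool.Agent.H463.DH.Stm

/-!
# Project PP: the second moment of `#Cl[3]` of imaginary quadratic function fields in characteristic 3 is bounded

`F` finite field of characteristic 3, `q = #F`, `n = 2 g + 1`.  Definitions `POL, MON, sol, solz, cnt, NN, IsSol, CubeFree, cpart, ...`
and the facts `S_B0, ...` are those of project DH (helper463), all proved there.
GOAL: for `q ≥ 81` there is `C` with `∑_{f monic of degree 2g+1} (#solz f)² ≤ C q^{2g+1}` for all `g` (DH G4 has an additional factor `g`),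
hence a positive proportion of the `f` have `3 ∣ h`.

IDEA.  A pair `v₁, v₂` of solutions with `v₁' v₂ ≠ v₁ v₂'` lies in the kernel `KG g f₀ = {v : deg v < g, (f₀ v)'' = 0}` of a monic
cube-free `f₀` of degree `s < 2g`, and the number of `f` is at most `q^{(2g-s)/3+1}`.  `KG g f₀` has a basis `P₀, P₁`
(`v = α³ P₀ + β³ P₁`), degrees `a ≤ b < g`, `a + b = s + 1`, and an `f` exists for the pair with coordinates `(α, β), (α', β')` only if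
`H = α β' - α' β` divides `α α' (α'² - α²) P₀ + (α β'³ - α' β³) P₁` (T1): averaging over `P₀` saves a factor `|H|`.
Unbalanced `(a, b)` are rare (T6), small `s` are treated with `#sol f ≤ 3^g ≤ q^{g/4}` (T8, T9).
-/

open Polynomial
open scoped Classical

noncomputable section

namespace PP

open DH

variable (F : Type) [Field F] [Fintype F] [CharP F 3]

/-! ## Definitions -/

/-- `v₁ / v₂` is not a cube. -/
def Ind {F : Type} [Field F] (v₁ v₂ : F[X]) : Prop := derivative v₁ * v₂ ≠ v₁ * derivative v₂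

/-- The kernel `{v : deg v < g, (f₀ v)'' = 0}`. -/
def KG (g : ℕ) (f₀ : F[X]) : Finset F[X] := (POL F g).filter (fun v => derivative (derivative (f₀ * v)) = 0)

/-- The monic cube-free polynomials of degree `s`. -/
def CF (s : ℕ) : Finset F[X] := (MON F s).filter (fun f => CubeFree f)

/-- The independent pairs in the kernel of `f₀` which have a common `f` (monic of degree `2 g + 1`). -/
def PRS (g : ℕ) (f₀ : F[X]) : Finset (F[X] × F[X]) :=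
  ((KG F g f₀) ×ˢ (KG F g f₀)).filter (fun p => Ind p.1 p.2 ∧ ∃ f ∈ MON F (2 * g + 1), IsSol f p.1 ∧ IsSol f p.2)

/-- The triples `(f, v₁, v₂)`, `v₁, v₂` in the kernel of `f₀`, independent, solutions for `f`. -/
def TR (g : ℕ) (f₀ : F[X]) : Finset (F[X] × F[X] × F[X]) :=
  ((MON F (2 * g + 1)) ×ˢ ((KG F g f₀) ×ˢ (KG F g f₀))).filter
    (fun t => Ind t.2.1 t.2.2 ∧ IsSol t.1 t.2.1 ∧ IsSol t.1 t.2.2)

/-- `a` is the smallest degree of a nonzero `v` with `(f₀ v)'' = 0`. -/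
def Mdeg {F : Type} [Field F] (f₀ : F[X]) (a : ℕ) : Prop :=
  (∃ v : F[X], v ≠ 0 ∧ v.natDegree = a ∧ derivative (derivative (f₀ * v)) = 0) ∧
    ∀ v : F[X], v ≠ 0 → derivative (derivative (f₀ * v)) = 0 → a ≤ v.natDegree

/-- The matrices `u = ((α, β), (α', β'))` with `deg α, deg α' ≤ l₀`, `deg β, deg β' ≤ l₁`. -/
def UU (l₀ l₁ : ℕ) : Finset ((F[X] × F[X]) × (F[X] × F[X])) :=
  ((POL F (l₀ + 1)) ×ˢ (POL F (l₁ + 1))) ×ˢ ((POL F (l₀ + 1)) ×ˢ (POL F (l₁ + 1)))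

/-- `H = α β' - α' β`. -/
def HH {F : Type} [Field F] (u : (F[X] × F[X]) × (F[X] × F[X])) : F[X] := u.1.1 * u.2.2 - u.2.1 * u.1.2

/-- `m = α α' (α'² - α²)`. -/
def MM {F : Type} [Field F] (u : (F[X] × F[X]) × (F[X] × F[X])) : F[X] := u.1.1 * u.2.1 * (u.2.1 ^ 2 - u.1.1 ^ 2)

/-- The degree of `gcd (m, H)`. -/
def dg {F : Type} [Field F] (u : (F[X] × F[X]) × (F[X] × F[X])) : ℕ := (EuclideanDomain.gcd (MM u) (HH u)).natDegree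

/-- `∑_{H ≠ 0} |gcd (m, H)| / |H|`. -/
def SS (l₀ l₁ : ℕ) : ℝ := ∑ u ∈ (UU F l₀ l₁).filter (fun u => HH u ≠ 0), qq F ^ (dg u) / qq F ^ (HH u).natDegree

/-! ## Part 1 : structure -/

/-- **T1** (uses B1) if `v₁ = α³ P₀ + β³ P₁` and `v₂ = α'³ P₀ + β'³ P₁` are solutions for the same `f` then
`H ∣ m P₀ + (α β'³ - α' β³) P₁`.
Proof: `(f P_i)'''= 0` (B1 (3)), so `(f P_i)''` has derivative `0` and is a cube (B1 (1)), `(f P_i)'' = - φ_i³` (`-1 = (-1)³`).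
`-v₁³ = (f v₁)'' = α³ (f P₀)'' + β³ (f P₁)'' = - (α φ₀ + β φ₁)³` (cubes are constants for the derivative) so `α φ₀ + β φ₁ = v₁`
(cube roots are unique in characteristic 3), and `α' φ₀ + β' φ₁ = v₂`.  `α` times the second minus `α'` times the first:
`(α β' - α' β) φ₁ = α v₂ - α' v₁ = P₀ (α α'³ - α' α³) + P₁ (α β'³ - α' β³)`. -/
def S_T1 : Prop :=
  ∀ f P₀ P₁ α β α' β' : F[X], IsSol f (α ^ 3 * P₀ + β ^ 3 * P₁) → IsSol f (α' ^ 3 * P₀ + β' ^ 3 * P₁) →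
    (α * β' - α' * β) ∣ α * α' * (α' ^ 2 - α ^ 2) * P₀ + (α * β' ^ 3 - α' * β ^ 3) * P₁

/-- **T2a** (uses B0, B1, B3) `f₀` monic cube-free of degree `s`: there are monic `Q₀, Q₁` in the kernel, degrees different mod 3, sum of the degrees
`s + 1`, and every `v` with `(f₀ v)'' = 0` is `A³ Q₀ + B³ Q₁`.
Proof: let `K` be the set of `G` with `G'' = 0`, `f₀ ∣ G`.  B3 (`W = f₀`) gives `k₀, k₁ ∈ K` of minimal
degrees `e₀ ≡ 0`, `e₁ ≡ 1` mod 3 with `e₀ + e₁ = 3 s + 1`; make them monic (multiply by a constant); `Q_i = k_i / f₀`, of degrees `e_i - s`, sum `s + 1`.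
By B3 every nonzero `G ∈ K` has degree `e₀ + 3 i` or `e₁ + 3 i`; subtract `λ X^{3i} k_j = (μ X^i)³ k_j` (`μ³ = λ`, `F` is perfect) to lower the degree; by
strong induction on the degree `G = A³ k₀ + B³ k₁`; cancel `f₀`. -/
def S_T2a : Prop :=
  ∀ (s : ℕ) (f₀ : F[X]), f₀ ∈ CF F s → ∃ Q₀ Q₁ : F[X], Q₀.Monic ∧ Q₁.Monic ∧
    Q₀.natDegree % 3 ≠ Q₁.natDegree % 3 ∧ Q₀.natDegree + Q₁.natDegree = s + 1 ∧
    derivative (derivative (f₀ * Q₀)) = 0 ∧ derivative (derivative (f₀ * Q₁)) = 0 ∧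
    ∀ v : F[X], derivative (derivative (f₀ * v)) = 0 → ∃ A B : F[X], v = A ^ 3 * Q₀ + B ^ 3 * Q₁

/-- **T2b** (uses B0, B1, G1) the Wronskian of `Q₀, Q₁` is a constant times `f₀`.
Proof: `w = Q₀' Q₁ - Q₀ Q₁'` has degree exactly `deg Q₀ + deg Q₁ - 1 = s` (leading coefficient `deg Q₀ - deg Q₁ ≠ 0` in `F`, as the degrees differ mod 3);
in particular `w ≠ 0`, i.e. `Ind Q₀ Q₁`.  `(w Q₀)'' = (w Q₁)'' = 0`: `w' = Q₀'' Q₁ - Q₀ Q₁''`, `w'' = Q₀'' Q₁' - Q₀' Q₁''` (third derivatives vanish),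
`(w Q₀)'' = w'' Q₀ + 2 w' Q₀' + w Q₀''` expands to `3 (...) = 0`, the same for `Q₁`.  G1 for `Q₀, Q₁` and `h₀ = f₀` gives a monic cube-free `f₁` with
`f₀ = f₁ c³`, `w = f₁ e³`; `f₀` cube-free: `c` is a constant; by degrees `e` is constant. -/
def S_T2b : Prop :=
  ∀ (s : ℕ) (f₀ Q₀ Q₁ : F[X]), f₀ ∈ CF F s → Q₀.Monic → Q₁.Monic →
    Q₀.natDegree % 3 ≠ Q₁.natDegree % 3 → Q₀.natDegree + Q₁.natDegree = s + 1 →
    derivative (derivative (f₀ * Q₀)) = 0 → derivative (derivative (f₀ * Q₁)) = 0 →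
    ∃ c : F, c ≠ 0 ∧ derivative Q₀ * Q₁ - Q₀ * derivative Q₁ = C c * f₀

/-- **T2** (uses B0, B1, T2a, T2b) the basis of the kernel.  `f₀` monic cube-free of degree `s`, `v₁, v₂` of degree `< g` with
`(f₀ v_i)'' = 0`, independent.  There are `a ≤ b < g`, `a + b = s + 1`, and monic `P₀, P₁` of degrees `a, b` with
`P₀' P₁ - P₀ P₁' = c f₀`, `c ≠ 0` constant, `a` is the minimal degree in the kernel, and every `v ∈ KG g f₀` is `α³ P₀ + β³ P₁` with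
`deg α ≤ (g-1-a)/3`, `deg β ≤ (g-1-b)/3`.
Proof: take `Q₀, Q₁` of T2a and let `P₀, P₁` be the same two polynomials ordered by the degree (`a ≤ b`; the degrees are different; the sign of the
Wronskian does not matter).  `v = A³ P₀ + B³ P₁` has `deg v = max (3 deg A + a, 3 deg B + b)` over the nonzero ones of `A, B`, as the two
degrees are different mod 3: no cancellation.  So `a` is the minimal degree, and if `deg v < g` then `3 deg α + a ≤ g - 1` etc.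
If `b ≥ g` then `B = 0` for all `v ∈ KG g f₀`, so `v₁ = A₁³ P₀`, `v₂ = A₂³ P₀` and `v₁' v₂ = v₁ v₂'`, contradiction. -/
def S_T2 : Prop :=
  ∀ (g s : ℕ) (f₀ v₁ v₂ : F[X]), f₀ ∈ CF F s → v₁ ∈ KG F g f₀ → v₂ ∈ KG F g f₀ → Ind v₁ v₂ →
    ∃ (a b : ℕ) (P₀ P₁ : F[X]), a ≤ b ∧ a + b = s + 1 ∧ b < g ∧ P₀ ∈ MON F a ∧ P₁ ∈ MON F b ∧ Mdeg f₀ a ∧
      (∃ c : F, c ≠ 0 ∧ derivative P₀ * P₁ - P₀ * derivative P₁ = C c * f₀) ∧
      ∀ v ∈ KG F g f₀, ∃ α ∈ POL F ((g - 1 - a) / 3 + 1), ∃ β ∈ POL F ((g - 1 - b) / 3 + 1),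
        v = α ^ 3 * P₀ + β ^ 3 * P₁

/-- **T3** (uses B0) the number of monic `P` of degree `a` with `H ∣ m P + r` is at most `1 + q^{a + deg gcd(m,H) - deg H}`.
Proof: let `k = gcd (m, H)`, `H = k H₁`, `m = k m₁`, `H₁` coprime to `m₁`.  Two such `P` differ by `Δ` with `deg Δ < a`, `H ∣ m Δ`, so
`H₁ ∣ Δ`.  If `deg H₁ > a` (or `≥ a`) then `Δ = 0` and the number is `≤ 1`; if `deg H₁ ≤ a` the number of `Δ` of degree `< a` divisible by `H₁`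
is `q^{a - deg H₁}` (`Δ = H₁ Δ'`, `deg Δ' < a - deg H₁`). -/
def S_T3 : Prop :=
  ∀ (a : ℕ) (m r H : F[X]), H ≠ 0 →
    (((MON F a).filter (fun P => H ∣ m * P + r)).card : ℝ) ≤
      1 + qq F ^ (a + (EuclideanDomain.gcd m H).natDegree) / qq F ^ H.natDegree

/-- **T4** (uses T1, T2, T3, B0) `∑_{f₀ ∈ CF s, min. degree a} #PRS ≤ q^b q^{2(l₀+l₁)+4} + q^{s+1} SS l₀ l₁`, `b = s + 1 - a`,
`l₀ = (g-1-a)/3`, `l₁ = (g-1-b)/3`.
Proof: `f₀` with `PRS ≠ ∅` has by T2 an `a*` with `Mdeg f₀ a*`, so `a* = a`, and `P₀ ∈ MON a`, `P₁ ∈ MON b` (choose one pair for every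
`f₀`), and `f₀` is determined by `P₀, P₁` (it is `P₀' P₁ - P₀ P₁'` made monic).  `(v₁, v₂) ∈ PRS` has coordinates
`u = ((α, β), (α', β')) ∈ UU l₀ l₁` (choose one; `v₁, v₂` are determined by `u, P₀, P₁`), `H ≠ 0` as
`v₁' v₂ - v₁ v₂' = H³ (P₀' P₁ - P₀ P₁')`, and `H ∣ m P₀ + (α β'³ - α' β³) P₁` by T1.  So the left side is at most
`∑_{u, H ≠ 0} ∑_{P₁ ∈ MON b} #{P₀ ∈ MON a : H ∣ m P₀ + r}`, and T3, `#MON b = q^b`, `#UU = q^{2(l₀+l₁)+4}`, `a + b = s + 1`. -/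
def S_T4 : Prop :=
  ∀ g s a b : ℕ, a ≤ b → a + b = s + 1 → b < g →
    ∑ f₀ ∈ (CF F s).filter (fun f₀ => Mdeg f₀ a), ((PRS F g f₀).card : ℝ) ≤
      qq F ^ b * qq F ^ (2 * ((g - 1 - a) / 3 + (g - 1 - b) / 3) + 4) +
      qq F ^ (s + 1) * SS F ((g - 1 - a) / 3) ((g - 1 - b) / 3)

/-! ## Part 2 : the sum SS -/

/-- **T5a** (uses B0) three counts in the box.
(1) `m = 0` implies `α = 0`, `α' = 0`, `α' = α` or `α' = - α`: at most `4 q^{(l₀+1) + 2 (l₁+1)}` matrices.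
(2) at most `4 q^{2 (l₀+1) + (l₁+1)}` matrices have `β = 0`, `β' = 0`, `β' = β` or `β' = - β`.
(3) `#{u : β ≠ 0, deg H ≤ j, } ≤ q^{l₀ + 2 l₁ + j + 4}`: for given `α, β, β'` (`≤ q^{l₀+1+2(l₁+1)}` choices) two `α'` with
`deg (α β' - α' β) ≤ j` differ by `Δ` with `deg (Δ β) ≤ j`, so `deg Δ ≤ j`, at most `q^{j+1}` choices. -/
def S_T5a : Prop :=
  ∀ l₀ l₁ : ℕ,
    ((UU F l₀ l₁).filter (fun u => MM u = 0)).card ≤ 4 * Fintype.card F ^ (l₀ + 2 * l₁ + 3) ∧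
    ((UU F l₀ l₁).filter (fun u => u.1.2 = 0 ∨ u.2.2 = 0 ∨ u.2.2 = u.1.2 ∨ u.2.2 = - u.1.2)).card ≤
      4 * Fintype.card F ^ (2 * l₀ + l₁ + 3) ∧
    ∀ j : ℕ, ((UU F l₀ l₁).filter (fun u => u.1.2 ≠ 0 ∧ (HH u).natDegree ≤ j)).card ≤
      Fintype.card F ^ (l₀ + 2 * l₁ + j + 4)

/-- **T5b** (uses B0) triples `x, y, z ≠ 0` of degrees `≤ lx, ly, lz` with `deg gcd (x, y z) ≥ k` are rare:
at most `q^{lx+ly+lz+3} · 3 (k+1) / q^k`.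
Proof: let `d` be the gcd made monic, `d ∣ x`, `d ∣ y z`, `d = d₁ d₂`, `d₁ = gcd (d, y)` monic, `d₂ ∣ z`.  For given monic `d₁, d₂` of degrees `i, j`
the number of `x ≠ 0` of degree `≤ lx` divisible by `d₁ d₂` is `≤ q^{lx+1-i-j}` (0 if `i + j > lx`), of `y`: `≤ q^{ly+1-i}`, of `z`: `≤ q^{lz+1-j}`
(as real numbers).  Sum over `q^i q^j` pairs: `q^{lx+ly+lz+3} q^{-(i+j)}`, and over `i + j = t ≥ k`:
`∑_{t ≥ k} (t+1) q^{-t} ≤ 3 (k+1) q^{-k}` as `q ≥ 3`. -/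
def S_T5b : Prop :=
  ∀ lx ly lz k : ℕ,
    (((POL F (lx + 1) ×ˢ (POL F (ly + 1) ×ˢ POL F (lz + 1))).filter
      (fun t => t.1 ≠ 0 ∧ t.2.1 ≠ 0 ∧ t.2.2 ≠ 0 ∧
        k ≤ (EuclideanDomain.gcd t.1 (t.2.1 * t.2.2)).natDegree)).card : ℝ) ≤
      qq F ^ (lx + ly + lz + 3) * (3 * (k + 1)) / qq F ^ k

/-- **T5c** (uses B0, T5b) the matrices `u` with `m ≠ 0`, `H ≠ 0`, `β, β', β' - β, β' + β ≠ 0` and `deg gcd (m, H) ≥ 4 k + 1`: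
at most `4 q^{2(l₀+l₁)+4} · 3 (k+1) / q^k`.
Proof: `gcd (m, H)` divides the product of the four `gcd (γ, H)`, `γ = α, α', α' - α, α' + α` (`m` is the product of the `γ`), all
`γ ≠ 0`; so for some `γ` `deg gcd (γ, H) ≥ k + 1 ≥ k`.  `γ = α`: `gcd (α, H) = gcd (α, α' β)` up to a unit
(`H = α β' - α' β`): T5b with `x = α, y = α', z = β`, times `q^{l₁+1}` for `β'`.  `γ = α'`: `x = α', y = α, z = β'`.
`γ = α' - α`: `H = α (β' - β) - (α' - α) β`, `gcd (γ, H) ~ gcd (γ, α (β' - β))`: `x = α' - α, y = α, z = β' - β`, times `q^{l₁+1}`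
for `β` (a bijection of the box).  `γ = α' + α`: `H = α (β' + β) - (α' + α) β`: `x = α' + α`, `y = α`, `z = β' + β`. -/
def S_T5c : Prop :=
  ∀ l₀ l₁ k : ℕ,
    (((UU F l₀ l₁).filter (fun u => MM u ≠ 0 ∧ HH u ≠ 0 ∧ u.1.2 ≠ 0 ∧ u.2.2 ≠ 0 ∧ u.2.2 ≠ u.1.2 ∧ u.2.2 ≠ - u.1.2 ∧
      4 * k + 1 ≤ dg u)).card : ℝ) ≤ 4 * qq F ^ (2 * (l₀ + l₁) + 4) * (3 * (k + 1)) / qq F ^ k

/-- **T5** (uses B0, T5a, T5c) for `l₁ ≤ l₀`: `SS l₀ l₁ ≤ 24 (l₁/16 + 1) q^{2(l₀+l₁)+4} / q^{l₁/16}` (natural division).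
Proof: `k = l₁/16`, `j = l₁/2`, `B = q^{2(l₀+l₁)+4}`.  Every term of `SS` is `≤ 1` (the gcd divides `H ≠ 0`).  The `u` with `m = 0`: `≤ 4 B / q^{l₀+1}`;
with `β = 0`, ... (T5a (2)): `≤ 4 B / q^{l₁+1}`; with `β ≠ 0`, `deg H ≤ j`: `≤ B q^{j - l₀}`; with `dg u ≥ 4 k + 1` (T5c): `≤ 12 (k+1) B / q^k`; all the
others have `dg u ≤ 4 k`, `deg H ≥ j + 1`: terms `≤ q^{4k - j - 1}`, at most `B` terms.  As `l₀ ≥ l₁`, all the exponents are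
at least as good as `q^{-k}` (`5 k ≤ j + 1`, `j + k ≤ l₀`), total `≤ (4 + 4 + 1 + 12 (k+1) + 1) B / q^k ≤ 24 (k+1) B / q^k`. -/
def S_T5 : Prop :=
  ∀ l₀ l₁ : ℕ, l₁ ≤ l₀ →
    SS F l₀ l₁ ≤ 24 * ((l₁ / 16 : ℕ) + 1) * qq F ^ (2 * (l₀ + l₁) + 4) / qq F ^ (l₁ / 16)

/-! ## Part 3 : counting f₀, kernels, the p-rank bound -/

/-- **T6** (uses B0, B1, B5, CP) for `2 a + 3 ≤ s`: `#{f₀ ∈ CF s : min. degree a} ≤ q^{NN (s+a) + 1}`.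
Proof: such an `f₀` has `P ≠ 0` of degree `a`, `(f₀ P)'' = 0`; `P` is cube-free (`P = b³ P'` gives `b³ (f₀ P')'' = 0`, minimality).  For every
cube-free `P` of degree `a` (at most `(q-1) q^a`) the map `f₀ ↦ f₀ + X² P²` is an injection of `{f₀ ∈ MON s : (f₀ P)'' = 0}` into
`{f ∈ MON s : IsSol f P}` (`deg X² P² = 2 a + 2 < s`; `(X² P³)'' = 2 P³ = - P³`), which has `cnt s 1 P` elements, and B5 with `W = 1`, `cpart P = 1`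
(`2 a + 3 ≤ s`) gives `cnt ≤ q^{NN (s+a)} / q^a`.  Total `≤ (q-1) q^{NN (s+a)}`. -/
def S_T6 : Prop :=
  ∀ s a : ℕ, 2 * a + 3 ≤ s →
    ((CF F s).filter (fun f₀ => Mdeg f₀ a)).card ≤ Fintype.card F ^ (NN (s + a) + 1)

/-- **T7** (uses B0, B1, G3, DC) (1) for `f₀ ∈ CF s` with an independent pair in `KG g f₀`: `s < 2 g`, `#KG = q^{NN (g+s) - s}`,
`s ≤ NN (g+s)` and `#PRS ≤ q^{2 (NN (g+s) - s)}` (pairs of elements of `KG`; this is G3);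
(2) for every `f₀ ≠ 0` and every `M`: `#KG M f₀ ≤ q^{2 ((M+2)/3)}`.
Proof of (2): `K = {v : (f₀ v)'' = 0}` is a subspace; the degree `j` of a nonzero element satisfies `(j + deg f₀) % 3 ≠ 2` (the leading
exponent of `G ≠ 0` with `G'' = 0`), so at most `2 ((M+2)/3)` degrees `j < M` occur; DC. -/
def S_T7 : Prop :=
  (∀ (g s : ℕ) (f₀ : F[X]), f₀ ∈ CF F s → (∃ v₁ ∈ KG F g f₀, ∃ v₂ ∈ KG F g f₀, Ind v₁ v₂) →
    s < 2 * g ∧ s ≤ NN (g + s) ∧ (PRS F g f₀).card ≤ Fintype.card F ^ (2 * (NN (g + s) - s))) ∧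
  (∀ (M : ℕ) (f₀ : F[X]), f₀ ≠ 0 → (KG F M f₀).card ≤ Fintype.card F ^ (2 * ((M + 2) / 3)))

/-- **T8** (uses B0, B1) the p-rank bound: `#sol f ≤ 3^g` for `f` of degree `2 g + 1`.
Proof: `sol f` is an `𝔽₃`-subspace of `F[X]` (`IsSol` is additive) contained in the `F`-space of the polynomials of degree `< g` (B1 (5)), of
dimension `g`.  Claim: elements of `sol f` linearly independent over `ZMod 3` are linearly independent over `F` (so there are at most `g`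
and `#sol f ≤ 3^g`).  Take a nontrivial relation `∑ c_i v_i = 0` over `F` with the least number of nonzero `c_i`, one of them `1`.
`v ↦ (f v)''` is `F`-linear: `0 = ∑ c_i (f v_i)'' = - ∑ c_i v_i³ = - (∑ c_i^{1/3} v_i)³`, so `∑ c_i^{1/3} v_i = 0`; subtracting gives a shorter
relation, which must be trivial: `c_i = c_i^{1/3}`, `c_i³ = c_i`, `c_i ∈ {0, 1, -1}`: a relation over `𝔽₃`, contradiction.
(Other ways are fine, e.g. induction: for a subspace `V` of `sol f` of `𝔽₃`-dimension `r` the `F`-span has dimension `r`.) -/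
def S_T8 : Prop :=
  ∀ (g : ℕ) (f : F[X]), f.natDegree = 2 * g + 1 → (sol f).card ≤ 3 ^ g

/-- **T9** (uses B0, B1, B5, CP, T7 (2)) for `f₀ ≠ 0`: `∑_{v ∈ KG g f₀, v ≠ 0} cnt (2g+1) 1 v ≤ (g+1)² q^{(5g+9)/3}` (natural division).
Proof: for `v ≠ 0` of degree `d < g` with `k = deg cpart v`, B5 (`W = 1`) gives `cnt ≤ q^{NN (2g+1+d) + k} / q^d`.  For given `d` the sum of
`q^{deg cpart v}` over `v ∈ KG g f₀` of degree `d` is `≤ ∑_{k ≤ d/3} q^k ∑_{c ∈ MON k} #{v : deg v = d, c³ ∣ v, (f₀ v)'' = 0, v ≠ 0}` (take `c = cpart v`), and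
`v = c³ w`, `w ∈ KG (d-3k+1) f₀`, so this is `≤ ∑_k q^{2k} q^{2 ((d-3k+3)/3)} = (d/3+1) q^{2 (d/3) + 2}` (T7 (2)).  Exponent of the product:
`2 (d/3) + 2 + NN (2g+1+d) - d ≤ (4g+d+10)/3 ≤ (5g+9)/3` (`NN M ≤ (2M+2)/3`), and `∑_{d<g} (d/3+1) ≤ (g+1)²`. -/
def S_T9 : Prop :=
  ∀ (g : ℕ) (f₀ : F[X]), f₀ ≠ 0 →
    ∑ v ∈ (KG F g f₀).filter (fun v => v ≠ 0), (cnt (2 * g + 1) 1 v : ℝ) ≤ (g + 1) ^ 2 * qq F ^ ((5 * g + 9) / 3)

/-- **T10a** (uses B0, B1, G1) `#TR g f₀ ≤ #PRS g f₀ · q^{(2g-s)/3+1}` for `f₀ ∈ CF s`, `s ≤ 2 g`.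
Proof: for a pair `(v₁, v₂)` in `PRS` two `f` differ by `h` of degree `< 2g+1` with `(h v_i)'' = 0`; by G1
(with `h₀ = f₀`) all such `h` are `f₁ c³`, `f₁` monic cube-free; `f₀ = f₁ c₀³` cube-free and monic gives `f₀ = f₁`; so `h = f₀ c³`, and `h = 0` or
`3 deg c ≤ 2 g - s`: at most `q^{(2g-s)/3+1}` values of `h`. -/
def S_T10a : Prop :=
  ∀ (g s : ℕ) (f₀ : F[X]), f₀ ∈ CF F s → s ≤ 2 * g →
    (TR F g f₀).card ≤ (PRS F g f₀).card * Fintype.card F ^ ((2 * g - s) / 3 + 1)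

/-- **T10b** (uses B0, B1, T8) `#TR g f₀ ≤ 3^g ∑_{v ∈ KG, v ≠ 0} cnt (2g+1) 1 v`: in a triple `v₁ ≠ 0` as the pair is independent; `f` is one of the
`cnt (2g+1) 1 v₁` monic polynomials with `IsSol f v₁`, and `v₂ ∈ sol f`, at most `3^g` choices (T8). -/
def S_T10b : Prop :=
  ∀ (g : ℕ) (f₀ : F[X]), ((TR F g f₀).card : ℝ) ≤
    3 ^ g * ∑ v ∈ (KG F g f₀).filter (fun v => v ≠ 0), (cnt (2 * g + 1) 1 v : ℝ)

/-- **T10c** (uses B0, B1, G0, G1, G3, F4) `∑_{f ∈ MON (2g+1)} (#solz f)² ≤ 6 q^{2g+1} + q^{2g} + ∑_{s < 2g} ∑_{f₀ ∈ CF s} #TR g f₀`.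
Proof: the left side counts `(f, v₁, v₂)`, `v_i ∈ solz f`, `deg v_i < g` (B1 (5)).  Dependent pairs: `v₂ = ± v₁` (G0), at most `2 ∑ #solz f ≤ 6 q^{2g+1}`
(F4; `solz f ⊆ sol f`).  Independent pairs `(v₁, v₂)` for which no `h ≠ 0` of degree `< 2g+1`
has `(h v₁)'' = (h v₂)'' = 0`: at most one `f` each, at most `q^{2g}` pairs.  Otherwise G1 gives `f₀` monic cube-free of degree `s ≤ deg h ≤ 2g` with
`(f₀ v_i)'' = 0` (`h = f₀`, `c = 1`), and `s < 2g` by G3: the triple is in `TR g f₀`. -/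
def S_T10c : Prop :=
  ∀ g : ℕ, ∑ f ∈ MON F (2 * g + 1), ((solz f).card : ℝ) ^ 2 ≤
    6 * qq F ^ (2 * g + 1) + qq F ^ (2 * g) + ∑ s ∈ Finset.range (2 * g), ∑ f₀ ∈ CF F s, ((TR F g f₀).card : ℝ)

/-! ## Part 4 : the final sums -/

/-- **N1** (pure arithmetic and analysis, `q ≥ 2` natural) (1) `NN M ≤ (2 M + 2) / 3`, i.e. `3 NN M ≤ 2 M + 2`;
(2) `∑_{X < N} (X+1)² / q^{X/256} ≤ C` for all `N` (natural division);
(3) if `q ≥ 81`: `∑_{s < N, 16 s < g} q^s 3^g (g+1)² q^{(5g+9)/3} ≤ C q^{2g}` for all `g, N`: `3^g ≤ q^{g/4}` as real powers, the exponent is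
at most `g/16 + g/4 + 5g/3 + 3 = 95 g/48 + 3`, at most `g + 1` values of `s`, and `(g+1)³ q^{3 - g/48}` is bounded. -/
def S_N1 : Prop :=
  (∀ M : ℕ, 3 * NN M ≤ 2 * M + 2) ∧
  (∀ q : ℕ, 2 ≤ q → ∃ Cst : ℝ, 0 < Cst ∧ ∀ N : ℕ, ∑ x ∈ Finset.range N, ((x : ℝ) + 1) ^ 2 / (q : ℝ) ^ (x / 256) ≤ Cst) ∧
  (∀ q : ℕ, 81 ≤ q → ∃ Cst : ℝ, 0 < Cst ∧ ∀ g N : ℕ, ∑ s ∈ (Finset.range N).filter (fun s => 16 * s < g),
    (q : ℝ) ^ s * (3 ^ g * ((g + 1) ^ 2 * (q : ℝ) ^ ((5 * g + 9) / 3))) ≤ Cst * (q : ℝ) ^ (2 * g))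

/-- **U1** (uses B0, N1 (1), T4, T5, T10a) the balanced part: for `a ≤ b < g`, `a + b = s + 1`, `X = 2 g - s ≥ 1000`, `g ≤ 16 s`, `64 (s - 2 a) < X` (written without
subtraction) the sum of `#TR` over the `f₀ ∈ CF s` of minimal degree `a` is at most `25 (X+1) q^{2g+4} / q^{X/256}`.
Proof: T10a and T4, T5: with `l₀ = (g-1-a)/3`, `l₁ = (g-1-b)/3 ≤ l₀` it is `≤ q^{(2g-s)/3+1} [q^b q^{2L+4} + q^{s+1} 24 (l₁/16+1) q^{2L+4} / q^{l₁/16}]`, `L = l₀ + l₁`,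
`3 L ≤ 2g - 2 - a - b = 2g - 3 - s`, so `(s+1) + 2L + 4 + (2g-s)/3 + 1 ≤ 2g + 4`: the bound is `q^{2g+4} [q^{-a} + 24 (l₁/16+1) / q^{l₁/16}]`.
`2a > s - X/64`, `s ≥ g/16 ≥ X/32`, so `a ≥ X/128`; `b = s + 1 - a`, `g - 1 - b = g - 2 - s + a ≥ (63/128) X - 2`, `l₁ ≥ X/16`, `l₁/16 ≥ X/256`
(natural divisions), and `(k+1)/q^k` is decreasing in `k`.  (`l₁ ≤ X`.) -/
def S_U1 : Prop :=
  ∀ g s a b : ℕ, a ≤ b → a + b = s + 1 → b < g → s + 1000 ≤ 2 * g → g ≤ 16 * s → 64 * s < 128 * a + (2 * g - s) →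
    ∑ f₀ ∈ (CF F s).filter (fun f₀ => Mdeg f₀ a), ((TR F g f₀).card : ℝ) ≤
      25 * (((2 * g - s : ℕ) : ℝ) + 1) * qq F ^ (2 * g + 4) / qq F ^ ((2 * g - s) / 256)

/-- **U2** (uses B0, N1 (1), T6, T7, T10a) the unbalanced part: for `X = 2 g - s ≥ 1000`, `64 (s - 2 a) ≥ X` (without subtraction) the sum of `#TR` over the
`f₀ ∈ CF s` of minimal degree `a` is at most `q^{2g+4} / q^{X/192}`.
Proof: `s - 2a ≥ 1000/64 > 15`, T6: at most `q^{NN (s+a)+1}` such `f₀`, each with `#TR ≤ q^{2 (NN (g+s) - s)} q^{(2g-s)/3+1}` (T7 (1), T10a; `TR = ∅` if there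
is no independent pair).  Exponent: `(2s+2a+2)/3 + 1 + (4g+4s+4)/3 - 2s + (2g-s)/3 + 1 = 2g + 4 - (s-2a)/3 ≤ 2g + 4 - X/192`. -/
def S_U2 : Prop :=
  ∀ g s a : ℕ, s + 1000 ≤ 2 * g → 128 * a + (2 * g - s) ≤ 64 * s →
    ∑ f₀ ∈ (CF F s).filter (fun f₀ => Mdeg f₀ a), ((TR F g f₀).card : ℝ) ≤
      qq F ^ (2 * g + 4) / qq F ^ ((2 * g - s) / 192)

/-- **U3** (uses B0, U1, U2, T2) for `X = 2 g - s ≥ 1000`, `g ≤ 16 s`: `∑_{f₀ ∈ CF s} #TR ≤ 26 (X+1)² q^{2g+4} / q^{X/256}`.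
Proof: every `f₀ ∈ CF s` with `TR ≠ ∅` has by T2 an `a` with `Mdeg f₀ a`, `a ≤ b = s + 1 - a < g`, so `s + 2 - g ≤ a ≤ (s+1)/2`: at most `X/2 + 1 ≤ X + 1` values of `a`
(`(s+1)/2 - (s+2-g) + 1 ≤ (2g - s)/2 + 1`); for each use U1 or U2 (`q^{-X/192} ≤ q^{-X/256}`). -/
def S_U3 : Prop :=
  ∀ g s : ℕ, s + 1000 ≤ 2 * g → g ≤ 16 * s →
    ∑ f₀ ∈ CF F s, ((TR F g f₀).card : ℝ) ≤
      26 * (((2 * g - s : ℕ) : ℝ) + 1) ^ 2 * qq F ^ (2 * g + 4) / qq F ^ ((2 * g - s) / 256)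

/-- **U4** (uses B0, T7, T9, T10a, T10b, N1) (1) for `s ≤ 2 g`: `∑_{f₀ ∈ CF s} #TR ≤ q^{2g+3}` (`#CF s ≤ q^s`; T7 (1), T10a: exponent
`s + (4g+4s+4)/3 - 2s + (2g-s)/3 + 1 ≤ 2g + 7/3`); (2) `∑_{f₀ ∈ CF s} #TR ≤ q^s · 3^g (g+1)² q^{(5g+9)/3}` for all `s` (T10b, T9). -/
def S_U4 : Prop :=
  (∀ g s : ℕ, s ≤ 2 * g → ∑ f₀ ∈ CF F s, ((TR F g f₀).card : ℝ) ≤ qq F ^ (2 * g + 3)) ∧
  (∀ g s : ℕ, ∑ f₀ ∈ CF F s, ((TR F g f₀).card : ℝ) ≤ qq F ^ s * (3 ^ g * ((g + 1) ^ 2 * qq F ^ ((5 * g + 9) / 3))))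

/-- **SM** (uses U3, U4, N1, T10c) THE SECOND MOMENT: for `q ≥ 81` there is `C` with `∑_{f ∈ MON (2g+1)} (#solz f)² ≤ C q^{2g+1}` for all `g`.
Proof: T10c; split `s < 2g` into `16 s < g` (U4 (2), N1 (3)), `2g - s < 1000` (U4 (1), at most 1000 values) and the others (U3 and N1 (2), `X = 2g - s`
runs over different values, reindex `s ↦ 2g - s`). -/
def S_SM : Prop :=
  81 ≤ Fintype.card F → ∃ Cst : ℝ, 0 < Cst ∧ ∀ g : ℕ, ∑ f ∈ MON F (2 * g + 1), ((solz f).card : ℝ) ^ 2 ≤ Cst * qq F ^ (2 * g + 1)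

/-- **R** (uses SM, DH A3, A9, F9, F5, B0, B1) the final theorem (`q ≥ 81`).
(1) is A3. (2) SM with A9 (`cl3 f = #sol f = #solz f + 1`, `(x+1)² ≤ 2 x² + 2`) and F5 (`#SQF (2g+1) = q^{2g+1} - q^{2g} ≥ q^{2g+1}/2` for `g ≥ 1`).
(3) by Markov: if `3^r ≤ cl3 f` then `9^r ≤ cl3 f ^ 2`.
(4) Cauchy-Schwarz: `(∑_{SQF} #solz f)² ≤ #{f ∈ SQF : solz f ≠ ∅} · ∑ (#solz f)²`; the first sum is `≥ #SQF / 2` for large `g` (F9: `(g+1)³ q^{-g/4} → 0`). -/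
def S_R : Prop :=
  81 ≤ Fintype.card F →
  (∀ f : F[X], f.Monic → Squarefree f → Odd f.natDegree → IsDedekindDomain (OO f)) ∧
  (∃ Cst : ℝ, ∀ g : ℕ, 1 ≤ g → ∑ f ∈ SQF F (2 * g + 1), (cl3 f : ℝ) ^ 2 ≤ Cst * ((SQF F (2 * g + 1)).card : ℝ)) ∧
  (∃ Cst : ℝ, ∀ g r : ℕ, 1 ≤ g → (((SQF F (2 * g + 1)).filter (fun f => 3 ^ r ≤ cl3 f)).card : ℝ) ≤
    Cst / 9 ^ r * ((SQF F (2 * g + 1)).card : ℝ)) ∧
  (∃ c : ℝ, 0 < c ∧ ∃ g₀ : ℕ, ∀ g ≥ g₀, c * ((SQF F (2 * g + 1)).card : ℝ) ≤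
      (((SQF F (2 * g + 1)).filter (fun f => 1 < cl3 f)).card : ℝ))

end PP
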