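import Pool.Agent.H461.PP.Stm
import Pool.Agent.H463.DH.Stm2

/-!
# Project PP, second part: the second moment is bounded for EVERY `q = 3^k`

The restriction `q ≥ 81` of `Stm.lean` is only used for small `s` (`16 s < g`), where `#sol f ≤ 3^g` was used.  Here these `s` are treated with the
divisor bound (`DH.S_DB` of helper463): for a pair of solutions `Wr v₁ v₂ = H³ w` implies `H³ ∣ v₁ v₂ (v₂ - v₁) (v₂ + v₁)`, so `H` has a large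
common divisor with one of the four polynomials.
-/

open Polynomial
open scoped Classical

noncomputable section

namespace PP

open DH

variable (F : Type) [Field F] [Fintype F] [CharP F 3]

/-- **V1** (no hypotheses) for two solutions of the same `f` with `v₁' v₂ - v₁ v₂' = H³ w`: `H³ ∣ v₁ v₂ (v₂ - v₁) (v₂ + v₁)`.
Proof: `v₂ (f v₁)'' - v₁ (f v₂)'' = - v₁³ v₂ + v₁ v₂³`, and the left side is `2 f' W + f W'` with `W = v₁' v₂ - v₁ v₂'`,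
`W' = v₁'' v₂ - v₁ v₂''`; `W = H³ w` gives `W' = H³ w'`. -/
def S_V1 : Prop :=
  ∀ f v₁ v₂ H w : F[X], IsSol f v₁ → IsSol f v₂ → derivative v₁ * v₂ - v₁ * derivative v₂ = H ^ 3 * w →
    H ^ 3 ∣ v₁ * v₂ * (v₂ - v₁) * (v₂ + v₁)

/-- **V2** (no hypotheses) `H ≠ 0`, `t₁, t₂, t₃, t₄ ≠ 0`, `H³ ∣ t₁ t₂ t₃ t₄`: then `deg H ≤ ∑ deg gcd (H, t_i)`.
Proof: `H³` divides the product of the `gcd (H³, t_i)` (as `gcd (H³, x y) ∣ gcd (H³, x) gcd (H³, y)`), and `gcd (H³, t) ∣ gcd (H, t)³`. -/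
def S_V2 : Prop :=
  ∀ H t₁ t₂ t₃ t₄ : F[X], H ≠ 0 → t₁ ≠ 0 → t₂ ≠ 0 → t₃ ≠ 0 → t₄ ≠ 0 → H ^ 3 ∣ t₁ * t₂ * t₃ * t₄ →
    H.natDegree ≤ (EuclideanDomain.gcd H t₁).natDegree + (EuclideanDomain.gcd H t₂).natDegree +
      (EuclideanDomain.gcd H t₃).natDegree + (EuclideanDomain.gcd H t₄).natDegree

/-- The matrices `u ∈ UU l₀ l₁` with `H ≠ 0` and `deg gcd (H, α³ P₀ + β³ P₁) ≥ k`. -/
def VU (l₀ l₁ k : ℕ) (P₀ P₁ : F[X]) : Finset ((F[X] × F[X]) × (F[X] × F[X])) :=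
  (UU F l₀ l₁).filter (fun u => HH u ≠ 0 ∧ k ≤ (EuclideanDomain.gcd (HH u) (u.1.1 ^ 3 * P₀ + u.1.2 ^ 3 * P₁)).natDegree)

/-- **V3** (uses DH B0, DB, PP T5b) for every `δ > 0` there is `C` such that for monic `P₀, P₁` of degrees `a, b` different mod 3 with `3 l₀ + a < g`, `3 l₁ + b < g`:
`#VU l₀ l₁ k P₀ P₁ ≤ C q^{δ g} q^{2(l₀+l₁)+4} ((k+1)/q^{k/2} + 1/q^{l₀} + 1/q^{l₁})` (`k/2` natural division).
Proof: let `N = α³ P₀ + β³ P₁`; for `(α, β) ≠ 0` (true if `H ≠ 0`) `N ≠ 0` and `deg N < g` (the two degrees are different mod 3, no cancellation).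
The `u` with `α = 0`: `q^{(l₀+1)+2(l₁+1)}`; with `β = 0` or `β' = 0`: `2 q^{2(l₀+1)+(l₁+1)}`.
The `u` with `α, β, β' ≠ 0` and `deg gcd (β, H) ≥ k/2`: `gcd (β, H) ~ gcd (β, α β')`, so by T5b (`x = β, y = α, z = β'`, times `q^{l₀+1}` for `α'`) at most
`q^{2(l₀+l₁)+4} 3 (k/2+1)/q^{k/2}`.
The other `u`: let `E = gcd (H, N)` made monic, `deg E ≥ k`, `E ∣ N`, `E ∣ H`; for given `α, β` there are at most `tau N ≤ C q^{δ g}` possible `E` (DB; `N ≠ 0`, `deg N ≤ g`); for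
given `α, β, β'` (`≤ q^{(l₀+1)+2(l₁+1)}` choices) and `E` two `α'` differ by `Δ` with `E ∣ Δ β`, `deg Δ ≤ l₀`, so
`E₁ = E / gcd (E, β)` divides `Δ`, `deg E₁ ≥ k - k/2` (as `gcd (E, β) ∣ gcd (H, β)` has degree `< k/2` or `≤ k/2`): at most `1 + q^{l₀ + 1 - (k - k/2)}` (real) values of `α'`.
Total of this part: `C q^{δ g} q^{l₀+2l₁+3} (1 + q^{l₀+1-(k-k/2)}) ≤ C q^{δg} q^{2(l₀+l₁)+4} (1/q^{l₀} + 1/q^{k/2})`. -/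
def S_V3 : Prop :=
  ∀ δ : ℝ, 0 < δ → ∃ Cst : ℝ, 0 < Cst ∧ ∀ (g l₀ l₁ k a b : ℕ) (P₀ P₁ : F[X]), P₀ ∈ MON F a → P₁ ∈ MON F b →
    a % 3 ≠ b % 3 → 3 * l₀ + a < g → 3 * l₁ + b < g →
    ((VU F l₀ l₁ k P₀ P₁).card : ℝ) ≤ Cst * qq F ^ (δ * (g : ℝ)) * qq F ^ (2 * (l₀ + l₁) + 4) *
      (((k : ℝ) + 1) / qq F ^ (k / 2) + 1 / qq F ^ l₀ + 1 / qq F ^ l₁)

/-- **V4** (uses DH B0, PP T2, T2b (or the Wronskian in T2), T5a, V1, V2, V3) for every `δ > 0` there is `C`: for `f₀ ∈ CF s`, `PRS g f₀ ≠ ∅`, there are `a ≤ b < g`, `a + b = s + 1`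
such that with `l₀ = (g-1-a)/3`, `l₁ = (g-1-b)/3` (so `l₁ ≤ l₀`)
`#PRS g f₀ ≤ C (g+1) q^{δ g} q^{2(l₀+l₁)+4} / q^{l₁/16}` (natural division).
Proof: T2 (`a % 3 ≠ b % 3` because the Wronskian `P₀' P₁ - P₀ P₁' = c f₀` has degree `s = a + b - 1`; or use a basis with this property).  A pair in `PRS` is
given by `u ∈ UU l₀ l₁` (injective: `v₁, v₂` are determined by `u`), `H = HH u ≠ 0`, `Wr v₁ v₂ = H³ (P₀' P₁ - P₀ P₁')`.  V1 and V2 (`t = v₁, v₂, v₂ - v₁, v₂ + v₁`, all nonzero as the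
pair is independent) give `deg H ≤ ∑ deg gcd (H, t_i)`.  Either `β = 0` (at most `q^{2 l₀ + l₁ + 3}`), or `deg H ≤ l₁/2` (T5a (3): at most
`q^{l₀ + 2 l₁ + l₁/2 + 4}`), or some `deg gcd (H, t_i) ≥ (l₁/2+1)/4 ≥ l₁/8 =: k`.  In the last case `u` or its image under the bijections of `UU l₀ l₁`
`u ↦ ((α', β'), (α, β))`, `((α'-α, β'-β), (α, β))`, `((α'+α, β'+β), (α, β))` (they change `H` by a sign) is in `VU l₀ l₁ k P₀ P₁`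
(`v₂ - v₁ = (α'-α)³ P₀ + (β'-β)³ P₁`, ...): at most `4 #VU`, V3; `k/2 = (l₁/8)/2 = l₁/16`, and `l₁/16 ≤ l₁, l₀`, `l₁/2 + l₁/16 ≤ l₀`. -/
def S_V4 : Prop :=
  ∀ δ : ℝ, 0 < δ → ∃ Cst : ℝ, 0 < Cst ∧ ∀ (g s : ℕ) (f₀ : F[X]), f₀ ∈ CF F s → (PRS F g f₀).Nonempty →
    ∃ a b : ℕ, a ≤ b ∧ a + b = s + 1 ∧ b < g ∧
      ((PRS F g f₀).card : ℝ) ≤ Cst * ((g : ℝ) + 1) * qq F ^ (δ * (g : ℝ)) *
        qq F ^ (2 * ((g - 1 - a) / 3 + (g - 1 - b) / 3) + 4) / qq F ^ (((g - 1 - b) / 3) / 16)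

/-- **V5** (uses DH B0, PP T10a, V4) `∑_{s < N, 16 s < g} ∑_{f₀ ∈ CF s} #TR g f₀ ≤ C q^{2g}` for all `g`, `N`.
Proof: T10a, V4 with `δ = 1/200`: for `16 s < g` (`s ≤ 2g`), `L = l₀ + l₁`, `3 L ≤ 2g - 3 - s`, so
`#TR ≤ C (g+1) q^{g/200} q^{2L+4+(2g-s)/3+1} / q^{l₁/16}`, times `#CF s ≤ q^s`: `s + 2L + 4 + (2g-s)/3 + 1 ≤ 2g + 3`; `b ≤ s + 1 ≤ g/16 + 1` gives
`l₁ ≥ (g - 1 - b)/3 ≥ 5g/16 - 2` (roughly), `l₁/16 ≥ g/52 - 2`; the total is at most `C' (g+1)² q^{2g + 5 + g/200 - g/52}`, bounded by `C'' q^{2g}`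
(at most `g + 1` values of `s`). -/
def S_V5 : Prop :=
  ∃ Cst : ℝ, 0 < Cst ∧ ∀ g N : ℕ, ∑ s ∈ (Finset.range N).filter (fun s => 16 * s < g),
    ∑ f₀ ∈ CF F s, ((TR F g f₀).card : ℝ) ≤ Cst * qq F ^ (2 * g)

/-- **SM2** (uses N1 (2), T10c, U3, U4 (1), V5) THE SECOND MOMENT for every `q`: there is `C` with `∑_{f ∈ MON (2g+1)} (#solz f)² ≤ C q^{2g+1}` for all `g`.
Proof: T10c; split `s < 2g` into `16 s < g` (V5), `2g - s < 1000` (U4 (1), at most 1000 values, each `≤ q^{2g+3}`) and the others (U3 and N1 (2),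
`X = 2g - s` runs over different values, reindex `s ↦ 2g - s`). -/
def S_SM2 : Prop :=
  ∃ Cst : ℝ, 0 < Cst ∧ ∀ g : ℕ, ∑ f ∈ MON F (2 * g + 1), ((solz f).card : ℝ) ^ 2 ≤ Cst * qq F ^ (2 * g + 1)

/-- **R2** (uses SM2, DH A3, A9, F5, B0, B1) the final theorem.
(1) is A3.  (2) SM2 with A9 (`cl3 f = #sol f = #solz f + 1`, `(x+1)² ≤ 2 x² + 2`) and F5 (`#SQF (2g+1) = q^{2g+1} - q^{2g} ≥ q^{2g+1}/2` for `g ≥ 1`;
`SQF ⊆ MON`).  (3) by Markov: if `3^r ≤ cl3 f` then `9^r ≤ (cl3 f)²`.  (`C > 0` may be assumed.) -/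
def S_R2 : Prop :=
  (∀ f : F[X], f.Monic → Squarefree f → Odd f.natDegree → IsDedekindDomain (OO f)) ∧
  (∃ Cst : ℝ, ∀ g : ℕ, 1 ≤ g →
    (∑ f ∈ SQF F (2 * g + 1), (cl3 f : ℝ) ^ 2 ≤ Cst * ((SQF F (2 * g + 1)).card : ℝ)) ∧
    ∀ r : ℕ, (((SQF F (2 * g + 1)).filter (fun f => 3 ^ r ≤ cl3 f)).card : ℝ) ≤
      Cst / 9 ^ r * ((SQF F (2 * g + 1)).card : ℝ))

end PP
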