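import Pool.Agent.H461.PP.Stm2

/-!
# Project PP, third part: the second moment of `#Cl[3]` is `6 + O(1/q)`

`n = 2g+1`, `I(f) = (#solz f)² - 2 #solz f` is the number of the independent pairs of solutions (G0).  GOAL: with absolute constants
`(1 - C/q - ε) q^n ≤ ∑_{f ∈ MON n} I(f) ≤ (1 + C/q + ε) q^n` for `g ≥ g₀(q, ε)`, and so the average of `#Cl[3]²` over the squarefree `f`
is within `C/q + ε` of `6 = 1 + 4 + 1`, the value predicted by Cohen and Lenstra; and the proportion of the class numbers prime to 3 is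
`≤ 9/16 + C/q + ε`.

Notation of DH Stm2: `Wr v₁ v₂ = v₁' v₂ - v₁ v₂'`, `Mo v₁ v₂ = v₁ v₂³ - v₁³ v₂ = v₁ v₂ (v₂ - v₁) (v₂ + v₁)` (in characteristic 3 the four
factors are the four `lines` of the `𝔽₃`-span).  For a common solution pair of `f`: `2 f' Wr + f Wr' = Mo` (M1).
-/

open Polynomial
open scoped Classical

noncomputable section

namespace PP

open DH

variable (F : Type) [Field F] [Fintype F] [CharP F 3]

/-- The smallest degree of the four lines `R, S, S - R, S + R`. -/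
def mn {F : Type} [Field F] (R S : F[X]) : ℕ := min (min R.natDegree S.natDegree) (min (S - R).natDegree (S + R).natDegree)

/-- The largest degree. -/
def mx {F : Type} [Field F] (R S : F[X]) : ℕ := max R.natDegree S.natDegree

/-- Necessary conditions at infinity (for a pair with a common monic `f` of degree `2g+1`). -/
def AD {F : Type} [Field F] (g K : ℕ) (R S : F[X]) : Prop :=
  Wr R S ≠ 0 ∧ 2 * g < (Wr R S).natDegree + K ∧
  (R.natDegree + 2 * g + 1) % 3 ≠ 2 ∧ (S.natDegree + 2 * g + 1) % 3 ≠ 2 ∧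
  ((S - R).natDegree + 2 * g + 1) % 3 ≠ 2 ∧ ((S + R).natDegree + 2 * g + 1) % 3 ≠ 2 ∧
  (Mo R S).natDegree ≤ 2 * g + (Wr R S).natDegree ∧
  (mn R S = g - 1 → (Wr R S).leadingCoeff = (Mo R S).leadingCoeff)

/-- The weight at infinity. -/
def om {F : Type} [Field F] [Fintype F] (g K : ℕ) (p : F[X] × F[X]) : ℝ :=
  if AD g K p.1 p.2 then qq F ^ ((2 * g - (Wr p.1 p.2).natDegree) / 3 + 1) else 0

/-- The condition at `h` (it depends only on `R, S` modulo `h³`). -/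
def CH {F : Type} [Field F] (h R S : F[X]) : Prop :=
  h ^ 3 ∣ Wr R S ∧ ∀ P : F[X], Irreducible P → P ∣ h → ¬ P ^ 2 ∣ h → P ^ 3 ∣ Mo R S

/-- The pairs of residues modulo `h³` with the condition at `h`. -/
def BB {F : Type} [Field F] [Fintype F] (h : F[X]) : Finset (F[X] × F[X]) :=
  ((POL F (3 * h.natDegree)) ×ˢ (POL F (3 * h.natDegree))).filter (fun p => CH h p.1 p.2)

/-- All pairs of degree `< g`. -/
def PG (g : ℕ) : Finset (F[X] × F[X]) := (POL F g) ×ˢ (POL F g)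

/-- The independent pairs with a common `f` and small defect. -/
def PB (g K : ℕ) : Finset (F[X] × F[X]) :=
  (PG F g).filter (fun p => Wr p.1 p.2 ≠ 0 ∧ (∃ f ∈ MON F (2 * g + 1), IsSol f p.1 ∧ IsSol f p.2) ∧
    2 * g + 3 * (cpart (Wr p.1 p.2)).natDegree < (Wr p.1 p.2).natDegree + K)

/-- The sum of `I(f)`. -/
def II (g : ℕ) : ℝ := ∑ f ∈ MON F (2 * g + 1), (((solz f).card : ℝ) ^ 2 - 2 * ((solz f).card : ℝ))

/-! ## Tails -/

/-- **W1** (uses DH B0, PP T10a, V4; compare V5) for every `ε > 0` and large `g`: `∑_{s < N, 16 s < g} ∑_{f₀ ∈ CF s} #TR ≤ ε q^{2g}`.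
Proof: exactly the proof of V5: the sum is at most `C' (g+1)² q^{2g + 5 + g/200 - g/52}` and `(g+1)² q^{5 + g/200 - g/52} → 0`. -/
def S_W1 : Prop :=
  ∀ ε : ℝ, 0 < ε → ∃ g₀ : ℕ, ∀ g ≥ g₀, ∀ N : ℕ, ∑ s ∈ (Finset.range N).filter (fun s => 16 * s < g),
    ∑ f₀ ∈ CF F s, ((TR F g f₀).card : ℝ) ≤ ε * qq F ^ (2 * g)

/-- **W2** (uses N1 (2), U3, W1) for every `ε > 0` there are `K`, `g₀` with `∑_{s < 2g, s + K ≤ 2g} ∑_{f₀ ∈ CF s} #TR ≤ ε q^{2g}` for `g ≥ g₀`.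
Proof: the `s` with `16 s < g`: W1 with `ε/2`.  The others, for `K ≥ 1000`: U3, at most `q^{2g} · 26 q^4 ∑_{X ≥ K} (X+1)²/q^{X/256}` (`X = 2g - s ≥ K` takes different
values), and this tail of a convergent series (N1 (2): bounded partial sums of nonnegative terms) is `≤ ε/2` for large `K`. -/
def S_W2 : Prop :=
  ∀ ε : ℝ, 0 < ε → ∃ K g₀ : ℕ, ∀ g ≥ g₀, ∑ s ∈ (Finset.range (2 * g)).filter (fun s => s + K ≤ 2 * g),
    ∑ f₀ ∈ CF F s, ((TR F g f₀).card : ℝ) ≤ ε * qq F ^ (2 * g)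

/-! ## Upper bound: reduction to local sums -/

/-- **W3** (uses DH B0, B1, G0, CP, M2) `II g ≤ ∑_{s < 2g, s + K ≤ 2g} ∑_{f₀ ∈ CF s} #TR + ∑_{p ∈ PB g K} q^{(2g + 3 η - deg Wr)/3 + 1}`, `η = deg cpart Wr`.
Proof: `I(f)` is the number of pairs `(v₁, v₂) ∈ (solz f)²` with `Wr v₁ v₂ ≠ 0`: the others are `v₂ = ± v₁` (G0), and `v ≠ -v`.  For such a pair
`Wr = c³ f₀'`, `c = cpart Wr`, `f₀'` cube-free (CP) of degree `s = deg Wr - 3 deg c`, `f₀` = `f₀'` made monic; `(f₀ v_i)'' = 0` because `(Wr v_i)'' = 0` (compute with `3 = 0`, third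
derivatives `0`) and `c³ (f₀' v_i)'' = (Wr v_i)''`; `deg v_i < g`, `deg Wr ≤ 2g - 3 < 2g`.  If `s + K ≤ 2g` the triple is in `TR g f₀`.  Otherwise the pair is in `PB g K` and has at
most `q^{(n-1-s)/3+1}` polynomials `f` (M2). -/
def S_W3 : Prop :=
  ∀ g K : ℕ, II F g ≤ ∑ s ∈ (Finset.range (2 * g)).filter (fun s => s + K ≤ 2 * g), ∑ f₀ ∈ CF F s, ((TR F g f₀).card : ℝ) +
    ∑ p ∈ PB F g K, qq F ^ ((2 * g + 3 * (cpart (Wr p.1 p.2)).natDegree - (Wr p.1 p.2).natDegree) / 3 + 1)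

/-- **W4a** (uses DH B0, B1, CP, M1) a pair in `PB g K` (`g ≥ 2`) with `h = cpart Wr` satisfies `AD g K`, `CH h`, `h` monic, `3 deg h < K`.
Proof: all four lines `T` are nonzero solutions of `f` (`IsSol` is additive; `Wr ≠ 0`), so B1 (9) (`deg f` is odd) gives `(deg T + 2g+1) % 3 ≠ 2`.  M1: `h³ ∣ Mo`,
`deg Mo ≤ 2g + deg Wr`.  `h³ ∣ Wr` by CP.  `2g < deg Wr + K` and, as `deg Wr ≤ 2g`, `3 deg h < K`, from the definition of `PB`.  If all four lines have degree `g - 1` then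
`deg Mo = 4g - 4`, and `deg Wr ≤ 2g - 4` (the coefficient of `X^{2g-3}` is `(g-1) (α β - α β) = 0`), so `deg Wr = 2g - 4` and comparing the coefficients of `X^{4g-4}` in
`2 f' Wr + f Wr' = Mo`: `(2 (2g+1) + (2g-4)) lc(Wr) = (6g - 2) lc(Wr) = lc(Wr)` in characteristic 3. -/
def S_W4a : Prop :=
  ∀ (g K : ℕ) (p : F[X] × F[X]), 2 ≤ g → p ∈ PB F g K →
    AD g K p.1 p.2 ∧ CH (cpart (Wr p.1 p.2)) p.1 p.2 ∧ (cpart (Wr p.1 p.2)).Monic ∧ 3 * (cpart (Wr p.1 p.2)).natDegree < K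

/-- **W4** (uses DH B0, PP W4a) `∑_{p ∈ PB g K} q^{(2g + 3 η - deg Wr)/3 + 1} ≤ ∑_{η < K} ∑_{h ∈ MON η} q^η ∑_{p ∈ PG g, CH h p} om g K p`.
Proof: for `p ∈ PB` take the term `h = cpart Wr` on the right: `(2g + 3η - deg Wr)/3 + 1 = (2g - deg Wr)/3 + 1 + η` (`deg Wr ≤ 2 g`), all other terms are `≥ 0`. -/
def S_W4 : Prop :=
  ∀ g K : ℕ, 2 ≤ g →
    ∑ p ∈ PB F g K, qq F ^ ((2 * g + 3 * (cpart (Wr p.1 p.2)).natDegree - (Wr p.1 p.2).natDegree) / 3 + 1) ≤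
      ∑ k ∈ Finset.range K, ∑ h ∈ MON F k, qq F ^ k * ∑ p ∈ (PG F g).filter (fun p => CH h p.1 p.2), om g K p

/-- **W5a** (no hypotheses) `om` only depends on the leading coefficients: for `r, s` of degree `< g - K` and `R, S` of degree `< g`, `K ≤ g`:
`om g K (R + r, S + s) = om g K (R, S)`.
Proof: by symmetry (`(R, S) = (R + r, S + s) + (-r, -s)`) it is enough that `AD g K R S` implies `AD g K (R+r) (S+s)` with the same `deg Wr`.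
`Wr (R+r) (S+s) - Wr R S = Wr r (S+s) + Wr R s` has degree `≤ (g-K-1) + (g-1) < 2g - K < deg Wr R S`, so degree and leading coefficient of `Wr` do not change.  For every
line `T` and another line `U`: `deg Wr ≤ deg T + deg U` (`Wr T U = ± Wr R S`), so `deg T > 2g - K - (g-1) > g - K`, so its degree and leading coefficient do not change; and
`Mo` is the product of the lines. -/
def S_W5a : Prop :=
  ∀ (g K : ℕ) (R S r s : F[X]), K ≤ g → R ∈ POL F g → S ∈ POL F g → r ∈ POL F (g - K) → s ∈ POL F (g - K) →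
    om g K (R + r, S + s) = om g K (R, S)

/-- **W5** (uses DH B0, PP W5a) equidistribution: for `h ∈ MON k`, `3 k + K ≤ g`: `∑_{p ∈ PG g, CH h p} om g K p = #BB h / q^{6k} · ∑_{p ∈ PG g} om g K p`.
Proof: `CH h R S` depends only on `R, S` modulo `h³` (`(h³)' = 0`, so `Wr (R + h³ a) S = Wr R S + h³ Wr a S`; `P³ ∣ h³`).  Write `R = R₁ + r`, `S = S₁ + s` with `r, s ∈ POL (g-K)` and `R₁, S₁`
multiples of `X^{g-K}`; for fixed `R₁, S₁` `om` is constant (W5a), and as `3 k ≤ g - K` every residue class modulo `h³` contains exactly `q^{g-K-3k}` of the `R₁ + r`, so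
exactly `#BB h · q^{2(g-K-3k)}` of the `q^{2(g-K)}` pairs satisfy `CH h`. -/
def S_W5 : Prop :=
  ∀ (g K k : ℕ) (h : F[X]), h ∈ MON F k → 3 * k + K ≤ g →
    ∑ p ∈ (PG F g).filter (fun p => CH h p.1 p.2), om g K p = ((BB h).card : ℝ) / qq F ^ (6 * k) * ∑ p ∈ PG F g, om g K p

/-! ## The sum at infinity -/

/-- The exponents: the number of `d ≤ δ₁` with `d + δ₀ ≤ γ + 1` or `d ≡ δ₀` mod 3. -/
def DD (δ₀ δ₁ γ : ℕ) : ℕ := ((Finset.range (δ₁ + 1)).filter (fun d => d + δ₀ ≤ γ + 1 ∨ d % 3 = δ₀ % 3)).card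

/-- **W6a** (uses DH B0, DC) the number of pairs with `Wr ≠ 0`, `mx = δ₀`, `mn = δ₁`, `deg Wr = γ` is at most `4 q^{δ₀ + 1 + DD δ₀ δ₁ γ}`.
Proof: one of the four lines `T` has degree `δ₁`, and another one, `U`, has degree `δ₀` (at least three of the lines have degree `δ₀`); take
`(T, U) = (R, S)` or `(S, R)` or `(S - R, R)` or `(S + R, R)`; in every case `(R, S)` is determined by `(T, U)`, and `Wr T U = ± Wr R S`.  For given `U` of degree `δ₀` (at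
most `q^{δ₀+1}`) the `T` of degree `≤ δ₁` with `Wr T U = 0` or `deg Wr T U ≤ γ` form a subspace; the degree `d` of a nonzero element with `d % 3 ≠ δ₀ % 3` satisfies `d + δ₀ - 1 = deg Wr T U ≤ γ`
(leading coefficient `d - δ₀ ≠ 0`); so DC gives at most `q^{DD}` elements. -/
def S_W6a : Prop :=
  ∀ g δ₀ δ₁ γ : ℕ,
    ((PG F g).filter (fun p => Wr p.1 p.2 ≠ 0 ∧ mx p.1 p.2 = δ₀ ∧ mn p.1 p.2 = δ₁ ∧ (Wr p.1 p.2).natDegree = γ)).card ≤
      4 * Fintype.card F ^ (δ₀ + 1 + DD δ₀ δ₁ γ)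

/-- **W6b** (uses DH B0) for `g ≥ 3` the pairs with `AD g K` and `mn = g - 1`: `deg Wr = 2g - 4`, and there are at most `q^{2g-1}` of them.
Proof: let `α, β` be the leading coefficients of `R, S` (degree `g-1`) and `ρ, σ` the next ones.  `deg Mo = 4g - 4 ≤ 2g + deg Wr`, and the coefficient of `X^{2g-3}` of `Wr` is `0`, so
`deg Wr = 2g - 4`, `lc(Wr) = α σ - β ρ`, `lc(Mo) = α β³ - α³ β`; `AD` says they are equal, and `α ≠ 0`, so `σ` is determined by `α, β, ρ`: at most `q³ · q^{2(g-2)}` pairs. -/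
def S_W6b : Prop :=
  ∀ g K : ℕ, 3 ≤ g →
    (∀ p ∈ PG F g, AD g K p.1 p.2 → mn p.1 p.2 = g - 1 → (Wr p.1 p.2).natDegree = 2 * g - 4) ∧
    ((PG F g).filter (fun p => AD g K p.1 p.2 ∧ mn p.1 p.2 = g - 1)).card ≤ Fintype.card F ^ (2 * g - 1)

/-- The constraints for `(δ₀, δ₁, γ)` of a pair with `AD g K` and `mn < g - 1`. -/
def CC (g K : ℕ) : Finset (ℕ × ℕ × ℕ) :=
  ((Finset.range g) ×ˢ ((Finset.range g) ×ˢ (Finset.range (2 * g)))).filter (fun t =>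
    t.2.1 ≤ t.1 ∧ t.2.1 + 1 < g ∧ (t.1 + 2 * g + 1) % 3 ≠ 2 ∧ (t.2.1 + 2 * g + 1) % 3 ≠ 2 ∧
    (t.1 % 3 ≠ t.2.1 % 3 → t.2.2 + 1 = t.1 + t.2.1) ∧ (t.1 % 3 = t.2.1 % 3 → t.2.2 + 2 ≤ t.1 + t.2.1) ∧
    3 * t.1 + t.2.1 ≤ 2 * g + t.2.2 ∧ 2 * g < t.2.2 + K)

/-- **W6c** (uses DH B0) a pair with `AD g K` and `mn ≠ g - 1` (`g ≥ 2`, degrees `< g`) has `(mx, mn, deg Wr) ∈ CC g K`.
Proof: at least three of the lines have degree `δ₀ = mx`, the fourth one has degree `δ₁ = mn`, so `deg Mo = 3 δ₀ + δ₁`; with `T, U` as in W6a `Wr = ± Wr T U` has degree exactly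
`δ₀ + δ₁ - 1` if `δ₀ ≢ δ₁` mod 3 and `≤ δ₀ + δ₁ - 2` if `δ₀ ≡ δ₁` (the leading terms cancel; `Wr ≠ 0` forces `δ₀ + δ₁ ≥ 2` here).  The rest is in `AD`. -/
def S_W6c : Prop :=
  ∀ (g K : ℕ) (R S : F[X]), 2 ≤ g → R ∈ POL F g → S ∈ POL F g → AD g K R S → mn R S ≠ g - 1 →
    (mx R S, mn R S, (Wr R S).natDegree) ∈ CC g K

/-- **W6d** (pure arithmetic, `q ≥ 3` natural, `K ≤ g`) `∑_{(δ₀, δ₁, γ) ∈ CC g K} 4 q^{δ₀ + 1 + DD δ₀ δ₁ γ} q^{(2g - γ)/3 + 1} ≤ 1000 q^{2g}`.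
Proof: put `t₀ = g-1-δ₀`, `t₁ = g-1-δ₁`, `σ = t₀ + t₁`, `v = δ₀ + δ₁ - γ ≥ 1`; `t₀, t₁` are never `1` mod 3; `t₁ ≥ t₀`, `t₁ ≥ 1`; the condition `3 δ₀ + δ₁ ≤ 2g + γ` says `v ≤ 2 + 2 t₀`;
`γ > 2g - K ≥ g > δ₀`.
(i) `δ₀ ≢ δ₁`: `v = 1`, `DD = δ₁ + 1`, the total exponent (with the last factor) is `E = 2g + 2 - σ + ⌊σ/3⌋`.  `t₀ = 0`: `t₁ = 3k+2`, `E = 2g - 2k`.  `t₀ ≥ 2`: `σ ≥ 5`.
(ii) `δ₀ ≡ δ₁`: `v ≥ 2`, `DD = (δ₁ + 2 - v) + ⌊(v+1)/3⌋`, `E = 2g + 2 - σ - v + ⌊(v+1)/3⌋ + ⌊(2+σ+v)/3⌋`.  `t₀ = 0`: `v = 2`, `t₁ = 3k+3`, `E = 2g - 2k`.  `t₀ ≥ 2`: `σ ≥ 4`, `v ≥ 2` and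
`3 E ≤ 6g + 9 - 2σ - v`, `E ≤ 2g - 1`.
Sum of the `q^{E - 2g}` (all exponents are `≤ 0`, so `q = 3` is the worst case): `t₀ = 0`: `≤ 2 · 9/8`; (i) `t₀ ≥ 2`: at most `σ` pairs `(t₀, t₁)` for each `σ`,
`∑_{σ ≥ 5} σ 3^{2-σ+⌊σ/3⌋} ≤ 3`; (ii): `∑_{σ ≥ 4} ∑_{v ≥ 2} σ · min(3^{-1}, 3^{(9 - 2σ - v)/3}) ≤ 100` (crudely).  Any proof with a constant `≤ 1000` is fine. -/
def S_W6d : Prop :=
  ∀ q : ℕ, 3 ≤ q → ∀ g K : ℕ, K ≤ g →
    ∑ t ∈ CC g K, 4 * (q : ℝ) ^ (t.1 + 1 + DD t.1 t.2.1 t.2.2) * (q : ℝ) ^ ((2 * g - t.2.2) / 3 + 1) ≤ 1000 * (q : ℝ) ^ (2 * g)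

/-- **W6** (uses DH B0, PP W6a, W6b, W6c, W6d) `∑_{p ∈ PG g} om g K p ≤ q^{2g+1} + 1000 q^{2g}` for `3 ≤ g`, `K ≤ g`.
Proof: `mn = g - 1`: W6b, at most `q^{2g-1}` pairs, each `q^{(2g-(2g-4))/3+1} = q²`.  The others: group by `(mx, mn, deg Wr) ∈ CC g K` (W6c), W6a, W6d. -/
def S_W6 : Prop :=
  ∀ g K : ℕ, 3 ≤ g → K ≤ g → ∑ p ∈ PG F g, om g K p ≤ qq F ^ (2 * g + 1) + 1000 * qq F ^ (2 * g)

/-! ## The sum over `h` -/

/-- **W7a** (uses DH B0) for coprime monic `a, b`: `#BB (a b) ≤ #BB a · #BB b`.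
Proof: `(R, S) ↦ ((R, S) mod a³, (R, S) mod b³)` is injective on pairs of degree `< 3 deg (a b)` (`a³, b³` coprime) and maps `BB (a b)` into `BB a × BB b`: `CH` depends only on the residues
modulo `a³` (`(a³)' = 0`), and for a prime `P ∣ a`: `P² ∣ a b` iff `P² ∣ a`. -/
def S_W7a : Prop :=
  ∀ a b : F[X], a.Monic → b.Monic → IsCoprime a b → (BB (a * b)).card ≤ (BB a).card * (BB b).card

/-- **W7b** (uses DH B0) for `P` monic irreducible of degree `d ≥ 1`: `#BB P ≤ 6 q^{3d}`.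
Proof: `Q = q^d`; pairs modulo `P³` with `P³ ∣ Wr`, `P³ ∣ Mo`, `Mo` the product of the four lines.  (i) if `P` divides two different lines it divides `R` and `S`: `R = P R₁`, `S = P S₁`, `R₁, S₁` modulo `P²`,
`Wr R S = P² Wr R₁ S₁`, so `P ∣ Wr R₁ S₁ = R₁' S₁ - R₁ S₁'`: for given `S₁` (`Q²` choices): if `P ∤ S₁` or `P ∤ S₁'` then `R₁ ↦ Wr R₁ S₁` mod `P` is onto from the residues modulo `P²` (the map `R₁ ↦ (R₁, R₁')`
mod `P` is a bijection since `P ∤ P'`), so `Q` choices of `R₁`; otherwise `S₁ = 0` mod `P²`, `Q²` choices: total `≤ Q³ + Q²`.  (ii) `P` divides exactly one line `T`: then `P³ ∣ T` (the other factors of `Mo` are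
prime to `P`), `T = 0` modulo `P³`, and another line is arbitrary: `Q³` for each of the four lines.  Total `≤ 5 Q³ + Q² ≤ 6 Q³`. -/
def S_W7b : Prop :=
  ∀ (d : ℕ) (P : F[X]), P ∈ MON F d → Irreducible P → (BB P).card ≤ 6 * Fintype.card F ^ (3 * d)

/-- **W7c** (uses DH B0, B1) for `P` monic irreducible of degree `d`, `e ≥ 1`: `#{(R, S) modulo P^{3e} : P^{3e} ∣ Wr R S} ≤ 2 q^{4de}`; so `#BB (P^e) ≤ 2 q^{4de}`.
Proof: `Q = q^d`.  Write `R = ∑ X^i r_i³`, `S = ∑ X^i s_i³` (`i = 0, 1, 2`; `F` perfect), `r_i, s_i` modulo `P^e`: a bijection between the residues modulo `P^{3e}` and the triples modulo `P^e`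
(`P^{3e} ∣ R` iff `P^e ∣ r_i` for all `i`: `R'' = - r₂³`, etc.); the coordinates of `Wr R S` are, up to sign, the minors `r_i s_j - r_j s_i`.  So count pairs of triples `(r, s)` modulo `P^e` with all minors
`≡ 0`.  If `P^i` is the exact power of `P` dividing `r` (`i < e`): at most `Q^{3(e-i)}` such `r`, `r = P^i r'` with some component of `r'` invertible, `s ≡ λ r'` modulo `P^{e-i}`, at most
`Q^{e-i} Q^{3i}` such `s`; `r = 0`: `Q^{3e}`.  Total `∑_{i ≤ e} Q^{4e - i} ≤ (3/2) Q^{4e}`. -/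
def S_W7c : Prop :=
  ∀ (d e : ℕ) (P : F[X]), P ∈ MON F d → Irreducible P → 1 ≤ e →
    (((POL F (3 * (d * e))) ×ˢ (POL F (3 * (d * e)))).filter (fun p => P ^ (3 * e) ∣ Wr p.1 p.2)).card ≤ 2 * Fintype.card F ^ (4 * (d * e)) ∧
    (BB (P ^ e)).card ≤ 2 * Fintype.card F ^ (4 * (d * e))

/-- The number of factorizations of the monic `h` into six monic factors is an upper bound for `6 ^ Ω(h)` (`h` squarefree); we only use the sums. -/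
def om6 {F : Type} [Field F] (h : F[X]) : ℝ := 6 ^ (Multiset.card (UniqueFactorizationMonoid.normalizedFactors h))

/-- **W7d** (uses DH B0, TA) `∑_{h ∈ MON d squarefree} 6 ^ Ω(h) ≤ (d+1)^5 q^d`.
Proof: a squarefree `h` has `6 ^ Ω(h)` ordered factorizations into 6 monic factors, and the number of 6-tuples of monic polynomials of total degree `d` is `binom(d+5, 5) q^d ≤ (d+1)^5 q^d`.
(Compare the proof of DH TA (2); e.g. iterate `(1+x)^{Ω(h)} ≤ ∑_{a ∣ h} x^{Ω(a)}`.) -/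
def S_W7d : Prop :=
  ∀ d : ℕ, ∑ h ∈ (MON F d).filter (fun h => Squarefree h), om6 h ≤ ((d : ℝ) + 1) ^ 5 * qq F ^ d

/-- **W7e** (uses DH B0, PP W7a, W7b, W7c) every monic `h` is `h₁ a² b³` with `h₁, a, b` monic, `h₁` squarefree, and
`#BB h ≤ 6^{Ω(h₁)} q^{3 deg h₁} · tau a · tau b · q^{4 (2 deg a + 3 deg b)}`.
Proof: `h = ∏ P^e`; `h₁ = ∏_{e = 1} P`, `b = ∏_{e ≥ 3 odd} P`, `a` = the product of the `P^{e/2}` (`e` even) and `P^{(e-3)/2}` (`e ≥ 3` odd).  By W7a (induction over coprime factorizations) `#BB h ≤ ∏ #BB (P^e)`; for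
`e = 1` W7b, for `e ≥ 2` W7c; and `2^{#{P : e ≥ 2}} ≤ tau a · tau b` (`tau` = number of monic divisors; every such `P` divides `a` or `b`). -/
def S_W7e : Prop :=
  ∀ h : F[X], h.Monic → ∃ h₁ a b : F[X], h₁.Monic ∧ a.Monic ∧ b.Monic ∧ Squarefree h₁ ∧ h = h₁ * a ^ 2 * b ^ 3 ∧
    ((BB h).card : ℝ) ≤ om6 h₁ * qq F ^ (3 * h₁.natDegree) * (tau a : ℝ) * (tau b : ℝ) * qq F ^ (4 * (2 * a.natDegree + 3 * b.natDegree))

/-- **W7** (uses DH B0, TA, PP W7d, W7e) `∑_{k < K} ∑_{h ∈ MON k} q^k #BB h / q^{6k} ≤ 1 + 10000 / q`.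
Proof: with W7e the sum is at most the sum over all triples `(h₁, a, b)` of
`6^{Ω(h₁)} q^{-2 deg h₁} · tau a q^{-2 deg a} · tau b q^{-3 deg b}` (`1 + 3 - 6 = -2`, `1 + 4 - 6 = -1`), which is at most `(∑_d (d+1)^5 q^{-d}) (∑_i (i+1) q^{-i}) (∑_j (j+1) q^{-2j})` (W7d, and
`∑_{a ∈ MON i} tau a = (i+1) q^i` by TA (1)); for `q ≥ 3` each factor is `≤ 1 + c/q` with `c = 700, 5, 2` and the product is `≤ 1 + 10000/q` (at `q = 3` it is `< 600`; the function `q (f(q) - 1)` is decreasing). -/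
def S_W7 : Prop :=
  ∀ K : ℕ, ∑ k ∈ Finset.range K, ∑ h ∈ MON F k, qq F ^ k * ((BB h).card : ℝ) / qq F ^ (6 * k) ≤ 1 + 10000 / qq F

/-- **W8** (uses PP W2, W3, W4, W5, W6, W7) THE UPPER BOUND: for every `ε > 0` and large `g`: `II g ≤ (1 + 4000000/q + ε) q^{2g+1}`.
Proof: W2 gives `K`, `g₀`; for `g ≥ 4 K + 3 + g₀`: W3, W4, W5 (`3 k + K ≤ 4 K ≤ g`), so `II g ≤ ε q^{2g} + (∑_k ∑_h q^k #BB h/q^{6k}) (∑ om) ≤ ε q^{2g+1} + (1 + 10⁴/q)(1 + 10³/q) q^{2g+1}` and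
`(1 + 10⁴/q)(1 + 10³/q) ≤ 1 + (11000 + 10⁷/3)/q`. -/
def S_W8 : Prop :=
  ∀ ε : ℝ, 0 < ε → ∃ g₀ : ℕ, ∀ g ≥ g₀, II F g ≤ (1 + 4000000 / qq F + ε) * qq F ^ (2 * g + 1)

/-! ## The lower bound -/

/-- The pairs with the right leading coefficients. -/
def MP (g : ℕ) : Finset (F[X] × F[X]) :=
  (PG F g).filter (fun p => mn p.1 p.2 = g - 1 ∧ (Wr p.1 p.2).coeff (2 * g - 4) = (Mo p.1 p.2).coeff (4 * g - 4))

/-- **X1** (uses DH B0, B1, G1, CP) for `g ≥ 3` and `(R, S) ∈ MP g` with `Wr R S` cube-free there are at least `q²` polynomials `f ∈ MON (2g+1)` with both solutions.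
Proof: `α, β` leading coefficients of `R, S` (degree `g-1`), `ρ, σ` the next ones; `deg Wr = 2g - 4` (its coefficient `α σ - β ρ = α β³ - α³ β ≠ 0`).
`Φ(f) = ((f R)'', (f S)'')` is `F`-linear on `V = POL (2g+1)`; its kernel is `{w c³ : deg w + 3 deg c ≤ 2g}`, `w` = `Wr` made monic (as in DH G1/M2: `(h R)'' = (h S)'' = 0` iff `h` is `Wr` times the cube of a polynomial,
because `Wr` is cube-free), so it has `q²` elements (`deg c ≤ 1`), and the image has `q^{2g-1}` elements.  The image is contained in the set `Y` of the pairs `(A³, B³)`, `A, B ∈ POL g`, with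
`β A_{g-1}³ = α B_{g-1}³` (`A_{g-1}³` is the coefficient of `X^{3g-3}` of `(f R)''`, i.e. `(3g-1)(3g-2) f_{2g} α = - α f_{2g}`·(constant independent of `R`), the same for `S`), and `#Y = q^{2g-1}`: so the image is `Y`.
The pair `(- R³ - (X^n R)'', - S³ - (X^n S)'')` is in `Y`: it consists of cubes (third derivatives vanish), of degree `≤ 3g-3`, and the condition on the coefficients of `X^{3g-3}` is
`β (- α³ + ρ) = α (- β³ + σ)`, which is the condition `α σ - β ρ = α β³ - α³ β`.  So it is `Φ(f')` for exactly `q²` elements `f' ∈ V`, and `f = X^n + f'`. -/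
def S_X1 : Prop :=
  ∀ (g : ℕ) (p : F[X] × F[X]), 3 ≤ g → p ∈ MP F g → CubeFree (Wr p.1 p.2) →
    Fintype.card F ^ 2 ≤ ((MON F (2 * g + 1)).filter (fun f => IsSol f p.1 ∧ IsSol f p.2)).card

/-- **X2a** (uses DH B0) `#MP g = (q-1)(q-3) q^{2g-3}` for `g ≥ 3` (real numbers); for `p ∈ MP g` `Wr ≠ 0` has degree `2g - 4`.
Proof: `α, β` with `α, β, β - α, β + α ≠ 0`: `(q-1)(q-3)` choices; `coeff (2g-4) Wr = α σ - β ρ`, `coeff (4g-4) Mo = α β³ - α³ β = α β (β-α)(β+α) ≠ 0`; for given `α, β, ρ` exactly one `σ`; the other `2 (g-2)`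
coefficients are free. -/
def S_X2a : Prop :=
  ∀ g : ℕ, 3 ≤ g → ((MP F g).card : ℝ) = (qq F - 1) * (qq F - 3) * qq F ^ (2 * g - 3) ∧
    ∀ p ∈ MP F g, Wr p.1 p.2 ≠ 0 ∧ (Wr p.1 p.2).natDegree = 2 * g - 4

/-- **X2b** (uses DH B0, PP W7c) for `P` monic irreducible of degree `d ≥ 1`, `3 d + 2 ≤ g`, `3 ≤ g`: `#{p ∈ MP g : P³ ∣ Wr} ≤ 2 q^{2g-1} / q^{2d}`.
Proof: membership in `MP g` depends only on the coefficients of `X^{g-1}`, `X^{g-2}` of `R, S`, at most `q³` possibilities (`σ` is determined); for each of them the rest of `(R, S)` runs over `POL (g-2)²`, equidistributed modulo `P³`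
(`3 d ≤ g - 2`), and `P³ ∣ Wr` depends only on the residues modulo `P³`: at most `2 q^{4d}` residue pairs (W7c, `e = 1`), so at most `q³ · 2 q^{4d} · q^{2(g-2-3d)}`. -/
def S_X2b : Prop :=
  ∀ (g d : ℕ) (P : F[X]), P ∈ MON F d → Irreducible P → 3 * d + 2 ≤ g → 3 ≤ g →
    (((MP F g).filter (fun p => P ^ 3 ∣ Wr p.1 p.2)).card : ℝ) ≤ 2 * qq F ^ (2 * g - 1) / qq F ^ (2 * d)

/-- **X2c** (uses DH B0, B1, CP, G3) the number of pairs `(R, S)` of degree `< g` with `Wr ≠ 0` and `deg Wr - 3 deg cpart Wr ≤ s₁` is at most `(s₁ + 1) q^{(4g + s₁ + 4)/3}`.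
Proof: such a pair lies in `KG g f₀ × KG g f₀` with `f₀ ∈ CF s`, `s = deg Wr - 3 deg cpart Wr ≤ s₁` (`Wr = c³ f₀` up to a constant, `(Wr R)'' = (Wr S)'' = 0`, see W3); G3: `#KG² = q^{2 (NN (g+s) - s)}`, `#CF s ≤ q^s`, and
`s + 2 NN (g+s) - 2 s ≤ (4g + s + 4)/3` (`3 NN M ≤ 2 M + 2`). -/
def S_X2c : Prop :=
  ∀ g s₁ : ℕ, (((PG F g).filter (fun p => Wr p.1 p.2 ≠ 0 ∧
    (Wr p.1 p.2).natDegree ≤ 3 * (cpart (Wr p.1 p.2)).natDegree + s₁)).card : ℝ) ≤ ((s₁ : ℝ) + 1) * qq F ^ ((4 * g + s₁ + 4) / 3)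

/-- **X3** (uses DH B0, B1, G0, CP, PP X1, X2a, X2b, X2c) THE LOWER BOUND: for every `ε > 0` and large `g`: `(1 - 7/q - ε) q^{2g+1} ≤ II g`.
Proof: `II g ≥ q² #{p ∈ MP g : Wr cube-free}` (X1; each such triple `(f, R, S)` is a pair of nonzero solutions with `Wr ≠ 0`, and `I(f)` counts these by G0).  If `Wr` is not cube-free some monic irreducible `P` has `P³ ∣ Wr`.
Those with `3 deg P + 2 ≤ g`: by X2b at most `∑_{d ≥ 1} q^d · 2 q^{2g-1-2d} ≤ (3/q) q^{2g-1}`.  Those with `3 deg P + 2 > g`: `P ∣ cpart Wr`, so `deg Wr - 3 deg cpart ≤ 2g - 4 - (g - 1) ≤ g`: X2c with `s₁ = g`, at most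
`(g+1) q^{(5g+4)/3} ≤ ε q^{2g-1}` for large `g`.  `(q-1)(q-3) ≥ q² (1 - 4/q)`. -/
def S_X3 : Prop :=
  ∀ ε : ℝ, 0 < ε → ∃ g₀ : ℕ, ∀ g ≥ g₀, (1 - 7 / qq F - ε) * qq F ^ (2 * g + 1) ≤ II F g

/-! ## The squarefree `f` -/

/-- **Y1** (uses DH B0, B1, F2, F4, PP W8, SM2) for every `ε > 0` and large `g`: `∑_{f ∈ MON (2g+1), f not squarefree} (#sol f)² ≤ (30000000/q + ε) q^{2g+1}`.
Proof: `S(g') = ∑_{f ∈ MON (2g'+1)} (#sol f)²`, `(#sol)² = (#solz + 1)² = ((#solz)² - 2 #solz) + 4 #solz + 1`.  By W8 (with `ε = 1`) and F4 (`∑ #sol ≤ 3 q^n`) there is `g₁` with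
`S(g') ≤ 2000000 q^{2g'+1}` for `g' ≥ g₁`; and `S(g') ≤ C q^{2g'+1}` for all `g'` with some `C` depending on `F` (SM2 and F4).  A monic `f` which is not squarefree is `P² f₁`, `P` monic irreducible of degree `d`, `1 ≤ d ≤ g`, `f₁ ∈ MON (2(g-d)+1)`, and
`#sol f ≤ 3 #sol f₁` (F2): the sum is at most `∑_{d=1}^g q^d 9 S(g-d) ≤ 9 · 2000000 q^{2g+1} ∑_{d ≥ 1} q^{-d} + 9 C q^{2g+1} ∑_{d > g - g₁} q^{-d}`, and `∑_{d ≥ 1} q^{-d} ≤ 3/(2q)`; the last term tends to `0` relative to `q^{2g+1}`. -/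
def S_Y1 : Prop :=
  ∀ ε : ℝ, 0 < ε → ∃ g₀ : ℕ, ∀ g ≥ g₀,
    ∑ f ∈ (MON F (2 * g + 1)).filter (fun f => ¬ Squarefree f), ((sol f).card : ℝ) ^ 2 ≤ (30000000 / qq F + ε) * qq F ^ (2 * g + 1)

/-- **Z1** (uses DH B0, B1, A9, F5, F9, PP W8, X3, Y1) THE SECOND MOMENT: for every `ε > 0` and large `g`
`|∑_{f ∈ SQF (2g+1)} (cl3 f)² - 6 #SQF| ≤ (1000000000/q + ε) #SQF`.
Proof: `cl3 f = #sol f = #solz f + 1` (A9), `(cl3 f)² = I(f) + 4 #solz f + 1`.  `∑_{SQF} #solz f = #SQF + o(q^n)` (F9, `(g+1)³/q^{g/4} → 0`), `#SQF = (1 - 1/q) q^n` (F5), and `∑_{SQF} I(f)` lies between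
`II g - ∑_{not squarefree} (#sol f)²` and `II g` (`0 ≤ I(f) ≤ (#sol f)²`: `#solz f` is `0` or `≥ 2`, or `I(f)` is a number of pairs), W8, X3, Y1; and `q^n = #SQF / (1 - 1/q)`, `1 ≤ 1/(1-1/q) ≤ 1 + 3/(2q) ≤ 3/2`. -/
def S_Z1 : Prop :=
  ∀ ε : ℝ, 0 < ε → ∃ g₀ : ℕ, ∀ g ≥ g₀,
    |∑ f ∈ SQF F (2 * g + 1), (cl3 f : ℝ) ^ 2 - 6 * ((SQF F (2 * g + 1)).card : ℝ)| ≤ (1000000000 / qq F + ε) * ((SQF F (2 * g + 1)).card : ℝ)

/-- **Z2** (uses DH C2, B0, A9, F9, F5, PP Z1) for every `ε > 0` and large `g` the number of `f ∈ SQF (2g+1)` with `cl3 f = 1` is at most `(9/16 + 1000000000/q + ε) #SQF`.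
Proof: `cl3 f` is a power of 3 (C2), so `(cl3 f - 3)(cl3 f - 9) ≥ 0`, and it is `16` if `cl3 f = 1`; so `16 #{cl3 = 1} ≤ ∑ (cl3² - 12 cl3 + 27) ≤ (6 + 10⁹/q + ε - 24 + ε + 27) #SQF` (Z1; `∑ cl3 = 2 #SQF + o(#SQF)` by F9, A9, F5). -/
def S_Z2 : Prop :=
  ∀ ε : ℝ, 0 < ε → ∃ g₀ : ℕ, ∀ g ≥ g₀,
    (((SQF F (2 * g + 1)).filter (fun f => cl3 f = 1)).card : ℝ) ≤ (9 / 16 + 1000000000 / qq F + ε) * ((SQF F (2 * g + 1)).card : ℝ)

end PP
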