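import Pool.Agent.H461.PP.Stm

/-!
# T9: the sum of `cnt` over the kernel
-/

set_option linter.unusedSectionVars false

open Polynomial
open scoped Classical

noncomputable section

namespace PP

open DH

namespace XT9

variable {F : Type} [Field F] [Fintype F] [CharP F 3]

theorem qq_one_le : 1 ≤ qq F := by
  unfold qq
  exact_mod_cast Fintype.card_pos

/-- cubes are constants for the derivative -/
theorem dd_cube (hB1 : DH.S_B1 F) (c u : F[X]) :
    derivative (derivative (c ^ 3 * u)) = c ^ 3 * derivative (derivative u) := by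
  have h : derivative (c ^ 3) = 0 := (hB1.1 (c ^ 3)).2 ⟨c, rfl⟩
  rw [derivative_mul, h, zero_mul, zero_add, derivative_mul, h, zero_mul, zero_add]

/-- the elements of degree `d` with cube part of degree `k` -/
def FB (g : ℕ) (f₀ : F[X]) (d k : ℕ) : Finset F[X] :=
  ((KG F g f₀).filter (fun v => v ≠ 0)).filter
    (fun v => (v.natDegree, (cpart v).natDegree) = (d, k))

theorem cof (hCP : DH.S_CP F) {v : F[X]} (hv : v ≠ 0) :
    (cpart v).Monic ∧ (cpart v) ^ 3 * (v / (cpart v) ^ 3) = v ∧ v / (cpart v) ^ 3 ≠ 0 ∧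
      3 * (cpart v).natDegree + (v / (cpart v) ^ 3).natDegree = v.natDegree := by
  obtain ⟨hm, hd, -⟩ := hCP.1 v hv
  have h0 : (cpart v) ^ 3 ≠ 0 := pow_ne_zero _ hm.ne_zero
  have h1 : (cpart v) ^ 3 * (v / (cpart v) ^ 3) = v := EuclideanDomain.mul_div_cancel' h0 hd
  have h2 : v / (cpart v) ^ 3 ≠ 0 := by
    intro h
    rw [h, mul_zero] at h1
    exact hv h1.symm
  refine ⟨hm, h1, h2, ?_⟩
  have h3 := natDegree_mul h0 h2
  rw [h1, natDegree_pow] at h3
  exact h3.symm

theorem card_FB (hB0 : DH.S_B0 F) (hB1 : DH.S_B1 F) (hCP : DH.S_CP F) (hT7 : S_T7 F) (g : ℕ)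
    (f₀ : F[X]) (hf : f₀ ≠ 0) (d k : ℕ) :
    (FB g f₀ d k).card ≤ Fintype.card F ^ k * Fintype.card F ^ (2 * ((d - 3 * k + 1 + 2) / 3)) := by
  have h1 : (FB g f₀ d k).card ≤ ((MON F k) ×ˢ (KG F (d - 3 * k + 1) f₀)).card := by
    apply Finset.card_le_card_of_injOn (fun v => (cpart v, v / (cpart v) ^ 3))
    · intro v hv
      have hv' : v ∈ FB g f₀ d k := hv
      unfold FB at hv'
      rw [Finset.mem_filter, Finset.mem_filter] at hv'
      obtain ⟨⟨hvK, hv0⟩, hdk⟩ := hv'
      obtain ⟨hm, hc, hw0, hdeg⟩ := cof hCP hv0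
      have hd : v.natDegree = d := congrArg Prod.fst hdk
      have hk : (cpart v).natDegree = k := congrArg Prod.snd hdk
      rw [hd, hk] at hdeg
      have hvd : derivative (derivative (f₀ * v)) = 0 := by
        unfold KG at hvK
        exact (Finset.mem_filter.1 hvK).2
      have hgoal : (cpart v, v / (cpart v) ^ 3) ∈ (MON F k) ×ˢ (KG F (d - 3 * k + 1) f₀) := by
        rw [Finset.mem_product]
        refine ⟨(hB0.2.1 k _).2 ⟨hm, hk⟩, ?_⟩
        unfold KG
        rw [Finset.mem_filter]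
        constructor
        · rw [hB0.1]
          rw [degree_eq_natDegree hw0]
          have h3 : (v / (cpart v) ^ 3).natDegree < d - 3 * k + 1 := by omega
          exact_mod_cast h3
        · have h4 : f₀ * v = (cpart v) ^ 3 * (f₀ * (v / (cpart v) ^ 3)) := by
            rw [mul_left_comm, hc]
          rw [h4, dd_cube hB1] at hvd
          rcases mul_eq_zero.1 hvd with h5 | h5
          · exact absurd h5 (pow_ne_zero _ hm.ne_zero)
          · exact h5
      exact hgoal
    · intro v hv w hw hvw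
      have hv' : v ∈ FB g f₀ d k := hv
      have hw' : w ∈ FB g f₀ d k := hw
      unfold FB at hv' hw'
      rw [Finset.mem_filter, Finset.mem_filter] at hv' hw'
      have h1 := (cof hCP hv'.1.2).2.1
      have h2 := (cof hCP hw'.1.2).2.1
      have e1 : cpart v = cpart w := congrArg Prod.fst hvw
      have e2 : v / (cpart v) ^ 3 = w / (cpart w) ^ 3 := congrArg Prod.snd hvw
      rw [← h1, ← h2, e2, e1]
  refine h1.trans ?_
  rw [Finset.card_product, hB0.2.2.2.2.1]
  exact Nat.mul_le_mul_left _ (hT7.2 _ _ hf)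

theorem cnt_le (hB5 : DH.S_B5 F) {g : ℕ} {v : F[X]} (hv : v ≠ 0) (hd : v.natDegree < g) :
    (cnt (2 * g + 1) 1 v : ℝ) ≤ qq F ^ (NN (2 * g + 1 + v.natDegree)) *
      qq F ^ (cpart v).natDegree / qq F ^ v.natDegree := by
  have h := hB5 (2 * g + 1) v.natDegree 1 v monic_one squarefree_one hv rfl (by omega)
    (by rw [natDegree_one]; omega)
  rw [h]
  have hq : (0 : ℝ) < qq F := lt_of_lt_of_le one_pos qq_one_le
  split_ifs
  · positivity
  · rw [one_pow, one_mul, natDegree_one, mul_zero, zero_add]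

theorem expo {g d k : ℕ} (hd : d < g) (hk : 3 * k ≤ d) :
    NN (2 * g + 1 + d) + k + (k + 2 * ((d - 3 * k + 1 + 2) / 3)) ≤ (5 * g + 9) / 3 + d := by
  unfold NN
  omega

theorem fib (hB0 : DH.S_B0 F) (hB1 : DH.S_B1 F) (hB5 : DH.S_B5 F) (hCP : DH.S_CP F)
    (hT7 : S_T7 F) (g : ℕ) (f₀ : F[X]) (hf : f₀ ≠ 0) (d k : ℕ) :
    ∑ v ∈ FB g f₀ d k, (cnt (2 * g + 1) 1 v : ℝ) ≤ qq F ^ ((5 * g + 9) / 3) := by
  have hq : (0 : ℝ) < qq F := lt_of_lt_of_le one_pos qq_one_le
  have hmem : ∀ v ∈ FB g f₀ d k, v ≠ 0 ∧ v.natDegree = d ∧ (cpart v).natDegree = k ∧ d < g := by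
    intro v hv
    unfold FB at hv
    rw [Finset.mem_filter, Finset.mem_filter] at hv
    obtain ⟨⟨hvK, hv0⟩, hdk⟩ := hv
    have hd : v.natDegree = d := congrArg Prod.fst hdk
    have hk : (cpart v).natDegree = k := congrArg Prod.snd hdk
    refine ⟨hv0, hd, hk, ?_⟩
    unfold KG at hvK
    have h2 := (hB0.1 g v).1 (Finset.mem_filter.1 hvK).1
    rw [degree_eq_natDegree hv0, hd] at h2
    exact_mod_cast h2
  by_cases hne : (FB g f₀ d k).Nonempty
  · obtain ⟨v0, hv0⟩ := hne
    obtain ⟨h1, h2, h3, h4⟩ := hmem v0 hv0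
    have h5 := (cof hCP h1).2.2.2
    have hk3 : 3 * k ≤ d := by omega
    have hle : ∀ v ∈ FB g f₀ d k, (cnt (2 * g + 1) 1 v : ℝ) ≤
        qq F ^ (NN (2 * g + 1 + d)) * qq F ^ k / qq F ^ d := by
      intro v hv
      obtain ⟨k1, k2, k3, k4⟩ := hmem v hv
      have k5 := cnt_le hB5 (g := g) k1 (by omega)
      rw [k2, k3] at k5
      exact k5
    refine (Finset.sum_le_card_nsmul _ _ _ hle).trans ?_
    rw [nsmul_eq_mul]
    have h6 : ((FB g f₀ d k).card : ℝ) ≤ qq F ^ (k + 2 * ((d - 3 * k + 1 + 2) / 3)) := by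
      have h7 := card_FB hB0 hB1 hCP hT7 g f₀ hf d k
      rw [← pow_add] at h7
      unfold qq
      exact_mod_cast h7
    have h8 : (0 : ℝ) ≤ qq F ^ (NN (2 * g + 1 + d)) * qq F ^ k / qq F ^ d := by positivity
    refine (mul_le_mul_of_nonneg_right h6 h8).trans ?_
    rw [mul_div_assoc', div_le_iff₀ (by positivity), ← pow_add, ← pow_add, ← pow_add]
    apply pow_le_pow_right₀ qq_one_le
    have := expo (g := g) h4 hk3
    omega
  · rw [Finset.not_nonempty_iff_eq_empty] at hne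
    rw [hne, Finset.sum_empty]
    positivity

end XT9

/-- **T9** -/
theorem p_T9 (F : Type) [Field F] [Fintype F] [CharP F 3] (hB0 : DH.S_B0 F) (hB1 : DH.S_B1 F)
    (hB5 : DH.S_B5 F) (hCP : DH.S_CP F) (hT7 : S_T7 F) : S_T9 F := by
  intro g f₀ hf
  have hmap : ∀ v ∈ (KG F g f₀).filter (fun v => v ≠ 0),
      (v.natDegree, (cpart v).natDegree) ∈ Finset.range (g + 1) ×ˢ Finset.range (g + 1) := by
    intro v hv
    rw [Finset.mem_filter] at hv
    obtain ⟨hvK, hv0⟩ := hv
    unfold KG at hvK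
    have h2 := (hB0.1 g v).1 (Finset.mem_filter.1 hvK).1
    rw [degree_eq_natDegree hv0] at h2
    have h3 : v.natDegree < g := by exact_mod_cast h2
    have h4 := (XT9.cof hCP hv0).2.2.2
    rw [Finset.mem_product, Finset.mem_range, Finset.mem_range]
    constructor
    · exact Nat.lt_succ_of_lt h3
    · show (cpart v).natDegree < g + 1
      omega
  rw [← Finset.sum_fiberwise_of_maps_to hmap]
  have hfib : ∀ y ∈ Finset.range (g + 1) ×ˢ Finset.range (g + 1),
      ∑ v ∈ ((KG F g f₀).filter (fun v => v ≠ 0)).filter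
        (fun v => (v.natDegree, (cpart v).natDegree) = y), (cnt (2 * g + 1) 1 v : ℝ) ≤
          qq F ^ ((5 * g + 9) / 3) := by
    rintro ⟨d, k⟩ -
    exact XT9.fib hB0 hB1 hB5 hCP hT7 g f₀ hf d k
  refine (Finset.sum_le_card_nsmul _ _ _ hfib).trans ?_
  rw [Finset.card_product, Finset.card_range, nsmul_eq_mul]
  push_cast
  apply le_of_eq
  ring

end PP
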