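import Pool.Agent.H461.PP.Stm3

open Polynomial
open scoped Classical

noncomputable section

namespace PP

open DH

namespace XW6b

variable {F : Type} [Field F]

/-- The second coefficient of a product. -/
theorem second (A B : F[X]) (a b : ℕ) (hA : A.natDegree ≤ a + 1) (hB : B.natDegree ≤ b + 1) :
    (A * B).coeff (a + b + 1) = A.coeff (a + 1) * B.coeff b + A.coeff a * B.coeff (b + 1) := by
  set A₁ : F[X] := A - C (A.coeff (a + 1)) * X ^ (a + 1) with hA₁
  have h1 : A₁.natDegree ≤ a := by
    rw [natDegree_le_iff_coeff_eq_zero]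
    intro N hN
    rw [hA₁, coeff_sub, coeff_C_mul, coeff_X_pow]
    rcases Nat.eq_or_lt_of_le (Nat.succ_le_of_lt hN) with h | h
    · have h' : N = a + 1 := by omega
      subst h'
      simp
    · have h' : N ≠ a + 1 := by omega
      rw [if_neg h', mul_zero, sub_zero]
      exact coeff_eq_zero_of_natDegree_lt (by omega)
  have h2 : A₁.coeff a = A.coeff a := by
    rw [hA₁, coeff_sub, coeff_C_mul, coeff_X_pow, if_neg (by omega), mul_zero, sub_zero]
  have h3 : A * B = C (A.coeff (a + 1)) * (X ^ (a + 1) * B) + A₁ * B := by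
    rw [hA₁]; ring
  rw [h3, coeff_add, coeff_C_mul, coeff_X_pow_mul', if_pos (by omega)]
  have h4 : a + b + 1 - (a + 1) = b := by omega
  have h5 : a + b + 1 = a + (b + 1) := by omega
  rw [h4, h5, coeff_mul_add_eq_of_natDegree_le h1 hB, h2]

/-- The Wronskian of two polynomials of degree `≤ n + 2`. -/
theorem wr_coeff (n : ℕ) (R S : F[X]) (hR : R.natDegree ≤ n + 2) (hS : S.natDegree ≤ n + 2) :
    (Wr R S).natDegree ≤ 2 * n + 2 ∧
    (Wr R S).coeff (2 * n + 2) = R.coeff (n + 2) * S.coeff (n + 1) - R.coeff (n + 1) * S.coeff (n + 2) := by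
  have hR' : (derivative R).natDegree ≤ n + 1 := (natDegree_derivative_le R).trans (by omega)
  have hS' : (derivative S).natDegree ≤ n + 1 := (natDegree_derivative_le S).trans (by omega)
  constructor
  · have h1 : (Wr R S).natDegree ≤ 2 * n + 3 := by
      refine (natDegree_sub_le _ _).trans (max_le ?_ ?_)
      · exact natDegree_mul_le.trans (by omega)
      · exact natDegree_mul_le.trans (by omega)
    have h2 : (Wr R S).coeff (2 * n + 3) = 0 := by
      have e1 : 2 * n + 3 = (n + 1) + (n + 2) := by omega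
      have e2 : 2 * n + 3 = (n + 2) + (n + 1) := by omega
      rw [Wr, coeff_sub]
      conv_lhs => rw [show (derivative R * S).coeff (2 * n + 3) = (derivative R * S).coeff ((n + 1) + (n + 2)) by rw [e1]]
      rw [show (R * derivative S).coeff (2 * n + 3) = (R * derivative S).coeff ((n + 2) + (n + 1)) by rw [e2]]
      rw [coeff_mul_add_eq_of_natDegree_le hR' hS, coeff_mul_add_eq_of_natDegree_le hR hS',
        coeff_derivative, coeff_derivative]
      push_cast
      ring
    rw [natDegree_le_iff_coeff_eq_zero]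
    intro N hN
    rcases Nat.eq_or_lt_of_le (Nat.succ_le_of_lt hN) with h | h
    · have h' : N = 2 * n + 3 := by omega
      rw [h', h2]
    · exact coeff_eq_zero_of_natDegree_lt (by omega)
  · have e1 : 2 * n + 2 = n + (n + 1) + 1 := by omega
    have e2 : 2 * n + 2 = (n + 1) + n + 1 := by omega
    have h1 : (derivative R * S).coeff (2 * n + 2) =
        (derivative R).coeff (n + 1) * S.coeff (n + 1) + (derivative R).coeff n * S.coeff (n + 2) := by
      rw [e1]; exact second _ _ n (n + 1) hR' hS
    have h2 : (R * derivative S).coeff (2 * n + 2) =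
        R.coeff (n + 2) * (derivative S).coeff n + R.coeff (n + 1) * (derivative S).coeff (n + 1) := by
      rw [e2]; exact second _ _ (n + 1) n hR hS'
    rw [Wr, coeff_sub, h1, h2]
    simp only [coeff_derivative]
    push_cast
    ring

/-- `Mo` of two polynomials of degree `m` such that the four lines have degree `m`. -/
theorem mo_coeff (m : ℕ) (hm : 0 < m) (R S : F[X]) (hR : R.natDegree = m) (hS : S.natDegree = m)
    (h1 : (S - R).natDegree = m) (h2 : (S + R).natDegree = m) :
    (Mo R S).natDegree = 4 * m ∧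
    (Mo R S).leadingCoeff = R.coeff m * S.coeff m ^ 3 - R.coeff m ^ 3 * S.coeff m := by
  have e : Mo R S = R * S * (S - R) * (S + R) := by rw [Mo]; ring
  have n1 : R ≠ 0 := fun h => by simp [h] at hR; omega
  have n2 : S ≠ 0 := fun h => by simp [h] at hS; omega
  have n3 : S - R ≠ 0 := fun h => by simp [h] at h1; omega
  have n4 : S + R ≠ 0 := fun h => by simp [h] at h2; omega
  constructor
  · rw [e, natDegree_mul (mul_ne_zero (mul_ne_zero n1 n2) n3) n4,
      natDegree_mul (mul_ne_zero n1 n2) n3, natDegree_mul n1 n2]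
    omega
  · rw [e, leadingCoeff_mul, leadingCoeff_mul, leadingCoeff_mul, leadingCoeff, leadingCoeff,
      leadingCoeff, leadingCoeff, hR, hS, h1, h2, coeff_sub, coeff_add]
    ring

variable [Fintype F]

/-- Facts about the pairs with `mn = g - 1`. -/
theorem facts (hB0 : DH.S_B0 F) (n K : ℕ) (R S : F[X]) (hR : R ∈ POL F (n + 3)) (hS : S ∈ POL F (n + 3))
    (hA : AD (n + 3) K R S) (hm : mn R S = n + 2) :
    (Wr R S).natDegree = 2 * n + 2 ∧ R.natDegree = n + 2 ∧ S.natDegree = n + 2 ∧
    R.coeff (n + 2) * S.coeff (n + 1) - R.coeff (n + 1) * S.coeff (n + 2) =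
      R.coeff (n + 2) * S.coeff (n + 2) ^ 3 - R.coeff (n + 2) ^ 3 * S.coeff (n + 2) := by
  have dR : R.degree < ((n + 3 : ℕ) : WithBot ℕ) := (hB0.1 _ _).1 hR
  have dS : S.degree < ((n + 3 : ℕ) : WithBot ℕ) := (hB0.1 _ _).1 hS
  have key : ∀ T : F[X], T.degree < ((n + 3 : ℕ) : WithBot ℕ) → T.natDegree ≤ n + 2 := by
    intro T hT
    rw [natDegree_le_iff_coeff_eq_zero]
    intro N hN
    exact coeff_eq_zero_of_degree_lt (hT.trans_le (by exact_mod_cast hN))
  have kR := key R dR
  have kS := key S dS
  have k1 := key (S - R) ((degree_sub_le _ _).trans_lt (max_lt dS dR))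
  have k2 := key (S + R) ((degree_add_le _ _).trans_lt (max_lt dS dR))
  have q1 : R.natDegree = n + 2 := by
    have : mn R S ≤ R.natDegree := (min_le_left _ _).trans (min_le_left _ _)
    omega
  have q2 : S.natDegree = n + 2 := by
    have : mn R S ≤ S.natDegree := (min_le_left _ _).trans (min_le_right _ _)
    omega
  have q3 : (S - R).natDegree = n + 2 := by
    have : mn R S ≤ (S - R).natDegree := (min_le_right _ _).trans (min_le_left _ _)
    omega
  have q4 : (S + R).natDegree = n + 2 := by
    have : mn R S ≤ (S + R).natDegree := (min_le_right _ _).trans (min_le_right _ _)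
    omega
  obtain ⟨w1, w2⟩ := wr_coeff n R S kR kS
  obtain ⟨m1, m2⟩ := mo_coeff (n + 2) (by omega) R S q1 q2 q3 q4
  obtain ⟨_, _, _, _, _, _, a7, a8⟩ := hA
  have w3 : (Wr R S).natDegree = 2 * n + 2 := by
    rw [m1] at a7
    omega
  refine ⟨w3, q1, q2, ?_⟩
  have a9 := a8 (by omega)
  rw [m2, leadingCoeff, w3, w2] at a9
  exact a9

/-- Remove the second coefficient. -/
def phi (n : ℕ) (S : F[X]) : F[X] :=
  S - C (S.coeff (n + 2)) * X ^ (n + 2) - C (S.coeff (n + 1)) * X ^ (n + 1) + C (S.coeff (n + 2)) * X ^ (n + 1)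

omit [Fintype F] in
theorem phi_coeff (n : ℕ) (S : F[X]) (j : ℕ) :
    (phi n S).coeff j = if j = n + 2 then 0 else if j = n + 1 then S.coeff (n + 2) else S.coeff j := by
  rw [phi, coeff_add, coeff_sub, coeff_sub, coeff_C_mul, coeff_C_mul, coeff_C_mul, coeff_X_pow, coeff_X_pow]
  split_ifs with h1 h2 h2
  · omega
  · subst h1; simp
  · subst h2; simp
  · simp

end XW6b

open XW6b in
theorem p_W6b (F : Type) [Field F] [Fintype F] [CharP F 3] (hB0 : DH.S_B0 F) : S_W6b F := by
  intro g K hg
  obtain ⟨n, rfl⟩ : ∃ n, g = n + 3 := ⟨g - 3, by omega⟩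
  have hsub : n + 3 - 1 = n + 2 := by omega
  refine ⟨?_, ?_⟩
  · intro p hp hA hm
    rw [PG, Finset.mem_product] at hp
    have := (facts hB0 n K p.1 p.2 hp.1 hp.2 hA (by omega)).1
    omega
  · have hcard : Fintype.card F ^ (2 * (n + 3) - 1) = (POL F (n + 3) ×ˢ POL F (n + 2)).card := by
      rw [Finset.card_product, hB0.2.2.2.1, hB0.2.2.2.1, ← pow_add]
      congr 1
      omega
    rw [hcard]
    refine Finset.card_le_card_of_injOn (fun p => (p.1, phi n p.2)) ?_ ?_
    · intro p hp
      rw [Finset.mem_coe, Finset.mem_filter, PG, Finset.mem_product] at hp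
      rw [Finset.mem_coe, Finset.mem_product]
      refine ⟨hp.1.1, ?_⟩
      obtain ⟨_, _, hS, _⟩ := facts hB0 n K p.1 p.2 hp.1.1 hp.1.2 hp.2.1 (by have := hp.2.2; omega)
      show phi n p.2 ∈ POL F (n + 2)
      rw [hB0.1, degree_lt_iff_coeff_zero]
      intro j hj
      rw [phi_coeff]
      split_ifs with h1 h2
      · rfl
      · omega
      · exact coeff_eq_zero_of_natDegree_lt (by omega)
    · intro p hp p' hp' h
      rw [Finset.mem_coe, Finset.mem_filter, PG, Finset.mem_product] at hp hp'
      obtain ⟨_, hR, hS, hE⟩ := facts hB0 n K p.1 p.2 hp.1.1 hp.1.2 hp.2.1 (by have := hp.2.2; omega)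
      obtain ⟨_, hR', hS', hE'⟩ := facts hB0 n K p'.1 p'.2 hp'.1.1 hp'.1.2 hp'.2.1 (by have := hp'.2.2; omega)
      have h1 : p.1 = p'.1 := (Prod.ext_iff.1 h).1
      have h2 : phi n p.2 = phi n p'.2 := (Prod.ext_iff.1 h).2
      have hb : p.2.coeff (n + 2) = p'.2.coeff (n + 2) := by
        have h3 : (phi n p.2).coeff (n + 1) = (phi n p'.2).coeff (n + 1) := by rw [h2]
        rw [phi_coeff, phi_coeff] at h3
        simpa using h3
      have ha : p'.1.coeff (n + 2) ≠ 0 := by
        have h4 : p'.1.leadingCoeff ≠ 0 := by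
          rw [leadingCoeff_ne_zero]
          intro h0
          rw [h0] at hR'
          simp at hR'
        rwa [leadingCoeff, hR'] at h4
      have hs : p.2.coeff (n + 1) = p'.2.coeff (n + 1) := by
        rw [h1, hb] at hE
        have h5 : p'.1.coeff (n + 2) * p.2.coeff (n + 1) = p'.1.coeff (n + 2) * p'.2.coeff (n + 1) := by
          linear_combination hE - hE'
        exact mul_left_cancel₀ ha h5
      refine Prod.ext h1 ?_
      ext j
      by_cases j1 : j = n + 2
      · rw [j1, hb]
      · by_cases j2 : j = n + 1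
        · rw [j2, hs]
        · have h3 : (phi n p.2).coeff j = (phi n p'.2).coeff j := by rw [h2]
          rw [phi_coeff, phi_coeff, if_neg j1, if_neg j1, if_neg j2, if_neg j2] at h3
          exact h3

end PP
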