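import Pool.Agent.H461.PP.Stm3

/-!
# Y1: the polynomials `f` which are not squarefree
-/

open Polynomial
open scoped Classical

noncomputable section

namespace PP

open DH

variable (F : Type) [Field F] [Fintype F] [CharP F 3]

namespace XY1

/-- sum of the squares of the numbers of solutions -/
def SS (g : ℕ) : ℝ := ∑ f ∈ MON F (2 * g + 1), ((sol f).card : ℝ) ^ 2

theorem q3 : (3 : ℝ) ≤ qq F := by
  unfold qq
  have h1 : Nat.Prime 3 := Nat.prime_three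
  obtain ⟨n, hp, hn⟩ := FiniteField.card F 3
  rw [hn]
  have h2 : 3 ^ 1 ≤ 3 ^ (n : ℕ) := Nat.pow_le_pow_right (by norm_num) n.pos
  rw [pow_one] at h2
  exact_mod_cast h2

theorem SS_nonneg (g : ℕ) : 0 ≤ SS F g := Finset.sum_nonneg fun f _ => sq_nonneg _

/-- the bound for large `g` -/
theorem large (hB0 : DH.S_B0 F) (hB1 : DH.S_B1 F) (hF4 : DH.S_F4 F) (hW8 : S_W8 F) :
    ∃ g₁ : ℕ, ∀ g ≥ g₁, SS F g ≤ 2000000 * qq F ^ (2 * g + 1) := by
  obtain ⟨g₁, h1⟩ := hW8 1 one_pos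
  refine ⟨g₁, fun g hg => ?_⟩
  have h2 := h1 g hg
  have hq := q3 F
  have hq0 : 0 < qq F := by linarith
  have hQ : 0 < qq F ^ (2 * g + 1) := pow_pos hq0 _
  have h3 : SS F g = II F g + ∑ f ∈ MON F (2 * g + 1), (4 * ((sol f).card : ℝ) - 3) := by
    unfold SS II
    rw [← Finset.sum_add_distrib]
    refine Finset.sum_congr rfl fun f _ => ?_
    have h4 : ((sol f).card : ℝ) = ((solz f).card : ℝ) + 1 := by
      exact_mod_cast hB1.2.2.2.2.2.2.2.1 f
    rw [h4]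
    ring
  have h5 : ∑ f ∈ MON F (2 * g + 1), (4 * ((sol f).card : ℝ) - 3) ≤ 12 * qq F ^ (2 * g + 1) := by
    have h6 : (∑ f ∈ MON F (2 * g + 1), ((sol f).card : ℝ)) ≤ 3 * qq F ^ (2 * g + 1) := by
      unfold qq
      exact_mod_cast hF4 g
    have h7 : ∑ f ∈ MON F (2 * g + 1), (4 * ((sol f).card : ℝ) - 3) ≤
        ∑ f ∈ MON F (2 * g + 1), 4 * ((sol f).card : ℝ) :=
      Finset.sum_le_sum fun f _ => by linarith
    rw [← Finset.mul_sum] at h7
    linarith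
  have h8 : (1 + 4000000 / qq F + 1) ≤ 1400000 := by
    have h9 : 4000000 / qq F ≤ 4000000 / 3 :=
      div_le_div_of_nonneg_left (by norm_num) (by norm_num) hq
    linarith
  have h10 := mul_le_mul_of_nonneg_right h8 hQ.le
  rw [h3]
  linarith

/-- the bound for all `g` -/
theorem all (hB0 : DH.S_B0 F) (hB1 : DH.S_B1 F) (hSM2 : S_SM2 F) :
    ∃ C : ℝ, 0 < C ∧ ∀ g : ℕ, SS F g ≤ C * qq F ^ (2 * g + 1) := by
  obtain ⟨C, hC, h1⟩ := hSM2
  refine ⟨2 * C + 2, by linarith, fun g => ?_⟩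
  have h2 := h1 g
  have h3 : SS F g ≤ ∑ f ∈ MON F (2 * g + 1), (2 * ((solz f).card : ℝ) ^ 2 + 2) := by
    unfold SS
    refine Finset.sum_le_sum fun f _ => ?_
    have h4 : ((sol f).card : ℝ) = ((solz f).card : ℝ) + 1 := by
      exact_mod_cast hB1.2.2.2.2.2.2.2.1 f
    rw [h4]
    nlinarith [sq_nonneg (((solz f).card : ℝ) - 1)]
  have h5 : ((MON F (2 * g + 1)).card : ℝ) = qq F ^ (2 * g + 1) := by
    rw [hB0.2.2.2.2.1]
    unfold qq
    push_cast
    rfl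
  rw [Finset.sum_add_distrib, ← Finset.mul_sum, Finset.sum_const, nsmul_eq_mul, h5] at h3
  linarith

/-- a polynomial which is not squarefree -/
theorem split (hB0 : DH.S_B0 F) {g : ℕ} {f : F[X]} (hf : f ∈ MON F (2 * g + 1))
    (hs : ¬ Squarefree f) : ∃ (d : ℕ) (P f₁ : F[X]), 1 ≤ d ∧ d ≤ g ∧ P ∈ MON F d ∧
      Irreducible P ∧ f₁ ∈ MON F (2 * (g - d) + 1) ∧ f = P ^ 2 * f₁ := by
  rw [hB0.2.1] at hf
  obtain ⟨hm, hd⟩ := hf
  rw [squarefree_iff_irreducible_sq_not_dvd_of_ne_zero hm.ne_zero] at hs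
  push Not at hs
  obtain ⟨x, hx, hxf⟩ := hs
  have hx0 : x ≠ 0 := hx.ne_zero
  obtain ⟨P, hP⟩ : ∃ P : F[X], P = x * C (leadingCoeff x)⁻¹ := ⟨_, rfl⟩
  have hPm : P.Monic := by rw [hP]; exact monic_mul_leadingCoeff_inv hx0
  have hPi : Irreducible P := by rw [hP]; exact irreducible_mul_leadingCoeff_inv.2 hx
  have hlc : leadingCoeff x ≠ 0 := leadingCoeff_ne_zero.2 hx0
  have hPx : P ^ 2 ∣ x * x := by
    refine ⟨C (leadingCoeff x ^ 2), ?_⟩
    rw [hP]
    have e : C (leadingCoeff x)⁻¹ ^ 2 * C (leadingCoeff x ^ 2) = (1 : F[X]) := by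
      rw [← C_pow, ← C_mul, ← mul_pow, inv_mul_cancel₀ hlc, one_pow, C_1]
    calc x * x = x ^ 2 * 1 := by ring
      _ = x ^ 2 * (C (leadingCoeff x)⁻¹ ^ 2 * C (leadingCoeff x ^ 2)) := by rw [e]
      _ = _ := by ring
  obtain ⟨f₁, hf₁⟩ := hPx.trans hxf
  have hP2 : (P ^ 2).Monic := hPm.pow 2
  have hf₁m : f₁.Monic := by
    refine hP2.of_mul_monic_left ?_
    rw [← hf₁]
    exact hm
  have hdeg : 2 * g + 1 = 2 * P.natDegree + f₁.natDegree := by
    rw [← hd, hf₁, hP2.natDegree_mul hf₁m, hPm.natDegree_pow]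
  have hP1 : 0 < P.natDegree := hPi.natDegree_pos
  refine ⟨P.natDegree, P, f₁, hP1, by omega, ?_, hPi, ?_, hf₁⟩
  · rw [hB0.2.1]
    exact ⟨hPm, rfl⟩
  · rw [hB0.2.1]
    exact ⟨hf₁m, by omega⟩

/-- the sum over the polynomials which are not squarefree -/
theorem key (hB0 : DH.S_B0 F) (hF2 : DH.S_F2 F) (g : ℕ) :
    ∑ f ∈ (MON F (2 * g + 1)).filter (fun f => ¬ Squarefree f), ((sol f).card : ℝ) ^ 2 ≤
      ∑ d ∈ Finset.Icc 1 g, 9 * (qq F ^ d * SS F (g - d)) := by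
  have h1 : ∀ f : F[X], f ∈ (MON F (2 * g + 1)).filter (fun f => ¬ Squarefree f) →
      ∃ t : (_ : ℕ) × (F[X] × F[X]), t ∈ (Finset.Icc 1 g).sigma
        (fun d => (MON F d) ×ˢ (MON F (2 * (g - d) + 1))) ∧ f = t.2.1 ^ 2 * t.2.2 ∧
        ((sol f).card : ℝ) ^ 2 ≤ 9 * ((sol t.2.2).card : ℝ) ^ 2 := by
    intro f hf
    rw [Finset.mem_filter] at hf
    obtain ⟨d, P, f₁, hd1, hd2, hP, hPi, hf₁, he⟩ := split F hB0 hf.1 hf.2
    refine ⟨⟨d, (P, f₁)⟩, ?_, he, ?_⟩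
    · rw [Finset.mem_sigma, Finset.mem_Icc, Finset.mem_product]
      exact ⟨⟨hd1, hd2⟩, hP, hf₁⟩
    · have hne : f₁ ≠ 0 := ((hB0.2.1 _ _).1 hf₁).1.ne_zero
      have h2 := hF2 P f₁ hPi hne
      rw [← he] at h2
      have h3 : ((sol f).card : ℝ) ≤ 3 * ((sol f₁).card : ℝ) := by exact_mod_cast h2
      have h4 : ((sol f).card : ℝ) ^ 2 ≤ (3 * ((sol f₁).card : ℝ)) ^ 2 :=
        pow_le_pow_left₀ (Nat.cast_nonneg _) h3 2
      refine h4.trans_eq ?_
      show (3 * ((sol f₁).card : ℝ)) ^ 2 = 9 * ((sol f₁).card : ℝ) ^ 2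
      ring
  choose! ψ hψ1 hψ2 hψ3 using h1
  have h5 : ∑ f ∈ (MON F (2 * g + 1)).filter (fun f => ¬ Squarefree f), ((sol f).card : ℝ) ^ 2 ≤
      ∑ f ∈ (MON F (2 * g + 1)).filter (fun f => ¬ Squarefree f),
        9 * ((sol (ψ f).2.2).card : ℝ) ^ 2 := Finset.sum_le_sum fun f hf => hψ3 f hf
  have hinj : Set.InjOn ψ ((MON F (2 * g + 1)).filter (fun f => ¬ Squarefree f) : Finset F[X]) := by
    intro a ha b hb hab
    rw [hψ2 a ha, hψ2 b hb, hab]
  have h6 : ∑ f ∈ (MON F (2 * g + 1)).filter (fun f => ¬ Squarefree f),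
        9 * ((sol (ψ f).2.2).card : ℝ) ^ 2 =
      ∑ t ∈ ((MON F (2 * g + 1)).filter (fun f => ¬ Squarefree f)).image ψ,
        9 * ((sol t.2.2).card : ℝ) ^ 2 := by
    rw [Finset.sum_image hinj]
  have h7 : ∑ t ∈ ((MON F (2 * g + 1)).filter (fun f => ¬ Squarefree f)).image ψ,
        9 * ((sol t.2.2).card : ℝ) ^ 2 ≤ ∑ t ∈ (Finset.Icc 1 g).sigma
        (fun d => (MON F d) ×ˢ (MON F (2 * (g - d) + 1))), 9 * ((sol t.2.2).card : ℝ) ^ 2 := by
    refine Finset.sum_le_sum_of_subset_of_nonneg ?_ (fun t _ _ => by positivity)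
    intro t ht
    rw [Finset.mem_image] at ht
    obtain ⟨f, hf, rfl⟩ := ht
    exact hψ1 f hf
  have h8 : ∑ t ∈ (Finset.Icc 1 g).sigma
        (fun d => (MON F d) ×ˢ (MON F (2 * (g - d) + 1))), 9 * ((sol t.2.2).card : ℝ) ^ 2 =
      ∑ d ∈ Finset.Icc 1 g, 9 * (qq F ^ d * SS F (g - d)) := by
    rw [Finset.sum_sigma]
    refine Finset.sum_congr rfl fun d _ => ?_
    rw [Finset.sum_product]
    have h9 : ((MON F d).card : ℝ) = qq F ^ d := by
      rw [hB0.2.2.2.2.1]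
      unfold qq
      push_cast
      rfl
    simp only [Finset.sum_const, nsmul_eq_mul]
    rw [h9]
    unfold SS
    rw [← Finset.mul_sum]
    ring
  exact h5.trans (h6.le.trans (h7.trans h8.le))

/-- the geometric sum -/
theorem geo {q : ℝ} (hq : 3 ≤ q) (g : ℕ) : ∑ d ∈ Finset.Icc 1 g, (1 / q) ^ d ≤ 3 / (2 * q) := by
  have hq0 : 0 < q := by linarith
  have h1 : ∀ g : ℕ, ∑ d ∈ Finset.Icc 1 g, (1 / q) ^ d = (1 - (1 / q) ^ g) / (q - 1) := by
    intro g
    induction g with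
    | zero => simp
    | succ g ih =>
      have h2 : q - 1 ≠ 0 := by
        have h3 : 0 < q - 1 := by linarith
        exact h3.ne'
      have h4 : q * (1 / q) = 1 := mul_one_div_cancel hq0.ne'
      rw [Finset.sum_Icc_succ_top (by omega), ih, div_add' _ _ _ h2, div_left_inj' h2, pow_succ]
      linear_combination ((1 / q) ^ g) * h4
  rw [h1]
  have h2 : 0 < (1 / q) ^ g := by positivity
  rw [div_le_div_iff₀ (by linarith) (by linarith)]
  nlinarith

end XY1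

theorem p_Y1 (hB0 : DH.S_B0 F) (hB1 : DH.S_B1 F)
    (hF2 : DH.S_F2 F) (hF4 : DH.S_F4 F) (hW8 : S_W8 F) (hSM2 : S_SM2 F) : S_Y1 F := by
  intro ε hε
  obtain ⟨g₁, h1⟩ := XY1.large F hB0 hB1 hF4 hW8
  obtain ⟨C, hC, h2⟩ := XY1.all F hB0 hB1 hSM2
  have hq := XY1.q3 F
  have hq0 : 0 < qq F := by linarith
  have hr0 : 0 ≤ 1 / qq F := by positivity
  have hr1 : 1 / qq F < 1 := by
    rw [div_lt_one hq0]
    linarith
  -- the tail
  have h3 : Filter.Tendsto (fun m : ℕ => 9 * C * g₁ * (1 / qq F) ^ m) Filter.atTop (nhds 0) := by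
    have h4 := (tendsto_pow_atTop_nhds_zero_of_lt_one hr0 hr1).const_mul (9 * C * (g₁ : ℝ))
    rwa [mul_zero] at h4
  obtain ⟨m₀, hm₀⟩ := Filter.eventually_atTop.1 (h3.eventually_lt_const hε)
  refine ⟨g₁ + m₀, fun g hg => ?_⟩
  have hQ : 0 < qq F ^ (2 * g + 1) := pow_pos hq0 _
  refine (XY1.key F hB0 hF2 g).trans ?_
  have h5 : ∀ d ∈ Finset.Icc 1 g, 9 * (qq F ^ d * XY1.SS F (g - d)) ≤
      18000000 * qq F ^ (2 * g + 1) * (1 / qq F) ^ d +
      (if g - d < g₁ then 9 * C * qq F ^ (2 * g + 1) * (1 / qq F) ^ (g - g₁) else 0) := by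
    intro d hd
    rw [Finset.mem_Icc] at hd
    have hqd : 0 < qq F ^ d := pow_pos hq0 d
    have e0 : ∀ k : ℕ, 2 * g + 1 = k + d + d →
        qq F ^ d * qq F ^ k = qq F ^ (2 * g + 1) * (1 / qq F) ^ d := by
      intro k hk
      have e2 : qq F ^ d * (1 / qq F) ^ d = 1 := by
        rw [← mul_pow, mul_one_div_cancel hq0.ne', one_pow]
      rw [hk, pow_add, pow_add, mul_assoc (qq F ^ k * qq F ^ d), e2, mul_one, mul_comm]
    have e : qq F ^ d * qq F ^ (2 * (g - d) + 1) = qq F ^ (2 * g + 1) * (1 / qq F) ^ d :=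
      e0 _ (by omega)
    have hpos : 0 < qq F ^ (2 * g + 1) * (1 / qq F) ^ d := by positivity
    split_ifs with hc
    · have h6 := mul_le_mul_of_nonneg_left (h2 (g - d)) hqd.le
      have h7 : (1 / qq F) ^ d ≤ (1 / qq F) ^ (g - g₁) :=
        pow_le_pow_of_le_one hr0 hr1.le (by omega)
      have h8 : qq F ^ (2 * g + 1) * (1 / qq F) ^ d ≤
          qq F ^ (2 * g + 1) * (1 / qq F) ^ (g - g₁) := mul_le_mul_of_nonneg_left h7 hQ.le
      have h9 : qq F ^ d * (C * qq F ^ (2 * (g - d) + 1)) =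
          C * (qq F ^ (2 * g + 1) * (1 / qq F) ^ d) := by
        rw [← e]
        ring
      have h10 := mul_le_mul_of_nonneg_left h8 hC.le
      rw [h9] at h6
      linarith
    · have h6 := mul_le_mul_of_nonneg_left (h1 (g - d) (by omega)) hqd.le
      have h9 : qq F ^ d * (2000000 * qq F ^ (2 * (g - d) + 1)) =
          2000000 * (qq F ^ (2 * g + 1) * (1 / qq F) ^ d) := by
        rw [← e]
        ring
      rw [h9] at h6
      linarith
  refine (Finset.sum_le_sum h5).trans ?_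
  rw [Finset.sum_add_distrib, ← Finset.mul_sum]
  have h11 := XY1.geo hq g
  have h12 : 18000000 * qq F ^ (2 * g + 1) * ∑ d ∈ Finset.Icc 1 g, (1 / qq F) ^ d ≤
      18000000 * qq F ^ (2 * g + 1) * (3 / (2 * qq F)) :=
    mul_le_mul_of_nonneg_left h11 (by positivity)
  have h13 : 18000000 * qq F ^ (2 * g + 1) * (3 / (2 * qq F)) ≤
      30000000 / qq F * qq F ^ (2 * g + 1) := by
    have e : 18000000 * qq F ^ (2 * g + 1) * (3 / (2 * qq F)) =
        27000000 / qq F * qq F ^ (2 * g + 1) := by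
      field_simp
      ring
    rw [e]
    refine mul_le_mul_of_nonneg_right ?_ hQ.le
    exact div_le_div_of_nonneg_right (by norm_num) hq0.le
  have h14 : ∑ d ∈ Finset.Icc 1 g,
      (if g - d < g₁ then 9 * C * qq F ^ (2 * g + 1) * (1 / qq F) ^ (g - g₁) else 0) ≤
      ε * qq F ^ (2 * g + 1) := by
    rw [← Finset.sum_filter, Finset.sum_const, nsmul_eq_mul]
    have h15 : ((Finset.Icc 1 g).filter (fun d => g - d < g₁)).card ≤ g₁ := by
      have h16 : ((Finset.Icc 1 g).filter (fun d => g - d < g₁)) ⊆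
          (Finset.range g₁).image (fun j => g - j) := by
        intro d hd
        rw [Finset.mem_filter, Finset.mem_Icc] at hd
        rw [Finset.mem_image]
        exact ⟨g - d, Finset.mem_range.2 hd.2, by omega⟩
      exact (Finset.card_le_card h16).trans (Finset.card_image_le.trans_eq (Finset.card_range _))
    have h17 : ((((Finset.Icc 1 g).filter (fun d => g - d < g₁)).card : ℕ) : ℝ) ≤ g₁ := by
      exact_mod_cast h15
    have h18 := hm₀ (g - g₁) (by omega)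
    have h19 : 0 ≤ 9 * C * qq F ^ (2 * g + 1) * (1 / qq F) ^ (g - g₁) := by positivity
    refine (mul_le_mul_of_nonneg_right h17 h19).trans ?_
    have e : (g₁ : ℝ) * (9 * C * qq F ^ (2 * g + 1) * (1 / qq F) ^ (g - g₁)) =
        (9 * C * g₁ * (1 / qq F) ^ (g - g₁)) * qq F ^ (2 * g + 1) := by ring
    rw [e]
    exact mul_le_mul_of_nonneg_right h18.le hQ.le
  rw [add_mul]
  linarith

end PP
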